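import Pool.Agent.MP_536a45_ag_b.Hahn

/-!
Artin-Schreier roots as Hahn series, and normal forms.
-/

noncomputable section

namespace Pool.Agent.MP_536a45_ag_b

open HahnSeries

/-- Square root in `K`. -/
def rt : K ≃+* K := (frobeniusEquiv K 2).symm

lemma rt_sq (x : K) : rt x ^ 2 = x := frobeniusEquiv_symm_pow_p K 2 x

lemma rt_of_sq (x : K) : rt (x ^ 2) = x := (frobeniusEquiv K 2).symm_apply_apply x

lemma fr_rt (j : ℕ) (x : K) : fr j (rt x) = rt (fr j x) := by
  rw [← rt_of_sq (fr j (rt x)), ← map_pow, rt_sq]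

def ex (b : ℕ) : ℕ ↪o ℚ :=
  OrderEmbedding.ofStrictMono (fun n => -(2 * b + 1 : ℚ) / 2 ^ (n + 1)) (by
    refine strictMono_nat_of_lt_succ fun n => ?_
    rw [neg_div, neg_div, neg_lt_neg_iff]
    gcongr <;> norm_num)

lemma ex_apply (b n : ℕ) : ex b n = -(2 * b + 1 : ℚ) / 2 ^ (n + 1) := rfl

def root (b : ℕ) (u : K) : H :=
  embDomain (ex b) ⟨fun n => rt^[n] u, Set.isPWO_of_wellQuasiOrderedLE _⟩

lemma root_coeff (b n : ℕ) (u : K) : (root b u).coeff (ex b n) = rt^[n] u := embDomain_coeff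

lemma root_coeff_zero {b : ℕ} {γ : ℚ} (h : ∀ n, ex b n ≠ γ) (u : K) : (root b u).coeff γ = 0 :=
  embDomain_of_notMem_range fun ⟨n, hn⟩ => h n hn

lemma ex_half (b n : ℕ) : ex b n / 2 = ex b (n + 1) := by
  rw [ex_apply, ex_apply, pow_succ _ (n + 1), div_div]

lemma ex_ne_int (b n : ℕ) (z : ℤ) : ex b n ≠ z := by
  rw [ex_apply]
  intro h
  rw [div_eq_iff (by positivity), pow_succ] at h
  have : -(2 * (b : ℤ) + 1) = z * (2 ^ n * 2) := by exact_mod_cast h
  rw [← mul_assoc] at this
  omega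

lemma root_sq (b : ℕ) (u : K) : root b u ^ 2 + root b u = single (-(2 * b + 1 : ℚ)) (u ^ 2) := by
  ext γ
  rw [coeff_add, coeff_sq]
  by_cases h : ∃ n, ex b n = γ / 2
  · obtain ⟨n, hn⟩ := h
    rw [← hn, root_coeff]
    rcases n with _ | n
    · have : γ = -(2 * b + 1 : ℚ) := by rw [ex_apply] at hn; linarith
      rw [root_coeff_zero (γ := γ) fun n => by
        rw [this]; exact_mod_cast ex_ne_int b n (-(2 * b + 1)), this]
      simp
    · have : γ = ex b n := by rw [← ex_half] at hn; linarith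
      rw [this, root_coeff, Function.iterate_succ_apply', rt_sq, CharTwo.add_self_eq_zero,
        coeff_single_of_ne]
      exact_mod_cast ex_ne_int b n (-(2 * b + 1))
  · push Not at h
    rw [root_coeff_zero h, root_coeff_zero fun n hn => h (n + 1) (by rw [← ex_half, hn]),
      coeff_single_of_ne]
    · simp
    · intro hγ
      exact h 0 (by rw [ex_apply, hγ]; norm_num)

lemma root_nz (b : ℕ) (u : K) : NZ (root b u) := fun z =>
  root_coeff_zero (fun n => ex_ne_int b n z) u

lemma root_ge (b : ℕ) (u : K) : Ge (-(2 * b + 1 : ℚ) / 2) (root b u) := fun γ hγ =>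
  root_coeff_zero (fun n hn => by
    have := (ex b).monotone (Nat.zero_le n)
    rw [hn, ex_apply] at this
    norm_num at this hγ
    linarith) u

lemma root_zero (b : ℕ) : root b 0 = 0 := by
  ext γ
  by_cases h : ∃ n, ex b n = γ
  · obtain ⟨n, rfl⟩ := h
    rw [root_coeff, Function.iterate_fixed (map_zero rt)]; rfl
  · push Not at h
    exact root_coeff_zero h _

lemma root_coeff_half (b c : ℕ) (u : K) :
    (root b u).coeff (-(2 * c + 1 : ℚ) / 2) = if b = c then u else 0 := by
  split_ifs with h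
  · subst h
    simpa [ex_apply] using root_coeff b 0 u
  · refine root_coeff_zero (fun n hn => h ?_) u
    rw [ex_apply, div_eq_div_iff (by positivity) (by norm_num), pow_succ] at hn
    have : (2 * b + 1) = (2 * c + 1) * 2 ^ n := by
      have : (2 * b + 1 : ℚ) = (2 * c + 1) * 2 ^ n := by linarith
      exact_mod_cast this
    rcases n with _ | n
    · omega
    · rw [pow_succ, ← mul_assoc] at this; omega

lemma map_root (j b : ℕ) (u : K) : mapH (fr j) (root b u) = root b (fr j u) := by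
  ext γ
  by_cases h : ∃ n, ex b n = γ
  · obtain ⟨n, rfl⟩ := h
    rw [mapH_coeff, root_coeff, root_coeff]
    exact (Function.Commute.iterate_right (fr_rt j) n) u
  · push Not at h
    rw [mapH_coeff, root_coeff_zero h, root_coeff_zero h, map_zero]

variable {J : ℕ}

/-- The Artin-Schreier root attached to a normal form. -/
def al (r : Fin J → K) : H := ∑ b : Fin J, root b (r b)

/-- The normal form. -/
def fS (r : Fin J → K) : H := ∑ b : Fin J, single (-(2 * (b : ℕ) + 1 : ℚ)) (r b ^ 2)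

lemma al_sq (r : Fin J → K) : al r ^ 2 + al r = fS r := by
  rw [al, CharTwo.sum_sq, ← Finset.sum_add_distrib]
  exact Finset.sum_congr rfl fun b _ => root_sq _ _

lemma fS_mem_ZS (r : Fin J → K) : fS r ∈ ZS :=
  sum_mem fun b _ => by
    have := single_mem_ZS (-(2 * (b : ℕ) + 1)) (r b ^ (2 : ℕ))
    push_cast at this
    exact this

lemma al_nz (r : Fin J → K) : NZ (al r) := NZ.sum fun _ _ => root_nz _ _

lemma al_ge_of {r : Fin J → K} {c : ℕ} (h : ∀ b : Fin J, c < b → r b = 0) :
    Ge (-(2 * c + 1 : ℚ) / 2) (al r) := by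
  refine Ge.sum fun b _ => ?_
  by_cases hb : c < b
  · rw [h b hb, root_zero]; exact ge_zero _
  · refine (root_ge _ _).mono ?_
    have : ((b : ℕ) : ℚ) ≤ c := by exact_mod_cast not_lt.1 hb
    linarith

lemma al_ge (r : Fin J → K) : Ge (-J) (al r) := by
  refine Ge.sum fun b _ => (root_ge _ _).mono ?_
  have : ((b : ℕ) : ℚ) + 1 ≤ J := by exact_mod_cast b.2
  linarith

lemma al_coeff_half (r : Fin J → K) (c : ℕ) :
    (al r).coeff (-(2 * c + 1 : ℚ) / 2) = if h : c < J then r ⟨c, h⟩ else 0 := by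
  rw [al, coeff_sum]
  simp only [root_coeff_half]
  split_ifs with h
  · rw [Finset.sum_eq_single ⟨c, h⟩]
    · simp
    · intro b _ hb
      exact if_neg fun h' => hb (Fin.ext h')
    · simp
  · exact Finset.sum_eq_zero fun b _ => if_neg fun (h' : (b : ℕ) = c) => h (h' ▸ b.2)

lemma al_zero : al (0 : Fin J → K) = 0 := Finset.sum_eq_zero fun _ _ => root_zero _

lemma eq_of_ge_al {r r' : Fin J → K} (h : Ge 0 (al r - al r')) : r = r' := by
  ext b
  have := h (-(2 * (b : ℕ) + 1 : ℚ) / 2) (by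
    have : (0 : ℚ) ≤ (b : ℕ) := Nat.cast_nonneg _
    linarith)
  rw [coeff_sub, al_coeff_half, al_coeff_half] at this
  simpa [sub_eq_zero] using this

lemma map_al (j : ℕ) (r : Fin J → K) : mapH (fr j) (al r) = al (fr j ∘ r) := by
  simp [al, map_root]

lemma fS_add (r r' : Fin J → K) : fS (r + r') = fS r + fS r' := by
  simp [fS, CharTwo.add_sq, Finset.sum_add_distrib]

lemma exists_as_K (c : K) : ∃ u : K, u ^ 2 + u = c := by
  obtain ⟨u, hu⟩ := IsAlgClosed.exists_root
    (Polynomial.X ^ 2 + Polynomial.X - Polynomial.C c : Polynomial K) (by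
      have : (Polynomial.X ^ 2 + Polynomial.X - Polynomial.C c : Polynomial K).degree = 2 := by
        compute_degree!
      rw [this]; norm_num)
  exact ⟨u, by simpa [sub_eq_zero] using hu⟩

def asCoeff (p : PowerSeries K) (n : ℕ) : K :=
  if h : n = 0 then (exists_as_K (PowerSeries.coeff 0 p)).choose else
    PowerSeries.coeff n p + if 2 ∣ n then asCoeff p (n / 2) ^ 2 else 0
decreasing_by omega

lemma exists_as_pos {z : H} (hz : z ∈ ZS) (h : Ge 0 z) : ∃ β ∈ ZS, β ^ 2 + β = z := by
  obtain ⟨p, rfl⟩ := exists_toH hz h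
  refine ⟨toH (PowerSeries.mk (asCoeff p)), toH_mem_ZS _, ?_⟩
  have : ∀ n : ℕ, (toH (PowerSeries.mk (asCoeff p))).coeff ((n : ℚ) / 2) =
      if 2 ∣ n then asCoeff p (n / 2) else 0 := by
    intro n
    split_ifs with hn
    · obtain ⟨m, rfl⟩ := hn
      have : ((2 * m : ℕ) : ℚ) / 2 = m := by push_cast; ring
      rw [this, toH_coeff]; simp
    · by_contra h'
      obtain ⟨m, hm⟩ := toH_coeff_ne h'
      have : (n : ℚ) = (2 * m : ℕ) := by push_cast; linarith
      exact hn ⟨m, by exact_mod_cast this⟩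
  rw [← map_pow, ← map_add]
  congr 1
  ext n
  rw [← toH_coeff, map_add, map_pow, coeff_add, coeff_sq, this, toH_coeff, PowerSeries.coeff_mk]
  by_cases hn : n = 0
  · subst hn
    rw [if_pos (dvd_zero 2), Nat.zero_div, asCoeff, dif_pos rfl]
    exact (exists_as_K (PowerSeries.coeff 0 p)).choose_spec
  · conv_lhs => enter [2]; rw [asCoeff, dif_neg hn]
    split_ifs
    · rw [add_comm, add_assoc, CharTwo.add_self_eq_zero, add_zero]
    · simp

/-- Reduction to the normal form. -/
lemma exists_normal (s : ℕ) (hs : s ≤ 2 * J) {z : H} (hz : z ∈ ZS) (h : Ge (-s) z) :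
    ∃ (r : Fin J → K), ∃ β ∈ ZS, β ^ 2 + β + fS r = z := by
  induction s generalizing z with
  | zero =>
    obtain ⟨β, h1, h2⟩ := exists_as_pos hz (by simpa using h)
    exact ⟨0, β, h1, by simp [h2, fS]⟩
  | succ s ih =>
    set c := z.coeff (-(s + 1 : ℕ))
    have hm : single (-((s + 1 : ℕ) : ℚ)) c ∈ ZS := by
      exact_mod_cast single_mem_ZS (-(s + 1 : ℕ)) c
    have h1 : Ge (-s) (z - single (-((s + 1 : ℕ) : ℚ)) c) := by
      have := ge_succ_of_not_le (a := -(s + 1 : ℕ)) (sub_mem hz hm) (by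
        rintro ⟨γ, h1, h2⟩
        rcases h1.lt_or_eq with h1 | rfl
        · exact h2 ((h.sub (ge_single _ _)) γ (by simpa using h1))
        · exact h2 (by simp [c]))
      simpa using this
    rcases Nat.even_or_odd' (s + 1) with ⟨b, hb | hb⟩
    · have hm' : single (-(b : ℚ)) (rt c) ∈ ZS := by exact_mod_cast single_mem_ZS (-b) (rt c)
      obtain ⟨r, β, hβ, e⟩ := ih (by omega) (add_mem (sub_mem hz hm) hm')
        (h1.add ((ge_single _ _).mono (by
          have : b ≤ s := by omega
          simpa using this)))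
      refine ⟨r, β + single (-(b : ℚ)) (rt c), add_mem hβ hm', ?_⟩
      have e2 : single (-(b : ℚ)) (rt c) ^ 2 = single (-((s + 1 : ℕ) : ℚ)) c := by
        rw [single_pow, rt_sq, hb]; congr 2; push_cast; ring
      rw [CharTwo.add_sq, e2]
      linear_combination e + add_self_alg (single (-(b : ℚ)) (rt c) : H)
    · obtain ⟨r, β, hβ, e⟩ := ih (by omega) (sub_mem hz hm) h1
      refine ⟨r + Pi.single ⟨b, by omega⟩ (rt c), β, hβ, ?_⟩
      have e2 : fS (Pi.single (⟨b, by omega⟩ : Fin J) (rt c)) = single (-((s + 1 : ℕ) : ℚ)) c := by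
        rw [fS, Finset.sum_eq_single ⟨b, by omega⟩]
        · rw [Pi.single_eq_same, rt_sq, hb]; congr 2; push_cast; ring
        · intro b' _ hb'
          rw [Pi.single_eq_of_ne hb']; simp
        · simp
      rw [fS_add, e2]
      linear_combination e

end Pool.Agent.MP_536a45_ag_b
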