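import Pool.Agent.MP_536a45_ag_b.AS

/-!
Polynomial identities in characteristic two, and translation invariant polynomials.
-/

noncomputable section

namespace Pool.Agent.MP_536a45_ag_b

open MvPolynomial

section identities

variable {A : Type} [CommRing A]

def Bq (c : Fin 3 → A) (i : Fin 3) : A := c (i + 1) * c (i + 2) * (c (i + 1) + c (i + 2))
def Aq (c : Fin 3 → A) (i : Fin 3) : A := c (i + 1) ^ 2 + c (i + 1) * c (i + 2) + c (i + 2) ^ 2
def Pq (c : Fin 3 → A) (i : Fin 3) (T : A) : A :=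
  T * (T + c (i + 1)) * (T + c (i + 2)) * (T + c (i + 1) + c (i + 2))
def mu (c : Fin 3 → A) : A :=
  c 0 * c 1 * c 2 * (c 0 + c 1) * (c 0 + c 2) * (c 1 + c 2) * (c 0 + c 1 + c 2)
def Nq (c : Fin 3 → A) (T : A) : A := Pq c 0 T * Pq c 0 (T + c 0)
def Rq (c : Fin 3 → A) (i : Fin 3) (f : Fin 3 → A) : A :=
  ∑ l, (c l ^ 4 * (f l + f l ^ 2) + Aq c i * c l ^ 2 * f l)

variable {A' F : Type} [CommRing A'] [FunLike F A A'] [RingHomClass F A A'] (φ : F)

@[simp] lemma map_Bq (c : Fin 3 → A) (i : Fin 3) : φ (Bq c i) = Bq (fun l => φ (c l)) i := by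
  simp [Bq]
@[simp] lemma map_Pq (c : Fin 3 → A) (i : Fin 3) (T : A) :
    φ (Pq c i T) = Pq (fun l => φ (c l)) i (φ T) := by simp [Pq]
@[simp] lemma map_mu (c : Fin 3 → A) : φ (mu c) = mu (fun l => φ (c l)) := by simp [mu]
@[simp] lemma map_Nq (c : Fin 3 → A) (T : A) : φ (Nq c T) = Nq (fun l => φ (c l)) (φ T) := by
  simp [Nq]

variable [Algebra K A]

lemma Pq_eq (c : Fin 3 → A) (i : Fin 3) (T : A) :
    Pq c i T = T ^ 4 + Aq c i * T ^ 2 + Bq c i * T := by
  have h2 := two_alg A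
  unfold Pq Aq Bq; grind

lemma Pq_add (c : Fin 3 → A) (i : Fin 3) (T T' : A) : Pq c i (T + T') = Pq c i T + Pq c i T' := by
  have h2 := two_alg A
  simp only [Pq_eq]; grind

lemma Pq_sum (c u : Fin 3 → A) (i : Fin 3) : Bq c i * Pq c i (∑ l, u l * c l) =
    mu c * u i + Bq c i * Rq c i (fun l => u l ^ 2 + u l) := by
  have h2 := two_alg A
  fin_cases i <;> simp [Pq, Aq, Bq, mu, Rq, Fin.sum_univ_three] <;> grind

lemma Bq_Nq (c : Fin 3 → A) (i : Fin 3) (T : A) :
    Bq c i ^ 2 * Nq c T = (Bq c i * Pq c i T) ^ 2 + mu c * (Bq c i * Pq c i T) := by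
  have h2 := two_alg A
  fin_cases i <;> simp [Pq, Bq, mu, Nq] <;> grind

lemma mu_sum (c : Fin 3 → A) (T : A) : mu c * T + ∑ i, c i * (Bq c i * Pq c i T) = 0 := by
  have h2 := two_alg A
  simp [Pq, Bq, mu, Fin.sum_univ_three]; grind

lemma Nq_shift (c u : Fin 3 → A) (hu : ∀ l, u l ^ 2 + u l = 0) (T : A) :
    Nq c (T + ∑ l, u l * c l) = Nq c T := by
  have h2 := two_alg A
  have h0 := hu 0
  have h1 := hu 1
  have h3 := hu 2
  have : Pq c 0 (∑ l, u l * c l) = u 0 * Pq c 0 (c 0) := by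
    simp [Pq, Fin.sum_univ_three]; grind
  simp only [Nq, Pq_add, this]
  grind

lemma deriv_Pq (D : Derivation K A A) (c : Fin 3 → A) (hc : ∀ l, D (c l) = 0) (i : Fin 3) (T : A) :
    D (Pq c i T) = Bq c i * D T := by
  have h2 := two_alg A
  simp only [Pq, Bq, Derivation.leibniz, map_add, hc, smul_eq_mul]
  grind

lemma deriv_Nq (D : Derivation K A A) (c : Fin 3 → A) (hc : ∀ l, D (c l) = 0) (T : A) :
    D (Nq c T) = mu c * D T := by
  have h2 := two_alg A
  simp only [Nq, Derivation.leibniz, deriv_Pq D c hc, map_add, hc, smul_eq_mul]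
  simp [Pq, Bq, mu]
  grind

lemma deriv_Bq (D : Derivation K A A) (c : Fin 3 → A) (hc : ∀ l, D (c l) = 0) (i : Fin 3) :
    D (Bq c i) = 0 := by simp [Bq, Derivation.leibniz, hc]

lemma deriv_mu (D : Derivation K A A) (c : Fin 3 → A) (hc : ∀ l, D (c l) = 0) :
    D (mu c) = 0 := by simp [mu, Derivation.leibniz, hc]

end identities

lemma pderiv_aeval {σ τ : Type} [Fintype σ] (s : σ → MvPolynomial τ K) (i : τ)
    (p : MvPolynomial σ K) :
    pderiv i (aeval s p) = ∑ j, aeval s (pderiv j p) * pderiv i (s j) := by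
  classical
  induction p using MvPolynomial.induction_on with
  | C c => simp
  | add p q hp hq => simp only [map_add, hp, hq, add_mul, Finset.sum_add_distrib]
  | mul_X p j hp =>
    simp only [map_mul, aeval_X, Derivation.leibniz, hp, smul_eq_mul, map_add, add_mul,
      Finset.sum_add_distrib, pderiv_X, Finset.mul_sum]
    congr 1
    · rw [Finset.sum_eq_single j]
      · simp
      · intro b _ hb; simp [Pi.single_eq_of_ne hb.symm]
      · simp
    · exact Finset.sum_congr rfl fun _ _ => by ring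

lemma mem_of_shift {P : Type} [CommRing P] [Algebra K P] (s : Set P) (a : P)
    (ha : a ^ 2 + a ∈ Algebra.adjoin K s) (τ : P →ₐ[K] P) (hs : ∀ x ∈ s, τ x = x)
    (hτ : τ a = a + 1) {p : P} (hp : p ∈ Algebra.adjoin K (insert a s)) (h : τ p = p) :
    p ∈ Algebra.adjoin K s := by
  have hfix : ∀ x ∈ Algebra.adjoin K s, τ x = x := fun x hx =>
    (Algebra.adjoin_le (S := AlgHom.equalizer τ (AlgHom.id K P)) hs) hx
  have : ∃ p0 ∈ Algebra.adjoin K s, ∃ p1 ∈ Algebra.adjoin K s, p = p0 + p1 * a := by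
    clear h
    induction hp using Algebra.adjoin_induction with
    | mem x hx =>
      rcases hx with rfl | hx
      · exact ⟨0, zero_mem _, 1, one_mem _, by simp⟩
      · exact ⟨x, Algebra.subset_adjoin hx, 0, zero_mem _, by simp⟩
    | algebraMap c => exact ⟨_, algebraMap_mem _ c, 0, zero_mem _, by simp⟩
    | add x y _ _ hx hy =>
      obtain ⟨x0, h0, x1, h1, rfl⟩ := hx
      obtain ⟨y0, h0', y1, h1', rfl⟩ := hy
      exact ⟨_, add_mem h0 h0', _, add_mem h1 h1', by ring⟩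
    | mul x y _ _ hx hy =>
      obtain ⟨x0, h0, x1, h1, rfl⟩ := hx
      obtain ⟨y0, h0', y1, h1', rfl⟩ := hy
      exact ⟨_, add_mem (mul_mem h0 h0') (mul_mem (mul_mem h1 h1') ha), _,
        sub_mem (add_mem (mul_mem h0 h1') (mul_mem h1 h0')) (mul_mem h1 h1'), by ring⟩
  obtain ⟨p0, h0, p1, h1, rfl⟩ := this
  rw [map_add, map_mul, hfix _ h0, hfix _ h1, hτ] at h
  have : p1 = 0 := by linear_combination h
  simpa [this] using h0

/-- Translation of the `i`-th extra variable. -/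
def shift {σ : Type} (i : Fin 3) : MvPolynomial (σ ⊕ Fin 3) K →ₐ[K] MvPolynomial (σ ⊕ Fin 3) K :=
  aeval (Sum.elim (fun p => X (Sum.inl p)) fun l => X (Sum.inr l) + if l = i then 1 else 0)

lemma exists_of_shift {σ : Type} {p : MvPolynomial (σ ⊕ Fin 3) K} (h : ∀ i, shift i p = p) :
    ∃ F : MvPolynomial (σ ⊕ Fin 3) K,
      p = aeval (Sum.elim (fun q => X (Sum.inl q)) fun l => X (Sum.inr l) ^ 2 + X (Sum.inr l)) F := by
  set w : σ ⊕ Fin 3 → MvPolynomial (σ ⊕ Fin 3) K :=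
    Sum.elim (fun q => X (Sum.inl q)) fun l => X (Sum.inr l) ^ 2 + X (Sum.inr l)
  have hw : ∀ i, ∀ x ∈ Set.range w, shift i x = x := by
    rintro i _ ⟨q | l, rfl⟩
    · simp [w, shift]
    · have h2 := two_alg (MvPolynomial (σ ⊕ Fin 3) K)
      simp only [w, shift, Sum.elim_inr, map_add, map_pow, aeval_X]
      split_ifs <;> grind
  have hx : ∀ i l : Fin 3, l ≠ i → shift (σ := σ) i (X (Sum.inr l)) = X (Sum.inr l) := by
    intro i l h; simp [shift, h]
  have hx' : ∀ i : Fin 3, shift (σ := σ) i (X (Sum.inr i)) = X (Sum.inr i) + 1 := by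
    intro i; simp [shift]
  have hw' : ∀ l, X (Sum.inr l) ^ 2 + X (Sum.inr l) ∈ Set.range w := fun l => ⟨Sum.inr l, rfl⟩
  have : p ∈ Algebra.adjoin K (Set.range w) := by
    refine mem_of_shift _ (X (Sum.inr 0)) (Algebra.subset_adjoin (hw' 0)) (shift 0)
      (hw 0) (hx' 0) ?_ (h 0)
    refine mem_of_shift _ (X (Sum.inr 1)) 
      (Algebra.subset_adjoin (Set.mem_insert_of_mem _ (hw' 1)))
      (shift 1) ?_ (hx' 1) ?_ (h 1)
    · rintro x (rfl | hx')
      · exact hx _ _ (by decide)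
      · exact hw _ _ hx'
    refine mem_of_shift _ (X (Sum.inr 2))
      (Algebra.subset_adjoin (Set.mem_insert_of_mem _ (Set.mem_insert_of_mem _ (hw' 2))))
      (shift 2) ?_ (hx' 2) ?_ (h 2)
    · rintro x (rfl | rfl | hx')
      · exact hx _ _ (by decide)
      · exact hx _ _ (by decide)
      · exact hw _ _ hx'
    refine Algebra.adjoin_mono (s := Set.range X) ?_ (by rw [adjoin_range_X]; trivial)
    rintro _ ⟨q | l, rfl⟩
    · exact Or.inr (Or.inr (Or.inr ⟨Sum.inl q, rfl⟩))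
    · fin_cases l <;> simp
  rw [Algebra.adjoin_range_eq_range_aeval] at this
  obtain ⟨F, hF⟩ := this
  exact ⟨F, hF.symm⟩

end Pool.Agent.MP_536a45_ag_b
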