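import Mathlib

/-!
Points on the supersingular cubic over a finite field of characteristic two.
-/

noncomputable section

namespace Pool.Agent.MP_536a45_ag_b

open Finset

variable {F : Type} [Field F] [Fintype F] [DecidableEq F] [CharP F 2]

def wp (F : Type) [Field F] [CharP F 2] : F →+ F where
  toFun y := y ^ 2 + y
  map_zero' := by simp
  map_add' x y := by rw [CharTwo.add_sq]; ring

def eps (c : F) : ℤ := if c ∈ (wp F).range then 1 else -1

omit [Fintype F] [DecidableEq F] in
lemma wp_eq_iff (x y : F) : y ^ 2 + y = x ^ 2 + x ↔ y = x ∨ y = x + 1 := by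
  have h2 : (2 : F) = 0 := CharTwo.two_eq_zero
  constructor
  · intro h
    have : (y - x) * (y - (x + 1)) = 0 := by grind
    simpa [sub_eq_zero] using this
  · rintro (rfl | rfl) <;> grind

omit [DecidableEq F] in
lemma index_wp : (wp F).range.index = 2 := by
  rw [AddSubgroup.index_range]
  have : ((wp F).ker : Set F) = {0, 1} := by
    ext y; simpa [wp] using wp_eq_iff 0 y
  rw [← SetLike.coe_sort_coe, this, Nat.card_coe_set_eq, Set.ncard_pair zero_ne_one]

lemma eps_add (c d : F) : eps (c + d) = eps c * eps d := by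
  simp only [eps, AddSubgroup.add_mem_iff_of_index_two index_wp]
  by_cases hc : c ∈ (wp F).range <;> by_cases hd : d ∈ (wp F).range <;> simp only [hc, hd] <;> simp

lemma eps_wp (y : F) : eps (y ^ 2 + y) = 1 := if_pos ⟨y, rfl⟩

lemma eps_sq (c : F) : eps (c ^ 2) = eps c := by
  have : c ^ 2 = c ^ 2 + c + c := by rw [add_assoc, CharTwo.add_self_eq_zero, add_zero]
  rw [this, eps_add, eps_wp, one_mul]

lemma sum_eps : ∑ c : F, eps c = 0 := by
  obtain ⟨d, hd⟩ : ∃ d, d ∉ (wp F).range := by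
    by_contra! h
    have := index_wp (F := F)
    rw [(AddSubgroup.eq_top_iff' _).2 h, AddSubgroup.index_top] at this
    omega
  have h1 : eps d = -1 := if_neg hd
  have := Equiv.sum_comp (Equiv.addRight d) eps
  simp only [Equiv.coe_addRight, eps_add, h1, ← sum_mul] at this
  omega

lemma card_fib (c : F) : ∑ y : F, (if y ^ 2 + y = c then 1 else 0 : ℤ) = 1 + eps c := by
  by_cases h : c ∈ (wp F).range
  · obtain ⟨x, rfl⟩ := h
    change ∑ y : F, (if y ^ 2 + y = x ^ 2 + x then 1 else 0 : ℤ) = 1 + eps (x ^ 2 + x)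
    rw [eps_wp, sum_boole, show filter (fun y : F => y ^ 2 + y = x ^ 2 + x) univ = {x, x + 1} by
      ext y; simp [wp_eq_iff], card_pair (by simp)]
    rfl
  · rw [eps, if_neg h]
    exact sum_eq_zero fun y _ => if_neg fun h' => h ⟨y, h'⟩

lemma sum_eps_sq (c : F) : ∑ x : F, eps (c * x ^ 2) = if c = 0 then (Fintype.card F : ℤ) else 0 := by
  split_ifs with h
  · have := eps_wp (0 : F)
    simp_all
  · rw [← sum_eps (F := F)]
    refine Fintype.sum_bijective _ (Finite.injective_iff_bijective.1 fun x y hxy => ?_) _ _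
      fun _ => rfl
    exact frobenius_inj F 2 (mul_left_cancel₀ h hxy)

lemma sq_sum_eps {ω : F} (hω : ω ^ 2 + ω + 1 = 0) :
    (∑ x : F, eps (x ^ 3)) ^ 2 = 4 * Fintype.card F := by
  have h2 : (2 : F) = 0 := CharTwo.two_eq_zero
  have h1 : ∀ x : F, eps (x ^ 3) * ∑ y : F, eps (y ^ 3) =
      ∑ h : F, eps (h ^ 3) * eps ((h + h ^ 4) * x ^ 2) := fun x => by
    rw [← Equiv.sum_comp (Equiv.addLeft x), mul_sum]
    refine sum_congr rfl fun h _ => ?_
    rw [add_mul, eps_add, show h ^ 4 * x ^ 2 = (h ^ 2 * x) ^ 2 by ring, eps_sq, ← eps_add,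
      ← eps_add, ← eps_add]
    congr 1
    simp only [Equiv.coe_addLeft]
    grind
  rw [sq, sum_mul, sum_congr rfl fun x _ => h1 x, sum_comm]
  simp only [← mul_sum, sum_eps_sq, mul_ite, mul_zero]
  have e0 : eps (0 : F) = 1 := by simpa using eps_wp (0 : F)
  have e1 : eps (1 : F) = 1 := by rw [← eps_wp ω]; congr 1; grind
  rw [← sum_filter, show filter (fun h : F => h + h ^ 4 = 0) univ = {0, 1, ω, ω + 1} by
    ext h
    have : h + h ^ 4 = h * (h - 1) * (h - ω) * (h - (ω + 1)) := by grind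
    simp [this, sub_eq_zero, or_assoc]]
  rw [sum_insert (by simp; grind), sum_insert (by simp; grind), sum_pair (by simp),
    show ω ^ 3 = 1 by grind, show (ω + 1) ^ 3 = 1 by grind]
  simp [e0, e1]
  ring

lemma card_cone (t : F) : (∑ u : Fin 3 → F, if (u 0 + t * u 1) ^ 3 +
      (u 1 + t * u 2) * u 2 * (u 1 + t * u 2 + u 2) = 0 then 1 else 0 : ℤ) =
    Fintype.card F + (Fintype.card F - 1) * (Fintype.card F + ∑ x : F, eps (x ^ 3)) := by
  have h2 : (2 : F) = 0 := CharTwo.two_eq_zero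
  let e : (Fin 3 → F) ≃ F × F × F :=
    { toFun := fun u => (u 2, u 0 + t * u 1, u 1 + t * u 2)
      invFun := fun p => ![p.2.1 - t * (p.2.2 - t * p.1), p.2.2 - t * p.1, p.1]
      left_inv := fun u => by ext i; fin_cases i <;> simp
      right_inv := fun p => by simp }
  refine (Fintype.sum_equiv e _ (fun p => if p.2.1 ^ 3 + p.2.2 * p.1 * (p.2.2 + p.1) = 0 then 1
    else 0) fun _ => rfl).trans ?_
  rw [Fintype.sum_prod_type, ← add_sum_erase _ _ (mem_univ 0)]
  congr 1
  · simp [Fintype.sum_prod_type_right, -sum_boole]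
  rw [sum_congr rfl (g := fun _ => (Fintype.card F : ℤ) + ∑ x : F, eps (x ^ 3)) fun z hz => ?_]
  · simp [Fintype.card_pos]
  have hz0 := ne_of_mem_erase hz
  rw [← Equiv.sum_comp ((Equiv.mulLeft₀ z hz0).prodCongr (Equiv.mulLeft₀ z hz0)),
    Fintype.sum_prod_type]
  have : ∀ x y : F, (z * x) ^ 3 + z * y * z * (z * y + z) = 0 ↔ y ^ 2 + y = x ^ 3 := fun x y => by
    rw [show (z * x) ^ 3 + z * y * z * (z * y + z) = z ^ 3 * (y ^ 2 + y - x ^ 3) by grind]
    simp [hz0, sub_eq_zero]
  simp [this, card_fib, sum_add_distrib, -sum_boole]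

end Pool.Agent.MP_536a45_ag_b
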