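import Pool.Agent.MP_536a45_ag_b.Inv

/-!
The determinantal representation of the supersingular cubic.
-/

noncomputable section

namespace Pool.Agent.MP_536a45_ag_b

open Matrix

def phM (u : Fin 3 → K) : Matrix (Fin 3) (Fin 3) K := ∑ i, u i • Mx i

lemma phM_eq (u : Fin 3 → K) : phM u = !![u 1 + tt * u 2, u 0 + tt * u 1, 0;
    0, u 2, u 0 + tt * u 1; u 0 + tt * u 1, 0, u 1 + tt * u 2 + u 2] := by
  ext a b
  fin_cases a <;> fin_cases b <;> simp [phM, Mx, Fin.sum_univ_three] <;> ring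

lemma det_phM (u : Fin 3 → K) : (phM u).det =
    (u 0 + tt * u 1) ^ 3 + (u 1 + tt * u 2) * u 2 * (u 1 + tt * u 2 + u 2) := by
  rw [phM_eq, det_fin_three]; simp; ring

lemma det_phM_emb {g : G0} (hg : g ≠ 0) : (phM (emb K g)).det ≠ 0 := by
  have h2 := two_K
  have ht := tt_spec
  have : ∀ a : ZMod 2, a = 0 ∨ a = 1 := by decide
  rw [det_phM]
  rcases this (g 0) with h0 | h0 <;> rcases this (g 1) with h1 | h1 <;>
    rcases this (g 2) with h3 | h3
  · exact absurd (funext fun i => by fin_cases i <;> assumption) hg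
  all_goals simp only [emb, h0, h1, h3, map_zero, map_one]; grind

lemma phM_emb_inj {g : G0} (hg : g ≠ 0) {w : Fin 3 → K} (h : phM (emb K g) *ᵥ w = 0) : w = 0 :=
  Matrix.eq_zero_of_mulVec_eq_zero (det_phM_emb hg) h

lemma exists_kappa {u : Fin 3 → K} (hu : u ≠ 0) :
    ∃ κ, ∀ w, phM u *ᵥ w = 0 → w κ = 0 → w = 0 := by
  have key : ∀ w, phM u *ᵥ w = 0 → (u 1 + tt * u 2) * w 0 + (u 0 + tt * u 1) * w 1 = 0 ∧
      u 2 * w 1 + (u 0 + tt * u 1) * w 2 = 0 ∧
      (u 0 + tt * u 1) * w 0 + (u 1 + tt * u 2 + u 2) * w 2 = 0 := by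
    intro w h
    have h0 := congrFun h 0
    have h1 := congrFun h 1
    have h2 := congrFun h 2
    simp [phM_eq, mulVec, dotProduct, Fin.sum_univ_three] at h0 h1 h2
    exact ⟨h0, h1, h2⟩
  have fin : ∀ w : Fin 3 → K, w 0 = 0 → w 1 = 0 → w 2 = 0 → w = 0 := fun w h0 h1 h2 =>
    funext fun i => by fin_cases i <;> assumption
  have hu' : ¬ (u 0 = 0 ∧ u 1 = 0 ∧ u 2 = 0) := fun h => hu (fin u h.1 h.2.1 h.2.2)
  by_cases hx : u 0 + tt * u 1 = 0
  · by_cases hy : u 1 + tt * u 2 = 0
    · exact ⟨0, fun w h hw => by have := key w h; apply fin <;> grind⟩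
    by_cases hz : u 2 = 0
    · exact ⟨1, fun w h hw => by have := key w h; apply fin <;> grind⟩
    · exact ⟨2, fun w h hw => by have := key w h; apply fin <;> grind⟩
  · exact ⟨0, fun w h hw => by have := key w h; apply fin <;> grind⟩

def S15 : Finset K := (Infinite.exists_subset_card_eq K 15).choose

lemma card_S15 : S15.card = 15 := (Infinite.exists_subset_card_eq K 15).choose_spec

lemma exists_good {w : Fin 3 → K} (hw : w ≠ 0) :
    ∃ s ∈ S15, ∀ g : G0, g ≠ 0 → ∑ a : Fin 3, s ^ (a : ℕ) * (phM (emb K g) *ᵥ w) a ≠ 0 := by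
  classical
  let P : G0 → Polynomial K := fun g =>
    ∑ a : Fin 3, Polynomial.monomial a ((phM (emb K g) *ᵥ w) a)
  have hP : ∀ g, g ≠ 0 → P g ≠ 0 := fun g hg h => hw (phM_emb_inj hg (funext fun a => by
    have := congrArg (Polynomial.coeff · a) h
    simpa [P, Polynomial.coeff_monomial, Fin.val_inj] using this))
  have hd : ∀ g, (P g).natDegree ≤ 2 := fun g =>
    Polynomial.natDegree_sum_le_of_forall_le _ _ fun a _ =>
      (Polynomial.natDegree_monomial_le _).trans (by omega)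
  by_contra! h
  refine Finset.prod_ne_zero_iff.2 (fun g (hg : g ∈ Finset.univ.erase (0 : G0)) =>
    hP g (Finset.ne_of_mem_erase hg)) (Polynomial.eq_zero_of_natDegree_lt_card_of_eval_eq_zero' _
      S15 (fun s hs => ?_) ?_)
  · obtain ⟨g, hg, h0⟩ := h s hs
    rw [Polynomial.eval_prod]
    refine Finset.prod_eq_zero (Finset.mem_erase.2 ⟨hg, Finset.mem_univ _⟩) ?_
    simpa [P, Polynomial.eval_finsetSum, mul_comm] using h0
  · refine (Polynomial.natDegree_prod_le _ _).trans_lt
      ((Finset.sum_le_card_nsmul _ _ 2 fun g _ => hd g).trans_lt ?_)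
    rw [card_S15, Finset.card_erase_of_mem (Finset.mem_univ _)]
    simp

def lam (c : Fin 5) (s : K) : I5 → K := fun p => if p.1 = c then s ^ (p.2 : ℕ) else 0

lemma sum_lam {A : Type} [CommRing A] [Algebra K A] (c : Fin 5) (s : K) (F : I5 → A) :
    ∑ p, algebraMap K A (lam c s p) * F p = ∑ a : Fin 3, algebraMap K A (s ^ (a : ℕ)) * F (c, a) := by
  rw [Fintype.sum_prod_type, Finset.sum_eq_single c]
  · simp [lam]
  · intro b _ hb; simp [lam, hb]
  · simp

lemma sum_mxv_K (u : Fin 3 → K) (w : N → K) (p : I5) :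
    ∑ i, u i * mxv i w p = (phM u *ᵥ fun b => w (Sum.inl (p.1, b))) p.2 := by
  simp only [mxv, phM, mulVec, dotProduct, Finset.mul_sum, Matrix.sum_apply, Finset.sum_mul]
  rw [Finset.sum_comm]
  simp [mul_assoc]

/-- The seven nonzero combinations. -/
lemma mu_eq {A : Type} [CommRing A] [Algebra K A] (c : Fin 3 → A) :
    mu c = ∏ g ∈ Finset.univ.erase (0 : G0), ∑ i, emb A g i * c i := by
  have : Finset.univ.erase (0 : G0) = {![1, 0, 0], ![0, 1, 0], ![0, 0, 1], ![1, 1, 0], ![1, 0, 1],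
    ![0, 1, 1], ![1, 1, 1]} := by decide
  rw [this, Finset.prod_insert (by decide), Finset.prod_insert (by decide),
    Finset.prod_insert (by decide), Finset.prod_insert (by decide), Finset.prod_insert (by decide),
    Finset.prod_insert (by decide), Finset.prod_singleton]
  simp [mu, emb, Fin.sum_univ_three]
  ring

end Pool.Agent.MP_536a45_ag_b
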