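import Pool.Agent.MP_536a45_ag_b.Real
import Pool.Agent.MP_536a45_ag_b.Curve
import Pool.Agent.MP_536a45_ag_b.Phi

/-!
General counting lemmas.
-/

noncomputable section

namespace Pool.Agent.MP_536a45_ag_b

open Matrix Filter

variable {ι κ : Type} {j : ℕ}

lemma cnt_fiberwise [Finite ι] {β : Type} [DecidableEq β] (C : Set (ι → K)) (π : (ι → K) → β)
    (t : Finset β) (h : ∀ z ∈ C, fr j ∘ z = z → π z ∈ t) :
    cnt j C = ∑ x ∈ t, cnt j (C ∩ π ⁻¹' {x}) := by
  have hf : (C ∩ fixs j ι).Finite := (finite_fixs j).inter_of_right _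
  rw [cnt, Set.ncard_eq_toFinset_card _ hf, Finset.card_eq_sum_card_fiberwise (f := π) (t := t)
    fun z hz => by
      have := hf.mem_toFinset.1 hz
      exact h z this.1 this.2]
  refine Finset.sum_congr rfl fun x _ => ?_
  rw [cnt, ← Set.ncard_coe_finset]
  congr 1
  ext z
  simp [and_right_comm]

lemma cnt_biUnion [Finite ι] {α : Type} (t : Finset α) (C : α → Set (ι → K))
    (h : (t : Set α).PairwiseDisjoint C) : cnt j (⋃ a ∈ t, C a) = ∑ a ∈ t, cnt j (C a) := by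
  classical
  induction t using Finset.induction_on with
  | empty => simp [cnt]
  | insert a t ha ih =>
    rw [Finset.coe_insert, Set.pairwiseDisjoint_insert_of_notMem (by simpa using ha)] at h
    rw [Finset.set_biUnion_insert, cnt_union, ih h.1, Finset.sum_insert ha]
    simpa using h.2

lemma cnt_mono [Finite ι] {C D : Set (ι → K)} (h : C ⊆ D) : cnt j C ≤ cnt j D :=
  Set.ncard_le_ncard (Set.inter_subset_inter_left _ h) ((finite_fixs j).inter_of_right _)

lemma cnt_union_le (C D : Set (ι → K)) : cnt j (C ∪ D) ≤ cnt j C + cnt j D := by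
  rw [cnt, Set.union_inter_distrib_right]; exact Set.ncard_union_le _ _

lemma cnt_iUnion_le {α : Type} [Fintype α] (C : α → Set (ι → K)) :
    cnt j (⋃ a, C a) ≤ ∑ a, cnt j (C a) := by
  rw [cnt, Set.iUnion_inter]; exact Set.ncard_iUnion_le_of_fintype _

lemma cnt_le_of_proj [Finite κ] (π : κ → ι) {C : Set (ι → K)} {D : Set (κ → K)}
    (h1 : Set.MapsTo (· ∘ π) C D) (h2 : Set.InjOn (· ∘ π) C) : cnt j C ≤ cnt j D :=
  Set.ncard_le_ncard_of_injOn (· ∘ π) (fun _ hz => ⟨h1 hz.1, congrArg (· ∘ π) hz.2⟩)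
    (h2.mono Set.inter_subset_left) ((finite_fixs j).inter_of_right _)

lemma cnt_eq_of_proj (π : κ → ι) {C : Set (ι → K)} {D : Set (κ → K)}
    (h : Set.BijOn (· ∘ π) C D) (hs : ∀ z ∈ C, fr j ∘ (z ∘ π) = z ∘ π → fr j ∘ z ∈ C) :
    cnt j C = cnt j D := by
  refine Set.BijOn.ncard_eq (f := (· ∘ π)) ⟨fun z hz => ⟨h.1 hz.1, congrArg (· ∘ π) hz.2⟩,
    h.2.1.mono Set.inter_subset_left, fun y hy => ?_⟩
  obtain ⟨z, hz, rfl⟩ := h.2.2 hy.1
  exact ⟨z, ⟨hz, h.2.1 (hs z hz hy.2) hz hy.2⟩, rfl⟩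

lemma card_compl_add [Fintype ι] {α : Type} [Fintype α] {ε : α → ι} (hε : Function.Injective ε) :
    Nat.card ↥(Set.range ε)ᶜ = Fintype.card ι - Fintype.card α := by
  classical
  rw [Nat.card_eq_fintype_card, Fintype.card_compl_set, Set.card_range_of_injective hε]

lemma cnt_le_compl [Fintype ι] {α : Type} [Fintype α] {ε : α → ι} (hε : Function.Injective ε)
    {C : Set (ι → K)} (h : ∀ w ∈ C, ∀ w' ∈ C, (∀ i ∉ Set.range ε, w i = w' i) → w = w') :
    cnt j C ≤ qq j ^ (Fintype.card ι - Fintype.card α) := by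
  rw [← card_compl_add hε, ← cnt_univ]
  exact cnt_le_of_proj Subtype.val (Set.mapsTo_univ _ _) fun w hw w' hw' e =>
    h w hw w' hw' fun i hi => congrFun e ⟨i, hi⟩

lemma cnt_eq_compl [Fintype ι] {α : Type} [Fintype α] {ε : α → ι} (hε : Function.Injective ε)
    {C : Set (ι → K)} (h : ∀ w ∈ C, ∀ w' ∈ C, (∀ i ∉ Set.range ε, w i = w' i) → w = w')
    (h' : ∀ c : ι → K, ∃ w ∈ C, ∀ i ∉ Set.range ε, w i = c i) (hs : ∀ z ∈ C, fr j ∘ z ∈ C) :
    cnt j C = qq j ^ (Fintype.card ι - Fintype.card α) := by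
  classical
  rw [← card_compl_add hε, ← cnt_univ]
  refine cnt_eq_of_proj Subtype.val ⟨Set.mapsTo_univ _ _, fun w hw w' hw' e =>
    h w hw w' hw' fun i hi => congrFun e ⟨i, hi⟩, fun c _ => ?_⟩ fun z hz _ => hs z hz
  obtain ⟨w, hw, e⟩ := h' fun i => if h : i ∈ (Set.range ε)ᶜ then c ⟨i, h⟩ else 0
  exact ⟨w, hw, funext fun i => (e i i.2).trans (dif_pos i.2)⟩

lemma cnt_zero [Fintype ι] {α : Type} [Fintype α] {ε : α → ι} (hε : Function.Injective ε) :
    cnt j {w : ι → K | w ∘ ε = 0} = qq j ^ (Fintype.card ι - Fintype.card α) := by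
  classical
  refine cnt_eq_compl hε (fun w hw w' hw' h => funext fun i => ?_) (fun c => ?_) fun z hz => ?_
  · by_cases hi : i ∈ Set.range ε
    · obtain ⟨a, rfl⟩ := hi
      exact (congrFun hw a).trans (congrFun hw' a).symm
    · exact h i hi
  · exact ⟨fun i => if i ∈ Set.range ε then 0 else c i, funext fun a => if_pos ⟨a, rfl⟩,
      fun i hi => if_neg hi⟩
  · ext a
    have := congrFun hz a
    simp_all

lemma cnt_sigma [Finite ι] [Finite κ] (C : Set (ι → K)) (W : (ι → K) → Set (κ → K)) :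
    cnt j {z : ι ⊕ κ → K | z ∘ Sum.inl ∈ C ∧ z ∘ Sum.inr ∈ W (z ∘ Sum.inl)} =
      ∑ r ∈ ((finite_fixs j).inter_of_right C).toFinset, cnt j (W r) := by
  classical
  rw [cnt_fiberwise _ (· ∘ Sum.inl) ((finite_fixs j).inter_of_right C).toFinset fun z hz hz' => by
    simpa using ⟨hz.1, congrArg (· ∘ Sum.inl) hz'⟩]
  refine Finset.sum_congr rfl fun r hr => ?_
  have hr' := (Set.Finite.mem_toFinset _).1 hr
  refine cnt_eq_of_proj Sum.inr ⟨?_, ?_, fun y hy => ⟨Sum.elim r y, ⟨⟨hr'.1, hy⟩, rfl⟩, rfl⟩⟩ ?_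
  · rintro z ⟨h1, rfl⟩; exact h1.2
  · intro z hz z' hz' e
    ext (i | i)
    · exact congrFun (hz.2.trans hz'.2.symm) i
    · exact congrFun e i
  · rintro z ⟨h1, rfl⟩ h2
    have : fr j ∘ z = z := by
      ext (i | i)
      · exact congrFun hr'.2 i
      · exact congrFun h2 i
    rw [this]
    exact ⟨h1, rfl⟩

lemma cnt_sigma_eq [Finite ι] [Finite κ] {C : Set (ι → K)} {W : (ι → K) → Set (κ → K)} {c : ℕ}
    (h : ∀ r ∈ C, fr j ∘ r = r → cnt j (W r) = c) :
    cnt j {z : ι ⊕ κ → K | z ∘ Sum.inl ∈ C ∧ z ∘ Sum.inr ∈ W (z ∘ Sum.inl)} = cnt j C * c := by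
  rw [cnt_sigma, Finset.sum_const_nat (m := c) fun r hr =>
    h r ((Set.Finite.mem_toFinset _).1 hr).1 ((Set.Finite.mem_toFinset _).1 hr).2,
    cnt, Set.ncard_eq_toFinset_card _ ((finite_fixs j).inter_of_right C)]

lemma cnt_sigma_le [Finite ι] [Finite κ] {C : Set (ι → K)} {W : (ι → K) → Set (κ → K)} {c : ℕ}
    (h : ∀ r ∈ C, cnt j (W r) ≤ c) :
    cnt j {z : ι ⊕ κ → K | z ∘ Sum.inl ∈ C ∧ z ∘ Sum.inr ∈ W (z ∘ Sum.inl)} ≤ cnt j C * c := by
  rw [cnt_sigma, cnt, Set.ncard_eq_toFinset_card _ ((finite_fixs j).inter_of_right C)]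
  exact Finset.sum_le_card_nsmul _ _ _ fun r hr => h r ((Set.Finite.mem_toFinset _).1 hr).1

lemma cnt_single {z : ι → K} (h : fr j ∘ z = z) : cnt j {z} = 1 := by
  rw [cnt, Set.inter_eq_left.2 (Set.singleton_subset_iff.2 (show z ∈ fixs j ι from h)),
    Set.ncard_singleton]

lemma cnt_diff_zero [Finite ι] {C : Set (ι → K)} (h : 0 ∈ C) : cnt j (C \ {0}) + 1 = cnt j C := by
  rw [← cnt_single (j := j) (z := (0 : ι → K)) (by ext; simp), ← cnt_union j Set.disjoint_sdiff_left,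
    Set.sdiff_union_of_subset (Set.singleton_subset_iff.2 h)]

/-- The cone over the cubic. -/
def Cone : Set (Fin 3 → K) := {u | (phM u).det = 0}

lemma cnt_cone : ∀ᶠ j in atTop, ∃ a : ℤ, a ^ 2 = 4 * qq j ∧
    (cnt j Cone : ℤ) = qq j + (qq j - 1) * (qq j + a) := by
  classical
  obtain ⟨ω, hω⟩ := exists_as_K 1
  filter_upwards [ev_fix tt, ev_fix ω] with j ht hw
  let F := (fr j).eqLocusField (RingHom.id K)
  have : Finite F := (finite_Fq j).to_subtype
  have := Fintype.ofFinite F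
  have hc : Fintype.card F = qq j := by
    rw [← ncard_Fq, ← Nat.card_eq_fintype_card]; rfl
  have h1 := sq_sum_eps (F := F) (ω := ⟨ω, hw⟩) (Subtype.ext (by
    change ω ^ 2 + ω + 1 = 0
    rw [hω, CharTwo.add_self_eq_zero]))
  have h2 := card_cone (F := F) ⟨tt, ht⟩
  rw [hc] at h1 h2
  refine ⟨_, h1, Eq.trans ?_ h2⟩
  rw [Finset.sum_boole, ← Set.ncard_coe_finset, cnt, Nat.cast_inj]
  symm
  refine Set.BijOn.ncard_eq (f := fun u : Fin 3 → F => fun i => (u i : K))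
    ⟨fun u hu => ⟨?_, funext fun i => (u i).2⟩, fun u _ u' _ h => funext fun i =>
      Subtype.ext (congrFun h i), fun u hu => ⟨fun i => ⟨u i, congrFun hu.2 i⟩, ?_, rfl⟩⟩
  · simp only [Finset.coe_filter, Finset.mem_univ, true_and, Set.mem_ofPred_eq] at hu
    rw [Cone, Set.mem_ofPred_eq, det_phM]
    exact congrArg Subtype.val hu
  · simp only [Finset.coe_filter, Finset.mem_univ, true_and, Set.mem_ofPred_eq]
    exact Subtype.ext ((det_phM u).symm.trans hu.1)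

end Pool.Agent.MP_536a45_ag_b
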