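import Pool.Agent.MP_536a45_ag_b.DimB
import Pool.Agent.MP_536a45_ag_b.Cnt0

/-!
Counting jets through twisted parameters.
-/

noncomputable section

namespace Pool.Agent.MP_536a45_ag_b

open MvPolynomial Matrix Module Filter

attribute [-simp] MvPolynomial.aeval_eq_bind₁

variable {J T j : ℕ}

def actT (u : Fin 3 → K) (η : N × Fin T → K) : N × Fin T → K :=
  fun p => act u (fun q => η (q, p.2)) p.1

lemma actT_actT (u u' : Fin 3 → K) (η : N × Fin T → K) : actT u (actT u' η) = actT (u + u') η := by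
  ext p; exact congrFun (act_act u u' fun q => η (q, p.2)) p.1

lemma actT_self (u : Fin 3 → K) (η : N × Fin T → K) : actT u (actT u η) = η := by
  ext p; exact congrFun (act_self u fun q => η (q, p.2)) p.1

def actL (T : ℕ) (u : Fin 3 → K) : (N × Fin T → K) ≃ₗ[K] (N × Fin T → K) where
  toFun := actT u
  invFun := actT u
  left_inv := actT_self u
  right_inv := actT_self u
  map_add' η η' := by
    ext ⟨p | p, i⟩
    · rfl
    · simp [actT, mxv, mul_add, Finset.sum_add_distrib]; ring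
  map_smul' c η := by
    ext ⟨p | p, i⟩
    · rfl
    · simp [actT, mxv, mul_add, Finset.mul_sum, mul_left_comm]

lemma lf_actT (u : Fin 3 → K) (η : N × Fin T → K) :
    lf (actT u η) = act (fun i => algebraMap K H (u i)) (lf η) := by
  ext1 (p | p)
  · simp [lf_eq, actT]
  · simp only [act_inr, mxv, lf, ← toH.commutes, ← map_mul, ← map_sum, ← map_add]
    congr 1
    ext i
    simp only [coeff_liftP, map_add, map_sum, ← Algebra.smul_def, map_smul]
    split_ifs <;> simp [actT, mxv]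

/-- Twisting the parameters. -/
def tu (u : Fin 3 → K) (z : Pm J T → K) : Pm J T → K := mkz (rz z) (actT u (z ∘ Sum.inr))

lemma tu_tu (u u' : Fin 3 → K) (z : Pm J T → K) : tu u (tu u' z) = tu (u + u') z :=
  congrArg (mkz (rz z)) (actT_actT u u' _)

lemma par_tu (g : G0) (z : Pm J T → K) : par (tu (emb K g) z) = act (emb H g) (par z) := by
  rw [tu, par_mkz, lf_actT, par, tw, tw, act_act, act_act, add_comm]
  rfl

lemma fr_Mx (ht : fr j tt = tt) (i a b : Fin 3) : fr j (Mx i a b) = Mx i a b := by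
  fin_cases i <;> fin_cases a <;> fin_cases b <;> simp [Mx, ht]

lemma fr_tu (ht : fr j tt = tt) (u : Fin 3 → K) (z : Pm J T → K) :
    fr j ∘ tu u z = tu (fr j ∘ u) (fr j ∘ z) := by
  ext (p | p)
  · rfl
  · exact congrFun (map_act' (fr j) (fr_Mx ht) u fun q => z (Sum.inr (q, p.2))) p.1

lemma mapH_alg (c : K) : mapH (fr j) (algebraMap K H c) = algebraMap K H (fr j c) :=
  mapH_single _ _ _

lemma map_actH (ht : fr j tt = tt) (u : Fin 3 → H) (w : N → H) :
    mapH (fr j) ∘ act u w = act (mapH (fr j) ∘ u) (mapH (fr j) ∘ w) :=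
  map_act' _ (fun i a b => by rw [mapH_alg, fr_Mx ht]) u w

lemma par_fr (ht : fr j tt = tt) (z : Pm J T → K) : par (fr j ∘ z) = mapH (fr j) ∘ par z := by
  rw [par, par, tw, tw, map_actH ht]
  congr 1
  · ext1 i; exact (map_al j _).symm
  · ext1 q; simp [lf_eq, mapH_single]

lemma fr_emb (g : G0) (i : Fin 3) : fr j (emb K g i) = emb K g i :=
  RingHom.congr_fun (Subsingleton.elim ((fr j).comp (algebraMap (ZMod 2) K))
    (algebraMap (ZMod 2) K)) (g i)

lemma exists_lang (j : ℕ) (c : K) : ∃ u, fr j u = u + c := by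
  have h1 : (Polynomial.X + Polynomial.C c : Polynomial K).degree <
      (Polynomial.X ^ qq j : Polynomial K).degree := by
    rw [Polynomial.degree_X_add_C, Polynomial.degree_X_pow]
    exact_mod_cast two_le_qq j
  obtain ⟨u, hu⟩ := IsAlgClosed.exists_root (Polynomial.X ^ qq j -
    (Polynomial.X + Polynomial.C c) : Polynomial K) (by
      rw [Polynomial.degree_sub_eq_left_of_degree_lt h1, Polynomial.degree_X_pow]
      have := two_le_qq j
      exact_mod_cast (by omega : qq j ≠ 0))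
  exact ⟨u, by simpa [sub_eq_zero, fr_apply] using hu⟩

def ug (j : ℕ) (g : G0) (i : Fin 3) : K := (exists_lang j (emb K g i)).choose

lemma fr_ug (j : ℕ) (g : G0) : fr j ∘ ug j g = emb K g + ug j g :=
  funext fun i => (exists_lang j (emb K g i)).choose_spec.trans (add_comm _ _)

/-- Nearby points. -/
def Nr (s : ℚ) (v w : N → H) : Prop := ∀ q, Ge s (w q - v q)

lemma Nr.symm {s : ℚ} {v w : N → H} (h : Nr s v w) : Nr s w v := fun q => by
  simpa using (h q).neg

lemma Nr.trans {s : ℚ} {u v w : N → H} (h : Nr s u v) (h' : Nr s v w) : Nr s u w := fun q => by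
  simpa using (h' q).add (h q)

lemma Nr.act {s : ℚ} {v w : N → H} (h : Nr s v w) (g : G0) :
    Nr s (act (emb H g) v) (act (emb H g) w) := fun q => by
  have := ge_act (w := w - v) le_rfl h (ge_emb g) q
  rwa [act_sub, zero_add] at this

lemma Nr.fr (ht : fr j tt = tt) {s : ℚ} {v w : N → H} {g : G0}
    (h : Nr s (Pool.Agent.MP_536a45_ag_b.act (emb H g) v) w) :
    Nr s (Pool.Agent.MP_536a45_ag_b.act (emb H g) (mapH (fr j) ∘ v)) (mapH (fr j) ∘ w) := by
  have e : mapH (Pool.Agent.MP_536a45_ag_b.fr j) ∘ emb H g = emb H g :=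
    funext fun i => (mapH_alg _).trans (congrArg _ (fr_emb g i))
  rw [← e, ← map_actH ht]
  intro q γ hγ
  rw [Function.comp_apply, Function.comp_apply, ← map_sub, mapH_coeff, h q γ hγ, map_zero]

variable {m : ℕ} {f : Fin m → R}

lemma near_of_jet (hf : Algebra.adjoin K (Set.range f) = ⊤) {a n : ℕ} (hn : 21 * a + J ≤ n)
    {z z' : Pm J T → K} (hz : z ∈ Zs J T a) (hz' : z' ∈ Zs J T a)
    (h : jetV f n (par z) = jetV f n (par z')) :
    rz z = rz z' ∧ ∃ g, Nr (n + 1 - 14 * a) (act (emb H g) (par z)) (par z') := by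
  obtain ⟨o, ho, -, -, c, s, -, hg⟩ := hz.exists_good fun _ => lf_mem _ _
  have hg' := hg.mono (o' := a) (by exact_mod_cast ho)
  obtain ⟨g, h1⟩ := exists_near hz.1 hz'.1 (Nat.cast_nonneg a) hg'
    (ge_of_jetV hf (lf_mem _) (lf_mem _) hz.1 hz'.1 h)
  have hn' : (21 * a + J : ℚ) ≤ n := by exact_mod_cast hn
  exact ⟨eq_of_near (lf_mem _) (lf_mem _) (fun _ => lf_ge _ _) (Nat.cast_nonneg a) hg'
    (by linarith) h1, g, h1⟩

lemma sep_of_near {a : ℕ} {z : Pm J T → K} (hz : z ∈ Zs J T a) {s : ℚ} (hs : a < s) {g g' : G0}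
    {w : N → H} (h : Nr s (act (emb H g) (par z)) w) (h' : Nr s (act (emb H g') (par z)) w) :
    g = g' := by
  obtain ⟨o, ho, -, -, c, s, -, hg⟩ := hz.exists_good fun _ => lf_mem _ _
  exact (hg.mono (o' := a) (by exact_mod_cast ho)).sep hs (h'.trans h.symm)

lemma cnt_fibre (hf : Algebra.adjoin K (Set.range f) = ⊤) {a n : ℕ} (hT : T = n + 1 + J)
    (hn : 28 * a + 30 * J ≤ n) (ht : fr j tt = tt)
    (h2 : ∀ z : Pm J T → K, jetV f n (par (fr j ∘ z)) = fr j ∘ jetV f n (par z))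
    (h3 : ∀ z ∈ Zs J T a, fr j ∘ z ∈ Zs J T a) {z0 : Pm J T → K} (hz0 : z0 ∈ Zs J T a)
    (hx : fr j ∘ jetV f n (par z0) = jetV f n (par z0)) :
    ∑ g, cnt j (tu (ug j g) ⁻¹' Zs J T a ∩
      (fun z => jetV f n (par (tu (ug j g) z))) ⁻¹' {jetV f n (par z0)}) =
      8 * qq j ^ (a + 30 * J) := by
  have hn' : (28 * a + 30 * J : ℚ) ≤ n := by exact_mod_cast hn
  have ha : (0 : ℚ) ≤ a := Nat.cast_nonneg a
  have hJ : (0 : ℚ) ≤ J := Nat.cast_nonneg J
  have hs : (a : ℚ) < n + 1 - 14 * a := by linarith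
  obtain ⟨hr, g0, hg0⟩ := near_of_jet hf (n := n) (by omega) hz0 (h3 _ hz0) ((h2 _).trans hx).symm
  have key : ∀ {g} {y : Pm J T → K}, Nr (n + 1 - 14 * a) (act (emb H g) (par z0)) (par y) →
      Nr (n + 1 - 14 * a) (act (emb H (g + g0)) (par z0)) (par (fr j ∘ y)) := fun {g y} h => by
    have := hg0.act g
    rw [act_act, ← emb_add, par_fr ht] at this
    rw [par_fr ht]
    exact this.trans (h.fr ht)
  have hinv : ∀ g (z : Pm J T → K), jetV f n (act (emb H g) (par z)) = jetV f n (par z) :=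
    fun g z => jetV_eq fun h => by rw [inv_eval, sub_self]; exact ge_zero _
  rw [Finset.sum_eq_single g0 (fun g _ hg => ?_) (by simp)]
  swap
  · rw [cnt, Set.ncard_eq_zero ((finite_fixs j).inter_of_right _), Set.eq_empty_iff_forall_notMem]
    rintro z ⟨⟨hz, hz'⟩, hz''⟩
    obtain ⟨-, g', h⟩ := near_of_jet hf (n := n) (by omega) hz0 hz hz'.symm
    have h4 := key h
    have h5 := h.act g
    rw [fr_tu ht, hz'', fr_ug, ← tu_tu, par_tu] at h4
    rw [act_act, ← emb_add] at h5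
    exact hg (by simpa [add_comm g'] using sep_of_near hz0 hs h5 h4)
  set u := ug j g0
  choose M hM hM' using fun g : G0 => exists_M (r := rz z0) (η := actT (emb K g) (z0 ∘ Sum.inr))
    (a := a) (n := n) (s := n + 1 - 14 * a) (by
      have := hz0.act g
      rwa [← par_tu] at this) hT (by omega) (by linarith) (by linarith)
  simp only [← par_mkz] at hM'
  have hM'' : ∀ g η, η - actT (emb K g) (z0 ∘ Sum.inr) ∈ M g ↔ mkz (rz z0) η ∈ Zs J T a ∧
      jetV f n (par (mkz (rz z0) η)) = jetV f n (par z0) ∧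
      Nr (n + 1 - 14 * a) (act (emb H g) (par z0)) (par (mkz (rz z0) η)) := fun g η => by
    rw [hM', ← tu, par_tu]
    refine ⟨fun h => ⟨(hz0.act g).congr (by linarith) h.2, (jetV_eq h.2).trans (hinv _ _), h.1⟩,
      fun h => ⟨h.2.2, fun p => ?_⟩⟩
    rw [inv_eval]
    exact ge_of_jetV hf (lf_mem _) (lf_mem _) hz0.1 h.1.1 h.2.1.symm p
  let A : G0 → Set (N × Fin T → K) := fun g =>
    {η | η - actT u (actT (emb K g) (z0 ∘ Sum.inr)) ∈ (M g).map (actL T u).toLinearMap}
  have hA : ∀ g η, η ∈ A g ↔ actT u η - actT (emb K g) (z0 ∘ Sum.inr) ∈ M g := fun g η => by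
    simp only [A, Set.mem_ofPred_eq, Submodule.mem_map_equiv, map_sub]
    change actT u η - actT u (actT u _) ∈ _ ↔ _
    rw [actT_self]
  have e : tu u ⁻¹' Zs J T a ∩ (fun z => jetV f n (par (tu u z))) ⁻¹' {jetV f n (par z0)} =
      prodSet {z0 ∘ Sum.inl} (⋃ g ∈ Finset.univ, A g) := by
    ext z
    simp only [prodSet, Set.mem_inter_iff, Set.mem_preimage, Set.mem_singleton_iff,
      Set.mem_ofPred_eq, Set.mem_iUnion, hA, hM'', Finset.mem_univ, exists_const]
    constructor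
    · rintro ⟨h4, h5⟩
      obtain ⟨h6, g, h7⟩ := near_of_jet hf (n := n) (by omega) hz0 h4 h5.symm
      refine ⟨funext fun p => (congrFun (congrFun h6 p.1) p.2).symm, g, ?_⟩
      rw [h6]
      exact ⟨h4, h5, h7⟩
    · rintro ⟨h4, g, h5, h6, -⟩
      have : rz z0 = rz z := funext fun l => funext fun b => (congrFun h4 (l, b)).symm
      rw [this] at h5 h6
      exact ⟨h5, h6⟩
  have hr' : fr j ∘ (z0 ∘ Sum.inl) = z0 ∘ Sum.inl :=
    _root_.funext fun p => (congrFun (congrFun hr p.1) p.2).symm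
  rw [e, cnt_prod, cnt_single hr', one_mul,
    cnt_biUnion, Finset.sum_congr rfl (g := fun _ => qq j ^ (a + 30 * J)) fun g _ => ?_]
  · simp
  · rw [← hM g, ← LinearEquiv.finrank_map_eq (actL T u)]
    refine cnt_affine j _ _ fun y hy => (hA _ _).2 ((hM'' _ _).2 ?_)
    obtain ⟨h4, h5, h6⟩ := (hM'' _ _).1 ((hA _ _).1 hy)
    have e1 : mkz (rz z0) (actT u (fr j ∘ y)) =
        tu (emb K g0) (fr j ∘ mkz (rz z0) (actT u y)) := by
      have := fr_tu ht u (mkz (rz z0) y)
      rw [fr_ug] at this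
      change _ = tu _ (fr j ∘ tu u (mkz (rz z0) y))
      rw [this, tu_tu, ← add_assoc, ← emb_add, show g0 + g0 = 0 from funext fun i =>
        CharTwo.add_self_eq_zero _, emb_zero, zero_add]
      exact congrArg (mkz · _) hr
    rw [e1]
    refine ⟨?_, ?_, ?_⟩
    · have := (h3 _ h4).act g0
      rwa [← par_tu] at this
    · rw [par_tu, hinv, h2, h5, hx]
    · have := (key h6).act g0
      rw [par_tu]
      rwa [act_act, ← emb_add, add_comm g, ← add_assoc, show g0 + g0 = 0 from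
        funext fun i => CharTwo.add_self_eq_zero _, zero_add] at this
  · intro g _ g' _ hne
    refine Set.disjoint_left.2 fun y hy hy' => hne ?_
    exact sep_of_near hz0 hs ((hM'' _ _).1 ((hA _ _).1 hy)).2.2 ((hM'' _ _).1 ((hA _ _).1 hy')).2.2

theorem cnt_jets (hf : Algebra.adjoin K (Set.range f) = ⊤) {a n : ℕ} (hT : T = n + 1 + J)
    (hn : 28 * a + 30 * J ≤ n) (hJ : 7 * a ≤ J) : ∀ᶠ j in atTop,
    ∑ g, cnt j (tu (ug j g) ⁻¹' Zs J T a) =
      cnt j (jet f n '' ordSet II a) * (8 * qq j ^ (a + 30 * J)) := by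
  classical
  obtain ⟨Ψ, hΨ⟩ := exists_Psi (J := J) (T := T) f n
  filter_upwards [ev_fix tt, (isCons_Zs (J := J) (T := T) a).ev_stable,
    eventually_all.2 fun i => ev_fix_poly (Ψ i)] with j ht h3 h4
  have h2 : ∀ z : Pm J T → K, jetV f n (par (fr j ∘ z)) = fr j ∘ jetV f n (par z) := fun z => by
    rw [← hΨ, ← hΨ]; exact funext fun i => fr_aeval (h4 i) z
  have hfin : (jet f n '' ordSet II a ∩ fixs j _).Finite := (finite_fixs j).inter_of_right _
  have hj := jets_eq (f := f) hJ hT.ge (show a ≤ n by omega)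
  rw [Finset.sum_congr rfl fun g _ => cnt_fiberwise _ (fun z => jetV f n (par (tu (ug j g) z)))
    hfin.toFinset fun z hz hz' => hfin.mem_toFinset.2 ⟨hj ▸ ⟨_, hz, rfl⟩, ?_⟩, Finset.sum_comm,
    cnt, Set.ncard_eq_toFinset_card _ hfin]
  · refine Finset.sum_const_nat fun x hx => ?_
    obtain ⟨h5, h6⟩ := hfin.mem_toFinset.1 hx
    rw [hj] at h5
    obtain ⟨z0, hz0, rfl⟩ := h5
    exact cnt_fibre hf hT hn ht h2 h3 hz0 h6
  · change fr j ∘ _ = _
    rw [← h2, fr_tu ht, hz', fr_ug, ← tu_tu, par_tu]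
    exact jetV_eq fun h => by rw [inv_eval, sub_self]; exact ge_zero _

end Pool.Agent.MP_536a45_ag_b
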