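import Pool.Agent.MP_536a45_ag_b.CntA

/-!
Counting the parameters.
-/

noncomputable section

namespace Pool.Agent.MP_536a45_ag_b

open MvPolynomial Matrix Module Filter

attribute [-simp] MvPolynomial.aeval_eq_bind₁

variable {J T j : ℕ}

def rc (r : Fin 3 × Fin J → K) (l : Fin 3) (b : Fin J) : K := r (l, b)

def Lv (J i : ℕ) (D : Set (Fin 3 × Fin i → K)) : Set (Fin 3 × Fin J → K) :=
  {r | (∀ b, i ≤ b → ez (rc r) b = 0) ∧ (fun p : Fin 3 × Fin i => ez (rc r) p.2 p.1) ∈ D}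

lemma ez_fr (r : Fin 3 × Fin J → K) (b : ℕ) : ez (rc (fr j ∘ r)) b = fr j ∘ ez (rc r) b := by
  ext l; simp only [ez, rc, Function.comp_apply]; split_ifs <;> simp

lemma cnt_Lv {i : ℕ} (hi : i ≤ J) (D : Set (Fin 3 × Fin i → K)) : cnt j (Lv J i D) = cnt j D := by
  have e : ∀ r : Fin 3 × Fin J → K, (fun p : Fin 3 × Fin i => ez (rc r) p.2 p.1) =
      r ∘ fun p => (p.1, p.2.castLE hi) := fun r => funext fun p => dif_pos (p.2.2.trans_le hi)
  refine cnt_eq_of_proj (fun p => (p.1, p.2.castLE hi)) ⟨fun r hr => by simpa only [e] using hr.2,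
    fun r hr r' hr' h => ?_, fun ρ hρ => ?_⟩ fun r hr h => ⟨fun b hb => ?_, ?_⟩
  · have : rc r = rc r' := by rw [← rr_ez hr.1, ← rr_ez hr'.1, e, e]; exact congrArg _ h
    exact funext fun p => congrFun (congrFun this p.1) p.2
  · have : (fun p : Fin 3 × Fin J => rr J ρ p.1 p.2) ∘ (fun p : Fin 3 × Fin i =>
        (p.1, p.2.castLE hi)) = ρ := funext fun p => dif_pos p.2.2
    refine ⟨fun p => rr J ρ p.1 p.2, ⟨fun b hb => funext fun l => ?_, by rwa [e, this]⟩, this⟩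
    simp only [ez, rc, rr, Pi.zero_apply]
    split_ifs <;> first | rfl | omega
  · rw [ez_fr, hr.1 b hb]; ext; simp
  · rw [e]; exact h.symm ▸ e r ▸ hr.2

def Sg {ι κ : Type} (C : Set (ι → K)) (W : (ι → K) → Set (κ → K)) : Set (ι ⊕ κ → K) :=
  {z | z ∘ Sum.inl ∈ C ∧ z ∘ Sum.inr ∈ W (z ∘ Sum.inl)}

/-- Vanishing of the first coefficients of `x`. -/
def Xz (T o : ℕ) : Set (N × Fin T → K) := {η | ∀ p, ∀ i : Fin T, (i : ℕ) < o → η (Sum.inl p, i) = 0}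

lemma cnt_Xz {o : ℕ} (h : o ≤ T) : cnt j (Xz T o) = qq j ^ (30 * T - 15 * o) := by
  have := cnt_zero (j := j) (epsA_inj h)
  simp only [Fintype.card_prod, Fintype.card_sum, Fintype.card_fin] at this
  convert this using 2
  ext η
  exact ⟨fun h => funext fun x => h _ _ x.2.2, fun h p i hi => congrFun h (p, ⟨i, hi⟩)⟩

def W2 (T : ℕ) (u : Fin 3 → K) : Set (N × Fin T → K) :=
  Xz T 1 ∩ {η | ∀ c, ∀ i : Fin T, (i : ℕ) = 1 → (phM u *ᵥ fun b => η (Sum.inl (c, b), i)) = 0}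

lemma fr_phM (ht : fr j tt = tt) {u : Fin 3 → K} (hu : fr j ∘ u = u) (w : Fin 3 → K) :
    phM u *ᵥ (fr j ∘ w) = fr j ∘ (phM u *ᵥ w) := by
  ext a
  have : ∀ i, fr j (u i) = u i := congrFun hu
  simp [phM, mulVec, dotProduct, Matrix.sum_apply, fr_Mx ht, this]

lemma cnt_W2 (hT : 2 ≤ T) (ht : fr j tt = tt) {u : Fin 3 → K} (hu : u ∈ Cone \ {0})
    (hu' : fr j ∘ u = u) : cnt j (W2 T u) = qq j ^ (30 * T - 25) := by
  obtain ⟨κ, hκ⟩ := exists_kappa hu.2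
  obtain ⟨w, hw, hw'⟩ := exists_mulVec_eq_zero_iff.2 hu.1
  have hw0 : w κ ≠ 0 := fun h => hw (hκ w hw' h)
  let ε : I5 ⊕ (Fin 5 × {b // b ≠ κ}) → N × Fin T := Sum.elim (fun p => (Sum.inl p, ⟨0, by omega⟩))
    fun p => (Sum.inl (p.1, p.2), ⟨1, hT⟩)
  have hε : ∀ q i, (q, i) ∈ Set.range ε ↔
      ∃ p, q = Sum.inl p ∧ ((i : ℕ) = 0 ∨ (i : ℕ) = 1 ∧ p.2 ≠ κ) := by
    intro q i
    constructor
    · rintro ⟨p | p, h⟩ <;> obtain ⟨rfl, rfl⟩ := Prod.ext_iff.1 h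
      · exact ⟨p, rfl, Or.inl rfl⟩
      · exact ⟨_, rfl, Or.inr ⟨rfl, p.2.2⟩⟩
    · rintro ⟨p, rfl, h | h⟩
      · exact ⟨Sum.inl p, Prod.ext rfl (Fin.ext h.symm)⟩
      · exact ⟨Sum.inr (p.1, ⟨p.2, h.2⟩), Prod.ext rfl (Fin.ext h.1.symm)⟩
  have := cnt_eq_compl (j := j) (ε := ε) (C := W2 T u) (by
      rintro (p | p) (p' | p') h <;> simp_all [ε, Prod.ext_iff, Subtype.ext_iff])
    (fun η hη η' hη' h => funext fun ⟨q, i⟩ => by
      by_contra hne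
      obtain ⟨p, rfl, h1 | h1⟩ := (hε _ _).1 (not_not.1 (mt (h _) hne))
      · exact hne ((hη.1 p i (by omega)).trans (hη'.1 p i (by omega)).symm)
      · refine hne (sub_eq_zero.1 (congrFun (hκ ((fun b => η (Sum.inl (p.1, b), i)) -
          fun b => η' (Sum.inl (p.1, b), i)) ?_ (sub_eq_zero.2 (h _ ?_))) p.2))
        · rw [mulVec_sub, hη.2 _ _ h1.1, hη'.2 _ _ h1.1, sub_self]
        · simp [hε, h1.1])
    (fun c => ⟨fun x => Sum.elim (fun p => if (x.2 : ℕ) = 0 then 0 else if (x.2 : ℕ) = 1 then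
        c (Sum.inl (p.1, κ), x.2) / w κ * w p.2 else c x) (fun _ => c x) x.1,
      ⟨fun p i hi => if_pos (Nat.lt_one_iff.1 hi), fun d i hi => by
        have : (fun b => c (Sum.inl (d, κ), i) / w κ * w b) = (c (Sum.inl (d, κ), i) / w κ) • w :=
          rfl
        simp [hi, this, mulVec_smul, hw']⟩, by
      rintro ⟨p | p, i⟩ hi
      · simp only [hε, Sum.inl.injEq, exists_eq_left', not_or, not_and, not_not] at hi
        simp only [Sum.elim_inl, if_neg hi.1]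
        split_ifs with h
        · rw [← hi.2 h, div_mul_cancel₀ _ (hi.2 h ▸ hw0)]
        · rfl
      · rfl⟩)
    fun η hη => ⟨fun p i hi => by simp [hη.1 p i hi], fun d i hi =>
      (fr_phM ht hu' _).trans (by rw [hη.2 d i hi]; ext; simp)⟩
  simpa using this

def D2 : Set (Fin 3 × Fin 2 → K) := {ρ | (fun l => ρ (l, 1)) ∈ Cone \ {0}}

lemma cnt_D2 : cnt j D2 = qq j ^ 3 * cnt j (Cone \ {0}) := by
  rw [cnt_eq_of_proj (C := D2) (Sum.elim (fun l => (l, 0)) fun l => (l, 1))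
    (D := prodSet (Set.univ : Set (Fin 3 → K)) (Cone \ {0})) ⟨fun ρ hρ => ⟨trivial, hρ⟩,
      fun ρ _ ρ' _ h => funext fun ⟨l, b⟩ => by
        fin_cases b
        exacts [congrFun h (Sum.inl l), congrFun h (Sum.inr l)],
      fun y hy => ⟨fun p => ![y (Sum.inl p.1), y (Sum.inr p.1)] p.2, hy.2, by ext (l | l) <;> rfl⟩⟩
    fun ρ hρ h => ?_, cnt_prod, cnt_univ]
  · simp
  · have : (fun l => (fr j ∘ ρ) (l, 1)) = fun l => ρ (l, 1) := funext fun l => congrFun h (Sum.inr l)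
    rwa [D2, Set.mem_ofPred_eq, this]

def L0 (J T : ℕ) : Set (Pm J T → K) := Sg (Lv J 0 Set.univ) fun _ => Set.univ
def L1 (J T : ℕ) : Set (Pm J T → K) := Sg (Lv J 1 (Set.univ \ {0})) fun _ => Xz T 1
def L2 (J T : ℕ) : Set (Pm J T → K) := Sg (Lv J 2 D2) fun r => W2 T (ez (rc r) 1)
def E1 (J T : ℕ) : Set (Pm J T → K) := Sg (Lv J 2 Set.univ) fun _ => Xz T 2
def E2 (J T i : ℕ) : Set (Pm J T → K) :=
  Sg (Lv J (i + 1) Set.univ ∩ {r | ez (rc r) i ≠ 0}) fun r => {η | triL (rc r) T (i + 1) η = 0}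

lemma cnt_Sg_eq {ι κ : Type} [Finite ι] [Finite κ] {C : Set (ι → K)} {W : (ι → K) → Set (κ → K)}
    {c : ℕ} (h : ∀ r ∈ C, fr j ∘ r = r → cnt j (W r) = c) : cnt j (Sg C W) = cnt j C * c :=
  cnt_sigma_eq h

lemma cnt_Sg_le {ι κ : Type} [Finite ι] [Finite κ] {C : Set (ι → K)} {W : (ι → K) → Set (κ → K)}
    {c : ℕ} (h : ∀ r ∈ C, cnt j (W r) ≤ c) : cnt j (Sg C W) ≤ cnt j C * c :=
  cnt_sigma_le h

lemma cnt_L (hJ : 2 ≤ J) (hT : 2 ≤ T) (ht : fr j tt = tt) :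
    cnt j (L0 J T ∪ L1 J T ∪ L2 J T) = qq j ^ (30 * T) +
      cnt j ((Set.univ : Set (Fin 3 × Fin 1 → K)) \ {0}) * qq j ^ (30 * T - 15) +
      qq j ^ 3 * cnt j (Cone \ {0}) * qq j ^ (30 * T - 25) := by
  rw [cnt_union, cnt_union, L0, L1, L2, cnt_Sg_eq fun _ _ _ => cnt_univ j,
    cnt_Sg_eq fun _ _ _ => cnt_Xz (by omega), cnt_Sg_eq fun r hr hr' =>
      cnt_W2 hT ht hr.2 (by rw [← ez_fr, hr']), cnt_Lv (by omega), cnt_Lv (by omega), cnt_Lv hJ,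
    cnt_univ, cnt_D2]
  · simp
  · refine Set.disjoint_left.2 fun z h0 h1 => h1.1.2.2 (funext fun p => ?_)
    exact congrFun (h0.1.1 _ (Nat.zero_le _)) _
  · refine Set.disjoint_left.2 fun z h0 h1 => h1.1.2.2 ?_
    exact h0.elim (fun h => h.1.1 1 (by omega)) fun h => h.1.1 1 le_rfl

lemma cnt_E1 (hJ : 2 ≤ J) (hT : 2 ≤ T) : cnt j (E1 J T) ≤ qq j ^ (30 * T - 21) := by
  rw [E1, cnt_Sg_eq fun _ _ _ => cnt_Xz hT, cnt_Lv hJ, cnt_univ, ← pow_add]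
  exact Nat.pow_le_pow_right (by have := two_le_qq j; omega) (by simp; omega)

lemma cnt_E2 {i : ℕ} (h2 : 2 ≤ i) (hJ : i < J) (hT : J ≤ T) :
    cnt j (E2 J T i) ≤ qq j ^ (30 * T - 21) := by
  rw [E2]
  refine (cnt_Sg_le (c := qq j ^ (30 * T - 10 * (i + 1))) fun r hr => ?_).trans ?_
  · obtain ⟨κ, hκ⟩ := exists_kappa hr.2
    have := cnt_le_compl (j := j) (epsB_inj (j := i + 1) (T := T) (by omega) κ)
      (C := {η | triL (rc r) T (i + 1) η = 0}) fun w hw w' hw' h => sub_eq_zero.1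
        (tri_proj _ hr.1.1 hκ (by rw [map_sub, hw, hw', sub_self]) fun x hx => sub_eq_zero.2 (h x hx))
    rw [card_B] at this
    simpa using this
  · refine (Nat.mul_le_mul_right _ (cnt_mono Set.inter_subset_left)).trans ?_
    rw [cnt_Lv (by omega), cnt_univ, ← pow_add]
    exact Nat.pow_le_pow_right (by have := two_le_qq j; omega) (by simp; omega)

end Pool.Agent.MP_536a45_ag_b
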