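import Pool.Agent.MP_536a45_ag_b.CntB

/-!
The point count of the stringy motive.
-/

noncomputable section

namespace Pool.Agent.MP_536a45_ag_b

open MvPolynomial Matrix Module Filter

attribute [-simp] MvPolynomial.aeval_eq_bind₁

variable {J T j : ℕ}

lemma eq_zero_of_ez {r : Fin 3 → Fin J → K} (h : ∀ b, ez r b = 0) : r = 0 := by
  ext l b; exact (dif_pos b.2).symm.trans (congrFun (h b) l)

lemma ge_lf_of_Xz {η : N × Fin T → K} {o : ℕ} (h : η ∈ Xz T o) (p : I5) :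
    Ge o (lf η (Sum.inl p)) := ge_of_coeff (lf_mem _ _) (lf_ge _ _) fun i hi => by
  rw [lf_coeff]; split_ifs with h'; exacts [h p ⟨i, h'⟩ hi, rfl]

lemma Xz_of_int {r : Fin 3 → Fin J → K} {η : N × Fin T → K} (h : ∀ q, Ge 0 (tw r (lf η) q))
    {b : ℕ} (hr : ez r b ≠ 0) : η ∈ Xz T 1 := by
  intro p i hi
  by_contra h0
  obtain ⟨c, s, -, hg⟩ := exists_lam (v := lf η) (o := (i : ℕ)) (p := p)
    (by rw [lf_coeff, dif_pos i.2]; exact h0)
  rw [show (i : ℕ) = 0 by omega, Nat.cast_zero] at hg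
  have := eq_of_ge_sum (r := 0) (r' := r) (fun _ => lf_mem _ _) (fun _ => lf_ge _ _) le_rfl hg
    fun p => by simpa [al_zero] using (tw_split (lf_mem η) h).2 p
  subst this
  exact hr (funext fun l => by simp [ez])

lemma sub_of_int {z : Pm J T → K} (h : ∀ q, Ge 0 (par z q)) : z ∈ L0 J T ∪ L1 J T ∪ L2 J T ∪
    (E1 J T ∪ ⋃ i : {i : Fin J // 2 ≤ (i : ℕ)}, E2 J T i.1) := by
  by_cases h2 : ∃ b, 2 ≤ b ∧ ez (rz z) b ≠ 0
  · obtain ⟨i, hi, h3, h4, h5⟩ := exists_level h2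
    exact Or.inr (Or.inr (Set.mem_iUnion.2 ⟨⟨⟨i, hi⟩, h3⟩, ⟨⟨h5, trivial⟩, h4⟩,
      funext fun x => tri_eq_zero h _ _⟩))
  push Not at h2
  by_cases h1 : ez (rz z) 1 = 0
  · have h3 : ∀ b, 1 ≤ b → ez (rz z) b = 0 := fun b hb => by
      rcases hb.eq_or_lt with rfl | hb
      exacts [h1, h2 b hb]
    by_cases h0 : ez (rz z) 0 = 0
    · refine Or.inl (Or.inl (Or.inl ⟨⟨fun b _ => ?_, trivial⟩, trivial⟩))
      rcases b with _ | b
      exacts [h0, h3 _ (by omega)]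
    · exact Or.inl (Or.inl (Or.inr ⟨⟨h3, trivial, fun h => h0 (funext fun l =>
        congrFun h (l, 0))⟩, Xz_of_int h h0⟩))
  have hx := Xz_of_int h h1
  have h4 : ∀ c, ∀ i : Fin T, (i : ℕ) = 1 →
      (phM (ez (rz z) 1) *ᵥ fun b => z (Sum.inr (Sum.inl (c, b), i))) = 0 := fun c i hi => by
    ext a
    have := tri_eq_zero h 0 (c, a)
    rw [tri, Finset.sum_eq_single i, hi] at this
    · exact this
    · intro i' _ hi'
      have : (i' : ℕ) ≠ 1 := fun h => hi' (Fin.ext (h.trans hi.symm))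
      by_cases h5 : (i' : ℕ) = 0
      · rw [show (fun b => (z ∘ Sum.inr) (Sum.inl (c, b), i')) = 0 from
          funext fun b => hx _ _ (by omega)]
        simp
      · rw [h2 _ (by omega), phM_zero]; simp
    · simp
  by_cases hd : (phM (ez (rz z) 1)).det = 0
  · exact Or.inl (Or.inr ⟨⟨h2, hd, h1⟩, hx, h4⟩)
  · refine Or.inr (Or.inl ⟨⟨h2, trivial⟩, fun p i hi => ?_⟩)
    by_cases h5 : (i : ℕ) = 1
    · exact congrFun (eq_zero_of_mulVec_eq_zero hd (h4 p.1 i h5)) p.2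
    · exact hx p i (by omega)

lemma ge_al_sub {r : Fin 3 → Fin J → K} (h : ∀ b, 2 ≤ b → ez r b = 0) (l : Fin 3) :
    Ge (-1) (al (r l) - HahnSeries.single (-3 / 2) (ez r 1 l)) := by
  intro γ hγ
  rw [HahnSeries.coeff_sub, sub_eq_zero, HahnSeries.coeff_single]
  split_ifs with h1
  · have := al_coeff_half (r l) 1
    norm_num at this
    rw [h1, ez, ← this]; norm_num
  · rw [al, HahnSeries.coeff_sum]
    refine Finset.sum_eq_zero fun b _ => ?_
    by_cases hb : 2 ≤ (b : ℕ)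
    · rw [show r l b = 0 from (dif_pos b.2).symm.trans (congrFun (h b hb) l), root_zero]; rfl
    refine root_coeff_zero (fun n hn => ?_) _
    have h2 : ((b : ℕ) : ℚ) = 0 ∨ ((b : ℕ) : ℚ) = 1 := by
      exact_mod_cast (by omega : (b : ℕ) = 0 ∨ (b : ℕ) = 1)
    rcases n with _ | n
    · rw [ex_apply] at hn
      rcases h2 with h2 | h2 <;> rw [h2] at hn
      · linarith
      · exact h1 (by linarith)
    · have := (ex b).monotone (show 1 ≤ n + 1 by omega)
      rw [hn, ex_apply] at this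
      rcases h2 with h2 | h2 <;> rw [h2] at this <;> linarith

lemma int_of_L (hT : 2 ≤ T) {z : Pm J T → K} (h : z ∈ L0 J T ∪ L1 J T ∪ L2 J T) (p : I5) :
    Ge 0 (∑ l, al (rz z l) * mxv l (lf (z ∘ Sum.inr)) p) := by
  rcases h with (h | h) | h
  · rw [show rz z = 0 from eq_zero_of_ez fun b => h.1.1 b (Nat.zero_le _)]
    simpa [al_zero] using ge_zero 0
  · refine Ge.sum fun l _ => ((al_ge_of (c := 0) fun b hb => ?_).mul
      (ge_mxv (ge_lf_of_Xz h.2) l p)).mono (by norm_num)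
    exact (dif_pos b.2).symm.trans (congrFun (h.1.1 b hb) l)
  have h1 := fun l => ge_mxv (ge_lf_of_Xz h.2.1) l p
  have h2 := Ge.sum (t := Finset.univ) fun l _ => (ge_al_sub (r := rz z) h.1.1 l).mul (h1 l)
  have h3 : Ge (2 : ℕ) (∑ l, algebraMap K H (ez (rz z) 1 l) * mxv l (lf (z ∘ Sum.inr)) p) := by
    have h4 := Ge.sum (t := Finset.univ) fun l _ => (ge_alg (ez (rz z) 1 l)).mul_left (h1 l)
    refine ge_of_coeff (sum_mem fun l _ => mul_mem (algebraMap_mem _ _)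
      (mxv_mem ZS (fun _ => lf_mem _ _) _ _)) (h4.mono (by norm_num)) fun i hi => ?_
    by_cases h5 : i = 1
    · subst h5
      refine Eq.trans ?_ (congrFun (h.2.2 p.1 ⟨1, hT⟩ rfl) p.2)
      refine Eq.trans ?_ (sum_mxv_K _ (fun q => z (Sum.inr (q, ⟨1, hT⟩))) p)
      simp only [HahnSeries.coeff_sum, coeff_alg_mul, mxv, lf_coeff, dif_pos (show 1 < T from hT)]
      rfl
    · exact h4 _ (by exact_mod_cast (by omega : i < 1))
  have h5 := ((ge_single (-3 / 2) 1).mul h3).mono (show 0 ≤ _ by norm_num)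
  convert (h2.mono (by norm_num)).add h5 using 1
  simp only [Finset.mul_sum, ← mul_assoc, algebraMap_H, HahnSeries.single_mul_single, add_zero,
    one_mul, sub_mul, Finset.sum_sub_distrib, sub_add_cancel]

lemma exists_ord {z : Pm J T → K} (h : ∀ q, Ge 0 (par z q)) (hx : z ∘ Sum.inr ∉ Xz T 2) :
    ∃ a ≤ 105, z ∈ Zs J T a := by
  simp only [Xz, Set.mem_ofPred_eq, not_forall] at hx
  obtain ⟨p, i, hi, h0⟩ := hx
  obtain ⟨c, s, -, hg⟩ := exists_lam (v := par z) (o := (i : ℕ)) (p := p)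
    (by rw [par, tw, act_inl, lf_coeff, dif_pos i.2]; exact h0)
  have h1 := hg.le_Jac
  obtain ⟨a, ha, g, hg'⟩ := exists_min (x := fun g : N → R => aeval (par z) (Jac g : B))
    (fun g => (tw_mem_ZS _ (lf_mem _) _).1) (fun g => ge_aeval h _)
    fun h0 => h1.ne_zero (congrFun h0 _)
  have : a ≤ 105 * (i : ℕ) := by exact_mod_cast (ha _).le_of_le h1
  exact ⟨a, by omega, h, ha, g, a, le_rfl, hg'⟩

/-- Twisted parameters of bounded order. -/
def Pu (J T A : ℕ) (u : Fin 3 → K) : Set (Pm J T → K) := ⋃ a ∈ Finset.range A, tu u ⁻¹' Zs J T a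

lemma cnt_Pu (A : ℕ) (u : Fin 3 → K) :
    cnt j (Pu J T A u) = ∑ a ∈ Finset.range A, cnt j (tu u ⁻¹' Zs J T a) :=
  cnt_biUnion _ _ fun a _ a' _ hne => Set.disjoint_left.2 fun z h h' => hne (by
    obtain ⟨g, hg⟩ := h.2.2
    obtain ⟨g', hg'⟩ := h'.2.2
    exact_mod_cast ((h.2.1 g').le_of_le hg').antisymm ((h'.2.1 g).le_of_le hg))

lemma cnt_Pu_bound {A : ℕ} (hA : 105 < A) (hJ : 2 ≤ J) (hT : J ≤ T) (u : Fin 3 → K) :
    |(cnt j (Pu J T A u) : ℤ) - cnt j (L0 J T ∪ L1 J T ∪ L2 J T)| ≤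
      (J + 1) * qq j ^ (30 * T - 21) := by
  have h1 : Pu J T A u ⊆ L0 J T ∪ L1 J T ∪ L2 J T ∪
      (E1 J T ∪ ⋃ i : {i : Fin J // 2 ≤ (i : ℕ)}, E2 J T i.1) := fun z hz => by
    obtain ⟨a, -, ha⟩ := Set.mem_iUnion₂.1 hz
    refine sub_of_int ?_
    rintro (p | p)
    · exact lf_ge _ _
    · have := (tw_split (lf_mem _) ha.1).2 p
      rw [tu, show mkz (rz z) (actT u (z ∘ Sum.inr)) ∘ Sum.inr = actT u (z ∘ Sum.inr) from rfl,
        lf_actT] at this
      exact (lf_ge _ _).add this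
  have h2 : L0 J T ∪ L1 J T ∪ L2 J T ⊆ Pu J T A u ∪ E1 J T := fun z hz => by
    by_cases hx : z ∘ Sum.inr ∈ Xz T 2
    · exact Or.inr ⟨⟨fun b hb => hz.elim (fun h => h.elim (fun h => h.1.1 b (by omega))
        fun h => h.1.1 b (by omega)) fun h => h.1.1 b hb, trivial⟩, hx⟩
    obtain ⟨a, ha, h⟩ := exists_ord (z := tu u z) (by
      rintro (p | p)
      · exact lf_ge _ _
      · refine (lf_ge _ _).add ?_
        rw [tu, show mkz (rz z) (actT u (z ∘ Sum.inr)) ∘ Sum.inr = actT u (z ∘ Sum.inr) from rfl,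
          lf_actT]
        exact int_of_L (by omega) hz p) hx
    exact Or.inl (Set.mem_iUnion₂.2 ⟨a, Finset.mem_range.2 (by omega), h⟩)
  have h3 := (cnt_mono (j := j) h2).trans ((cnt_union_le _ _).trans
    (Nat.add_le_add_left (cnt_E1 hJ (by omega)) _))
  have h4 := (cnt_mono (j := j) h1).trans ((cnt_union_le _ _).trans (Nat.add_le_add_left
    ((cnt_union_le _ _).trans (Nat.add_le_add (cnt_E1 hJ (by omega)) ((cnt_iUnion_le _).trans
      ((Finset.sum_le_card_nsmul _ _ _ fun i _ => cnt_E2 i.2 i.1.2 hT).trans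
        (Nat.mul_le_mul_right _ (show _ ≤ J from
          (Fintype.card_subtype_le _).trans (by simp))))))) _))
  zify at h3 h4
  rw [abs_le]
  have : (0 : ℤ) ≤ J * qq j ^ (30 * T - 21) := by positivity
  constructor <;> linarith

variable {m : ℕ} {f : Fin m → R}

theorem count (hf : Algebra.adjoin K (Set.range f) = ⊤) {A n : ℕ} (hA : 105 < A)
    (hn : 300 * A ≤ n) : ∃ C : ℝ, ∀ᶠ j in atTop, ∃ α : ℤ, α ^ 2 = 4 * qq j ∧
      |∑ a ∈ Finset.range A, (cnt j (jet f n '' ordSet II a) : ℝ) * (qq j : ℝ) ^ (a - n * 30 : ℤ) -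
        (qq j ^ 30 + qq j ^ 18 - qq j ^ 15 + qq j ^ 10 + α * qq j ^ 9)| ≤ C * qq j ^ 9 := by
  refine ⟨7 * A + 4, ?_⟩
  filter_upwards [(eventually_all_finset (Finset.range A)).2 fun a ha =>
    cnt_jets (J := 7 * A) (T := n + 1 + 7 * A) (a := a) (n := n) hf rfl
      (by have := Finset.mem_range.1 ha; omega) (by have := Finset.mem_range.1 ha; omega),
    cnt_cone, ev_fix tt] with j h1 ⟨α, hα, h2⟩ ht
  refine ⟨α, hα, ?_⟩
  have h3 := fun g => cnt_Pu_bound (j := j) (J := 7 * A) (T := n + 1 + 7 * A) hA (by omega)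
    (by omega) (ug j g)
  have h4 := cnt_diff_zero (j := j) (C := Cone) (by simp [Cone, phM_zero])
  have h5 := cnt_diff_zero (j := j) (C := (Set.univ : Set (Fin 3 × Fin 1 → K))) trivial
  rw [cnt_L (by omega) (by omega) ht] at h3
  rw [cnt_univ] at h5
  simp only [Nat.card_eq_fintype_card, Fintype.card_prod, Fintype.card_fin] at h5
  have hq : (2 : ℝ) ≤ qq j := by exact_mod_cast two_le_qq j
  have e1 : 30 * (n + 1 + 7 * A) = 30 * (n + 7 * A) + 30 := by ring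
  have e2 : ∀ k ≤ 30, 30 * (n + 1 + 7 * A) - k = 30 * (n + 7 * A) + (30 - k) := fun k hk => by omega
  rw [e2 _ (by omega), e2 _ (by omega), e2 _ (by omega), e1] at h3
  generalize cnt j (Cone \ {0}) = c1 at h3 h4
  generalize cnt j ((Set.univ : Set (Fin 3 × Fin 1 → K)) \ {0}) = c2 at h3 h5
  have h6 : (c1 : ℝ) = qq j + (qq j - 1) * (qq j + α) - 1 := by
    rw [← h4] at h2
    exact_mod_cast eq_sub_of_add_eq h2
  have h7 : (c2 : ℝ) = qq j ^ 3 - 1 := eq_sub_of_add_eq (by exact_mod_cast h5)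
  have h8 : ∑ a ∈ Finset.range A, (cnt j (jet f n '' ordSet II a) : ℝ) *
      (qq j : ℝ) ^ (a - n * 30 : ℤ) = (∑ g, (cnt j (Pu (7 * A) (n + 1 + 7 * A) A (ug j g)) : ℝ)) /
        (8 * qq j ^ (30 * (n + 7 * A))) := by
    simp only [cnt_Pu, Nat.cast_sum]
    rw [Finset.sum_comm, Finset.sum_div]
    refine Finset.sum_congr rfl fun a ha => ?_
    rw [← Nat.cast_sum, h1 a ha, zpow_sub₀ (by linarith), ← Nat.cast_ofNat (R := ℤ), ← Nat.cast_mul,
      zpow_natCast, zpow_natCast]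
    push_cast
    field_simp
    ring
  have h9 : ∀ g, |(cnt j (Pu (7 * A) (n + 1 + 7 * A) A (ug j g)) : ℝ) -
      qq j ^ (30 * (n + 7 * A)) * (qq j ^ 30 + c2 * qq j ^ 15 + qq j ^ 3 * c1 * qq j ^ 5)| ≤
      qq j ^ (30 * (n + 7 * A)) * ((7 * A + 1) * qq j ^ 9) := fun g => by
    have := (Int.cast_le (R := ℝ)).2 (h3 g)
    push_cast at this
    simp only [pow_add] at this
    generalize (qq j : ℝ) ^ (30 * (n + 7 * A)) = Q at this ⊢
    refine le_of_eq_of_le ?_ (this.trans_eq ?_)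
    · congr 1; ring
    · ring
  have h10 : |(α : ℝ)| ≤ 2 * qq j := abs_le_of_sq_le_sq (by
    have : (α : ℝ) ^ 2 = 4 * qq j := by exact_mod_cast hα
    nlinarith) (by linarith)
  rw [h8]
  generalize (qq j : ℝ) = q at *
  have hQ : 0 < q ^ (30 * (n + 7 * A)) := by positivity
  generalize q ^ (30 * (n + 7 * A)) = Q at *
  have h11 := (Finset.abs_sum_le_sum_abs _ _).trans
    (Finset.sum_le_card_nsmul Finset.univ _ _ fun g _ => h9 g)
  rw [Finset.sum_sub_distrib, Finset.sum_const, show (Finset.univ : Finset G0).card = 8 by simp,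
    nsmul_eq_mul, nsmul_eq_mul, Nat.cast_ofNat, abs_le] at h11
  generalize ∑ g, (cnt j (Pu (7 * A) (n + 1 + 7 * A) A (ug j g)) : ℝ) = S at *
  obtain ⟨s, rfl⟩ : ∃ s, S = s * (8 * Q) := ⟨S / (8 * Q), by field_simp⟩
  rw [mul_div_cancel_right₀ _ (by positivity), abs_le]
  rw [abs_le] at h10
  have h12 : 0 < q ^ 8 := by positivity
  have h13 : s - (q ^ 30 + c2 * q ^ 15 + q ^ 3 * c1 * q ^ 5) ≤ (7 * A + 1) * q ^ 9 :=
    le_of_mul_le_mul_left (by linarith [h11.2]) (show 0 < 8 * Q by positivity)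
  have h14 : -((7 * A + 1) * q ^ 9) ≤ s - (q ^ 30 + c2 * q ^ 15 + q ^ 3 * c1 * q ^ 5) :=
    le_of_mul_le_mul_left (by linarith [h11.1]) (show 0 < 8 * Q by positivity)
  rw [h6, h7] at h13 h14
  constructor <;> nlinarith [mul_le_mul_of_nonneg_right h10.1 h12.le,
    mul_le_mul_of_nonneg_right h10.2 h12.le, mul_le_mul_of_nonneg_right hq h12.le]

end Pool.Agent.MP_536a45_ag_b
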