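import Pool.Agent.MP_536a45_ag_b.Defs0

/-!
Boolean calculus of constructible sets, partitions into locally closed sets, Chevalley.
-/

noncomputable section

namespace Pool.Agent.MP_536a45_ag_b

open MvPolynomial

variable {k : Type} [Field k] {ι κ : Type}

/-- A polynomial map. -/
def pmap (Ψ : κ → MvPolynomial ι k) (z : ι → k) : κ → k := fun j => aeval z (Ψ j)

lemma aeval_pmap (Ψ : κ → MvPolynomial ι k) (z : ι → k) (p : MvPolynomial κ k) :
    aeval (pmap Ψ z) p = aeval z (aeval Ψ p) := by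
  have : aeval (pmap Ψ z) = (aeval z).comp (aeval Ψ) := by
    ext j; simp [pmap]
  rw [this]; rfl

def Sat (P : Set (MvPolynomial ι k)) (C : Set (ι → k)) : Prop :=
  ∀ x y, (∀ p ∈ P, aeval x p = 0 ↔ aeval y p = 0) → x ∈ C → y ∈ C

lemma Sat.mono {P Q : Set (MvPolynomial ι k)} {C : Set (ι → k)} (h : Sat P C) (hPQ : P ⊆ Q) :
    Sat Q C := fun x y hxy => h x y fun p hp => hxy p (hPQ hp)

def atom (P : Set (MvPolynomial ι k)) (x : ι → k) : Set (ι → k) :=
  {y | ∀ p ∈ P, aeval x p = 0 ↔ aeval y p = 0}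

lemma mem_atom_self (P : Set (MvPolynomial ι k)) (x : ι → k) : x ∈ atom P x := fun _ _ => Iff.rfl

lemma isLC_of_family {α β : Type} (p : α → MvPolynomial ι k) (q : β → MvPolynomial ι k) :
    IsLC {z : ι → k | (∀ a, aeval z (p a) = 0) ∧ ∃ b, aeval z (q b) ≠ 0} := by
  refine ⟨Ideal.span (Set.range p), Ideal.span (Set.range q), ?_⟩
  ext z
  simp [zeroLocus_span]

lemma isLC_univ : IsLC (Set.univ : Set (ι → k)) := by
  refine ⟨⊥, ⊤, ?_⟩
  simp

lemma isLC_atom {P : Set (MvPolynomial ι k)} (hP : P.Finite) (x : ι → k) : IsLC (atom P x) := by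
  classical
  have := isLC_of_family (fun p : {p ∈ P | aeval x p = 0} => (p : MvPolynomial ι k))
    (fun _ : Unit => ∏ p ∈ hP.toFinset.filter (fun p => aeval x p ≠ 0), p)
  convert this using 1
  ext y
  simp only [atom, Set.mem_ofPred_eq, map_prod, ne_eq, Finset.prod_eq_zero_iff, Finset.mem_filter,
    Set.Finite.mem_toFinset, not_exists, not_and, and_imp, exists_const, Subtype.forall]
  constructor
  · intro h
    exact ⟨fun p hp h0 => (h p hp).1 h0, fun p hp h0 h1 => h0 ((h p hp).2 h1)⟩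
  · rintro ⟨h1, h2⟩ p hp
    exact ⟨h1 p hp, fun h => by_contra fun h0 => h2 p hp h0 h⟩

lemma finite_range_atom {P : Set (MvPolynomial ι k)} (hP : P.Finite) :
    (Set.range (atom P)).Finite := by
  have : Finite P := hP
  let F : (P → Prop) → Set (ι → k) := fun e => {y | ∀ p : P, e p ↔ aeval y p.1 = 0}
  refine (Set.finite_range F).subset ?_
  rintro _ ⟨x, rfl⟩
  refine ⟨fun p => aeval x p.1 = 0, ?_⟩
  ext y; simp [F, atom]

lemma atom_eq_of_mem {P : Set (MvPolynomial ι k)} {x y : ι → k} (h : y ∈ atom P x) :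
    atom P y = atom P x := by
  ext z
  exact ⟨fun hz p hp => (h p hp).trans (hz p hp), fun hz p hp => (h p hp).symm.trans (hz p hp)⟩

lemma Sat.isCons {P : Set (MvPolynomial ι k)} (hP : P.Finite) {C : Set (ι → k)} (h : Sat P C) :
    IsCons C := by
  refine ⟨atom P '' C, (finite_range_atom hP).subset (Set.image_subset_range _ _), ?_, ?_⟩
  · rintro _ ⟨x, -, rfl⟩; exact isLC_atom hP x
  · ext y
    constructor
    · intro hy; exact ⟨_, ⟨y, hy, rfl⟩, mem_atom_self P y⟩
    · rintro ⟨_, ⟨x, hx, rfl⟩, hy⟩; exact h x y hy hx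

variable [Finite ι]

lemma IsLC.exists_sat {C : Set (ι → k)} (h : IsLC C) :
    ∃ P : Set (MvPolynomial ι k), P.Finite ∧ Sat P C := by
  obtain ⟨I, J, rfl⟩ := h
  obtain ⟨s, rfl⟩ := (IsNoetherian.noetherian I : I.FG)
  obtain ⟨t, rfl⟩ := (IsNoetherian.noetherian J : J.FG)
  refine ⟨s ∪ t, (Finset.finite_toSet s).union (Finset.finite_toSet t), ?_⟩
  intro x y hxy hx
  change x ∈ zeroLocus k (Ideal.span _) \ zeroLocus k (Ideal.span _) at hx
  change y ∈ zeroLocus k (Ideal.span _) \ zeroLocus k (Ideal.span _)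
  simp only [zeroLocus_span, Set.mem_sdiff, Set.mem_ofPred_eq] at hx ⊢
  exact ⟨fun p hp => (hxy p (Or.inl hp)).1 (hx.1 p hp),
    fun h => hx.2 fun p hp => (hxy p (Or.inr hp)).2 (h p hp)⟩

lemma IsCons.exists_sat {C : Set (ι → k)} (h : IsCons C) :
    ∃ P : Set (MvPolynomial ι k), P.Finite ∧ Sat P C := by
  obtain ⟨s, hs, h, rfl⟩ := h
  choose! P hP hS using fun D (hD : D ∈ s) => (h D hD).exists_sat
  refine ⟨⋃ D ∈ s, P D, hs.biUnion hP, ?_⟩
  rintro x y hxy ⟨D, hD, hx⟩
  exact ⟨D, hD, hS D hD x y (fun p hp => hxy p (Set.mem_biUnion hD hp)) hx⟩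

omit [Finite ι] in
lemma IsLC.isCons {C : Set (ι → k)} (h : IsLC C) : IsCons C :=
  ⟨{C}, Set.finite_singleton _, by simpa using h, by simp⟩

omit [Finite ι] in
lemma isCons_univ : IsCons (Set.univ : Set (ι → k)) := isLC_univ.isCons

omit [Finite ι] in
lemma isCons_empty : IsCons (∅ : Set (ι → k)) := ⟨∅, Set.finite_empty, by simp, by simp⟩

lemma IsCons.compl {C : Set (ι → k)} (h : IsCons C) : IsCons Cᶜ := by
  obtain ⟨P, hP, hS⟩ := h.exists_sat
  exact Sat.isCons hP fun x y hxy hx hy => hx (hS y x (fun p hp => (hxy p hp).symm) hy)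

lemma IsCons.inter {C D : Set (ι → k)} (hC : IsCons C) (hD : IsCons D) : IsCons (C ∩ D) := by
  obtain ⟨P, hP, hS⟩ := hC.exists_sat
  obtain ⟨Q, hQ, hT⟩ := hD.exists_sat
  exact Sat.isCons (hP.union hQ) fun x y hxy hx =>
    ⟨hS.mono Set.subset_union_left x y hxy hx.1, hT.mono Set.subset_union_right x y hxy hx.2⟩

lemma IsCons.union {C D : Set (ι → k)} (hC : IsCons C) (hD : IsCons D) : IsCons (C ∪ D) := by
  have := (hC.compl.inter hD.compl).compl
  simpa [Set.compl_inter] using this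

lemma IsCons.biUnion {α : Type*} {s : Set α} (hs : s.Finite) {C : α → Set (ι → k)}
    (h : ∀ a ∈ s, IsCons (C a)) : IsCons (⋃ a ∈ s, C a) := by
  induction s, hs using Set.Finite.induction_on with
  | empty => simpa using isCons_empty
  | insert _ _ ih =>
    rw [Set.biUnion_insert]
    exact (h _ (Set.mem_insert _ _)).union (ih fun a ha => h a (Set.mem_insert_of_mem _ ha))

lemma IsCons.sUnion {s : Set (Set (ι → k))} (hs : s.Finite) (h : ∀ a ∈ s, IsCons a) :
    IsCons (⋃₀ s) := by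
  rw [Set.sUnion_eq_biUnion]; exact IsCons.biUnion hs h

omit [Finite ι] in
lemma IsCons.preimage [Finite κ] (Ψ : κ → MvPolynomial ι k) {C : Set (κ → k)} (h : IsCons C) :
    IsCons (pmap Ψ ⁻¹' C) := by
  obtain ⟨P, hP, hS⟩ := h.exists_sat
  refine Sat.isCons (hP.image (aeval Ψ)) fun x y hxy hx => hS _ _ (fun p hp => ?_) hx
  rw [aeval_pmap, aeval_pmap]
  exact hxy _ ⟨p, hp, rfl⟩

omit [Finite ι] in
lemma IsLC.preimage (Ψ : κ → MvPolynomial ι k) {C : Set (κ → k)} (h : IsLC C) :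
    IsLC (pmap Ψ ⁻¹' C) := by
  obtain ⟨I, J, rfl⟩ := h
  have := isLC_of_family (fun p : I => aeval Ψ p.1) (fun p : J => aeval Ψ p.1)
  convert this using 1
  ext z
  simp [aeval_pmap]

omit [Finite ι] in
lemma IsLC.inter {C D : Set (ι → k)} (hC : IsLC C) (hD : IsLC D) : IsLC (C ∩ D) := by
  obtain ⟨I, J, rfl⟩ := hC
  obtain ⟨I', J', rfl⟩ := hD
  have := isLC_of_family (Sum.elim (fun p : I => p.1) (fun p : I' => p.1))
    (fun p : J × J' => p.1.1 * p.2.1)
  convert this using 1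
  ext z
  simp only [Set.mem_inter_iff, Set.mem_sdiff, mem_zeroLocus_iff, not_forall, Set.mem_ofPred_eq,
    Sum.forall, Sum.elim_inl, Subtype.forall, Sum.elim_inr, map_mul, ne_eq, mul_eq_zero, not_or,
    Prod.exists, Subtype.exists, exists_prop, exists_and_left]
  constructor
  · rintro ⟨⟨h1, p, hp, h2⟩, h3, q, hq, h4⟩
    exact ⟨⟨h1, h3⟩, p, hp, h2, q, hq, h4⟩
  · rintro ⟨⟨h1, h3⟩, p, hp, h2, q, hq, h4⟩
    exact ⟨⟨h1, p, hp, h2⟩, h3, q, hq, h4⟩

omit [Finite ι] in
lemma prodSet_eq (C : Set (ι → k)) (D : Set (κ → k)) :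
    prodSet C D = pmap (fun i => X (Sum.inl i)) ⁻¹' C ∩ pmap (fun i => X (Sum.inr i)) ⁻¹' D := by
  have h1 : ∀ z : ι ⊕ κ → k, pmap (fun i => X (Sum.inl i)) z = z ∘ Sum.inl := fun z => by
    ext i; simp [pmap]
  have h2 : ∀ z : ι ⊕ κ → k, pmap (fun i => X (Sum.inr i)) z = z ∘ Sum.inr := fun z => by
    ext i; simp [pmap]
  ext z; simp [prodSet, h1, h2]

omit [Finite ι] in
lemma IsLC.prod {C : Set (ι → k)} {D : Set (κ → k)} (hC : IsLC C) (hD : IsLC D) :
    IsLC (prodSet C D) := by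
  rw [prodSet_eq]; exact (hC.preimage _).inter (hD.preimage _)

lemma IsCons.prod [Finite κ] {C : Set (ι → k)} {D : Set (κ → k)} (hC : IsCons C)
    (hD : IsCons D) : IsCons (prodSet C D) := by
  rw [prodSet_eq]; exact (hC.preimage _).inter (hD.preimage _)

/-- A finite constructible cover is refined by a finite locally closed partition. -/
lemma exists_partition {α : Type} [Finite α] (C : α → Set (ι → k)) (hC : ∀ a, IsCons (C a)) :
    ∃ s : Set (Set (ι → k)), s.Finite ∧ s.PairwiseDisjoint id ∧ ⋃₀ s = ⋃ a, C a ∧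
      ∀ S ∈ s, IsLC S ∧ ∃ a, S ⊆ C a := by
  choose P hP hS using fun a => (hC a).exists_sat
  have hQ : (⋃ a, P a).Finite := Set.finite_iUnion hP
  refine ⟨atom (⋃ a, P a) '' ⋃ a, C a,
    (finite_range_atom hQ).subset (Set.image_subset_range _ _), ?_, ?_, ?_⟩
  · rintro _ ⟨x, -, rfl⟩ _ ⟨y, -, rfl⟩ hne
    refine Set.disjoint_left.2 fun z hz hz' => hne ?_
    exact (atom_eq_of_mem hz).symm.trans (atom_eq_of_mem hz')
  · ext y
    constructor
    · rintro ⟨_, ⟨x, hx, rfl⟩, hy⟩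
      obtain ⟨a, ha⟩ := Set.mem_iUnion.1 hx
      exact Set.mem_iUnion.2 ⟨a, (hS a).mono (Set.subset_iUnion P a) x y hy ha⟩
    · intro hy; exact ⟨_, ⟨y, hy, rfl⟩, mem_atom_self _ y⟩
  · rintro _ ⟨x, hx, rfl⟩
    obtain ⟨a, ha⟩ := Set.mem_iUnion.1 hx
    exact ⟨isLC_atom hQ x, a, fun y hy => (hS a).mono (Set.subset_iUnion P a) x y hy ha⟩

lemma IsLC.image [IsAlgClosed k] [Finite κ] (Ψ : κ → MvPolynomial ι k) {C : Set (ι → k)}
    (h : IsLC C) : IsCons (pmap Ψ '' C) := by
  obtain ⟨I, J, rfl⟩ := h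
  let f : MvPolynomial κ k →ₐ[k] MvPolynomial ι k := aeval Ψ
  have hft : (f : MvPolynomial κ k →+* MvPolynomial ι k).FiniteType := by
    apply RingHom.FiniteType.of_comp_finiteType (f := algebraMap k (MvPolynomial κ k))
    have : (f : MvPolynomial κ k →+* MvPolynomial ι k).comp (algebraMap k _) = algebraMap k _ := by
      ext a; simp
    rw [this]
    exact RingHom.finiteType_algebraMap.2 inferInstance
  have hc : ∀ L : Ideal (MvPolynomial ι k),
      Topology.IsConstructible (PrimeSpectrum.zeroLocus (L : Set (MvPolynomial ι k))) := by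
    intro L
    rw [← Topology.isConstructible_compl]
    exact (PrimeSpectrum.isRetrocompact_zeroLocus_compl_of_fg
      (IsNoetherian.noetherian L)).isConstructible (PrimeSpectrum.isClosed_zeroLocus _).isOpen_compl
  have := PrimeSpectrum.isConstructible_comap_image
    (RingHom.FinitePresentation.of_finiteType.1 hft) ((hc I).sdiff (hc J))
  obtain ⟨T, hT⟩ := PrimeSpectrum.exists_constructibleSetData_iff.2 this
  have key : pmap Ψ '' (zeroLocus k I \ zeroLocus k J) = pointToPoint (k := k) ⁻¹' T.toSet := by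
    rw [hT]
    ext z
    constructor
    · rintro ⟨x, ⟨hx, hx'⟩, rfl⟩
      refine ⟨pointToPoint x, ⟨?_, ?_⟩, ?_⟩
      · intro p hp
        exact (mem_vanishingIdeal_singleton_iff x p).2 (hx p hp)
      · intro h
        exact hx' fun p hp => (mem_vanishingIdeal_singleton_iff x p).1 (h hp)
      · ext p
        simp only [PrimeSpectrum.comap_asIdeal, Ideal.mem_comap, pointToPoint,
          mem_vanishingIdeal_singleton_iff, aeval_pmap]
        rfl
    · rintro ⟨𝔭, ⟨hI, hJ⟩, h𝔭⟩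
      obtain ⟨j, hj, hj'⟩ : ∃ j ∈ J, j ∉ 𝔭.asIdeal := by
        by_contra! h
        exact hJ fun j hj => h j hj
      have hp := 𝔭.isPrime
      rw [← IsPrime.vanishingIdeal_zeroLocus (K := k) 𝔭.asIdeal, mem_vanishingIdeal_iff] at hj'
      push Not at hj'
      obtain ⟨x, hx, hxj⟩ := hj'
      refine ⟨x, ⟨fun p hp => hx p (hI hp), fun h => hxj (h j hj)⟩, ?_⟩
      ext i
      have : X i - C (z i) ∈ (PrimeSpectrum.comap (f : MvPolynomial κ k →+* _) 𝔭).asIdeal := by
        rw [h𝔭]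
        simp [pointToPoint]
      have := hx _ (Ideal.mem_comap.1 this)
      simp only [f, RingHom.coe_coe, map_sub, aeval_X, algHom_C, algebraMap_eq,
        Algebra.algebraMap_self, RingHom.id_apply] at this
      exact sub_eq_zero.1 this
  rw [key, PrimeSpectrum.ConstructibleSetData.toSet, Set.preimage_iUnion₂]
  refine IsCons.biUnion (Finset.finite_toSet (T : Finset _)) fun B _ => ?_
  have := (isLC_of_family B.g (fun _ : Unit => B.f)).isCons
  convert this using 1
  ext z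
  simp [PrimeSpectrum.BasicConstructibleSetData.toSet, pointToPoint, Set.range_subset_iff]

lemma IsCons.image [IsAlgClosed k] [Finite κ] (Ψ : κ → MvPolynomial ι k) {C : Set (ι → k)}
    (h : IsCons C) : IsCons (pmap Ψ '' C) := by
  obtain ⟨s, hs, h, rfl⟩ := h
  rw [Set.sUnion_eq_biUnion, Set.image_iUnion₂]
  exact IsCons.biUnion hs fun D hD => (h D hD).image Ψ

end Pool.Agent.MP_536a45_ag_b
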