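import Mathlib

/-!
Constructible sets, the Grothendieck ring of varieties and its dimension filtration.
-/

noncomputable section

namespace Pool.Agent.MP_536a45_ag_b

open MvPolynomial

variable {k : Type} [Field k]

/-- Zariski locally closed subsets of an affine space. -/
def IsLC {ι : Type} (C : Set (ι → k)) : Prop :=
  ∃ I J : Ideal (MvPolynomial ι k), C = zeroLocus k I \ zeroLocus k J

/-- Constructible subsets: finite unions of locally closed ones. -/
def IsCons {ι : Type} (C : Set (ι → k)) : Prop :=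
  ∃ s : Set (Set (ι → k)), s.Finite ∧ (∀ D ∈ s, IsLC D) ∧ C = ⋃₀ s

/-- Regular maps: locally quotients of polynomials. -/
def IsReg {ι κ : Type} (C : Set (ι → k)) (φ : (ι → k) → κ → k) : Prop :=
  ∀ x ∈ C, ∃ (p : κ → MvPolynomial ι k) (q : MvPolynomial ι k), aeval x q ≠ 0 ∧
    ∀ y ∈ C, aeval y q ≠ 0 → ∀ j, φ y j = aeval y (p j) / aeval y q

/-- `φ` is a bijective morphism between locally closed sets, an isomorphism if `b = false`. -/
def IsIsoB (b : Bool) {ι κ : Type} (C : Set (ι → k)) (D : Set (κ → k))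
    (φ : (ι → k) → κ → k) : Prop :=
  IsLC C ∧ IsLC D ∧ IsReg C φ ∧ Set.BijOn φ C D ∧
    (b = false → ∃ ψ, IsReg D ψ ∧ Set.LeftInvOn ψ φ C)

/-- Cartesian product. -/
def prodSet {ι κ : Type} (C : Set (ι → k)) (D : Set (κ → k)) : Set (ι ⊕ κ → k) :=
  {z | z ∘ Sum.inl ∈ C ∧ z ∘ Sum.inr ∈ D}

/-- Generators: constructible subsets of affine spaces. -/
structure Gen (k : Type) [Field k] : Type 1 where
  ι : Type
  fin : Finite ι
  C : Set (ι → k)
  cons : IsCons C

open Classical in
/-- The symbol of a constructible set. -/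
def gen {ι : Type} [hι : Finite ι] (C : Set (ι → k)) : MvPolynomial (Gen k) ℤ :=
  if h : IsCons C then X ⟨ι, hι, C, h⟩ else 0

/-- Scissor, isomorphism, product and unit relations. -/
inductive Rel (b : Bool) : MvPolynomial (Gen k) ℤ → Prop
  | add {ι : Type} [Finite ι] (C D : Set (ι → k)) : IsCons C → IsCons D → Disjoint C D →
      Rel b (gen (C ∪ D) - gen C - gen D)
  | iso {ι κ : Type} [Finite ι] [Finite κ] (C : Set (ι → k)) (D : Set (κ → k))
      (φ : (ι → k) → κ → k) : IsIsoB b C D φ → Rel b (gen C - gen D)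
  | mul {ι κ : Type} [Finite ι] [Finite κ] (C : Set (ι → k)) (D : Set (κ → k)) :
      IsCons C → IsCons D → Rel b (gen (prodSet C D) - gen C * gen D)
  | one : Rel b (gen (Set.univ : Set (Empty → k)) - 1)

/-- The quotient of a ring by the ideal generated by `S`. -/
def SpanQuot {A : Type 1} [CommRing A] (S : Set A) : Type 1 := A ⧸ Ideal.span S

instance instSpanQuot {A : Type 1} [CommRing A] (S : Set A) : CommRing (SpanQuot S) :=
  Ideal.Quotient.commRing (Ideal.span S)

/-- The class of `x` in the quotient. -/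
def spanMk {A : Type 1} [CommRing A] (S : Set A) (x : A) : SpanQuot S :=
  Ideal.Quotient.mk (Ideal.span S) x

/-- The Grothendieck ring of varieties (`b = true`: modified version). -/
def K0 (k : Type) [Field k] (b : Bool) : Type 1 := SpanQuot {x | Rel (k := k) b x}

instance instK0 (b : Bool) : CommRing (K0 k b) := instSpanQuot {x | Rel (k := k) b x}

/-- The class of a constructible set. -/
def cls (b : Bool) {ι : Type} [Finite ι] (C : Set (ι → k)) : K0 k b :=
  spanMk {x | Rel (k := k) b x} (gen C)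

/-- The ring `A[T, T⁻¹] / (T^ρ - L) = A[L^(1/ρ), L^(-1/ρ)]`. -/
def RootRing {A : Type 1} [CommRing A] (ρ : ℕ) (L : A) : Type 1 :=
  SpanQuot {LaurentPolynomial.T (ρ : ℤ) - LaurentPolynomial.C L}

instance instRootRing {A : Type 1} [CommRing A] (ρ : ℕ) (L : A) : CommRing (RootRing ρ L) :=
  instSpanQuot {LaurentPolynomial.T (ρ : ℤ) - LaurentPolynomial.C L}

/-- The element `c T^i = c L^(i/ρ)`. -/
def rootMk {A : Type 1} [CommRing A] (ρ : ℕ) (L c : A) (i : ℤ) : RootRing ρ L :=
  spanMk {LaurentPolynomial.T (ρ : ℤ) - LaurentPolynomial.C L}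
    (LaurentPolynomial.C c * LaurentPolynomial.T i)

/-- The ring `K0[L^(1/ρ), L^(-1/ρ)]`, where `L` is the class of the affine line. -/
def Mot (k : Type) [Field k] (b : Bool) (ρ : ℕ) : Type 1 :=
  RootRing ρ (cls b (Set.univ : Set (Unit → k)))

instance instMot (b : Bool) (ρ : ℕ) : CommRing (Mot k b ρ) :=
  instRootRing ρ (cls b (Set.univ : Set (Unit → k)))

/-- The element `{C} L^(i/ρ)`. -/
def cl (b : Bool) (ρ : ℕ) {ι : Type} [Finite ι] (C : Set (ι → k)) (i : ℤ) : Mot k b ρ :=
  rootMk ρ (cls b (Set.univ : Set (Unit → k))) (cls b C) i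

/-- The dimension filtration: generated by `{C} L^(i/ρ)` with `dim C + i/ρ ≤ -s/ρ`. -/
def Fil (k : Type) [Field k] (b : Bool) (ρ : ℕ) (s : ℤ) : AddSubgroup (Mot k b ρ) :=
  AddSubgroup.closure {x | ∃ (ι : Type) (_ : Finite ι) (C : Set (ι → k)) (i : ℤ) (D : ℕ),
    IsCons C ∧ ringKrullDim (MvPolynomial ι k ⧸ vanishingIdeal k C) ≤ D ∧
      (ρ : ℤ) * D + i ≤ -s ∧ x = cl b ρ C i}

end Pool.Agent.MP_536a45_ag_b
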