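import Pool.Agent.MP_536a45_ag_b.Ring

/-!
The completed Grothendieck ring, arcs, stable cylinders and the stringy motive.
-/

noncomputable section

namespace Pool.Agent.MP_536a45_ag_b

open MvPolynomial

variable {k : Type} [Field k]

instance (b : Bool) (ρ : ℕ) : TopologicalSpace (Mot k b ρ) :=
  RingSubgroupsBasis.topology (B := Fil k b ρ) (id (fil_basis k b ρ))

instance (b : Bool) (ρ : ℕ) : NonarchimedeanRing (Mot k b ρ) :=
  RingSubgroupsBasis.nonarchimedean (B := Fil k b ρ) (id (fil_basis k b ρ))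

instance (b : Bool) (ρ : ℕ) : UniformSpace (Mot k b ρ) :=
  IsTopologicalAddGroup.rightUniformSpace (Mot k b ρ)

instance (b : Bool) (ρ : ℕ) : IsUniformAddGroup (Mot k b ρ) :=
  isUniformAddGroup_of_addCommGroup

/-- The completed Grothendieck ring. -/
abbrev MotHat (k : Type) [Field k] (b : Bool) (ρ : ℕ) : Type 1 :=
  UniformSpace.Completion (Mot k b ρ)

section arcs

variable {R : Type} [CommRing R] [Algebra k R] {m : ℕ}

/-- Truncation of an arc modulo `t^(n+1)`, in the coordinates given by generators `f`. -/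
def jet (f : Fin m → R) (n : ℕ) (γ : R →ₐ[k] PowerSeries k) : Fin m × Fin (n + 1) → k :=
  fun p => PowerSeries.coeff p.2 (γ (f p.1))

/-- The truncation map between jet spaces. -/
def cut {n : ℕ} (z : Fin m × Fin (n + 2) → k) : Fin m × Fin (n + 1) → k :=
  fun p => z (p.1, p.2.castSucc)

/-- `A` is a cylinder, stable at level `n₀`: from there on the truncation maps are piecewise
trivial fibrations with fibre the affine space with coordinates `δ`. -/
def IsStable (δ : Type) (f : Fin m → R) (A : Set (R →ₐ[k] PowerSeries k)) (n₀ : ℕ) : Prop :=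
  ∀ n ≥ n₀, IsCons (jet f n '' A) ∧ jet f n ⁻¹' (jet f n '' A) = A ∧
    ∃ s : Set (Set (Fin m × Fin (n + 1) → k)), s.Finite ∧ s.PairwiseDisjoint id ∧
      ⋃₀ s = jet f n '' A ∧ ∀ S ∈ s, IsLC S ∧ ∃ φ,
        IsIsoB false (jet f (n + 1) '' A ∩ cut ⁻¹' S) (prodSet S (Set.univ : Set (δ → k))) φ ∧
        ∀ z ∈ jet f (n + 1) '' A ∩ cut ⁻¹' S, φ z ∘ Sum.inl = cut z

/-- Arcs along which the ideal `I` has order `a`. -/
def ordSet (I : Ideal R) (a : ℕ) : Set (R →ₐ[k] PowerSeries k) :=
  {γ | ⨅ h ∈ I, (γ h).order = a}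

/-- `M` is the motivic integral of `L^(ord I)` over the arcs of `Spec R`, of dimension `card δ`. -/
def IsIntegralOrd (δ : Type) (f : Fin m → R) (I : Ideal R) (b : Bool) (ρ : ℕ)
    (M : MotHat k b ρ) : Prop :=
  ∃ n : ℕ → ℕ, (∀ a, IsStable (k := k) δ f (ordSet I a) (n a)) ∧
    HasSum (fun a : ℕ => ((cl b ρ (jet f (n a) '' ordSet I a)
      (ρ * (a - n a * Nat.card δ)) : Mot k b ρ) : MotHat k b ρ)) M

end arcs

/-- `M` is a rational function in `x`: `Q(x) M = P(x)` for integer polynomials `P`, `Q` such that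
`Q(x)` is invertible, or merely `Q ≠ 0`. -/
def IsRatIn {A : Type 1} [CommRing A] (x M : A) : Prop :=
  ∃ P Q : Polynomial ℤ, (IsUnit (Q.eval₂ (Int.castRingHom A) x) ∨ Q ≠ 0) ∧
    Q.eval₂ (Int.castRingHom A) x * M = P.eval₂ (Int.castRingHom A) x

/-- `M` is a rational function in `L^(j/ρ)`. -/
def IsRatFun (b : Bool) (ρ : ℕ) (j : ℤ) (M : MotHat k b ρ) : Prop :=
  IsRatIn ((cl b ρ (Set.univ : Set (Empty → k)) j : Mot k b ρ) : MotHat k b ρ) M

/-- The ring of invariants of a linear group. -/
def InvRing {n : Type} [Fintype n] [DecidableEq n] (G : Subgroup (GL n k)) :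
    Subalgebra k (MvPolynomial n k) :=
  ⨅ g ∈ G, AlgHom.equalizer (aeval (((g : Matrix n n k).map C).mulVec X)) (AlgHom.id k _)

/-- The double dual of `W` is free of rank one, and the image of `W` in it is `I` times it. -/
def IsBidualIdeal {R : Type} (W : Type) [CommRing R] [AddCommGroup W] [Module R W]
    (I : Ideal R) : Prop :=
  Nonempty (Module.Dual R (Module.Dual R W) ≃ₗ[R] R) ∧
    I • (⊤ : Submodule R (Module.Dual R (Module.Dual R W))) =
      LinearMap.range (Module.Dual.eval R W)

/-- The same for the `d`-th exterior power of `V`. -/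
def IsExtIdeal {R : Type} (V : Type) [CommRing R] [AddCommGroup V] [Module R V] (d : ℕ)
    (I : Ideal R) : Prop :=
  IsBidualIdeal (⋀[R]^d V) I

/-- The canonical module (the double dual of the top forms) is free of rank one, and the image of
the top forms in it is `I` times the canonical module. -/
def IsCanIdeal (k : Type) {R : Type} [Field k] [CommRing R] [Algebra k R] (d : ℕ) (I : Ideal R) :
    Prop :=
  IsExtIdeal (KaehlerDifferential k R) d I

/-- For all generators `f` of `R`, both rings and all `ρ > 0` divisible by `N`, the integral of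
`L^(ord I)` over the arcs of `Spec R` exists and is not a rational function in `L^(1/N)`. -/
def FiniteNotRational (k δ : Type) {R : Type} [Field k] [CommRing R] [Algebra k R] (I : Ideal R)
    (N : ℕ) : Prop :=
  ∀ (m : ℕ) (f : Fin m → R), Algebra.adjoin k (Set.range f) = ⊤ →
    ∀ (b : Bool) (ρ : ℕ), 0 < ρ → N ∣ ρ →
      (∃ M : MotHat k b ρ, IsIntegralOrd δ f I b ρ M) ∧
      ∀ M : MotHat k b ρ, IsIntegralOrd δ f I b ρ M → ¬ IsRatFun b ρ ((ρ / N : ℕ) : ℤ) M

/-- `R` is of finite type and `1`-Gorenstein of dimension `card δ`, and its stringy motive is finite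
and is not a rational function in `L^(1/N)`. -/
def StringyNotRational (k δ R : Type) [Field k] [CommRing R] [Algebra k R] (N : ℕ) : Prop :=
  Algebra.FiniteType k R ∧ ∃ I : Ideal R, IsCanIdeal k (Nat.card δ) I ∧ FiniteNotRational k δ I N

/-- `G` is a finite linear group without pseudo-reflections (`g - 1` of rank one) whose quotient has finite stringy
motive that is not a rational function in `L^(1/|G|)`. -/
def IsCounterexample {n : Type} [Fintype n] [DecidableEq n] (G : Subgroup (GL n k)) : Prop :=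
  0 < Fintype.card n ∧ Finite G ∧ (∀ g ∈ G, ((g : Matrix n n k) - 1).rank ≠ 1) ∧
    StringyNotRational k n (InvRing G) (Nat.card G)

end Pool.Agent.MP_536a45_ag_b
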