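import Pool.Agent.MP_536a45_ag_b.Cons

/-!
Dimension of subsets of affine spaces.
-/

noncomputable section

namespace Pool.Agent.MP_536a45_ag_b

open MvPolynomial

variable {k : Type} [Field k] {ι κ : Type}

lemma krull_le_of_integral {R S : Type} [CommRing R] [CommRing S] (g : R →+* S)
    (hg : g.IsIntegral) : ringKrullDim S ≤ ringKrullDim R := by
  algebraize [g]
  refine Order.krullDim_le_of_strictMono (PrimeSpectrum.comap (algebraMap R S)) ?_
  intro p q hpq
  have := p.isPrime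
  exact Ideal.IsIntegral.comap_lt_comap (R := R) (I := p.asIdeal) (J := q.asIdeal) hpq

lemma krull_ge_of_integral {R S : Type} [CommRing R] [CommRing S] (g : R →+* S)
    (hg : g.IsIntegral) (hi : Function.Injective g) : ringKrullDim R ≤ ringKrullDim S := by
  algebraize [g]
  refine iSup_le fun l => ?_
  have := l.head.isPrime
  obtain ⟨Q, -, hQ, hQ'⟩ := Ideal.exists_ideal_over_prime_of_isIntegral (S := S) l.head.asIdeal ⊥
    (by
      rw [← RingHom.ker_eq_comap_bot]
      exact ((RingHom.injective_iff_ker_eq_bot g).1 hi).le.trans bot_le)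
  have : Q.LiesOver l.head.asIdeal := ⟨hQ'.symm⟩
  obtain ⟨L, hL, -⟩ := Ideal.exists_ltSeries_of_hasGoingUp l Q
  rw [← hL]
  exact Order.LTSeries.length_le_krullDim L

abbrev DimLE (C : Set (ι → k)) (D : ℕ) : Prop :=
  ringKrullDim (MvPolynomial ι k ⧸ vanishingIdeal k C) ≤ D

/-- `C` is finite over an affine space with coordinates `σ`. -/
def FinOver (C : Set (ι → k)) (σ : Type) (y : σ → MvPolynomial ι k) : Prop :=
  ∀ i, ∃ P : Polynomial (MvPolynomial σ k), P.Monic ∧
    ∀ z ∈ C, P.eval₂ (aeval (pmap y z) : MvPolynomial σ k →ₐ[k] k) (z i) = 0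

lemma aeval_eval₂ {σ : Type} (y : σ → MvPolynomial ι k) (z : ι → k)
    (P : Polynomial (MvPolynomial σ k)) (x : MvPolynomial ι k) :
    aeval z (P.eval₂ (aeval y : MvPolynomial σ k →ₐ[k] MvPolynomial ι k) x) =
      P.eval₂ (aeval (pmap y z) : MvPolynomial σ k →ₐ[k] k) (aeval z x) := by
  have := Polynomial.hom_eval₂ P
    ((aeval y : MvPolynomial σ k →ₐ[k] MvPolynomial ι k) : MvPolynomial σ k →+* MvPolynomial ι k)
    ((aeval z : MvPolynomial ι k →ₐ[k] k) : MvPolynomial ι k →+* k) x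
  refine this.trans ?_
  congr 1
  ext j <;> simp [pmap]

lemma FinOver.dimLE {C : Set (ι → k)} {σ : Type} [Finite σ] {y : σ → MvPolynomial ι k}
    (h : FinOver C σ y) : DimLE C (Nat.card σ) := by
  let g : MvPolynomial σ k →ₐ[k] MvPolynomial ι k ⧸ vanishingIdeal k C :=
    (Ideal.Quotient.mkₐ k _).comp (aeval y)
  have hg : g.toRingHom.IsIntegral := by
    intro a
    obtain ⟨a, rfl⟩ := Ideal.Quotient.mk_surjective a
    induction a using MvPolynomial.induction_on with
    | C c =>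
      have : Ideal.Quotient.mk (vanishingIdeal k C) (MvPolynomial.C c) =
        g.toRingHom (MvPolynomial.C c) := by simp [g]; rfl
      rw [this]; exact RingHom.isIntegralElem_map _
    | add p q hp hq => rw [map_add]; exact hp.add _ hq
    | mul_X p i hp =>
      rw [map_mul]
      refine hp.mul _ ?_
      obtain ⟨P, hP, hP'⟩ := h i
      refine ⟨P, hP, ?_⟩
      have := Polynomial.hom_eval₂ P
        ((aeval y : MvPolynomial σ k →ₐ[k] MvPolynomial ι k) : MvPolynomial σ k →+* _)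
        (Ideal.Quotient.mk (vanishingIdeal k C)) (X i)
      refine this.symm.trans (Ideal.Quotient.eq_zero_iff_mem.2 fun z hz => ?_)
      rw [aeval_eval₂]
      simpa using hP' z hz
  refine (krull_le_of_integral _ hg).trans ?_
  simp [ringKrullDim_eq_zero_of_field]

/-- Noether normalisation for subsets of affine space. -/
lemma exists_finOver [Finite ι] {C : Set (ι → k)} (hC : C.Nonempty) :
    ∃ (s : ℕ) (y : Fin s → MvPolynomial ι k), FinOver C (Fin s) y ∧
      (∀ Q : MvPolynomial (Fin s) k, (∀ z ∈ C, aeval (pmap y z) Q = 0) → Q = 0) ∧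
      (s : WithBot ℕ∞) ≤ ringKrullDim (MvPolynomial ι k ⧸ vanishingIdeal k C) := by
  have : Nontrivial (MvPolynomial ι k ⧸ vanishingIdeal k C) := by
    refine Ideal.Quotient.nontrivial_iff.2 fun h => ?_
    obtain ⟨z, hz⟩ := hC
    have : (1 : MvPolynomial ι k) ∈ vanishingIdeal k C := h ▸ Submodule.mem_top
    simpa using this z hz
  obtain ⟨s, g, hi, hg⟩ := exists_integral_inj_algHom_of_fg k (MvPolynomial ι k ⧸ vanishingIdeal k C)
  choose y hy using fun j => Ideal.Quotient.mk_surjective (g (X j))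
  have hgy : g = (Ideal.Quotient.mkₐ k _).comp (aeval y) := by
    ext j; simp [hy]
  refine ⟨s, y, fun i => ?_, fun Q hQ => hi ?_, ?_⟩
  · obtain ⟨P, hP, hP'⟩ := hg (Ideal.Quotient.mk _ (X i))
    refine ⟨P, hP, fun z hz => ?_⟩
    have := Polynomial.hom_eval₂ P
      ((aeval y : MvPolynomial (Fin s) k →ₐ[k] MvPolynomial ι k) : MvPolynomial (Fin s) k →+* _)
      (Ideal.Quotient.mk (vanishingIdeal k C)) (X i)
    rw [hgy] at hP'
    have h2 := Ideal.Quotient.eq_zero_iff_mem.1 (this.trans hP') z hz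
    rw [aeval_eval₂] at h2
    simpa using h2
  · rw [hgy, map_zero]
    exact Ideal.Quotient.eq_zero_iff_mem.2 fun z hz => (aeval_pmap y z Q).symm.trans (hQ z hz)
  · have := krull_ge_of_integral _ hg hi
    simpa [ringKrullDim_eq_zero_of_field] using this

lemma dimLE_empty (D : ℕ) : DimLE (∅ : Set (ι → k)) D := by
  have : Subsingleton (MvPolynomial ι k ⧸ vanishingIdeal k (∅ : Set (ι → k))) := by
    rw [vanishingIdeal_empty]; infer_instance
  simp [DimLE, ringKrullDim_eq_bot_of_subsingleton]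

lemma DimLE.mono {C : Set (ι → k)} {D D' : ℕ} (h : DimLE C D) (hD : D ≤ D') : DimLE C D' :=
  le_trans h (by exact_mod_cast hD)

lemma dimLE_card [Finite ι] (C : Set (ι → k)) : DimLE C (Nat.card ι) := by
  refine (ringKrullDim_quotient_le _).trans ?_
  simp [ringKrullDim_eq_zero_of_field]

lemma DimLE.exists_finOver [Finite ι] {C : Set (ι → k)} {D : ℕ} (h : DimLE C D)
    (hC : C.Nonempty) : ∃ s ≤ D, ∃ y : Fin s → MvPolynomial ι k, FinOver C (Fin s) y := by
  obtain ⟨s, y, h1, -, h2⟩ := Pool.Agent.MP_536a45_ag_b.exists_finOver hC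
  exact ⟨s, by exact_mod_cast h2.trans h, y, h1⟩

lemma DimLE.prod [Finite ι] [Finite κ] {C : Set (ι → k)} {C' : Set (κ → k)} {D D' : ℕ}
    (h : DimLE C D) (h' : DimLE C' D') : DimLE (prodSet C C') (D + D') := by
  rcases (prodSet C C').eq_empty_or_nonempty with he | ⟨z0, hz0⟩
  · rw [he]; exact dimLE_empty _
  obtain ⟨s, hs, y, hy⟩ := h.exists_finOver ⟨_, hz0.1⟩
  obtain ⟨s', hs', y', hy'⟩ := h'.exists_finOver ⟨_, hz0.2⟩
  have : FinOver (prodSet C C') (Fin s ⊕ Fin s')
      (Sum.elim (fun j => rename Sum.inl (y j)) (fun j => rename Sum.inr (y' j))) := by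
    rintro (i | i)
    · obtain ⟨P, hP, hP'⟩ := hy i
      refine ⟨P.map (rename Sum.inl : MvPolynomial (Fin s) k →ₐ[k] _).toRingHom, hP.map _, fun z hz => ?_⟩
      rw [Polynomial.eval₂_map]
      convert hP' _ hz.1 using 2
      · ext j <;> simp [pmap, aeval_rename]
      · rfl
    · obtain ⟨P, hP, hP'⟩ := hy' i
      refine ⟨P.map (rename Sum.inr : MvPolynomial (Fin s') k →ₐ[k] _).toRingHom, hP.map _, fun z hz => ?_⟩
      rw [Polynomial.eval₂_map]
      convert hP' _ hz.2 using 2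
      · ext j <;> simp [pmap, aeval_rename]
      · rfl
  exact this.dimLE.mono (by simp; omega)

/-- Any `D + 1` polynomial functions on `C` are algebraically dependent. -/
def Dep (C : Set (ι → k)) (D : ℕ) : Prop :=
  ∀ y : Fin (D + 1) → MvPolynomial ι k, ∃ Q : MvPolynomial (Fin (D + 1)) k, Q ≠ 0 ∧
    ∀ z ∈ C, aeval (pmap y z) Q = 0

lemma Dep.subset {C C' : Set (ι → k)} {D : ℕ} (h : Dep C D) (hC : C' ⊆ C) : Dep C' D :=
  fun y => (h y).imp fun _ hQ => ⟨hQ.1, fun z hz => hQ.2 z (hC hz)⟩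

lemma Dep.iUnion {α : Type} [Finite α] {C : α → Set (ι → k)} {D : ℕ} (h : ∀ a, Dep (C a) D) :
    Dep (⋃ a, C a) D := by
  intro y
  have := Fintype.ofFinite α
  choose Q hQ hQ' using fun a => h a y
  refine ⟨∏ a, Q a, Finset.prod_ne_zero_iff.2 fun a _ => hQ a, fun z hz => ?_⟩
  obtain ⟨a, ha⟩ := Set.mem_iUnion.1 hz
  rw [map_prod]
  exact Finset.prod_eq_zero (Finset.mem_univ a) (hQ' a z ha)

lemma pmap_pmap {μ : Type} (y : μ → MvPolynomial κ k) (Ψ : κ → MvPolynomial ι k) (z : ι → k) :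
    pmap y (pmap Ψ z) = pmap (fun j => aeval Ψ (y j)) z := by
  ext j; exact aeval_pmap Ψ z (y j)

lemma Dep.image {C : Set (ι → k)} {D : ℕ} (h : Dep C D) (Ψ : κ → MvPolynomial ι k) :
    Dep (pmap Ψ '' C) D := by
  intro y
  obtain ⟨Q, hQ, hQ'⟩ := h fun j => aeval Ψ (y j)
  refine ⟨Q, hQ, ?_⟩
  rintro _ ⟨z, hz, rfl⟩
  rw [pmap_pmap]; exact hQ' z hz

lemma dep_univ [Finite ι] {D : ℕ} (h : Nat.card ι ≤ D) : Dep (Set.univ : Set (ι → k)) D := by
  intro y
  have : ¬ AlgebraicIndependent k y := by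
    intro hy
    have := hy.cardinalMk_le_trdeg
    rw [MvPolynomial.trdeg_of_isDomain] at this
    have := Fintype.ofFinite ι
    simp only [Cardinal.mk_fintype, Fintype.card_fin, Cardinal.lift_id, Nat.cast_le] at *
    rw [Nat.card_eq_fintype_card] at h
    omega
  rw [algebraicIndependent_iff] at this
  push Not at this
  obtain ⟨Q, hQ, hQ0⟩ := this
  exact ⟨Q, hQ0, fun z _ => by rw [aeval_pmap, hQ, map_zero]⟩

lemma Dep.dimLE [Finite ι] {C : Set (ι → k)} {D : ℕ} (h : Dep C D) : DimLE C D := by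
  rcases C.eq_empty_or_nonempty with rfl | hC
  · exact dimLE_empty _
  obtain ⟨s, y, h1, h2, -⟩ := exists_finOver hC
  refine h1.dimLE.mono ?_
  rw [Nat.card_eq_fintype_card, Fintype.card_fin]
  by_contra! hs
  obtain ⟨Q, hQ, hQ'⟩ := h fun j => y (Fin.castLE hs j)
  refine hQ (rename_injective _ (Fin.castLE_injective hs) ?_)
  rw [map_zero]
  refine h2 _ fun z hz => ?_
  rw [aeval_rename]
  exact hQ' z hz

end Pool.Agent.MP_536a45_ag_b
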