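import Pool.Agent.MP_536a45_ag_b.Frob

/-!
Dimension of families of linear subspaces.
-/

noncomputable section

namespace Pool.Agent.MP_536a45_ag_b

open MvPolynomial Matrix Module

attribute [-simp] MvPolynomial.aeval_eq_bind₁

variable {k σ ι κ : Type} [Field k] [Fintype σ] [Fintype ι] [Fintype κ] [DecidableEq ι]

lemma exists_rows {A : Matrix κ ι k} (h : ∀ w, A *ᵥ w = 0 → w = 0) :
    ∃ s : ι → κ, (A.submatrix s id).det ≠ 0 := by
  obtain ⟨E, hE, hinj, -⟩ := exists_pivot (LinearMap.range A.mulVecLin)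
  rw [LinearMap.finrank_range_of_inj ((injective_iff_map_eq_zero _).2 h), finrank_fintype_fun_eq_card,
    ← Fintype.card_coe] at hE
  let e := Fintype.equivOfCardEq hE
  refine ⟨fun i => e.symm i, fun h0 => ?_⟩
  obtain ⟨w, hw, hw'⟩ := exists_mulVec_eq_zero_iff.2 h0
  refine hw (h w (hinj _ ⟨w, rfl⟩ fun a ha => ?_))
  simpa [mulVec, dotProduct] using congrFun hw' (e ⟨a, ha⟩)

lemma dep_lin (A : Matrix κ ι (MvPolynomial σ k)) {D D' : ℕ} (hD : Fintype.card σ + D ≤ D') :
    Dep {z : σ ⊕ ι → k | A.map (aeval (z ∘ Sum.inl)) *ᵥ (z ∘ Sum.inr) = 0 ∧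
      finrank k (LinearMap.ker (A.map (aeval (z ∘ Sum.inl))).mulVecLin) ≤ D} D' := by
  let A' := fun (E : Finset ι) (s : {i // i ∉ E} → κ) =>
    (of fun a b : {i // i ∉ E} => rename (Sum.inl : σ → σ ⊕ E) (A (s a) b))
  let B' := fun (E : Finset ι) (s : {i // i ∉ E} → κ) =>
    (of fun (a : {i // i ∉ E}) (b : E) => rename (Sum.inl : σ → σ ⊕ E) (A (s a) b))
  let Ψ := fun (E : Finset ι) (s : {i // i ∉ E} → κ) => (Sum.elim (fun i => X (Sum.inl i))
    fun i => if h : i ∈ E then (A' E s).det * X (Sum.inr ⟨i, h⟩) else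
      -((A' E s).adjugate *ᵥ B' E s *ᵥ fun e => X (Sum.inr e)) ⟨i, h⟩ :
        σ ⊕ ι → MvPolynomial (σ ⊕ E) k)
  refine (Dep.iUnion (α := Σ E : {E : Finset ι // E.card ≤ D}, {i // i ∉ E.1} → κ)
    (C := fun x => pmap (Ψ x.1.1 x.2) '' Set.univ) fun x => (dep_univ ?_).image _).subset ?_
  · have := x.1.2
    simp; omega
  rintro z ⟨h1, h2⟩
  set A0 := A.map (aeval (z ∘ Sum.inl)) with hA0
  obtain ⟨E, hE, hinj, -⟩ := exists_pivot (LinearMap.ker A0.mulVecLin)
  have hsplit : ∀ (w : ι → k) a, (A0 *ᵥ w) a =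
      ∑ b : E, A0 a b * w b + ∑ b : {i // i ∉ E}, A0 a b * w b := fun w a => by
    rw [Subsingleton.elim (Finset.Subtype.fintype E) (Subtype.fintype _)]
    exact (Fintype.sum_subtype_add_sum_subtype (· ∈ E) fun b => A0 a b * w b).symm
  obtain ⟨s, hs⟩ := exists_rows (A := A0.submatrix id (Subtype.val : {i // i ∉ E} → ι))
    fun w hw => by
      have := hinj (fun i => if h : i ∈ E then 0 else w ⟨i, h⟩) (funext fun a => by
        refine (hsplit _ a).trans ?_
        rw [Finset.sum_eq_zero fun b _ => by rw [dif_pos b.2, mul_zero], zero_add]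
        exact (Finset.sum_congr rfl fun b _ => by rw [dif_neg b.2]; rfl).trans (congrFun hw a))
        fun i hi => dif_pos hi
      ext b
      simpa [b.2] using congrFun this b
  set A1 := (A0.submatrix id (Subtype.val : {i // i ∉ E} → ι)).submatrix s id with hA1
  let y : σ ⊕ E → k := Sum.elim (z ∘ Sum.inl) fun e => z (Sum.inr e) / A1.det
  have e1 : (aeval y : _ →ₐ[k] k).mapMatrix (A' E s) = A1 := by
    ext a b; exact aeval_rename _ _ _
  refine Set.mem_iUnion.2 ⟨⟨⟨E, hE.trans_le h2⟩, s⟩, y, trivial, ?_⟩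
  ext (i | i)
  · simp [pmap, Ψ, y]
  by_cases hi : i ∈ E
  · simp only [pmap, Ψ, Sum.elim_inr, dif_pos hi, map_mul, AlgHom.map_det, e1, aeval_X, y]
    exact mul_div_cancel₀ _ hs
  have e2 : A1 *ᵥ (fun b => z (Sum.inr b)) = -fun a => A1.det *
      aeval y ((B' E s *ᵥ fun e => X (Sum.inr e)) a) := by
    ext a
    have := (hsplit _ (s a)).symm.trans (congrFun h1 (s a))
    rw [Pi.neg_apply, eq_neg_iff_add_eq_zero, add_comm]
    refine Eq.trans ?_ this
    congr 1
    simp only [mulVec, dotProduct, map_sum, map_mul, aeval_X, Finset.mul_sum, B', of_apply,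
      aeval_rename, y, Sum.elim_inr, Sum.elim_comp_inl, hA0, Matrix.map_apply, Function.comp_apply]
    exact Finset.sum_congr rfl fun b _ => by field_simp
  have e3 := congrFun (congrArg (A1.adjugate *ᵥ ·) e2) ⟨i, hi⟩
  simp only [mulVec_mulVec, adjugate_mul, smul_mulVec, one_mulVec, Pi.smul_apply, smul_eq_mul]
    at e3
  apply mul_left_cancel₀ hs
  rw [e3]
  simp only [pmap, Ψ, Sum.elim_inr, dif_neg hi, map_neg, mulVec_neg, Pi.neg_apply, mul_neg]
  congr 1
  generalize (B' E s *ᵥ fun e => X (Sum.inr e)) = u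
  rw [← e1, ← AlgHom.map_adjugate]
  simp only [mulVec, dotProduct, map_sum, map_mul, Finset.mul_sum, AlgHom.mapMatrix_apply,
    Matrix.map_apply]
  exact Finset.sum_congr rfl fun b _ => by ring

lemma dep_section (L : (σ → k) → (ι → k) →ₗ[k] κ → k)
    (hL : ∀ a i, ∃ p : MvPolynomial σ k, ∀ ρ, L ρ (Pi.single i 1) a = aeval ρ p) {μ : Type}
    (Φ : μ → MvPolynomial (σ ⊕ ι) k) {e D D' : ℕ} (hD : Fintype.card σ + (D - e) ≤ D') :
    Dep {y | ∃ (ρ : σ → k) (η : ι → k) (M : Submodule k (ι → k)), finrank k M = e ∧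
      finrank k (LinearMap.ker (L ρ)) ≤ D ∧
      ∀ η', η' - η ∈ M → L ρ η' = 0 ∧ pmap Φ (Sum.elim ρ η') = y} D' := by
  choose p hp using hL
  let A := fun E : Finset ι => (of (Sum.elim p fun (a : E) i => if a = i then 1 else 0) :
    Matrix (κ ⊕ E) ι (MvPolynomial σ k))
  have hA : ∀ E ρ w, (A E).map (aeval ρ) *ᵥ w = 0 ↔ L ρ w = 0 ∧ ∀ i ∈ E, w i = 0 := by
    intro E ρ w
    have : (A E).map (aeval ρ) *ᵥ w = Sum.elim (L ρ w) fun a : E => w a := by
      ext (a | a)
      · conv_rhs => rw [pi_eq_sum_univ' w]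
        simp [A, mulVec, dotProduct, hp, mul_comm]
      · simp [A, mulVec, dotProduct, apply_ite]
    rw [this]
    simp [funext_iff]
  refine (Dep.iUnion fun E => (dep_lin (A E) hD).image Φ).subset ?_
  rintro y ⟨ρ, η, M, rfl, h2, h3⟩
  obtain ⟨E, hE, -, hs⟩ := exists_pivot M
  obtain ⟨w, hw, hw'⟩ := hs η
  have h4 := h3 (η - w) (by simpa using hw)
  refine Set.mem_iUnion.2 ⟨E, Sum.elim ρ (η - w), ⟨(hA _ _ _).2 ⟨h4.1, fun i hi => by
    simp [hw' i hi]⟩, ?_⟩, h4.2⟩
  let π : LinearMap.ker (L ρ) →ₗ[k] E → k :=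
    (LinearMap.funLeft k k Subtype.val).comp (Submodule.subtype _)
  have h5 : LinearMap.range π = ⊤ := LinearMap.range_eq_top.2 fun c => by
    obtain ⟨u, hu, hu'⟩ := hs fun i => if h : i ∈ E then c ⟨i, h⟩ else 0
    refine ⟨⟨u, ?_⟩, funext fun i => by simpa [π, i.2] using hu' i i.2⟩
    have h6 := (h3 (η + u) (by simpa using hu)).1
    rwa [map_add, (h3 η (by simp)).1, zero_add] at h6
  have h6 := π.finrank_range_add_finrank_ker
  rw [h5, finrank_top, finrank_fintype_fun_eq_card, Fintype.card_coe, hE] at h6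
  have h7 : LinearMap.ker ((A E).map (aeval ρ)).mulVecLin =
      (LinearMap.ker π).map (Submodule.subtype _) := by
    ext u
    simp only [LinearMap.mem_ker, mulVecLin_apply, hA, Submodule.mem_map]
    constructor
    · rintro ⟨h, h'⟩
      exact ⟨⟨u, h⟩, funext fun i => h' i i.2, rfl⟩
    · rintro ⟨u, h, rfl⟩
      exact ⟨u.2, fun i hi => congrFun h ⟨i, hi⟩⟩
  change finrank k (LinearMap.ker ((A E).map (aeval ρ)).mulVecLin) ≤ _
  rw [h7, Submodule.finrank_map_subtype_eq]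
  omega

omit [DecidableEq ι] in
lemma finrank_add_le (W : Submodule k (ι → k)) {α : Type} [Fintype α] {ε : α → ι}
    (hε : Function.Injective ε) (h : ∀ w ∈ W, (∀ i ∉ Set.range ε, w i = 0) → w = 0) :
    finrank k W + Fintype.card α ≤ Fintype.card ι := by
  classical
  have := LinearMap.finrank_le_finrank_of_injective
    (f := (LinearMap.funLeft k k (Subtype.val : ↥(Set.range ε)ᶜ → ι)).comp W.subtype)
    ((injective_iff_map_eq_zero _).2 fun w hw => Subtype.ext (h w w.2 fun i hi =>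
      congrFun hw ⟨i, hi⟩))
  rw [finrank_fintype_fun_eq_card, Fintype.card_compl_set, Set.card_range_of_injective hε] at this
  have := Fintype.card_le_of_injective ε hε
  omega

end Pool.Agent.MP_536a45_ag_b
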