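import Pool.Agent.MP_536a45_ag_b.Lin
import Pool.Agent.MP_536a45_ag_b.LF

/-!
The dimension bound and convergence of the stringy motive.
-/

noncomputable section

namespace Pool.Agent.MP_536a45_ag_b

open MvPolynomial Matrix Module Filter

attribute [-simp] MvPolynomial.aeval_eq_bind₁

variable {J T : ℕ}

def rr (J : ℕ) {j : ℕ} (ρ : Fin 3 × Fin j → K) (l : Fin 3) (b : Fin J) : K :=
  if h : (b : ℕ) < j then ρ (l, ⟨b, h⟩) else 0

lemma rr_ez {r : Fin 3 → Fin J → K} {j : ℕ} (h : ∀ b, j ≤ b → ez r b = 0) :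
    rr J (fun p : Fin 3 × Fin j => ez r p.2 p.1) = r := by
  ext l b
  have : ez r b l = r l b := dif_pos b.2
  rw [rr]
  split_ifs with hb
  · exact this
  · rw [← this, h b (not_lt.1 hb)]; rfl

lemma exists_Theta (j : ℕ) : ∃ Θ : Pm J T → MvPolynomial ((Fin 3 × Fin j) ⊕ (N × Fin T)) K,
    ∀ ρ η, pmap Θ (Sum.elim ρ η) = mkz (rr J ρ) η := by
  refine ⟨Sum.elim (fun p => if h : (p.2 : ℕ) < j then X (Sum.inl (p.1, ⟨p.2, h⟩)) else 0)
    fun p => X (Sum.inr p), fun ρ η => ?_⟩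
  ext (p | p)
  · simp only [pmap, mkz, rr, Sum.elim_inl]; split_ifs <;> simp
  · simp [pmap, mkz]

def triL (r : Fin 3 → Fin J → K) (T j : ℕ) : (N × Fin T → K) →ₗ[K] Fin j × I5 → K where
  toFun η x := tri r η x.1 x.2
  map_add' η η' := by
    ext x; simp [tri, mulVec, dotProduct, mul_add, Finset.sum_add_distrib]
  map_smul' c η := by
    ext x; simp [tri, mulVec, dotProduct, Finset.mul_sum, mul_left_comm]

lemma poly_tri (j : ℕ) (η : N × Fin T → K) (c : ℕ) (p : I5) :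
    ∃ P : MvPolynomial (Fin 3 × Fin j) K, ∀ ρ, tri (rr J ρ) η c p = aeval ρ P := by
  have : ∀ b l, ∃ P : MvPolynomial (Fin 3 × Fin j) K, ∀ ρ, ez (rr J ρ) b l = aeval ρ P := by
    intro b l
    by_cases h : b < J
    · by_cases h' : b < j
      · exact ⟨X (l, ⟨b, h'⟩), fun ρ => by simp [ez, rr, h, h']⟩
      · exact ⟨0, fun ρ => by simp [ez, rr, h, h']⟩
    · exact ⟨0, fun ρ => by simp [ez, h]⟩
  choose P hP using this
  refine ⟨∑ i : Fin T, ∑ l, P (c + i) l * C (mxv l (fun q => η (q, i)) p), fun ρ => ?_⟩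
  simp only [tri, map_sum, map_mul, aeval_C, ← hP]
  exact Finset.sum_congr rfl fun i _ => (sum_mxv_K _ (fun q => η (q, i)) p).symm

def epsA {o : ℕ} (h : o ≤ T) (x : I5 × Fin o) : N × Fin T := (Sum.inl x.1, x.2.castLE h)

lemma epsA_inj {o : ℕ} (h : o ≤ T) : Function.Injective (epsA h) := by
  rintro ⟨p, i⟩ ⟨p', i'⟩ h
  simpa [epsA] using h

def epsB {j : ℕ} (h : j ≤ T) (κ : Fin 3) (x : (Fin 5 × {b // b ≠ κ}) × Fin j) : N × Fin T :=
  (Sum.inl (x.1.1, x.1.2), x.2.castLE h)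

lemma epsB_inj {j : ℕ} (h : j ≤ T) (κ : Fin 3) : Function.Injective (epsB h κ) := by
  rintro ⟨⟨c, b⟩, i⟩ ⟨⟨c', b'⟩, i'⟩ h
  simpa [epsB, Subtype.ext_iff] using h

lemma card_B (κ : Fin 3) (j : ℕ) : Fintype.card ((Fin 5 × {b // b ≠ κ}) × Fin j) = 10 * j := by
  simp

lemma tri_proj {r : Fin 3 → Fin J → K} {j : ℕ} (hj : j + 1 ≤ T) (hr : ∀ b, j < b → ez r b = 0)
    {κ : Fin 3} (hκ : ∀ w, phM (ez r j) *ᵥ w = 0 → w κ = 0 → w = 0) {η : N × Fin T → K}
    (h : triL r T (j + 1) η = 0) (h0 : ∀ i ∉ Set.range (epsB hj κ), η i = 0) : η = 0 := by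
  ext ⟨q, i⟩
  by_contra h1
  obtain ⟨⟨⟨c, b⟩, i'⟩, h2⟩ := not_not.1 (mt (h0 _) h1)
  simp only [epsB, Prod.mk.injEq] at h2
  obtain ⟨rfl, rfl⟩ := h2
  refine h1 (tri_inj hr hκ (fun c hc p => congrFun h (⟨c, by omega⟩, p))
    (fun c i _ => h0 _ ?_) _ (Nat.lt_succ_iff.1 i'.2) _)
  rintro ⟨⟨⟨c', b'⟩, i''⟩, h3⟩
  simp only [epsB, Prod.mk.injEq, Sum.inl.injEq] at h3
  exact b'.2 h3.1.2

variable {m : ℕ} {f : Fin m → R}

theorem dim_jets {a n : ℕ} (hn : 300 * a ≤ n) :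
    DimLE (jet (k := K) f n '' ordSet II a) (30 * (n + 1) - a - 7 * (a / 105)) := by
  obtain ⟨Ψ, hΨ⟩ := exists_Psi (J := 7 * a) (T := n + 1 + 7 * a) f n
  choose Θ hΘ using exists_Theta (J := 7 * a) (T := n + 1 + 7 * a)
  have hc : Fintype.card (N × Fin (n + 1 + 7 * a)) = 30 * (n + 1 + 7 * a) := by simp
  have ho : a / 105 ≤ n + 1 + 7 * a := by omega
  have hA := dep_section (σ := Fin 3 × Fin (a / 105)) (fun _ => LinearMap.funLeft K K (epsA ho)) (fun x i =>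
    ⟨C (LinearMap.funLeft K K (epsA ho) (Pi.single i 1) x), fun _ => by rw [aeval_C]; rfl⟩) (fun x => aeval (Θ (a / 105)) (Ψ x)) (e := a + 30 * (7 * a))
    (D := 30 * (n + 1 + 7 * a) - 15 * (a / 105)) (D' := 30 * (n + 1) - a - 7 * (a / 105))
    (by simp; omega)
  have hB := fun j : {j : Fin (7 * a) // a / 105 ≤ j} => dep_section
    (fun ρ => triL (rr (7 * a) ρ) (n + 1 + 7 * a) (j.1 + 1)) (fun x i => poly_tri _ _ _ _)
    (fun x => aeval (Θ (j.1 + 1)) (Ψ x)) (e := a + 30 * (7 * a))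
    (D := 30 * (n + 1 + 7 * a) - 10 * (j.1 + 1)) (D' := 30 * (n + 1) - a - 7 * (a / 105))
    (by have := j.2; have := j.1.2; simp; omega)
  have hU := Dep.iUnion (α := Bool) (C := fun b => bif b then _ else _)
    (fun b => Bool.rec (Dep.iUnion hB) hA b)
  refine (hU.subset ?_).dimLE
  rw [jets_eq le_rfl le_rfl (by omega)]
  rintro _ ⟨z, hz, rfl⟩
  have hn' : (300 * a : ℚ) ≤ n := by exact_mod_cast hn
  have ha : (0 : ℚ) ≤ a := Nat.cast_nonneg a
  obtain ⟨M, hM, hM'⟩ := exists_M (s := n + 1 - a) hz rfl (by omega) (by linarith) le_rfl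
  have key : ∀ η', η' - z ∘ Sum.inr ∈ M → OrdV a (tw (rz z) (lf η')) ∧ ∀ j, (∀ b, j ≤ b →
      ez (rz z) b = 0) → pmap (fun x => aeval (Θ j) (Ψ x))
        (Sum.elim (fun p => ez (rz z) p.2 p.1) η') = jetV f n (par z) := fun η' h =>
    ⟨OrdV.congr hz (by linarith) ((hM' η').1 h).2, fun j hj => by
      rw [← pmap_pmap, hΘ, rr_ez hj, hΨ, par_mkz]; exact jetV_eq ((hM' η').1 h).2⟩
  by_cases h : ∃ b, a / 105 ≤ b ∧ ez (rz z) b ≠ 0
  · obtain ⟨j, hj, h1, h2, h3⟩ := exists_level h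
    obtain ⟨κ, hκ⟩ := exists_kappa h2
    refine Set.mem_iUnion.2 ⟨false, Set.mem_iUnion.2 ⟨⟨⟨j, hj⟩, h1⟩,
      fun p => ez (rz z) p.2 p.1, z ∘ Sum.inr, M, hM, ?_, fun η' h' => ?_⟩⟩
    · rw [rr_ez (j := j + 1) h3]
      have := finrank_add_le (LinearMap.ker (triL (rz z) (n + 1 + 7 * a) (j + 1)))
        (epsB_inj (j := j + 1) (by omega) κ) fun w hw => tri_proj _ h3 hκ hw
      rw [card_B, hc] at this
      exact Nat.le_sub_of_add_le this
    · rw [rr_ez (j := j + 1) h3]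
      exact ⟨funext fun x => tri_eq_zero (key η' h').1.1 _ _, (key η' h').2 _ h3⟩
  · push Not at h
    refine Set.mem_iUnion.2 ⟨true, fun p => ez (rz z) p.2 p.1, z ∘ Sum.inr, M, hM, ?_,
      fun η' h' => ⟨?_, (key η' h').2 _ h⟩⟩
    · have := finrank_add_le (LinearMap.ker (LinearMap.funLeft K K (epsA ho))) (epsA_inj ho)
        fun w hw h0 => funext fun i => by
          by_cases hi : i ∈ Set.range (epsA ho)
          · obtain ⟨x, rfl⟩ := hi; exact congrFun hw x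
          · exact h0 i hi
      rw [hc] at this
      simp only [Fintype.card_prod, Fintype.card_fin] at this
      omega
    · obtain ⟨o, -, h1, h2, -⟩ := (key η' h').1.exists_good fun p => lf_mem _ _
      ext ⟨p, i⟩
      have := h2 p (i : ℕ) (by exact_mod_cast (by omega : (i : ℕ) < o))
      rw [tw, act_inl, lf_coeff, dif_pos (by omega)] at this
      exact this

lemma IsStable.mono {k R δ : Type} [Field k] [CommRing R] [Algebra k R] {f : Fin m → R}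
    {A : Set (R →ₐ[k] PowerSeries k)} {n n' : ℕ} (h : IsStable δ f A n) (hn : n ≤ n') :
    IsStable δ f A n' := fun l hl => h l (hn.trans hl)

theorem exists_integral (hf : Algebra.adjoin K (Set.range f) = ⊤) (b : Bool) {ρ : ℕ}
    (hρ : 0 < ρ) : ∃ M : MotHat K b ρ, IsIntegralOrd N f II b ρ M := by
  choose n₀ _ hn₀ using exists_stable hf
  refine (summable_of_Fil (fun a => cl b ρ (jet f (n₀ a + 300 * a) '' ordSet II a)
    (ρ * (a - (n₀ a + 300 * a : ℕ) * Nat.card N))) fun s => ?_).imp fun M hM =>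
      ⟨fun a => n₀ a + 300 * a, fun a => (hn₀ a).mono (Nat.le_add_right _ _), hM⟩
  filter_upwards [eventually_ge_atTop (105 * (s.toNat + 30))] with a ha
  refine cl_mem_Fil (isCons_jets (by omega)) (dim_jets (by omega)) ?_
  have h1 : Nat.card N = 30 := by simp
  have h2 : ((30 * (n₀ a + 300 * a + 1) - a - 7 * (a / 105) : ℕ) : ℤ) +
      (a - (n₀ a + 300 * a : ℕ) * Nat.card N) ≤ -s.toNat := by rw [h1]; omega
  have h3 : (1 : ℤ) ≤ ρ := by exact_mod_cast hρ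
  nlinarith [Int.self_le_toNat s, Int.natCast_nonneg s.toNat]

end Pool.Agent.MP_536a45_ag_b
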