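import Pool.Agent.MP_536a45_ag_b.Rep

/-!
Points with congruent invariants.
-/

noncomputable section

namespace Pool.Agent.MP_536a45_ag_b

open MvPolynomial Matrix

attribute [-simp] MvPolynomial.aeval_eq_bind₁

section
variable {A : Type} [CommRing A] [Algebra K A] (v : N → A) (l : I5 → K)

lemma aeval_xR (p : I5) : aeval v (xR p : B) = v (Sum.inl p) := by simp [xR]
lemma aeval_YR (p : I5) : aeval v (YR l p : B) = Yq l v p := by simp [YR]
lemma aeval_NR : aeval v (NR l : B) = Nq (cc l v) (TT l v) := by simp [NR]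
lemma aeval_muR : aeval v (muR l : B) = mu (cc l v) := by simp [coe_muR]

end

variable {J : ℕ}

lemma near_aux {c : Fin 3 → H} (hc : ∀ i, Ge 0 (c i)) {o s : ℚ} (hμ : Le (7 * o) (mu c))
    {T T' : H} (h : Ge s (Nq c T' - Nq c T)) : ∃ d : Fin 3 → H,
      (∀ i, mu c * d i = Bq c i * Pq c i T' + Bq c i * Pq c i T) ∧
      ∀ i, ∃ g : ZMod 2, Ge (s - 14 * o) (d i + algebraMap K H (algebraMap _ K g)) := by
  have h2 := two_alg H
  have hd : ∀ i, mu c * (Bq c i * Pq c i (T' + T) / mu c) =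
      Bq c i * Pq c i T' + Bq c i * Pq c i T := fun i => by
    rw [mul_div_cancel₀ _ hμ.ne_zero, Pq_add, mul_add]
  refine ⟨_, hd, fun i => ?_⟩
  have h1 := hd i
  generalize Bq c i * Pq c i (T' + T) / mu c = d at h1 ⊢
  have h5 := Ge.mul_left (mem_OS.1 (pow_mem (Bq_mem OS hc i) 2)) h
  have e : Bq c i ^ 2 * (Nq c T' - Nq c T) = mu c ^ 2 * (d ^ 2 + d) := by
    rw [mul_sub, Bq_Nq, Bq_Nq]
    generalize Bq c i * Pq c i T' = a at h1 ⊢
    generalize Bq c i * Pq c i T = b at h1 ⊢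
    generalize mu c = μ at h1 ⊢
    grind
  rw [e] at h5
  have h6 := h5.of_mul (hμ.pow 2)
  rw [show s - (2 : ℕ) * (7 * o) = s - 14 * o by push_cast; ring] at h6
  rcases as_small h6 with h7 | h7
  · exact ⟨0, by simpa using h7⟩
  · exact ⟨1, by simpa using h7⟩

lemma exists_near {v w : N → H} (hv : ∀ q, Ge 0 (v q)) (hw : ∀ q, Ge 0 (w q)) {l : I5 → K}
    {o s : ℚ} (ho : 0 ≤ o) (hl : Good l o v)
    (h : ∀ h : R, Ge s (aeval w (h : B) - aeval v (h : B))) :
    ∃ g : G0, ∀ q, Ge (s - 14 * o) (w q - act (emb H g) v q) := by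
  have hle : s - 14 * o ≤ s - 7 * o := by linarith
  have h2 := two_alg H
  have hx : ∀ p, Ge s (w (Sum.inl p) - v (Sum.inl p)) := fun p => by simpa [xR] using h (xR p)
  let w' : N → H := Sum.elim (fun p => v (Sum.inl p)) fun p => w (Sum.inr p)
  have hw' : ∀ h : R, Ge s (aeval w' (h : B) - aeval v (h : B)) := fun g => by
    have := ge_aeval_sub (v := w') (s := s) (by rintro (p | p); exacts [hv _, hw _]) hw
      (by rintro (p | p); exacts [hx p, by simpa [w'] using ge_zero s]) (g : B)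
    simpa using (h g).sub this
  have hμ := hl.mu
  have ec : cc l w' = cc l v := rfl
  have em : ∀ i p, mxv i w' p = mxv i v p := fun _ _ => rfl
  have h4 := hw' (NR l)
  rw [aeval_NR, aeval_NR, ec] at h4
  obtain ⟨d, hd, h3⟩ := near_aux (cc_mem OS (w := v) (fun p => hv _) l) hμ h4
  choose g hg using h3
  refine ⟨g, ?_⟩
  rintro (p | p)
  · exact (hx p).mono (by linarith)
  have h4 := hw' (YR l p)
  have e : Yq l w' p - Yq l v p =
      mu (cc l v) * (w (Sum.inr p) - v (Sum.inr p) + ∑ i, d i * mxv i v p) := by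
    have e0 : w' (Sum.inr p) = w (Sum.inr p) := rfl
    simp only [Yq, ec, em, e0, Fin.sum_univ_three]
    generalize cc l v = c at hd ⊢
    linear_combination -(mxv 0 v p) * hd 0 - mxv 1 v p * hd 1 - mxv 2 v p * hd 2 -
      (Bq c 0 * Pq c 0 (TT l v) * mxv 0 v p + Bq c 1 * Pq c 1 (TT l v) * mxv 1 v p +
        Bq c 2 * Pq c 2 (TT l v) * mxv 2 v p) * h2
  rw [aeval_YR, aeval_YR, e] at h4
  have h6 := Ge.mono (Ge.of_mul h4 hμ) hle
  have h7 : Ge (s - 14 * o) (∑ i, (d i + algebraMap K H (algebraMap _ K (g i))) * mxv i v p) :=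
    Ge.sum fun i _ => (hg i).mul_right (ge_mxv (w := v) (fun _ => hv _) i p)
  convert h6.sub h7 using 1
  simp only [act_inr, emb, add_mul, Finset.sum_add_distrib]
  ring

lemma sum_cc {A : Type} [CommRing A] [Algebra K A] (l : I5 → K) (u : Fin 3 → A) (w : N → A) :
    ∑ i, u i * cc l w i = ∑ p, algebraMap K A (l p) * ∑ i, u i * mxv i w p := by
  simp only [cc, Finset.mul_sum]
  rw [Finset.sum_comm]
  exact Finset.sum_congr rfl fun _ _ => Finset.sum_congr rfl fun _ _ => by ring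

lemma eq_of_ge_sum {r r' : Fin 3 → Fin J → K} {ξ : N → H} (hξ : ∀ p, ξ (Sum.inl p) ∈ ZS)
    (h0 : ∀ p, Ge 0 (ξ (Sum.inl p))) {l : I5 → K} {o : ℚ} (ho : 0 ≤ o) (hl : Good l o ξ)
    (h : ∀ p, Ge (7 * o) (∑ i, (al (r' i) - al (r i)) * mxv i ξ p)) : r = r' := by
  ext1 i
  have := ge_of_sum (u := fun i => al (r' i) - al (r i)) (cc_mem OS h0 l) (cc_mem ZS hξ l) hl.mu
    (fun i => (al_nz _).sub (al_nz _)) (fun i => by
      have h2 := two_alg H
      have : (al (r' i) - al (r i)) ^ 2 + (al (r' i) - al (r i)) = fS (r' i) - fS (r i) := by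
        rw [← al_sq, ← al_sq]; grind
      rw [this]; exact sub_mem (fS_mem_ZS _) (fS_mem_ZS _)) (s := 7 * o) (by linarith)
    (by rw [sum_cc]; exact Ge.sum fun p _ => (ge_alg _).mul_left (h p)) i
  rw [sub_self] at this
  exact (eq_of_ge_al this).symm

lemma eq_of_near {r r' : Fin 3 → Fin J → K} {ξ ξ' : N → H} (hξ : ∀ q, ξ q ∈ ZS)
    (hξ' : ∀ q, ξ' q ∈ ZS) (h0 : ∀ p, Ge 0 (ξ (Sum.inl p))) {l : I5 → K} {o s : ℚ} (ho : 0 ≤ o)
    (hl : Good l o ξ) (hs : 7 * o + J ≤ s) {g : G0}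
    (h : ∀ q, Ge s (tw r' ξ' q - act (emb H g) (tw r ξ) q)) : r = r' := by
  refine eq_of_ge_sum (fun _ => hξ _) h0 ho hl fun p => ?_
  have h1 := (ge_of_add (z := ξ' (Sum.inr p) - ξ (Sum.inr p) - ∑ i, emb H g i * mxv i ξ p)
    (sub_mem (sub_mem (hξ' _) (hξ _)) (sum_mem fun i _ => mul_mem (algebraMap_mem _ _)
      (mxv_mem ZS (fun _ => hξ _) _ _))) ((nz_sum (r := r') hξ' p).sub (nz_sum (r := r) hξ p))
      (s := s) (by convert h (Sum.inr p) using 1; simp only [tw, act_inr, mxv_act]; ring)).2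
  have h2 : Ge (-J + s) (∑ i, al (r' i) * mxv i (ξ' - ξ) p) :=
    Ge.sum fun i _ => (al_ge _).mul (ge_mxv (fun p => h (Sum.inl p)) _ _)
  have := ((h1.mono (show 7 * o ≤ s by linarith [(Nat.cast_nonneg J : (0 : ℚ) ≤ J)])).sub
    (h2.mono (by linarith)))
  convert this using 1
  simp only [mxv_sub, mul_sub, sub_mul, Finset.sum_sub_distrib]
  ring

lemma Good.sep {v : N → H} {l : I5 → K} {o s : ℚ} (hl : Good l o v) (hs : o < s) {g g' : G0}
    (h : ∀ q, Ge s (act (emb H g) v q - act (emb H g') v q)) : g = g' := by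
  by_contra hne
  have e : ∀ i, emb H (g - g') i = emb H g i - emb H g' i := fun i => by simp [emb]
  refine Ge.not_le ?_ hs (hl (g - g') (sub_ne_zero.2 hne))
  rw [sum_cc]
  refine Ge.sum fun p _ => (ge_alg _).mul_left ?_
  convert h (Sum.inr p) using 1
  simp [e, sub_mul]

lemma OrdV.cv {a : ℕ} {v : N → H} (hv : OrdV a v) {g : N → R} (hg : Le a (aeval v (Jac g : B)))
    {δ : N → H} {s : ℚ} (hδ : ∀ q, Ge s ((DM v g *ᵥ δ) q)) :
    (∀ q, Ge (s - a) (δ q)) ∧ ∀ h : R, Ge s (∑ q, aeval v (pderiv q (h : B)) * δ q) := by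
  refine ⟨ge_of_mulVec (D := DM v g) (fun i j => ge_aeval hv.1 _) (by rwa [← aeval_Jac]) hδ, fun h => ?_⟩
  have : Ge (a + s) (aeval v (Jac g : B) * ∑ q, aeval v (pderiv q (h : B)) * δ q) := by
    simp only [Finset.mul_sum, ← mul_assoc]
    rw [Finset.sum_congr rfl fun q _ => by rw [cramer_DM, Finset.sum_mul], Finset.sum_comm]
    refine Ge.sum fun i _ => ?_
    convert (hv.2.1 (Function.update g i h)).mul (hδ i) using 1
    simp only [mulVec, dotProduct, DM, of_apply, Finset.mul_sum, mul_assoc]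
  simpa using this.of_mul hg

lemma OrdV.congr {a : ℕ} {v w : N → H} (hv : OrdV a v) {s : ℚ} (hs : a < s)
    (h : ∀ h : R, Ge s (aeval w (h : B) - aeval v (h : B))) : OrdV a w := by
  have ha : (0 : ℚ) ≤ a := Nat.cast_nonneg a
  refine ⟨int_of_inv fun g => ?_, fun g => ?_, hv.2.2.imp fun g hg => hg.of_sub (h _) hs⟩
  · simpa using ((h g).mono (by linarith)).add (ge_aeval hv.1 (g : B))
  · simpa using ((h (Jac g)).mono hs.le).add (hv.2.1 g)

lemma OrdV.act {a : ℕ} {v : N → H} (hv : OrdV a v) (g : G0) : OrdV a (act (emb H g) v) :=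
  hv.congr (s := a + 1) (by linarith) fun h => by rw [inv_eval, sub_self]; exact ge_zero _

variable {m : ℕ} {f : Fin m → R}

/-- The jet of a twisted point. -/
def jetV (f : Fin m → R) (n : ℕ) (v : N → H) : Fin m × Fin (n + 1) → K :=
  fun p => (aeval v (f p.1 : B)).coeff (p.2 : ℕ)

lemma jet_eq_jetV {γ : R →ₐ[K] PowerSeries K} {v : N → H} (h : ∀ h, toH (γ h) = aeval v (h : B))
    (n : ℕ) : jet f n γ = jetV f n v := by
  ext p; rw [jet, jetV, ← h, toH_coeff]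

lemma exists_lift (hf : Algebra.adjoin K (Set.range f) = ⊤) (h : R) :
    ∃ p : MvPolynomial (Fin m) K, aeval f p = h := by
  have : h ∈ Algebra.adjoin K (Set.range f) := by rw [hf]; trivial
  rwa [Algebra.adjoin_range_eq_range_aeval] at this

lemma ge_of_jet (hf : Algebra.adjoin K (Set.range f) = ⊤) {γ γ' : R →ₐ[K] PowerSeries K} {n : ℕ}
    (h : jet f n γ = jet f n γ') (g : R) : Ge (n + 1) (toH (γ' g) - toH (γ g)) := by
  obtain ⟨p, rfl⟩ := exists_lift hf g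
  rw [algHom_aeval, algHom_aeval, algHom_aeval, algHom_aeval]
  refine ge_aeval_sub (fun _ => ge_toH _) (fun _ => ge_toH _) (fun i => ?_) p
  rw [← map_sub]
  have := (ge_toH_iff (p := γ' (f i) - γ (f i)) (n := n + 1)).2
    (PowerSeries.nat_le_order _ _ fun e he => by
      rw [map_sub, sub_eq_zero]; exact (congrFun h (i, ⟨e, he⟩)).symm)
  exact_mod_cast this

lemma jetV_eq {v w : N → H} {n : ℕ} (h : ∀ h : R, Ge (n + 1) (aeval w (h : B) - aeval v (h : B))) :
    jetV f n w = jetV f n v := by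
  ext p
  have := h (f p.1) (p.2 : ℕ) (by exact_mod_cast p.2.2)
  rwa [HahnSeries.coeff_sub, sub_eq_zero] at this

lemma ge_of_jetV (hf : Algebra.adjoin K (Set.range f) = ⊤) {r r' : Fin 3 → Fin J → K}
    {ξ ξ' : N → H} (hξ : ∀ q, ξ q ∈ ZS) (hξ' : ∀ q, ξ' q ∈ ZS) (h0 : ∀ q, Ge 0 (tw r ξ q))
    (h0' : ∀ q, Ge 0 (tw r' ξ' q)) {n : ℕ} (h : jetV f n (tw r ξ) = jetV f n (tw r' ξ')) (g : R) :
    Ge (n + 1) (aeval (tw r' ξ') (g : B) - aeval (tw r ξ) (g : B)) := by
  obtain ⟨γ, hγ⟩ := exists_arc r hξ fun _ => ge_aeval h0 _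
  obtain ⟨γ', hγ'⟩ := exists_arc r' hξ' fun _ => ge_aeval h0' _
  rw [← hγ, ← hγ']
  exact ge_of_jet hf (by rw [jet_eq_jetV hγ, jet_eq_jetV hγ', h]) g

lemma cylinder (hf : Algebra.adjoin K (Set.range f) = ⊤) {a n : ℕ} (hn : a ≤ n) :
    jet (k := K) f n ⁻¹' (jet f n '' ordSet II a) = ordSet II a := by
  refine (Set.subset_preimage_image _ _).antisymm' ?_
  rintro γ' ⟨γ, hγ, h⟩
  rw [mem_ord (g := Jac) rfl] at hγ ⊢
  have ha : (a : ℚ) < n + 1 := by exact_mod_cast Nat.lt_succ_of_le hn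
  exact ⟨fun g => by simpa using ((ge_of_jet hf h (Jac g)).mono ha.le).add (hγ.1 g),
    hγ.2.imp fun g hg => hg.of_sub (ge_of_jet hf h _) ha⟩

end Pool.Agent.MP_536a45_ag_b
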