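import Pool.Agent.MP_536a45_ag_b.CntC

/-!
The stringy motive is not a rational function.
-/

noncomputable section

namespace Pool.Agent.MP_536a45_ag_b

open Filter Topology Asymptotics Polynomial

lemma tendsto_inv_pow {W : ℕ → ℝ} (hW : Tendsto W atTop atTop) {k : ℕ} (hk : k ≠ 0) :
    Tendsto (fun j => ((W j : ℂ) ^ k)⁻¹) atTop (𝓝 0) := by
  have := (Complex.continuous_ofReal.tendsto 0).comp
    (tendsto_inv_atTop_zero.comp ((tendsto_pow_atTop hk).comp hW))
  simpa [Function.comp_def] using this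

lemma poly_tendsto {W : ℕ → ℝ} (hW : Tendsto W atTop atTop) {U : ℂ[X]} {κ : ℕ}
    (hU : U.natDegree ≤ κ) (ζ : ℂ) :
    Tendsto (fun j => U.eval (ζ * W j) / (W j : ℂ) ^ κ) atTop (𝓝 (U.coeff κ * ζ ^ κ)) := by
  simp only [eval_eq_sum_range' (Nat.lt_succ_of_le hU), Finset.sum_range_succ, add_div,
    Finset.sum_div]
  have h0 : ∀ᶠ j in atTop, (W j : ℂ) ≠ 0 := (hW.eventually_gt_atTop 0).mono fun j hj => by
    exact_mod_cast hj.ne'
  rw [← zero_add (U.coeff κ * ζ ^ κ), ← Finset.sum_const_zero (s := Finset.range κ)]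
  refine (tendsto_finsetSum _ fun i hi => ?_).add (tendsto_const_nhds.congr' ?_)
  · obtain ⟨k, rfl⟩ := Nat.exists_eq_add_of_lt (Finset.mem_range.1 hi)
    have := (tendsto_inv_pow hW (k := k + 1) (by omega)).const_mul (U.coeff i * ζ ^ i)
    rw [mul_zero] at this
    refine this.congr' (h0.mono fun j hj => ?_)
    field_simp
    ring
  · refine h0.mono fun j hj => ?_
    field_simp
    ring

lemma analytic {W S α : ℕ → ℝ} (hW : Tendsto W atTop atTop) {C : ℝ} {P Q : ℂ[X]} (hQ : Q ≠ 0)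
    (hα : ∀ᶠ j in atTop, α j ^ 2 = 4 * W j ^ 8 ∧ |S j - (W j ^ 240 + W j ^ 144 - W j ^ 120 +
      W j ^ 80 + α j * W j ^ 72)| ≤ C * W j ^ 72)
    (h : ∀ ζ : ℂ, ζ ^ 8 = 1 →
      (fun j => Q.eval (ζ * W j) * S j - P.eval (ζ * W j)) =O[atTop] fun _ => (1 : ℝ)) : False := by
  set U := P - Q * (X ^ 240 + X ^ 144 - X ^ 120 + X ^ 80) with hU
  have h0 := hW.eventually_gt_atTop 0
  let β : ℕ → ℂ := fun j => α j / W j ^ 4
  have hβ : ∀ᶠ j in atTop, β j ^ 2 = 4 := by
    filter_upwards [hα, h0] with j h1 h2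
    have : (W j : ℂ) ≠ 0 := by exact_mod_cast h2.ne'
    have h3 : (α j : ℂ) ^ 2 = 4 * W j ^ 8 := by exact_mod_cast h1.1
    simp only [β]
    field_simp
    exact h3.trans (mul_comm _ _)
  have hβ' : β =O[atTop] fun _ => (1 : ℝ) := IsBigO.of_bound 2 (hβ.mono fun j hj => by
    have := congrArg norm hj
    rw [norm_pow] at this
    simp only [Complex.norm_ofNat, norm_one, mul_one] at this ⊢
    exact le_of_sq_le_sq (by rw [this]; norm_num) (by norm_num))
  have h1 : ∀ ζ : ℂ, ζ ^ 8 = 1 → Tendsto (fun j => U.eval (ζ * W j) / W j ^ (Q.natDegree + 76) -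
      Q.eval (ζ * W j) / W j ^ Q.natDegree * β j) atTop (𝓝 0) := fun ζ hζ => by
    let e : ℕ → ℂ := fun j => ((S j - (W j ^ 240 + W j ^ 144 - W j ^ 120 + W j ^ 80 +
      α j * W j ^ 72)) / W j ^ 72 : ℝ)
    have he : e =O[atTop] fun _ => (1 : ℝ) := IsBigO.of_bound C (by
      filter_upwards [hα, h0] with j h1 h2
      simp only [e, Complex.norm_real, Real.norm_eq_abs, abs_div, abs_one, mul_one]
      rw [abs_of_pos (pow_pos h2 _), div_le_iff₀ (pow_pos h2 _)]
      exact h1.2)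
    have h2 := ((poly_tendsto hW (le_refl Q.natDegree) ζ).isBigO_one ℝ).mul_isLittleO
      (he.mul_isLittleO ((isLittleO_one_iff ℝ).2 (tendsto_inv_pow hW (k := 4) (by omega))))
    have h3 := (h ζ hζ).mul_isLittleO ((isLittleO_one_iff ℝ).2
      (tendsto_inv_pow hW (k := Q.natDegree + 76) (by omega)))
    simp only [mul_one] at h2 h3
    refine ((isLittleO_one_iff ℝ).1 (h2.sub h3)).congr' (h0.mono fun j hj => ?_)
    have h4 : (W j : ℂ) ≠ 0 := by exact_mod_cast hj.ne'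
    have h5 : ∀ k, (ζ * W j) ^ (8 * k) = W j ^ (8 * k) := fun k => by
      rw [mul_pow, pow_mul, hζ, one_pow, one_mul]
    simp only [hU, e, β, eval_sub, eval_mul, eval_add, eval_pow, eval_X, h5 30, h5 18, h5 15, h5 10]
    push_cast
    field_simp
    ring
  have hd : U.natDegree ≤ Q.natDegree + 76 := by
    by_contra! hlt
    obtain ⟨k, hk⟩ := Nat.exists_eq_add_of_lt hlt
    have h2 := ((h1 1 (one_pow _)).isBigO_one ℝ).add
      (by simpa only [mul_one] using ((poly_tendsto hW (le_refl Q.natDegree) 1).isBigO_one ℝ).mul hβ')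
    have h3 := h2.mul_isLittleO ((isLittleO_one_iff ℝ).2 (tendsto_inv_pow hW (k := k + 1) (by omega)))
    simp only [mul_one, sub_add_cancel] at h3
    have h4 := tendsto_nhds_unique (poly_tendsto hW (le_refl U.natDegree) 1)
      (((isLittleO_one_iff ℝ).1 h3).congr fun j => by rw [hk]; ring)
    rw [one_pow, mul_one, coeff_natDegree, leadingCoeff_eq_zero] at h4
    simp [h4] at hlt
  have hc : Q.coeff Q.natDegree ≠ 0 := by simpa using hQ
  have h2 : ∀ ζ : ℂ, ζ ^ 8 = 1 → Tendsto β atTop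
      (𝓝 (U.coeff (Q.natDegree + 76) * ζ ^ 76 / Q.coeff Q.natDegree)) := fun ζ hζ => by
    have hζ0 : ζ ≠ 0 := by rintro rfl; simp at hζ
    have h3 := poly_tendsto hW (le_refl Q.natDegree) ζ
    have h4 := mul_ne_zero hc (pow_ne_zero Q.natDegree hζ0)
    have h5 := ((poly_tendsto hW hd ζ).sub (h1 ζ hζ)).div h3 h4
    convert h5.congr' ((h3.eventually_ne h4).mono fun j hj => ?_) using 2
    · field_simp
      ring
    · simp only [Pi.div_apply, sub_sub_cancel]
      exact mul_div_cancel_left₀ _ hj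
  obtain ⟨ζ, hζ⟩ := IsAlgClosed.exists_pow_nat_eq (-1 : ℂ) (n := 4) (by norm_num)
  have h3 := tendsto_nhds_unique (h2 1 (one_pow _)) (h2 ζ (by rw [pow_mul ζ 4 2, hζ]; norm_num))
  have h4 := (h2 1 (one_pow _)).pow 2
  rw [pow_mul ζ 4 19, hζ] at h3
  have h5 := tendsto_nhds_unique h4 (tendsto_const_nhds.congr' (hβ.mono fun j hj => hj.symm))
  generalize U.coeff (Q.natDegree + 76) = u at h3 h5
  have : u = 0 := by field_simp at h3; linear_combination h3 / 2
  simp [this] at h5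

lemma tendsto_th {ρ : ℕ} (hρ : ρ ≠ 0) : Tendsto (th ρ) atTop atTop := by
  refine (tendsto_rpow_atTop (by positivity)).comp (tendsto_natCast_atTop_atTop.comp
    (tendsto_atTop_mono (fun j => ?_) tendsto_id))
  exact (Nat.self_le_factorial j).trans Nat.lt_two_pow_self.le

variable {m : ℕ} {f : Fin m → R}

theorem not_isRatFun (hf : Algebra.adjoin K (Set.range f) = ⊤) {b : Bool} {k : ℕ} (hk : k ≠ 0)
    {M : MotHat K b (8 * k)} (hM : IsIntegralOrd N f II b (8 * k) M) :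
    ¬ IsRatFun b (8 * k) k M := by
  intro hR
  obtain ⟨n, hn, hM⟩ := hM
  have hρ : 8 * k ≠ 0 := by omega
  rcases of_isRatFun hM hR with h | ⟨P, Q, hQ, h⟩
  · obtain ⟨u, hu, hu'⟩ := real_Fil hρ (one_pow _) (h 1)
    rw [map_one, ← Germ.coe_one, Germ.coe_eq] at hu
    have h1 := hu'.trans_tendsto (by
      simpa [Function.comp_def] using tendsto_inv_atTop_zero.comp (tendsto_th hρ))
    exact one_ne_zero (tendsto_nhds_unique (tendsto_const_nhds.congr' hu) h1)
  obtain ⟨A, hA, h⟩ := ((eventually_gt_atTop 105).and (h 0)).exists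
  let l := 300 * A + ∑ a ∈ Finset.range A, n a
  have hl : ∀ a ∈ Finset.range A, n a ≤ l := fun a ha =>
    (Finset.single_le_sum (fun _ _ => Nat.zero_le _) ha).trans (Nat.le_add_left _ _)
  rw [Finset.sum_congr rfl fun a ha => ((hn a).cl_eq (hl a ha) a).symm] at h
  obtain ⟨C, hC⟩ := count hf (n := l) hA (Nat.le_add_right _ _)
  obtain ⟨α, hα⟩ := hC.choice
  have hq : ∀ j, (qq j : ℝ) = (th (8 * k) j ^ k) ^ 8 := fun j => by
    rw [← pow_mul, mul_comm k, th_pow hρ]
  refine analytic (W := fun j => th (8 * k) j ^ k) (C := C) (α := fun j => α j)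
    (S := fun j => ∑ a ∈ Finset.range A, (cnt j (jet f l '' ordSet II a) : ℝ) *
      (qq j : ℝ) ^ (a - l * 30 : ℤ)) (P := P.map (Int.castRingHom ℂ))
    (Q := Q.map (Int.castRingHom ℂ)) ((tendsto_pow_atTop hk).comp (tendsto_th hρ))
    ((Polynomial.map_ne_zero_iff Int.cast_injective).2 hQ) ?_ fun ζ hζ => ?_
  · filter_upwards [hα] with j ⟨h1, h2⟩
    refine ⟨by rw [← hq]; exact_mod_cast h1, ?_⟩
    generalize ∑ a ∈ Finset.range A, (cnt j (jet f l '' ordSet II a) : ℝ) *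
      (qq j : ℝ) ^ (a - l * 30 : ℤ) = S at h2 ⊢
    simpa only [hq, ← pow_mul (th (8 * k) j ^ k)] using h2
  obtain ⟨ξ, hξ⟩ := IsAlgClosed.exists_pow_nat_eq ζ (Nat.pos_of_ne_zero hk)
  have hξ0 : ξ ≠ 0 := by
    rintro rfl
    rw [zero_pow hk] at hξ
    simp [← hξ] at hζ
  have hξ1 : Units.mk0 ξ hξ0 ^ (8 * k) = 1 := Units.ext (by simp [mul_comm 8, pow_mul, hξ, hζ])
  obtain ⟨u, hu, hu'⟩ := real_Fil hρ hξ1 h
  have e : ∀ p : ℤ[X], real b hρ hξ1 (p.eval₂ (Int.castRingHom _)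
      (cl b (8 * k) (Set.univ : Set (Empty → K)) k)) = ((fun j => (p.map (Int.castRingHom ℂ)).eval
        (ζ * (th (8 * k) j ^ k : ℝ)) : ℕ → ℂ) : Gm) := fun p => by
    let c : (ℕ → ℂ) →+* Gm := Germ.coeRingHom atTop
    rw [hom_eval₂, real_cl hρ hξ1 isCons_univ, Subsingleton.elim (RingHom.comp _ _)
      (c.comp (Int.castRingHom _))]
    refine (hom_eval₂ p _ c _).symm.trans (congrArg c (_root_.funext fun j => ?_))
    refine (hom_eval₂ p _ (Pi.evalRingHom (fun _ : ℕ => ℂ) j) _).trans ?_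
    rw [eval_map, Subsingleton.elim (RingHom.comp _ _) (Int.castRingHom ℂ)]
    simp [cnt_univ, mul_pow, hξ]
  rw [map_sub, map_mul, e, e, map_sum, Finset.sum_congr rfl fun a ha =>
    real_cl hρ hξ1 ((hn a l (hl a ha)).1) _] at hu
  refine (hu'.congr_right fun j => by simp).congr' (EventuallyEq.symm ?_) EventuallyEq.rfl
  rw [← Germ.coe_eq, ← hu]
  refine Eq.trans ?_ (congrArg (_ * · - _) (map_sum (Germ.coeRingHom atTop) _ _))
  refine congrArg (Germ.coeRingHom atTop) (funext fun j => ?_)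
  have h1 : ((ξ : ℂ) * th (8 * k) j) ^ (8 * k) = qq j := by
    rw [mul_pow, mul_comm 8, pow_mul, hξ, hζ, one_mul, mul_comm k]
    exact_mod_cast th_pow hρ j
  rw [pow_mul] at h1
  simp [zpow_mul, h1]

end Pool.Agent.MP_536a45_ag_b
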