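import Pool.Agent.MP_536a45_ag_b.Dim

/-!
Frobenius fixed points in the algebraic closure of the field with two elements.
-/

noncomputable section

namespace Pool.Agent.MP_536a45_ag_b

open MvPolynomial Filter

abbrev K : Type := AlgebraicClosure (ZMod 2)

def fr (j : ℕ) : K →+* K := iterateFrobenius K 2 j.factorial

def qq (j : ℕ) : ℕ := 2 ^ j.factorial

lemma fr_apply (j : ℕ) (x : K) : fr j x = x ^ qq j := rfl

lemma two_le_qq (j : ℕ) : 2 ≤ qq j := by
  have := Nat.factorial_pos j
  calc 2 = 2 ^ 1 := rfl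
    _ ≤ 2 ^ j.factorial := Nat.pow_le_pow_right (by norm_num) this

def Fq (j : ℕ) : Set K := {x | fr j x = x}

lemma Fq_eq (j : ℕ) : Fq j = (Polynomial.X ^ 2 ^ j.factorial - Polynomial.X : Polynomial K).rootSet K := by
  ext x
  rw [Polynomial.mem_rootSet_of_ne
    (FiniteField.X_pow_card_pow_sub_X_ne_zero K (Nat.factorial_ne_zero j) one_lt_two)]
  simp [Fq, fr_apply, qq, sub_eq_zero]

lemma finite_Fq (j : ℕ) : (Fq j).Finite := by
  rw [Fq_eq]; exact Polynomial.rootSet_finite _ _

lemma ncard_Fq (j : ℕ) : (Fq j).ncard = qq j := by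
  rw [Fq_eq, ← Nat.card_coe_set_eq, Nat.card_eq_fintype_card, Polynomial.card_rootSet_eq_natDegree
    (galois_poly_separable 2 _ (dvd_pow_self 2 (Nat.factorial_ne_zero j))) (IsAlgClosed.splits _),
    FiniteField.X_pow_card_pow_sub_X_natDegree_eq K (Nat.factorial_ne_zero j) one_lt_two]
  rfl

lemma ev_fix (x : K) : ∀ᶠ j in atTop, fr j x = x := by
  have hx : IsIntegral (ZMod 2) x := Algebra.IsIntegral.isIntegral x
  let F := IntermediateField.adjoin (ZMod 2) {x}
  have : FiniteDimensional (ZMod 2) F := IntermediateField.adjoin.finiteDimensional hx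
  have : Finite F := Module.finite_of_finite (ZMod 2)
  have := Fintype.ofFinite F
  have hc : Fintype.card F = 2 ^ Module.finrank (ZMod 2) F := by
    rw [Module.card_eq_pow_finrank (K := ZMod 2), ZMod.card]
  have hpos : 0 < Module.finrank (ZMod 2) F := Module.finrank_pos
  filter_upwards [eventually_ge_atTop (Module.finrank (ZMod 2) F)] with j hj
  obtain ⟨c, hc'⟩ := Nat.dvd_factorial hpos hj
  have := FiniteField.pow_card_pow c (⟨x, IntermediateField.mem_adjoin_simple_self _ x⟩ : F)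
  rw [hc, ← pow_mul, ← hc'] at this
  exact congrArg Subtype.val this

variable {ι κ : Type}

lemma ev_fix_poly (p : MvPolynomial ι K) : ∀ᶠ j in atTop, MvPolynomial.map (fr j) p = p := by
  have : ∀ᶠ j in atTop, ∀ m ∈ p.support, fr j (p.coeff m) = p.coeff m :=
    (eventually_all_finset _).2 fun m _ => ev_fix _
  filter_upwards [this] with j hj
  ext m
  rw [coeff_map]
  by_cases hm : m ∈ p.support
  · exact hj m hm
  · rw [notMem_support_iff.1 hm, map_zero]

lemma fr_aeval {j : ℕ} {p : MvPolynomial ι K} (hp : MvPolynomial.map (fr j) p = p) (z : ι → K) :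
    aeval (fr j ∘ z) p = fr j (aeval z p) := by
  conv_lhs => rw [← hp]
  rw [aeval_eq_eval, aeval_eq_eval, MvPolynomial.eval_map, ← MvPolynomial.eval₂_id,
    MvPolynomial.eval₂_comp_left]
  rfl

/-- Frobenius fixed points. -/
def fixs (j : ℕ) (ι : Type) : Set (ι → K) := {z | fr j ∘ z = z}

lemma fixs_eq (j : ℕ) : fixs j ι = Set.univ.pi fun _ => Fq j := by
  ext z; simp [fixs, Fq, funext_iff]

lemma finite_fixs [Finite ι] (j : ℕ) : (fixs j ι).Finite := by
  rw [fixs_eq]; exact Set.Finite.pi fun _ => finite_Fq j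

lemma ncard_fixs [Finite ι] (j : ℕ) : (fixs j ι).ncard = qq j ^ Nat.card ι := by
  have := Fintype.ofFinite ι
  rw [fixs_eq, ← Nat.card_coe_set_eq, Nat.card_congr (Equiv.Set.univPi _), Nat.card_pi]
  simp [ncard_Fq]

/-- The number of Frobenius fixed points. -/
def cnt (j : ℕ) (C : Set (ι → K)) : ℕ := (C ∩ fixs j ι).ncard

lemma IsCons.ev_stable [Finite ι] {C : Set (ι → K)} (hC : IsCons C) :
    ∀ᶠ j in atTop, ∀ z ∈ C, fr j ∘ z ∈ C := by
  obtain ⟨P, hP, hS⟩ := hC.exists_sat
  filter_upwards [(eventually_all_finite hP).2 fun p _ => ev_fix_poly p] with j hj z hz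
  refine hS z _ (fun p hp => ?_) hz
  rw [fr_aeval (hj p hp), map_eq_zero (fr j)]

lemma IsReg.ev_comm [Finite ι] [Finite κ] {C : Set (ι → K)} {φ : (ι → K) → κ → K}
    (h : IsReg C φ) (hC : IsCons C) :
    ∀ᶠ j in atTop, ∀ z ∈ C, φ (fr j ∘ z) = fr j ∘ φ z := by
  choose! p q hq hpq using h
  obtain ⟨s, hs, hspan⟩ := (Submodule.fg_span_iff_fg_span_finset_subset (q '' C)).1
    (IsNoetherian.noetherian (Submodule.span (MvPolynomial ι K) (q '' C)))
  choose! x hx hxq using fun r (hr : r ∈ s) => hs hr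
  have h1 : ∀ᶠ j in atTop, ∀ r ∈ s, MvPolynomial.map (fr j) r = r ∧
      ∀ i, MvPolynomial.map (fr j) (p (x r) i) = p (x r) i :=
    (eventually_all_finset _).2 fun r _ =>
      (ev_fix_poly r).and (eventually_all.2 fun i => ev_fix_poly _)
  filter_upwards [h1, hC.ev_stable] with j hj hst z hz
  obtain ⟨r, hr, hrz⟩ : ∃ r ∈ s, aeval z r ≠ 0 := by
    by_contra! h
    have : q z ∈ Submodule.span (MvPolynomial ι K) (s : Set (MvPolynomial ι K)) :=
      hspan ▸ Submodule.subset_span ⟨z, hz, rfl⟩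
    have h2 : z ∈ zeroLocus K (Ideal.span (s : Set (MvPolynomial ι K))) := by
      rw [zeroLocus_span]; exact h
    exact hq z hz (h2 _ this)
  have hr' : q (x r) = r := hxq r hr
  ext i
  have e1 := hpq (x r) (hx r hr) z hz (by rwa [hr']) i
  have e2 := hpq (x r) (hx r hr) _ (hst z hz) (by
    rw [hr', fr_aeval (hj r hr).1]; simpa using hrz) i
  rw [e2, Function.comp_apply, e1, hr', fr_aeval (hj r hr).1, fr_aeval ((hj r hr).2 i), map_div₀]

lemma cnt_le_of_dimLE [Finite ι] {C : Set (ι → K)} {D : ℕ} (h : DimLE C D) :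
    ∃ c : ℕ, ∀ᶠ j in atTop, cnt j C ≤ c * qq j ^ D := by
  classical
  rcases C.eq_empty_or_nonempty with rfl | hC
  · exact ⟨0, by simp [cnt]⟩
  obtain ⟨s, hs, y, hy⟩ := h.exists_finOver hC
  choose P hP hP' using hy
  have := Fintype.ofFinite ι
  refine ⟨∏ i, (P i).natDegree, ?_⟩
  filter_upwards [eventually_all.2 fun i => ev_fix_poly (y i)] with j hj
  have hf : (C ∩ fixs j ι).Finite := (finite_fixs j).inter_of_right _
  have := Finset.card_le_mul_card_image_of_maps_to (f := pmap y) (s := hf.toFinset)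
    (t := (finite_fixs (ι := Fin s) j).toFinset) (fun z hz => by
      simp only [Set.Finite.mem_toFinset] at hz ⊢
      ext i
      rw [Function.comp_apply, pmap, ← fr_aeval (hj i), hz.2]) (∏ i, (P i).natDegree)
    (fun w _ => by
      refine (Finset.card_le_card (t := Fintype.piFinset fun i =>
        ((P i).map (aeval w : MvPolynomial (Fin s) K →ₐ[K] K).toRingHom).roots.toFinset)
        fun z hz => ?_).trans ?_
      · simp only [Finset.mem_filter, Set.Finite.mem_toFinset] at hz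
        simp only [Fintype.mem_piFinset, Multiset.mem_toFinset]
        intro i
        rw [Polynomial.mem_roots ((hP i).map _).ne_zero, Polynomial.IsRoot, Polynomial.eval_map,
          ← hz.2]
        exact hP' i z hz.1.1
      · rw [Fintype.card_piFinset]
        refine Finset.prod_le_prod' fun i _ => (Multiset.toFinset_card_le _).trans
          ((Polynomial.card_roots' _).trans Polynomial.natDegree_map_le))
  rw [← Set.ncard_eq_toFinset_card _ hf, ← Set.ncard_eq_toFinset_card _ (finite_fixs j),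
    ncard_fixs] at this
  refine this.trans (Nat.mul_le_mul_left _ (Nat.pow_le_pow_right ?_ (by simpa using hs)))
  have := two_le_qq j; omega

/-- Pivot coordinates of a subspace. -/
lemma exists_pivot {k : Type} [Field k] [Fintype ι] (W : Submodule k (ι → k)) :
    ∃ E : Finset ι, E.card = Module.finrank k W ∧ (∀ w ∈ W, (∀ i ∈ E, w i = 0) → w = 0) ∧
      ∀ c : ι → k, ∃ w ∈ W, ∀ i ∈ E, w i = c i := by
  classical
  obtain ⟨E, hE, hmin⟩ := exists_minimal_of_wellFoundedLT
    (fun E : Finset ι => ∀ w ∈ W, (∀ i ∈ E, w i = 0) → w = 0)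
    ⟨Finset.univ, fun w _ h => funext fun i => h i (Finset.mem_univ i)⟩
  have hsingle : ∀ i ∈ E, ∃ w ∈ W, w i = 1 ∧ ∀ i' ∈ E, i' ≠ i → w i' = 0 := by
    intro i hi
    have : ¬ ∀ w ∈ W, (∀ i' ∈ E.erase i, w i' = 0) → w = 0 := fun h =>
      (Finset.notMem_erase i E) (hmin h (Finset.erase_subset i E) hi)
    push Not at this
    obtain ⟨w, hw, h0, hne⟩ := this
    have hwi : w i ≠ 0 := fun h => hne (hE w hw fun i' hi' => by
      by_cases h' : i' = i
      · rw [h', h]
      · exact h0 i' (Finset.mem_erase.2 ⟨h', hi'⟩))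
    refine ⟨(w i)⁻¹ • w, W.smul_mem _ hw, by simp [hwi], fun i' hi' h' => ?_⟩
    simp [h0 i' (Finset.mem_erase.2 ⟨h', hi'⟩)]
  choose! w hw hw1 hw0 using hsingle
  have hsurj : ∀ c : ι → k, ∃ w ∈ W, ∀ i ∈ E, w i = c i := by
    intro c
    refine ⟨∑ i ∈ E, c i • w i, W.sum_mem fun i hi => W.smul_mem _ (hw i hi), fun i hi => ?_⟩
    rw [Finset.sum_apply, Finset.sum_eq_single i]
    · simp [hw1 i hi]
    · intro i' hi' h; simp [hw0 i' hi' i hi h.symm]
    · exact fun h => absurd hi h
  refine ⟨E, ?_, hE, hsurj⟩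
  let f : W →ₗ[k] (E → k) := (LinearMap.funLeft k k Subtype.val).comp W.subtype
  have hf : Function.Bijective f := by
    refine ⟨(injective_iff_map_eq_zero f).2 fun x hx => Subtype.ext
      (hE x x.2 fun i hi => congrFun hx ⟨i, hi⟩), fun c => ?_⟩
    obtain ⟨w, hw, h⟩ := hsurj fun i => if h : i ∈ E then c ⟨i, h⟩ else 0
    exact ⟨⟨w, hw⟩, funext fun i => by simpa [f, i.2] using h i i.2⟩
  rw [(LinearEquiv.ofBijective f hf).finrank_eq]
  simp

/-- Fixed points in a Frobenius stable affine subspace. -/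
lemma cnt_affine [Fintype ι] (j : ℕ) (W : Submodule K (ι → K)) (z : ι → K)
    (h : ∀ y, y - z ∈ W → fr j ∘ y - z ∈ W) :
    cnt j {y | y - z ∈ W} = qq j ^ Module.finrank K W := by
  classical
  obtain ⟨E, hE, hinj, hsurj⟩ := exists_pivot W
  have : qq j ^ Module.finrank K W = (fixs j E).ncard := by rw [ncard_fixs, ← hE]; simp
  rw [this]
  have hinj' : ∀ y y', y - z ∈ W → y' - z ∈ W → (∀ i ∈ E, y i = y' i) → y = y' := by
    intro y y' hy hy' he
    have := hinj _ (W.sub_mem hy hy') fun i hi => by simp [he i hi]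
    simpa [sub_eq_zero] using this
  refine Set.ncard_congr (fun y _ => y ∘ Subtype.val) (fun y hy => ?_) (fun y y' hy hy' he => ?_)
    (fun c hc => ?_)
  · ext i; exact congrFun hy.2 i
  · exact hinj' y y' hy.1 hy'.1 fun i hi => congrFun he ⟨i, hi⟩
  · obtain ⟨w, hw, hw'⟩ := hsurj fun i => (if h : i ∈ E then c ⟨i, h⟩ else 0) - z i
    have h1 : w + z - z ∈ W := by simpa using hw
    have h2 : ∀ i (hi : i ∈ E), (w + z) i = c ⟨i, hi⟩ := fun i hi => by simp [hw' i hi, hi]
    refine ⟨w + z, ⟨h1, hinj' _ _ (h _ h1) h1 fun i hi => ?_⟩, funext fun i => h2 i i.2⟩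
    rw [Function.comp_apply, h2 i hi]
    exact congrFun hc ⟨i, hi⟩

end Pool.Agent.MP_536a45_ag_b
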