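import Pool.Agent.MP_536a45_ag_b.Omega

/-!
Facts on the group; integrality.
-/

noncomputable section

namespace Pool.Agent.MP_536a45_ag_b

open MvPolynomial Matrix Module

attribute [-simp] MvPolynomial.aeval_eq_bind₁

lemma x_eq_zero_of_act {g : G0} (hg : g ≠ 0) {w : N → K} (h : act (emb K g) w = w) (p : I5) :
    w (Sum.inl p) = 0 := by
  have : phM (emb K g) *ᵥ (fun b => w (Sum.inl (p.1, b))) = 0 := funext fun a => by
    have := congrFun h (Sum.inr (p.1, a))
    rw [act_inr, add_eq_left, sum_mxv_K] at this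
    exact this
  exact congrFun (phM_emb_inj hg this) p.2

lemma repM_inj : Function.Injective repM.toHomUnits := by
  refine (injective_iff_map_eq_one _).2 fun g hg => ?_
  by_contra h
  have h1 : Bm (emb K g.toAdd) = 1 := congrArg Units.val hg
  have := x_eq_zero_of_act (g := g.toAdd) h (w := fun _ => 1) (by rw [← Bm_mulVec, h1, one_mulVec])
    (0, 0)
  exact one_ne_zero this

lemma card_GG : Nat.card GG = 8 := by
  rw [GG, ← Nat.card_congr (MonoidHom.ofInjective repM_inj).toEquiv]
  simp

lemma finite_GG : Finite GG := Nat.finite_of_card_ne_zero (by rw [card_GG]; norm_num)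

lemma finrank_le_of_proj {ι κ : Type} [Fintype κ] (W : Submodule K (ι → K)) (e : κ → ι)
    (h : ∀ w ∈ W, (∀ i, w (e i) = 0) → w = 0) : finrank K W ≤ Fintype.card κ := by
  have := LinearMap.finrank_le_finrank_of_injective
    (f := (LinearMap.funLeft K K e).comp W.subtype)
    ((injective_iff_map_eq_zero _).2 fun w hw => Subtype.ext (h w w.2 fun i => congrFun hw i))
  simpa using this

lemma no_refl : ∀ g ∈ GG, finrank K (LinearMap.ker (toLin' ((g : Matrix N N K) - 1))) + 1 ≠
    Fintype.card N := by
  rintro _ ⟨g, rfl⟩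
  have e : ((repM.toHomUnits g : GL N K) : Matrix N N K) = Bm (emb K g.toAdd) := rfl
  rw [e]
  by_cases hg : g.toAdd = 0
  · have e2 : toLin' (Bm (emb K g.toAdd) - 1) = 0 := by
      rw [hg, emb_zero, Bm_zero, sub_self, map_zero]
    rw [e2, LinearMap.ker_zero]
    simp
  · have := finrank_le_of_proj (LinearMap.ker (toLin' (Bm (emb K g.toAdd) - 1))) Sum.inr
      fun w hw h0 => by
        rw [LinearMap.mem_ker, toLin'_apply, sub_mulVec, one_mulVec, sub_eq_zero, Bm_mulVec] at hw
        ext (p | p)
        · exact x_eq_zero_of_act hg hw p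
        · exact h0 p
    have h1 : Fintype.card N = 30 := by simp
    have h2 : Fintype.card I5 = 15 := by simp
    rw [h1]
    rw [h2] at this
    intro h
    have := (Nat.succ_le_succ this).trans' h.ge
    omega

lemma rank_ne_one : ∀ g ∈ GG, ((g : Matrix N N K) - 1).rank ≠ 1 := fun g hg h => by
  have h1 := LinearMap.finrank_range_add_finrank_ker (toLin' ((g : Matrix N N K) - 1))
  rw [toLin'_apply', ← Matrix.rank, h, finrank_fintype_fun_eq_card, add_comm] at h1
  exact no_refl g hg (by rw [toLin'_apply']; exact h1)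

lemma Nq_eq {A : Type} [CommRing A] [Algebra K A] (c : Fin 3 → A) (T : A) :
    Nq c T = ∏ g : G0, (T + ∑ i, emb A g i * c i) := by
  have : (Finset.univ : Finset G0) = {![0, 0, 0], ![1, 0, 0], ![0, 1, 0], ![0, 0, 1], ![1, 1, 0],
    ![1, 0, 1], ![0, 1, 1], ![1, 1, 1]} := by decide
  rw [this, Finset.prod_insert (by decide), Finset.prod_insert (by decide),
    Finset.prod_insert (by decide), Finset.prod_insert (by decide), Finset.prod_insert (by decide),
    Finset.prod_insert (by decide), Finset.prod_insert (by decide), Finset.prod_singleton]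
  simp [Nq, Pq, emb, Fin.sum_univ_three]
  ring

lemma TT_single {A : Type} [CommRing A] [Algebra K A] (p : I5) (w : N → A) :
    TT (Pi.single p 1) w = w (Sum.inr p) := by
  rw [TT, Finset.sum_eq_single p] <;> simp +contextual

instance : Algebra.IsIntegral R B := by
  refine ⟨fun h => ?_⟩
  induction h using MvPolynomial.induction_on with
  | C c => exact isIntegral_algebraMap (x := algebraMap K R c)
  | add p q hp hq => exact hp.add hq
  | mul_X h p hp =>
    refine hp.mul ?_
    rcases p with p | p
    · exact isIntegral_algebraMap (x := xR p)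
    · refine ⟨∏ g : G0, (Polynomial.X + Polynomial.C (∑ i, emb R g i * cR (Pi.single p 1) i)) -
        Polynomial.C (NR (Pi.single p 1)), ?_, ?_⟩
      · have hm : ∀ g ∈ (Finset.univ : Finset G0), (Polynomial.X + Polynomial.C
            (∑ i, emb R g i * cR (Pi.single p 1) i)).Monic := fun g _ => Polynomial.monic_X_add_C _
        refine (Polynomial.monic_prod_of_monic _ _ hm).sub_of_left ?_
        refine Polynomial.degree_C_le.trans_lt ?_
        rw [Polynomial.degree_prod_of_monic _ _ hm]
        simp only [Polynomial.degree_X_add_C]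
        simp
      · rw [← Polynomial.aeval_def, map_sub, map_prod, sub_eq_zero, Polynomial.aeval_C]
        change _ = Nq _ _
        rw [Nq_eq, TT_single]
        refine Finset.prod_congr rfl fun g _ => ?_
        rw [map_add, Polynomial.aeval_X, Polynomial.aeval_C, map_sum]
        rfl

lemma finiteType_R : Algebra.FiniteType K R := by
  have : Algebra.FiniteType R B := Algebra.FiniteType.of_restrictScalars_finiteType K R B
  have : Module.Finite R B := Algebra.IsIntegral.finite
  exact ⟨fg_of_fg_of_fg K R B Algebra.FiniteType.out Module.Finite.fg_top Subtype.val_injective⟩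

lemma DM_inr_zero {A : Type} [CommRing A] [Algebra K A] {α : Type} (v : N → A)
    (hv : ∀ p, v (Sum.inl p) = 0) (h : α → R) (i : α) (q : I5) : DM v h i (Sum.inr q) = 0 := by
  have e : act (emb A ![1, 0, 0]) v = v := by
    ext (p | p)
    · rfl
    · simp [mxv, hv]
  have := congrFun (congrFun (DM_act v h ![1, 0, 0]) i) (Sum.inl (q.1, q.2 + 1))
  rw [e, mul_apply, Fintype.sum_sum_type, Finset.sum_eq_single (q.1, q.2 + 1),
    Finset.sum_eq_single q] at this
  · obtain ⟨c, b⟩ := q
    fin_cases b <;> simpa [Bm, emb, Fin.sum_univ_three, Mx] using this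
  · rintro ⟨c', b'⟩ _ hp
    obtain ⟨c, b⟩ := q
    by_cases hc : c' = c
    · subst hc
      fin_cases b <;> fin_cases b' <;> simp [Bm, emb, Fin.sum_univ_three, Mx] at hp ⊢
    · simp [Bm, hc]
  · simp
  · intro p _ hp; simp [Bm, one_apply, hp]
  · simp

lemma Jac_mem_span (h : N → R) :
    (Jac h : B) ∈ Ideal.span (Set.range fun p : I5 => (X (Sum.inl p) : B)) := by
  set I := Ideal.span (Set.range fun p : I5 => (X (Sum.inl p) : B))
  have e : ∀ p : B, Ideal.Quotient.mkₐ K I p = aeval (fun q => Ideal.Quotient.mkₐ K I (X q)) p :=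
    fun p => by conv_lhs => rw [← aeval_X_left_apply p, algHom_aeval]
  rw [← Ideal.Quotient.eq_zero_iff_mem]
  change Ideal.Quotient.mkₐ K I _ = 0
  rw [e, aeval_Jac]
  exact det_eq_zero_of_column_eq_zero (Sum.inr (0, 0)) fun i => DM_inr_zero _ (fun p =>
    Ideal.Quotient.eq_zero_iff_mem.2 (Ideal.subset_span (Set.mem_range_self p))) h i _

lemma Jac_eq_zero {A : Type} [CommRing A] [IsDomain A] [Algebra K A] (γ : R →ₐ[K] A)
    (hγ : ∀ p, γ (xR p) = 0) (h : N → R) : γ (Jac h) = 0 := by
  have := RingHom.ker_isPrime (γ : R →+* A)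
  obtain ⟨Q, -, -, hQ⟩ := Ideal.exists_ideal_over_prime_of_isIntegral (S := B)
    (RingHom.ker (γ : R →+* A)) ⊥ (fun x hx => by
      rw [show x = 0 from Subtype.ext hx]; exact zero_mem _)
  have h1 : Ideal.span (Set.range fun p : I5 => (X (Sum.inl p) : B)) ≤ Q := by
    rw [Ideal.span_le]
    rintro _ ⟨p, rfl⟩
    have : xR p ∈ Q.comap (algebraMap R B) := by rw [hQ]; exact hγ p
    exact this
  have : Jac h ∈ Q.comap (algebraMap R B) := h1 (Jac_mem_span h)
  rwa [hQ] at this

end Pool.Agent.MP_536a45_ag_b
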