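import Pool.Agent.MP_536a45_ag_b.Frob

/-!
Hahn series with rational exponents over `K`.
-/

noncomputable section

namespace Pool.Agent.MP_536a45_ag_b

open HahnSeries

instance (priority := high) algH {A : Type} [CommRing A] [Algebra K A] :
    Algebra K (HahnSeries ℚ A) := HahnSeries.instAlgebra

abbrev H : Type := HahnSeries ℚ K

lemma two_K : (2 : K) = 0 := CharTwo.two_eq_zero

lemma two_alg (A : Type) [CommRing A] [Algebra K A] : (2 : A) = 0 := by
  rw [← map_ofNat (algebraMap K A) 2, two_K, map_zero]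

lemma add_self_alg {A : Type} [CommRing A] [Algebra K A] (x : A) : x + x = 0 := by
  rw [← two_mul, two_alg, zero_mul]

lemma algebraMap_H (c : K) : algebraMap K H c = single 0 c := rfl

/-- Order at least `s`. -/
def Ge (s : ℚ) (z : H) : Prop := ∀ γ < s, z.coeff γ = 0

/-- Order at most `s`. -/
def Le (s : ℚ) (z : H) : Prop := ∃ γ ≤ s, z.coeff γ ≠ 0

lemma ge_iff {s : ℚ} {z : H} : Ge s z ↔ (s : WithTop ℚ) ≤ z.orderTop := by
  simp [Ge, le_orderTop_iff_forall]

lemma le_iff {s : ℚ} {z : H} : Le s z ↔ z.orderTop ≤ s := by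
  constructor
  · rintro ⟨γ, h, h'⟩
    exact (orderTop_le_of_coeff_ne_zero h').trans (by exact_mod_cast h)
  · intro h
    obtain ⟨γ, hγ⟩ := WithTop.ne_top_iff_exists.1 (ne_top_of_le_ne_top WithTop.coe_ne_top h)
    exact ⟨γ, by rw [← hγ] at h; exact_mod_cast h, coeff_orderTop_ne hγ.symm⟩

lemma Ge.mono {s t : ℚ} {z : H} (h : Ge s z) (ht : t ≤ s) : Ge t z :=
  fun γ hγ => h γ (hγ.trans_le ht)

lemma Le.mono {s t : ℚ} {z : H} (h : Le s z) (ht : s ≤ t) : Le t z :=
  let ⟨γ, h1, h2⟩ := h; ⟨γ, h1.trans ht, h2⟩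

lemma ge_zero (s : ℚ) : Ge s 0 := fun _ _ => rfl

lemma Ge.add {s : ℚ} {z w : H} (h : Ge s z) (h' : Ge s w) : Ge s (z + w) :=
  fun γ hγ => by simp [h γ hγ, h' γ hγ]

lemma Ge.neg {s : ℚ} {z : H} (h : Ge s z) : Ge s (-z) := fun γ hγ => by simp [h γ hγ]

lemma Ge.sub {s : ℚ} {z w : H} (h : Ge s z) (h' : Ge s w) : Ge s (z - w) :=
  fun γ hγ => by simp [h γ hγ, h' γ hγ]

lemma Ge.sum {s : ℚ} {α : Type*} {t : Finset α} {z : α → H} (h : ∀ a ∈ t, Ge s (z a)) :
    Ge s (∑ a ∈ t, z a) :=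
  Finset.sum_induction _ _ (fun _ _ => Ge.add) (ge_zero s) h

lemma Ge.mul {s t : ℚ} {z w : H} (h : Ge s z) (h' : Ge t w) : Ge (s + t) (z * w) := by
  rw [ge_iff] at *
  rw [orderTop_mul, WithTop.coe_add]
  exact add_le_add h h'

lemma Ge.mul_left {s : ℚ} {z w : H} (h : Ge 0 z) (h' : Ge s w) : Ge s (z * w) := by
  simpa using h.mul h'

lemma Ge.mul_right {s : ℚ} {z w : H} (h : Ge s z) (h' : Ge 0 w) : Ge s (z * w) := by
  simpa using h.mul h'

lemma Le.mul {s t : ℚ} {z w : H} (h : Le s z) (h' : Le t w) : Le (s + t) (z * w) := by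
  rw [le_iff] at *
  rw [orderTop_mul, WithTop.coe_add]
  exact add_le_add h h'

lemma Le.ne_zero {s : ℚ} {z : H} (h : Le s z) : z ≠ 0 := by
  rintro rfl
  obtain ⟨γ, -, h⟩ := h
  exact h rfl

lemma Ge.not_le {s t : ℚ} {z : H} (h : Ge s z) (ht : t < s) : ¬ Le t z :=
  fun ⟨γ, h1, h2⟩ => h2 (h γ (h1.trans_lt ht))

lemma Ge.le_of_le {s t : ℚ} {z : H} (h : Ge s z) (h' : Le t z) : s ≤ t :=
  not_lt.1 fun ht => h.not_le ht h'

lemma ge_of_not_le {s : ℚ} {z : H} (h : ¬ Le s z) : Ge s z :=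
  fun γ hγ => by_contra fun h' => h ⟨γ, hγ.le, h'⟩

lemma Ge.of_mul {s e : ℚ} {c z : H} (h : Ge s (c * z)) (hc : Le e c) : Ge (s - e) z := by
  intro γ hγ
  by_contra h'
  exact h.not_le (by linarith) (hc.mul ⟨γ, le_rfl, h'⟩)

lemma Le.add_ge {s t : ℚ} {z w : H} (h : Le s z) (h' : Ge t w) (hst : s < t) : Le s (z + w) := by
  obtain ⟨γ, h1, h2⟩ := h
  exact ⟨γ, h1, by simpa [h' γ (h1.trans_lt hst)] using h2⟩

lemma Le.of_sub {s t : ℚ} {z w : H} (h : Le s z) (h' : Ge t (w - z)) (hst : s < t) : Le s w := by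
  simpa using h.add_ge h' hst

lemma Le.of_mul_right {s : ℚ} {z w : H} (h : Le s (z * w)) (hw : Ge 0 w) : Le s z := by
  rw [le_iff] at *
  rw [ge_iff] at hw
  rw [orderTop_mul] at h
  exact (le_add_of_nonneg_right hw).trans h

lemma ge_single (s : ℚ) (c : K) : Ge s (single s c) :=
  fun _ hγ => coeff_single_of_ne hγ.ne

lemma le_one : Le 0 1 := ⟨0, le_rfl, by simp⟩

lemma Le.prod {s : ℚ} {α : Type*} {t : Finset α} {z : α → H} (h : ∀ a ∈ t, Le s (z a)) :
    Le (t.card * s) (∏ a ∈ t, z a) := by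
  classical
  induction t using Finset.induction_on with
  | empty => simpa using le_one
  | insert a t ha ih =>
    rw [Finset.prod_insert ha, Finset.card_insert_of_notMem ha]
    convert (h a (by simp)).mul (ih fun b hb => h b (by simp [hb])) using 1
    push_cast; ring

lemma Le.pow {s : ℚ} {z : H} (h : Le s z) (n : ℕ) : Le (n * s) (z ^ n) := by
  simpa using Le.prod (t := Finset.range n) (z := fun _ => z) fun _ _ => h

lemma coeff_mul_of_ge {s t : ℚ} {z w : H} (h : Ge s z) (h' : Ge t w) :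
    (z * w).coeff (s + t) = z.coeff s * w.coeff t := by
  rw [coeff_mul, Finset.sum_eq_single (s, t)]
  · intro p hp hne
    simp only [Finset.mem_antidiagonal, mem_support] at hp
    have h1 : s ≤ p.1 := not_lt.1 fun h1 => hp.1 (h _ h1)
    have h2 : t ≤ p.2 := not_lt.1 fun h1 => hp.2.1 (h' _ h1)
    exact absurd (Prod.ext (by linarith [hp.2.2]) (by linarith [hp.2.2])) hne
  · intro h1
    simp only [Finset.mem_antidiagonal, mem_support, and_true, not_and, not_not] at h1
    by_cases h2 : z.coeff s = 0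
    · simp [h2]
    · simp [h1 h2]

instance : CharP H 2 := charP_of_injective_algebraMap (algebraMap K H).injective 2

/-- The valuation ring. -/
def OS : Subalgebra K H where
  carrier := {z | Ge 0 z}
  mul_mem' h h' := Ge.mul_left h h'
  add_mem' h h' := Ge.add h h'
  algebraMap_mem' c := ge_single 0 c

lemma mem_OS {z : H} : z ∈ OS ↔ Ge 0 z := Iff.rfl

/-- Integral exponents only. -/
def ZS : Subalgebra K H where
  carrier := {z | ∀ γ, z.coeff γ ≠ 0 → ∃ n : ℤ, γ = n}
  mul_mem' {z w} h h' γ hγ := by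
    obtain ⟨a, ha, b, hb, rfl⟩ := support_mul_subset hγ
    obtain ⟨n, rfl⟩ := h a ha
    obtain ⟨m, rfl⟩ := h' b hb
    exact ⟨n + m, by simp⟩
  add_mem' {z w} h h' γ hγ := by
    by_cases hz : z.coeff γ = 0
    · exact h' γ (by simpa [hz] using hγ)
    · exact h γ hz
  algebraMap_mem' c γ hγ := ⟨0, by
    by_contra h
    exact hγ (coeff_single_of_ne (by simpa using h))⟩

lemma mem_ZS {z : H} : z ∈ ZS ↔ ∀ γ, z.coeff γ ≠ 0 → ∃ n : ℤ, γ = n := Iff.rfl

lemma single_mem_ZS (n : ℤ) (c : K) : single (n : ℚ) c ∈ ZS := fun _ hγ =>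
  ⟨n, by_contra fun h => hγ (coeff_single_of_ne h)⟩

/-- No integral exponents. -/
def NZ (z : H) : Prop := ∀ n : ℤ, z.coeff n = 0

lemma NZ.add {z w : H} (h : NZ z) (h' : NZ w) : NZ (z + w) := fun n => by simp [h n, h' n]

lemma NZ.sub {z w : H} (h : NZ z) (h' : NZ w) : NZ (z - w) := fun n => by simp [h n, h' n]

lemma NZ.sum {α : Type*} {t : Finset α} {z : α → H} (h : ∀ a ∈ t, NZ (z a)) :
    NZ (∑ a ∈ t, z a) :=
  Finset.sum_induction _ _ (fun _ _ => NZ.add) (fun _ => rfl) h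

lemma NZ.mul {z w : H} (h : NZ z) (h' : w ∈ ZS) : NZ (z * w) := by
  intro n
  by_contra hn
  obtain ⟨a, ha, b, hb, hab⟩ := support_mul_subset hn
  obtain ⟨m, rfl⟩ := h' b hb
  have : a = ((n - m : ℤ) : ℚ) := by push_cast; exact eq_sub_of_add_eq hab
  exact ha (this ▸ h _)

lemma ge_of_add {s : ℚ} {z w : H} (hz : z ∈ ZS) (hw : NZ w) (h : Ge s (z + w)) :
    Ge s z ∧ Ge s w := by
  have h1 : Ge s z := fun γ hγ => by
    by_contra h'
    obtain ⟨n, rfl⟩ := hz γ h'
    exact h' (by simpa [hw n] using h _ hγ)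
  exact ⟨h1, by simpa using h.sub h1⟩

open Classical in
/-- The integral part. -/
def ip (z : H) : H where
  coeff γ := if ∃ n : ℤ, γ = n then z.coeff γ else 0
  isPWO_support' := z.isPWO_support.mono fun γ hγ => by
    simp only [Function.mem_support, ne_eq, ite_eq_right_iff, Classical.not_imp] at hγ
    exact hγ.2

lemma div_mem_ZS {z c : H} (hz : z ∈ ZS) (hc : c ∈ ZS) : z / c ∈ ZS := by
  rcases eq_or_ne c 0 with rfl | hc0
  · simp
  have h1 : ip (z / c) ∈ ZS := fun γ hγ => by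
    by_contra h; exact hγ (by simp only [ip]; rw [if_neg h])
  have h2 : NZ (z / c - ip (z / c)) := fun n => by
    simp only [coeff_sub, ip]; rw [if_pos ⟨n, rfl⟩, sub_self]
  have h3 : (z / c - ip (z / c)) * c = 0 := by
    have h4 : (z / c - ip (z / c)) * c ∈ ZS := by
      rw [sub_mul, div_mul_cancel₀ _ hc0]
      exact sub_mem hz (mul_mem h1 hc)
    ext γ
    by_contra h
    obtain ⟨n, rfl⟩ := h4 γ h
    exact h (h2.mul hc n)
  rw [sub_eq_zero.1 ((mul_eq_zero.1 h3).resolve_right hc0)]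
  exact h1

lemma ge_succ_of_not_le {a : ℤ} {z : H} (hz : z ∈ ZS) (h : ¬ Le a z) : Ge (a + 1) z := by
  intro γ hγ
  by_contra h'
  obtain ⟨n, rfl⟩ := hz γ h'
  exact h ⟨n, by have : n < a + 1 := by exact_mod_cast hγ
                 exact_mod_cast (by omega : n ≤ a), h'⟩

/-- Power series as Hahn series. -/
def toH : PowerSeries K →ₐ[K] H := ofPowerSeriesAlg ℚ K

lemma toH_coeff (p : PowerSeries K) (n : ℕ) : (toH p).coeff n = PowerSeries.coeff n p :=
  ofPowerSeries_apply_coeff p n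

lemma toH_coeff_ne {p : PowerSeries K} {γ : ℚ} (h : (toH p).coeff γ ≠ 0) : ∃ n : ℕ, γ = n := by
  by_contra! h'
  refine h (embDomain_of_notMem_range ?_)
  rintro ⟨n, hn⟩
  exact h' n hn.symm

lemma toH_injective : Function.Injective toH := ofPowerSeries_injective

lemma toH_mem_ZS (p : PowerSeries K) : toH p ∈ ZS := fun γ h =>
  let ⟨n, hn⟩ := toH_coeff_ne h; ⟨n, by simpa using hn⟩

lemma ge_toH_iff {p : PowerSeries K} {n : ℕ} : Ge n (toH p) ↔ (n : ℕ∞) ≤ p.order := by
  constructor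
  · intro h
    exact PowerSeries.nat_le_order _ _ fun i hi => by
      rw [← toH_coeff]; exact h _ (by exact_mod_cast hi)
  · intro h γ hγ
    by_contra h'
    obtain ⟨i, rfl⟩ := toH_coeff_ne h'
    rw [toH_coeff] at h'
    exact h' (PowerSeries.coeff_of_lt_order _ (lt_of_lt_of_le (by exact_mod_cast hγ) h))

lemma ge_toH (p : PowerSeries K) : Ge 0 (toH p) := by
  simpa using (ge_toH_iff (p := p) (n := 0)).2 (by simp)

lemma exists_toH {z : H} (hz : z ∈ ZS) (h : Ge 0 z) : ∃ p, toH p = z := by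
  refine ⟨PowerSeries.mk fun n => z.coeff n, ?_⟩
  ext γ
  by_cases hγ : ∃ n : ℕ, γ = n
  · obtain ⟨n, rfl⟩ := hγ
    simp [toH_coeff]
  · have h1 : z.coeff γ = 0 := by
      by_contra h'
      obtain ⟨n, rfl⟩ := hz γ h'
      have : 0 ≤ n := by
        by_contra hn
        exact h' (h _ (by exact_mod_cast not_le.1 hn))
      lift n to ℕ using this
      exact hγ ⟨n, by simp⟩
    rw [h1]
    by_contra h'
    exact hγ (toH_coeff_ne h')

lemma coeff_sq (z : H) (γ : ℚ) : (z ^ 2).coeff γ = z.coeff (γ / 2) ^ 2 := by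
  classical
  rw [sq, coeff_mul, ← Finset.sum_filter_add_sum_filter_not _ (fun p : ℚ × ℚ => p.1 = p.2)]
  rw [Finset.sum_involution (s := Finset.filter (fun p : ℚ × ℚ => ¬ p.1 = p.2) _)
    (fun p _ => p.swap), add_zero]
  · by_cases h : z.coeff (γ / 2) = 0
    · rw [h, zero_pow two_ne_zero]
      refine Finset.sum_eq_zero fun p hp => ?_
      simp only [Finset.mem_filter, Finset.mem_antidiagonal] at hp
      have : p.1 = γ / 2 := by linarith [hp.1.2.2, hp.2]
      rw [this, h, zero_mul]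
    · rw [Finset.sum_eq_single (γ / 2, γ / 2), sq]
      · intro p hp hne
        simp only [Finset.mem_filter, Finset.mem_antidiagonal] at hp
        exact absurd (Prod.ext (by linarith [hp.1.2.2, hp.2]) (by linarith [hp.1.2.2, hp.2])) hne
      · intro h'
        exact absurd (by simp [Finset.mem_antidiagonal, h]) h'
  · intro p _
    simp [mul_comm, CharTwo.add_self_eq_zero]
  · intro p hp _ h
    exact (Finset.mem_filter.1 hp).2 (congrArg Prod.snd h)
  · intro p hp
    simp only [Finset.mem_filter, Finset.mem_antidiagonal] at hp ⊢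
    exact ⟨⟨hp.1.2.1, hp.1.1, by simpa [add_comm] using hp.1.2.2⟩, fun h => hp.2 h.symm⟩
  · intro p _; rfl

/-- Coefficientwise ring homomorphisms. -/
def mapH {A B : Type} [CommRing A] [CommRing B] (φ : A →+* B) :
    HahnSeries ℚ A →+* HahnSeries ℚ B where
  toFun z := z.map φ
  map_one' := HahnSeries.map_one φ.toMonoidWithZeroHom
  map_mul' _ _ := HahnSeries.map_mul φ.toNonUnitalRingHom
  map_zero' := by ext; simp
  map_add' _ _ := HahnSeries.map_add φ.toAddMonoidHom

@[simp] lemma mapH_coeff {A B : Type} [CommRing A] [CommRing B] (φ : A →+* B)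
    (z : HahnSeries ℚ A) (γ : ℚ) : (mapH φ z).coeff γ = φ (z.coeff γ) := rfl

lemma mapH_single {A B : Type} [CommRing A] [CommRing B] (φ : A →+* B) (γ : ℚ) (c : A) :
    mapH φ (single γ c) = single γ (φ c) := HahnSeries.map_single φ.toZeroHom

/-- Artin-Schreier: a small value of `z ^ 2 + z`. -/
lemma as_small {s : ℚ} {z : H} (h : Ge s (z ^ 2 + z)) : Ge s z ∨ Ge s (z + 1) := by
  have e : z ^ 2 + z = z * (z + 1) := by ring
  by_cases h1 : Le 0 z
  · right
    rw [e] at h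
    have := h.of_mul h1
    rwa [sub_zero] at this
  · left
    have h2 : Le 0 (z + 1) := ⟨0, le_rfl, by
      have : z.coeff 0 = 0 := by_contra fun h => h1 ⟨0, le_rfl, h⟩
      simp [this]⟩
    rw [e, mul_comm] at h
    have := h.of_mul h2
    rwa [sub_zero] at this

end Pool.Agent.MP_536a45_ag_b
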