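import Mathlib

/-!
The index of a matrix of power series.
-/

noncomputable section

namespace Pool.Agent.MP_536a45_ag_b

open PowerSeries Matrix Module

variable {k : Type} [Field k]

lemma finrank_quot_ps {a : k⟦X⟧} {e : ℕ} (ha : a.order = e) :
    Nonempty ((k⟦X⟧ ⧸ Ideal.span {a}) ≃ₗ[k] (Fin e → k)) := by
  let tr : k⟦X⟧ →ₗ[k] (Fin e → k) := LinearMap.pi fun i => coeff (i : ℕ)
  have hs : Function.Surjective tr := fun c =>
    ⟨PowerSeries.mk fun i => if h : i < e then c ⟨i, h⟩ else 0, funext fun i => by simp [tr]⟩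
  have hk : LinearMap.ker tr = (Ideal.span {a}).restrictScalars k := by
    ext w
    have h1 : (X : k⟦X⟧) ^ e ∣ w ↔ a ∣ w := by
      have := (X_pow_order_mul_divXPowOrder (f := a))
      rw [ha, ENat.toNat_natCast] at this
      rw [← this]
      exact (IsUnit.mul_right_dvd (isUnit_divided_by_X_pow_order (by
        rintro rfl; simp at ha))).symm
    simp only [LinearMap.mem_ker, Submodule.restrictScalars_mem, Ideal.mem_span_singleton, ← h1,
      X_pow_dvd_iff, funext_iff, tr, LinearMap.pi_apply, Pi.zero_apply]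
    exact ⟨fun h m hm => h ⟨m, hm⟩, fun h i => h i i.2⟩
  exact ⟨(Submodule.Quotient.restrictScalarsEquiv k _).symm.trans
    ((Submodule.quotEquivOfEq _ _ hk.symm).trans (tr.quotKerEquivOfSurjective hs))⟩

variable {n : Type} [Fintype n] [DecidableEq n]

lemma finrank_coker {D : Matrix n n k⟦X⟧} {e : ℕ} (hD : D.det.order = e) :
    finrank k ((n → k⟦X⟧) ⧸ LinearMap.range D.mulVecLin) = e := by
  have h0 : D.det ≠ 0 := by rintro h; simp [h] at hD
  have hinj : Function.Injective D.mulVecLin := (injective_iff_map_eq_zero _).2 fun v hv =>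
    Matrix.eq_zero_of_mulVec_eq_zero h0 hv
  let E := LinearEquiv.ofInjective _ hinj
  have h : finrank k⟦X⟧ (LinearMap.range D.mulVecLin) = finrank k⟦X⟧ (n → k⟦X⟧) :=
    E.symm.finrank_eq
  let b := Pi.basisFun k⟦X⟧ n
  let a := Submodule.smithNormalFormCoeffs b h
  let b' := Submodule.smithNormalFormTopBasis b h
  let ab := Submodule.smithNormalFormBotBasis b h
  have ha0 : ∀ i, a i ≠ 0 := Submodule.smithNormalFormCoeffs_ne_zero b h
  have hdet : Associated D.det (∏ i, a i) := by
    have h1 := LinearMap.associated_det_comp_equiv (LinearMap.range D.mulVecLin).subtype E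
      (b'.equiv ab (Equiv.refl _))
    have h2 : (LinearMap.range D.mulVecLin).subtype ∘ₗ E.toLinearMap = D.mulVecLin := rfl
    have h3 : (LinearMap.range D.mulVecLin).subtype ∘ₗ (b'.equiv ab (Equiv.refl _)).toLinearMap =
        Matrix.toLin b' b' (diagonal a) := b'.ext fun i => by
      simp [ab, a, b', Matrix.toLin_self, diagonal_apply]
    rwa [h2, h3, LinearMap.det_toLin, det_diagonal, ← Matrix.toLin'_apply',
      LinearMap.det_toLin'] at h1
  have ha : ∀ i, (a i).order = ((a i).order.toNat : ℕ) := fun i => (coe_toNat_order (ha0 i)).symm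
  have hF := fun i => (finrank_quot_ps (ha i)).some
  have : ∀ i, Module.Finite k (k⟦X⟧ ⧸ Ideal.span {a i}) := fun i => Module.Finite.equiv (hF i).symm
  rw [Submodule.finrank_quotient_eq_sum k b h]
  have h4 : ∀ i, finrank k (k⟦X⟧ ⧸ Ideal.span {a i}) = (a i).order.toNat := fun i => by
    rw [(hF i).finrank_eq]; simp
  have h5 : D.det.order = (∏ i, a i).order := by
    obtain ⟨u, hu⟩ := hdet
    rw [← hu, order_mul, order_zero_of_unit u.isUnit, add_zero]
  rw [hD, order_prod, Finset.sum_congr rfl fun i _ => ha i] at h5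
  exact (Finset.sum_congr rfl fun i _ => h4 i).trans (by exact_mod_cast h5.symm)

/-- Polynomial lift of a truncated vector. -/
def liftP (T : ℕ) : (n × Fin T → k) →ₗ[k] n → k⟦X⟧ :=
  LinearMap.pi fun q => ∑ i : Fin T, (monomial (i : ℕ)).comp (LinearMap.proj (q, i))

omit [Fintype n] [DecidableEq n] in
lemma coeff_liftP {T : ℕ} (η : n × Fin T → k) (q : n) (i : ℕ) :
    coeff i (liftP T η q) = if h : i < T then η (q, ⟨i, h⟩) else 0 := by
  simp only [liftP, LinearMap.pi_apply, LinearMap.sum_apply, LinearMap.comp_apply,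
    LinearMap.proj_apply, map_sum, coeff_monomial]
  split_ifs with h
  · rw [Finset.sum_eq_single ⟨i, h⟩]
    · simp
    · intro j _ hj; exact if_neg fun h' => hj (Fin.ext h'.symm)
    · simp
  · exact Finset.sum_eq_zero fun j _ => if_neg fun (h' : i = j) => h (h' ▸ j.2)

def trP (T : ℕ) : (n → k⟦X⟧) →ₗ[k] n × Fin T → k :=
  LinearMap.pi fun p => (coeff (p.2 : ℕ)).comp (LinearMap.proj p.1)

omit [Fintype n] [DecidableEq n] in
lemma trP_apply (T : ℕ) (w : n → k⟦X⟧) (p : n × Fin T) : trP T w p = coeff p.2 (w p.1) := rfl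

omit [Fintype n] [DecidableEq n] in
lemma trP_liftP (T : ℕ) (η : n × Fin T → k) : trP T (liftP T η) = η := by
  ext p; simp [trP_apply, coeff_liftP]

omit [Fintype n] [DecidableEq n] in
lemma trP_eq_zero {T : ℕ} {w : n → k⟦X⟧} : trP T w = 0 ↔ ∃ w', w = (X : k⟦X⟧) ^ T • w' := by
  constructor
  · intro h
    choose w' hw' using fun q => (X_pow_dvd_iff (φ := w q) (n := T)).2 fun m hm =>
      congrFun h (q, ⟨m, hm⟩)
    exact ⟨w', funext hw'⟩
  · rintro ⟨w', rfl⟩
    ext p
    exact X_pow_dvd_iff.1 (dvd_mul_right _ _) _ p.2.2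

theorem finrank_index {D : Matrix n n k⟦X⟧} {e T : ℕ} (hD : D.det.order = e) (hT : e ≤ T) :
    finrank k (LinearMap.ker (trP T ∘ₗ D.mulVecLin.restrictScalars k ∘ₗ liftP T)) = e := by
  set Φ := trP T ∘ₗ D.mulVecLin.restrictScalars k ∘ₗ liftP T
  have h1 := Φ.finrank_range_add_finrank_ker
  have h2 := (LinearMap.range Φ).finrank_quotient_add_finrank
  rw [← finrank_coker hD]
  let π := (LinearMap.range Φ).mkQ ∘ₗ trP T
  have hs : Function.Surjective π := (Submodule.mkQ_surjective _).comp fun η => ⟨_, trP_liftP T η⟩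
  have hk : LinearMap.ker π = (LinearMap.range D.mulVecLin).restrictScalars k := by
    ext w
    simp only [π, LinearMap.mem_ker, LinearMap.comp_apply, Submodule.mkQ_apply,
      Submodule.Quotient.mk_eq_zero, LinearMap.mem_range, Submodule.restrictScalars_mem,
      mulVecLin_apply]
    constructor
    · rintro ⟨η, hη⟩
      obtain ⟨w', hw'⟩ := trP_eq_zero.1 (show trP T (w - D *ᵥ liftP T η) = 0 by
        rw [map_sub, ← hη]; exact sub_self _)
      obtain ⟨c, hc⟩ : D.det ∣ (X : k⟦X⟧) ^ T := by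
        have := (X_pow_order_mul_divXPowOrder (f := D.det))
        rw [hD, ENat.toNat_natCast] at this
        rw [← this]
        exact (IsUnit.mul_right_dvd (isUnit_divided_by_X_pow_order (by
          intro h; simp [h] at hD))).2 (pow_dvd_pow _ hT)
      refine ⟨liftP T η + c • D.adjugate *ᵥ w', ?_⟩
      rw [mulVec_add, mulVec_smul, mulVec_mulVec, mul_adjugate, smul_mulVec, one_mulVec, smul_smul,
        mul_comm, ← hc, ← hw', add_sub_cancel]
    · rintro ⟨w', rfl⟩
      refine ⟨trP T w', ?_⟩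
      obtain ⟨w'', hw''⟩ := trP_eq_zero.1 (show trP T (liftP T (trP T w') - w') = 0 by
        rw [map_sub, trP_liftP, sub_self])
      rw [← sub_eq_zero]
      change trP T (D *ᵥ _) - _ = 0
      rw [← map_sub, ← mulVec_sub, hw'', mulVec_smul]
      exact trP_eq_zero.2 ⟨_, rfl⟩
  have h3 := ((Submodule.Quotient.restrictScalarsEquiv k _).symm.trans
    ((Submodule.quotEquivOfEq _ _ hk.symm).trans (π.quotKerEquivOfSurjective hs))).finrank_eq
  omega

end Pool.Agent.MP_536a45_ag_b
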