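import Pool.Agent.MP_536a45_ag_b.Alg
import Pool.Agent.MP_536a45_ag_b.Defs1

/-!
The group, its action and its invariants.
-/

noncomputable section

namespace Pool.Agent.MP_536a45_ag_b

open MvPolynomial Matrix

attribute [-simp] MvPolynomial.aeval_eq_bind₁

lemma exists_tt : ∃ t : K, t ^ 3 + t + 1 = 0 := by
  obtain ⟨u, hu⟩ := IsAlgClosed.exists_root
    (Polynomial.X ^ 3 + Polynomial.X + 1 : Polynomial K) (by
      have : (Polynomial.X ^ 3 + Polynomial.X + 1 : Polynomial K).degree = 3 := by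
        compute_degree!
      rw [this]; norm_num)
  exact ⟨u, by simpa using hu⟩

def tt : K := exists_tt.choose

lemma tt_spec : tt ^ 3 + tt + 1 = 0 := exists_tt.choose_spec

def Mx : Fin 3 → Matrix (Fin 3) (Fin 3) K :=
  ![!![0, 1, 0; 0, 0, 1; 1, 0, 0], !![1, tt, 0; 0, 0, tt; tt, 0, 1], !![tt, 0, 0; 0, 1, 0; 0, 0, tt + 1]]

abbrev I5 : Type := Fin 5 × Fin 3
abbrev N : Type := I5 ⊕ I5
abbrev B : Type := MvPolynomial N K
abbrev G0 : Type := Fin 3 → ZMod 2

section
variable {A : Type} [CommRing A] [Algebra K A]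

def mxv (i : Fin 3) (w : N → A) (p : I5) : A :=
  ∑ b, algebraMap K A (Mx i p.2 b) * w (Sum.inl (p.1, b))

def act (u : Fin 3 → A) (w : N → A) : N → A :=
  Sum.elim (fun p => w (Sum.inl p)) fun p => w (Sum.inr p) + ∑ i, u i * mxv i w p

@[simp] lemma act_inl (u : Fin 3 → A) (w : N → A) (p : I5) :
    act u w (Sum.inl p) = w (Sum.inl p) := rfl

@[simp] lemma act_inr (u : Fin 3 → A) (w : N → A) (p : I5) :
    act u w (Sum.inr p) = w (Sum.inr p) + ∑ i, u i * mxv i w p := rfl

@[simp] lemma mxv_act (u : Fin 3 → A) (w : N → A) (i : Fin 3) (p : I5) :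
    mxv i (act u w) p = mxv i w p := rfl

lemma act_act (u u' : Fin 3 → A) (w : N → A) : act u (act u' w) = act (u + u') w := by
  ext (p | p)
  · rfl
  · simp [add_mul, Finset.sum_add_distrib]; ring

lemma act_zero (w : N → A) : act 0 w = w := by ext (p | p) <;> simp

lemma act_self (u : Fin 3 → A) (w : N → A) : act u (act u w) = w := by
  rw [act_act, show u + u = 0 from funext fun i => add_self_alg _, act_zero]

lemma mxv_sub (i : Fin 3) (w w' : N → A) (p : I5) :
    mxv i (w - w') p = mxv i w p - mxv i w' p := by simp [mxv, mul_sub]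

lemma act_sub (u : Fin 3 → A) (w w' : N → A) : act u (w - w') = act u w - act u w' := by
  ext (p | p)
  · rfl
  · simp [mxv_sub, mul_sub]; ring

def Bm (u : Fin 3 → A) : Matrix N N A :=
  fromBlocks 1 0 (of fun p q => if p.1 = q.1 then ∑ i, u i * algebraMap K A (Mx i p.2 q.2) else 0) 1

lemma Bm_mulVec (u : Fin 3 → A) (w : N → A) : Bm u *ᵥ w = act u w := by
  ext (p | p)
  · simp [Bm, fromBlocks_mulVec]
  · simp only [Bm, fromBlocks_mulVec, Sum.elim_inr, one_mulVec, Pi.add_apply, Function.comp_apply,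
      act_inr]
    rw [add_comm]
    congr 1
    simp only [mulVec, dotProduct, of_apply, Function.comp_apply, Fintype.sum_prod_type, ite_mul,
      zero_mul, mxv, Finset.mul_sum, Finset.sum_mul]
    rw [Finset.sum_comm]
    simp only [Finset.sum_ite_eq, Finset.mem_univ, if_true]
    rw [Finset.sum_comm]
    simp [mul_assoc]

lemma det_Bm (u : Fin 3 → A) : (Bm u).det = 1 := by simp [Bm]

lemma Bm_mul (u u' : Fin 3 → A) : Bm u * Bm u' = Bm (u + u') :=
  Matrix.ext_iff_mulVec.2 fun w => by rw [← mulVec_mulVec, Bm_mulVec, Bm_mulVec, Bm_mulVec, act_act]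

lemma Bm_zero : Bm (0 : Fin 3 → A) = 1 :=
  Matrix.ext_iff_mulVec.2 fun w => by rw [Bm_mulVec, act_zero, one_mulVec]

def emb (A : Type) [CommRing A] [Algebra K A] (g : G0) : Fin 3 → A :=
  fun i => algebraMap K A (algebraMap (ZMod 2) K (g i))

lemma emb_add (g g' : G0) : emb A (g + g') = emb A g + emb A g' := by ext; simp [emb]

lemma emb_zero : emb A 0 = 0 := by ext; simp [emb]

lemma emb_sq (g : G0) (i : Fin 3) : emb A g i ^ 2 + emb A g i = 0 := by
  have : g i ^ 2 + g i = 0 := by generalize g i = a; revert a; decide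
  rw [emb, ← map_pow, ← map_pow, ← map_add, ← map_add, this, map_zero, map_zero]

def cc (l : I5 → K) (w : N → A) (i : Fin 3) : A := ∑ p, algebraMap K A (l p) * mxv i w p

def TT (l : I5 → K) (w : N → A) : A := ∑ p, algebraMap K A (l p) * w (Sum.inr p)

def Yq (l : I5 → K) (w : N → A) (p : I5) : A :=
  mu (cc l w) * w (Sum.inr p) + ∑ i, Bq (cc l w) i * Pq (cc l w) i (TT l w) * mxv i w p

@[simp] lemma cc_act (l : I5 → K) (u : Fin 3 → A) (w : N → A) : cc l (act u w) = cc l w := rfl

lemma TT_act (l : I5 → K) (u : Fin 3 → A) (w : N → A) :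
    TT l (act u w) = TT l w + ∑ i, u i * cc l w i := by
  simp only [TT, act_inr, mul_add, Finset.sum_add_distrib, cc, Finset.mul_sum]
  rw [Finset.sum_comm]
  congr 1
  exact Finset.sum_congr rfl fun _ _ => Finset.sum_congr rfl fun _ _ => by ring

lemma Yq_act (l : I5 → K) (g : G0) (w : N → A) (p : I5) :
    Yq l (act (emb A g) w) p = Yq l w p := by
  have h2 := two_alg A
  simp only [Yq, cc_act, TT_act, Pq_add, mul_add, Pq_sum, emb_sq, act_inr, mxv_act]
  simp [Rq, Fin.sum_univ_three]
  grind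

lemma sum_Yq (l : I5 → K) (w : N → A) : ∑ p, algebraMap K A (l p) * Yq l w p = 0 := by
  rw [← mu_sum (cc l w) (TT l w)]
  simp only [Yq, mul_add, Finset.sum_add_distrib, Finset.mul_sum]
  congr 1
  · simp only [TT, Finset.mul_sum]
    exact Finset.sum_congr rfl fun _ _ => by ring
  · rw [Finset.sum_comm]
    refine Finset.sum_congr rfl fun i _ => ?_
    conv_rhs => enter [1]; rw [cc]
    rw [Finset.sum_mul]
    exact Finset.sum_congr rfl fun _ _ => by ring

variable {A' : Type} [CommRing A'] [Algebra K A']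

lemma map_act' (φ : A →+* A') (hφ : ∀ i a b, φ (algebraMap K A (Mx i a b)) = algebraMap K A' (Mx i a b))
    (u : Fin 3 → A) (w : N → A) : φ ∘ act u w = act (φ ∘ u) (φ ∘ w) := by
  ext (p | p)
  · rfl
  · simp [mxv, hφ]

variable (φ : A →ₐ[K] A')

@[simp] lemma map_mxv (i : Fin 3) (w : N → A) (p : I5) :
    φ (mxv i w p) = mxv i (fun q => φ (w q)) p := by simp [mxv]

@[simp] lemma map_cc (l : I5 → K) (w : N → A) (i : Fin 3) :
    φ (cc l w i) = cc l (fun q => φ (w q)) i := by simp [cc]

@[simp] lemma map_TT (l : I5 → K) (w : N → A) : φ (TT l w) = TT l (fun q => φ (w q)) := by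
  simp [TT]

@[simp] lemma map_Yq (l : I5 → K) (w : N → A) (p : I5) :
    φ (Yq l w p) = Yq l (fun q => φ (w q)) p := by simp [Yq]

lemma map_act (u : Fin 3 → A) (w : N → A) (p : N) :
    φ (act u w p) = act (fun i => φ (u i)) (fun q => φ (w q)) p := by
  rcases p with p | p <;> simp

lemma map_Bm (u : Fin 3 → A) (p q : N) : φ (Bm u p q) = Bm (fun i => φ (u i)) p q := by
  rcases p with p | p <;> rcases q with q | q <;> simp [Bm, one_apply, apply_ite φ]

@[simp] lemma map_emb (g : G0) (i : Fin 3) : φ (emb A g i) = emb A' g i := by simp [emb]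

lemma algHom_aeval {σ : Type} (w : σ → A) (h : MvPolynomial σ K) :
    φ (aeval w h) = aeval (fun q => φ (w q)) h := by
  rw [← AlgHom.comp_apply, comp_aeval]

end

def repM : Multiplicative G0 →* Matrix N N K where
  toFun g := Bm (emb K g.toAdd)
  map_one' := by rw [toAdd_one, emb_zero, Bm_zero]
  map_mul' g g' := by rw [toAdd_mul, emb_add, Bm_mul]

/-- The group. -/
def GG : Subgroup (GL N K) := repM.toHomUnits.range

/-- The ring of invariants. -/
abbrev R : Type := InvRing GG

lemma mem_Inv {h : B} : h ∈ InvRing GG ↔ ∀ g : G0, aeval (act (emb B g) X) h = h := by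
  have e : ∀ g : G0, ((Bm (emb K g)).map C : Matrix N N B) = Bm (emb B g) := by
    intro g
    ext (p | p) (q | q) : 2 <;> simp [Bm, one_apply, apply_ite C, emb]
  simp only [InvRing, Algebra.mem_iInf, AlgHom.mem_equalizer, GG, MonoidHom.mem_range, AlgHom.id_apply]
  constructor
  · intro H g
    have := H _ ⟨Multiplicative.ofAdd g, rfl⟩
    rwa [← Bm_mulVec, ← e g]
  · rintro H _ ⟨g, rfl⟩
    have := H g.toAdd
    rwa [← Bm_mulVec, ← e g.toAdd] at this

lemma inv_eval {A : Type} [CommRing A] [Algebra K A] (h : R) (g : G0) (w : N → A) :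
    aeval (act (emb A g) w) (h : B) = aeval w (h : B) := by
  conv_rhs => rw [← mem_Inv.1 h.2 g, algHom_aeval]
  simp [map_act]

def xR (p : I5) : R := ⟨X (Sum.inl p), mem_Inv.2 fun g => by simp⟩
def cR (l : I5 → K) (i : Fin 3) : R := ⟨cc l X i, mem_Inv.2 fun g => by simp⟩
def YR (l : I5 → K) (p : I5) : R := ⟨Yq l X p, mem_Inv.2 fun g => by simp [Yq_act]⟩
def NR (l : I5 → K) : R :=
  ⟨Nq (cc l X) (TT l X), mem_Inv.2 fun g => by simp [TT_act, Nq_shift _ _ (emb_sq g)]⟩

lemma exists_F (h : R) : ∃ F : MvPolynomial (N ⊕ Fin 3) K,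
    ∀ (A : Type) [CommRing A] [Algebra K A] (ξ : N → A) (α : Fin 3 → A),
      aeval (act α ξ) (h : B) = aeval (Sum.elim ξ fun l => α l ^ 2 + α l) F ∧
      ∀ i, ∑ j, aeval (act α ξ) (pderiv j (h : B)) * Bm α j i =
        aeval (Sum.elim ξ fun l => α l ^ 2 + α l) (pderiv (Sum.inl i) F) := by
  let s : N → MvPolynomial (N ⊕ Fin 3) K := act (fun l => X (Sum.inr l)) fun q => X (Sum.inl q)
  obtain ⟨F, hF⟩ := exists_of_shift (p := aeval s (h : B)) fun i => by
    rw [algHom_aeval, ← inv_eval h (Pi.single i 1) s]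
    congr 2
    ext1 q
    rw [map_act, act_act]
    congr 1
    · ext1 l
      by_cases hl : l = i <;> simp [shift, emb, hl, add_comm]
    · ext1 q; simp [shift]
  refine ⟨F, fun A _ _ ξ α => ⟨?_, fun i => ?_⟩⟩
  · have := congrArg (aeval (Sum.elim ξ α)) hF
    rw [algHom_aeval, algHom_aeval] at this
    convert this using 3
    · simp [s, map_act]
    · ext (q | l) <;> simp
  · have e1 : ∀ j, pderiv (Sum.inl i) (s j) = Bm (fun l => X (Sum.inr l)) j i := by
      intro j
      have e : s j = ∑ q, Bm (fun l => X (Sum.inr l)) j q * X (Sum.inl q) :=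
        (congrFun (Bm_mulVec _ _) j).symm
      have e2 : ∀ q, pderiv (Sum.inl i) (Bm (fun l => (X (Sum.inr l) :
          MvPolynomial (N ⊕ Fin 3) K)) j q) = 0 := by
        intro q
        rcases j with j | j <;> rcases q with q | q <;>
          simp [Bm, one_apply, apply_ite (pderiv (Sum.inl i)), pderiv_X]
      rw [e, map_sum, Finset.sum_eq_single i]
      · simp [Derivation.leibniz, e2]
      · intro q _ hq
        simp [Derivation.leibniz, e2, pderiv_X, hq]
      · simp
    have e2 : ∀ w : N ⊕ Fin 3 → MvPolynomial (N ⊕ Fin 3) K,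
        w = Sum.elim (fun q => X (Sum.inl q)) (fun l => X (Sum.inr l) ^ 2 + X (Sum.inr l)) →
        pderiv (Sum.inl i) (aeval w F) = aeval w (pderiv (Sum.inl i) F) := by
      rintro w rfl
      rw [pderiv_aeval, Finset.sum_eq_single (Sum.inl i)]
      · simp
      · rintro (q | l) _ hq
        · simp [pderiv_X, hq]
        · simp [pderiv_X]
      · simp
    have := congrArg (fun p => aeval (Sum.elim ξ α) (pderiv (Sum.inl i) p)) hF
    simp only [e2 _ rfl] at this
    simp only [pderiv_aeval, map_sum, map_mul, algHom_aeval, e1, map_Bm] at this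
    convert this using 3
    · simp [s, map_act]
    · simp
    · ext (q | l) <;> simp

end Pool.Agent.MP_536a45_ag_b
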