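import Pool.Agent.MP_536a45_ag_b.Phi

/-!
Jacobians of invariants; explicit generators after localisation.
-/

noncomputable section

namespace Pool.Agent.MP_536a45_ag_b

open MvPolynomial Matrix

attribute [-simp] MvPolynomial.aeval_eq_bind₁

section
variable {A : Type} [CommRing A] [Algebra K A]

/-- The Jacobian matrix at a point. -/
def DM {α : Type} (v : N → A) (h : α → R) : Matrix α N A :=
  of fun i j => aeval v (pderiv j (h i : B))

lemma DM_act {α : Type} (v : N → A) (h : α → R) (g : G0) :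
    DM (act (emb A g) v) h * Bm (emb A g) = DM v h := by
  ext i j
  obtain ⟨F, hF⟩ := exists_F (h i)
  have h1 := (hF A v (emb A g)).2 j
  have h2 := (hF A v 0).2 j
  simp only [emb_sq] at h1
  simp only [Bm_zero, act_zero, one_apply, mul_ite, mul_one, mul_zero, Finset.sum_ite_eq',
    Finset.mem_univ, if_true, Pi.zero_apply, ne_eq, OfNat.ofNat_ne_zero, not_false_eq_true,
    zero_pow, add_zero] at h2
  exact h1.trans h2.symm

lemma aeval_det_DM (v : N → A) (h : N → R) : aeval v (DM (X : N → B) h).det = (DM v h).det := by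
  rw [AlgHom.map_det]
  congr 1
  ext i j
  simp [DM, algHom_aeval]

end

/-- The Jacobian determinant of invariants. -/
def Jac (h : N → R) : R := ⟨(DM (X : N → B) h).det, mem_Inv.2 fun g => by
  rw [aeval_det_DM, ← DM_act X h g, det_mul, det_Bm, mul_one]⟩

lemma aeval_Jac {A : Type} [CommRing A] [Algebra K A] (v : N → A) (h : N → R) :
    aeval v (Jac h : B) = (DM v h).det := aeval_det_DM v h

lemma DM_X {α : Type} (h : α → R) (i : α) (j : N) : DM (X : N → B) h i j = pderiv j (h i : B) := by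
  simp [DM, aeval_X_left_apply]

def muR (l : I5 → K) : R := mu (cR l)

lemma coe_muR (l : I5 → K) : (muR l : B) = mu (cc l X) := map_mu (InvRing GG).val _

/-- A system of parameters with explicit Jacobian. -/
def f0 (c : Fin 5) (s : K) : N → R :=
  Sum.elim xR fun p => if p = (c, 0) then NR (lam c s) else YR (lam c s) p

lemma Jac_f0 (c : Fin 5) (s : K) : Jac (f0 c s) = muR (lam c s) ^ 15 := by
  apply Subtype.ext
  set l := lam c s
  let lv : I5 → B := fun q => algebraMap K B (l q)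
  let μ : B := mu (cc l X)
  let ρ : I5 → B := fun p => ∑ i, Bq (cc l X) i * Bq (cc l X) i * mxv i X p
  have hm : ∀ q i p, pderiv (Sum.inr q) (mxv i (X : N → B) p) = 0 := by
    intro q i p; simp [mxv, pderiv_X]
  have hc : ∀ q i, pderiv (Sum.inr q) (cc l (X : N → B) i) = 0 := by
    intro q i; simp [cc, hm]
  have hT : ∀ q, pderiv (Sum.inr q) (TT l (X : N → B)) = lv q := by
    intro q
    simp only [TT, map_sum, Derivation.leibniz, Derivation.map_algebraMap,
      pderiv_X, smul_eq_mul]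
    rw [Finset.sum_eq_single q] <;> simp +contextual [lv, eq_comm]
  set M : Matrix I5 I5 B := of fun p q => pderiv (Sum.inr q) (f0 c s (Sum.inr p) : B) with hM
  have h1 : (DM (X : N → B) (f0 c s)).det = M.det := by
    have : DM (X : N → B) (f0 c s) = fromBlocks 1 0
        (of fun p q => pderiv (Sum.inl q) (f0 c s (Sum.inr p) : B)) M := by
      ext (p | p) (q | q) : 2
      · simp [DM_X, f0, xR, pderiv_X, one_apply, Pi.single_apply]
      · simp [DM_X, f0, xR, pderiv_X]
      · simp [DM_X]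
      · simp [DM_X, hM]
    rw [this, det_fromBlocks_zero₁₂, det_one, one_mul]
  have h2 : M = updateRow M (c, 0) (μ • lv) := by
    ext p q : 2
    by_cases hp : p = (c, 0)
    · subst hp
      simp [hM, f0, NR, deriv_Nq _ _ (hc q), hT, μ, l]
    · rw [updateRow_ne hp]
  have h3 : (updateRow M (c, 0) lv).det = (updateRow (μ • (1 : Matrix I5 I5 B)) (c, 0) lv).det := by
    refine det_eq_of_forall_row_eq_smul_add_const (fun p => if p = (c, 0) then 0 else ρ p) (c, 0)
      (by simp) fun p q => ?_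
    by_cases hp : p = (c, 0)
    · subst hp; simp
    · simp only [updateRow_ne hp, hM, of_apply, f0, Sum.elim_inr, if_neg hp, YR, Yq, map_add,
        map_sum, Derivation.leibniz, deriv_mu _ _ (hc q), deriv_Bq _ _ (hc q), deriv_Pq _ _ (hc q),
        hT, hm, smul_eq_mul, updateRow_self, pderiv_X, Matrix.smul_apply, one_apply, ρ,
        Finset.sum_mul, l, μ]
      congr 1
      · simp [Pi.single_apply]
      · exact Finset.sum_congr rfl fun _ _ => by ring
  have h4 : (updateRow (1 : Matrix I5 I5 B) (c, 0) lv).det = 1 := by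
    have := det_updateRow_sum (1 : Matrix I5 I5 B) (c, 0) lv
    rw [show ∑ k, lv k • (1 : Matrix I5 I5 B) k = lv by
      ext1 q; simp [Finset.sum_apply, one_apply]] at this
    rw [this]
    simp [lv, l, lam]
  change (DM (X : N → B) (f0 c s)).det = _
  rw [h1, h2, det_updateRow_smul, h3, det_updateRow_smul_left, h4, SubmonoidClass.coe_pow, coe_muR]
  simp [μ, ← pow_succ']

lemma clearing (l : I5 → K) (F : MvPolynomial (N ⊕ Fin 3) K) :
    ∃ (M : ℕ) (G : MvPolynomial (N ⊕ Unit) K), ∀ (A : Type) [CommRing A] [Algebra K A]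
      (ξ : N → A) (b : Fin 3 → A) (w : N ⊕ Unit → A),
      (∀ p, ξ (Sum.inl p) = w (Sum.inl (Sum.inl p))) →
      (∀ p, mu (cc l ξ) * ξ (Sum.inr p) = w (Sum.inl (Sum.inr p))) →
      (∀ i, mu (cc l ξ) ^ 2 * b i = Bq (cc l ξ) i ^ 2 * w (Sum.inr ())) →
      mu (cc l ξ) ^ M * aeval (Sum.elim ξ b) F = aeval w G := by
  let c0 : Fin 3 → MvPolynomial (N ⊕ Unit) K := cc l fun q => X (Sum.inl q)
  have hc : ∀ (A : Type) [CommRing A] [Algebra K A] (ξ : N → A) (w : N ⊕ Unit → A),
      (∀ p, ξ (Sum.inl p) = w (Sum.inl (Sum.inl p))) → (fun i => aeval w (c0 i)) = cc l ξ := by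
    intro A _ _ ξ w h
    ext i
    simp [c0, cc, mxv, h]
  induction F using MvPolynomial.induction_on with
  | C a => exact ⟨0, C a, fun A _ _ ξ b w _ _ _ => by simp⟩
  | add p q hp hq =>
    obtain ⟨M, G, h⟩ := hp
    obtain ⟨M', G', h'⟩ := hq
    refine ⟨M + M', mu c0 ^ M' * G + mu c0 ^ M * G', fun A _ _ ξ b w h1 h2 h3 => ?_⟩
    simp only [map_add, map_mul, map_pow, map_mu, hc A ξ w h1, ← h A ξ b w h1 h2 h3,
      ← h' A ξ b w h1 h2 h3]
    ring
  | mul_X p i hp =>
    obtain ⟨M, G, h⟩ := hp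
    rcases i with (q | q) | i
    · refine ⟨M, G * X (Sum.inl (Sum.inl q)), fun A _ _ ξ b w h1 h2 h3 => ?_⟩
      simp only [map_mul, aeval_X, ← h A ξ b w h1 h2 h3, ← h1, Sum.elim_inl]
      ring
    · refine ⟨M + 1, G * X (Sum.inl (Sum.inr q)), fun A _ _ ξ b w h1 h2 h3 => ?_⟩
      simp only [map_mul, aeval_X, ← h A ξ b w h1 h2 h3, ← h2, Sum.elim_inl]
      ring
    · refine ⟨M + 2, G * (Bq c0 i ^ 2 * X (Sum.inr ())), fun A _ _ ξ b w h1 h2 h3 => ?_⟩
      simp only [map_mul, map_pow, map_Bq, hc A ξ w h1, aeval_X, ← h A ξ b w h1 h2 h3, ← h3,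
        Sum.elim_inr]
      ring

def fp (l : I5 → K) : N ⊕ Unit → R := Sum.elim (Sum.elim xR (YR l)) fun _ => NR l

lemma clearing_R {l : I5 → K} (hl : muR l ≠ 0) (h : R) :
    ∃ (M : ℕ) (G : MvPolynomial (N ⊕ Unit) K), muR l ^ M * h = aeval (fp l) G ∧
      ∀ (A : Type) [CommRing A] [Algebra K A] (ξ : N → A) (α : Fin 3 → A) (w : N ⊕ Unit → A),
      (∀ p, ξ (Sum.inl p) = w (Sum.inl (Sum.inl p))) →
      (∀ p, mu (cc l ξ) * ξ (Sum.inr p) = w (Sum.inl (Sum.inr p))) →
      (∀ i, mu (cc l ξ) ^ 2 * (α i ^ 2 + α i) = Bq (cc l ξ) i ^ 2 * w (Sum.inr ())) →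
      mu (cc l ξ) ^ M * aeval (act α ξ) (h : B) = aeval w G := by
  obtain ⟨F, hF⟩ := exists_F h
  obtain ⟨M, G, hG⟩ := clearing l F
  have key : ∀ (A : Type) [CommRing A] [Algebra K A] (ξ : N → A) (α : Fin 3 → A)
      (w : N ⊕ Unit → A), (∀ p, ξ (Sum.inl p) = w (Sum.inl (Sum.inl p))) →
      (∀ p, mu (cc l ξ) * ξ (Sum.inr p) = w (Sum.inl (Sum.inr p))) →
      (∀ i, mu (cc l ξ) ^ 2 * (α i ^ 2 + α i) = Bq (cc l ξ) i ^ 2 * w (Sum.inr ())) →
      mu (cc l ξ) ^ M * aeval (act α ξ) (h : B) = aeval w G := fun A _ _ ξ α w h1 h2 h3 => by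
    rw [(hF A ξ α).1]; exact hG A ξ _ w h1 h2 h3
  refine ⟨M, G, ?_, key⟩
  let L := FractionRing B
  let φ : B →ₐ[K] L := IsScalarTower.toAlgHom K B L
  have hφ : Function.Injective φ := IsFractionRing.injective B L
  let v : N → L := fun q => φ (X q)
  have hv : ∀ p : B, φ p = aeval v p := fun p => by
    conv_lhs => rw [← aeval_X_left_apply p, algHom_aeval]
  have hμ : mu (cc l v) ≠ 0 := by
    have : φ (muR l : B) ≠ 0 := (map_ne_zero_iff φ hφ).2 fun h => hl (Subtype.ext h)
    simpa [coe_muR, v] using this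
  let α : Fin 3 → L := fun i => Bq (cc l v) i * Pq (cc l v) i (TT l v) / mu (cc l v)
  have hα : ∀ i, mu (cc l v) * α i = Bq (cc l v) i * Pq (cc l v) i (TT l v) := fun i =>
    mul_div_cancel₀ _ hμ
  have := key L (act α v) α (fun q => φ (fp l q : B)) (fun p => by simp [fp, xR, v])
    (fun p => by
      simp only [cc_act, act_inr, fp, Sum.elim_inl, Sum.elim_inr, YR, map_Yq]
      change _ = Yq l v p
      rw [mul_add, Finset.mul_sum, Yq]
      congr 1
      exact Finset.sum_congr rfl fun i _ => by rw [← mul_assoc, hα])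
    (fun i => by
      simp only [cc_act, fp, Sum.elim_inr, NR, map_Nq, map_cc, map_TT]
      change _ = Bq (cc l v) i ^ 2 * Nq (cc l v) (TT l v)
      rw [Bq_Nq, ← hα]
      ring)
  rw [act_self, cc_act, ← hv] at this
  apply Subtype.ext
  apply hφ
  have e : ((aeval (fp l) G : R) : B) = aeval (fun q => (fp l q : B)) G :=
    algHom_aeval (InvRing GG).val _ _
  rw [e, algHom_aeval, ← this]
  simp [coe_muR, v]

/-- An arc in the free locus comes from a twisted point. -/
lemma eval_eq_of_rep {A : Type} [CommRing A] [IsDomain A] [Algebra K A] (γ : R →ₐ[K] A)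
    {l : I5 → K} (ξ : N → A) (α : Fin 3 → A) (hμ : mu (cc l ξ) ≠ 0)
    (h1 : ∀ p, ξ (Sum.inl p) = γ (xR p))
    (h2 : ∀ p, mu (cc l ξ) * ξ (Sum.inr p) = γ (YR l p))
    (h3 : ∀ i, mu (cc l ξ) ^ 2 * (α i ^ 2 + α i) = Bq (cc l ξ) i ^ 2 * γ (NR l)) (h : R) :
    aeval (act α ξ) (h : B) = γ h := by
  have hc : (fun i => γ (cR l i)) = cc l ξ := by
    ext i
    have : cR l i = ∑ p, algebraMap K R (l p) *
        ∑ b, algebraMap K R (Mx i p.2 b) * xR (p.1, b) := by
      apply Subtype.ext; simp [cR, cc, mxv, xR]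
    simp [this, cc, mxv, h1]
  have hγ : γ (muR l) = mu (cc l ξ) := by rw [muR, map_mu, hc]
  obtain ⟨M, G, hG, hG'⟩ := clearing_R (l := l) (fun h => hμ (by rw [← hγ, h, map_zero])) h
  have := hG' A ξ α (fun q => γ (fp l q)) h1 h2 h3
  rw [← algHom_aeval, ← hG, map_mul, map_pow, hγ] at this
  exact mul_left_cancel₀ (pow_ne_zero _ hμ) this

end Pool.Agent.MP_536a45_ag_b
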