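import Pool.Agent.MP_536a45_ag_b.Stab

/-!
The fibres of the parametrisation; linear constraints.
-/

noncomputable section

namespace Pool.Agent.MP_536a45_ag_b

open MvPolynomial Matrix Module

attribute [-simp] MvPolynomial.aeval_eq_bind₁

variable {J T : ℕ}

lemma le_single (s : ℚ) : Le s (HahnSeries.single s (1 : K)) := ⟨s, le_rfl, by simp⟩

theorem exists_M {r : Fin 3 → Fin J → K} {η : N × Fin T → K} {a n : ℕ}
    (hv : OrdV a (tw r (lf η))) (hT : T = n + 1 + J) (h1 : a + 30 * J ≤ T) {s : ℚ}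
    (hs1 : n + 1 ≤ 2 * s) (hs2 : s ≤ n + 1 - a) :
    ∃ M : Submodule K (N × Fin T → K), finrank K M = a + 30 * J ∧ ∀ η', η' - η ∈ M ↔
      (∀ q, Ge s (tw r (lf η') q - tw r (lf η) q)) ∧
      ∀ h : R, Ge (n + 1) (aeval (tw r (lf η')) (h : B) - aeval (tw r (lf η)) (h : B)) := by
  obtain ⟨g, hg⟩ := hv.2.2
  set v := tw r (lf η) with hv'
  set D := DM v g * Bm fun i => al (r i) with hD
  have hD1 : ∀ i j, D i j ∈ ZS := fun i j => (tw_mem_ZS r (lf_mem η) (g i)).2 j
  have hD2 : D.det = aeval v (Jac g : B) := by rw [hD, det_mul, det_Bm, mul_one, aeval_Jac]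
  have hD3 : ∀ i j, Ge (-J) (D i j) := fun i j => by
    rw [hD, mul_apply]
    refine Ge.sum fun q _ => Ge.mul_left (ge_aeval hv.1 _) ?_
    have := ge_act (s := 0) (by simp) (w := Pi.single j 1) (fun p => by
      rw [Pi.single_apply]; split_ifs; exacts [mem_OS.1 (one_mem _), ge_zero _])
      (fun i => al_ge (r i)) q
    rwa [← Bm_mulVec, mulVec_single_one, add_zero] at this
  let τ : H := HahnSeries.single (J : ℚ) 1
  choose D' hD' using fun i j => exists_toH (z := τ * D i j)
    (mul_mem (by exact_mod_cast single_mem_ZS J 1) (hD1 i j))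
    (by simpa using (ge_single (J : ℚ) 1).mul (hD3 i j))
  have e1 : toH.mapMatrix (of D') = τ • D := by ext1 i j; exact hD' i j
  have e2 : toH (of D').det = τ ^ 30 * aeval v (Jac g : B) := by
    rw [AlgHom.map_det, e1, det_smul, hD2]; simp
  have e3 : (of D').det.order = (a + 30 * J : ℕ) := le_antisymm
    (le_toH_iff.1 (by
      rw [e2]; convert ((le_single J).pow 30).mul hg using 1; push_cast; ring))
    (ge_toH_iff.1 (by
      rw [e2]; convert ((ge_single J 1).pow 30).mul (hv.2.1 g) using 1; push_cast; ring))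
  refine ⟨_, finrank_index e3 h1, fun η' => ?_⟩
  have e4 : ∀ q, toH ((of D' *ᵥ liftP T (η' - η)) q) =
      τ * (DM v g *ᵥ (tw r (lf η') - v)) q := fun q => by
    rw [hv', ← tw_sub, ← lf_sub, tw, tw, ← Bm_mulVec _ (lf (η' - η)), mulVec_mulVec, ← tw, ← hv',
      ← hD]
    simp only [mulVec, dotProduct, map_sum, map_mul, of_apply, hD', Finset.mul_sum, mul_assoc]
    rfl
  have e5 : η' - η ∈ LinearMap.ker (trP T ∘ₗ (of D').mulVecLin.restrictScalars K ∘ₗ liftP T) ↔
      ∀ q, Ge (n + 1) ((DM v g *ᵥ (tw r (lf η') - v)) q) := by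
    have hT' : (T : ℚ) = n + 1 + J := by exact_mod_cast hT
    constructor
    · intro h q
      have := ge_of_coeff (toH_mem_ZS ((of D' *ᵥ liftP T (η' - η)) q)) (ge_toH _) (n := T)
        fun i hi => (toH_coeff _ _).trans (congrFun h (q, ⟨i, hi⟩))
      rw [e4] at this
      simpa [hT'] using this.of_mul (le_single J)
    · intro h
      ext ⟨q, i⟩
      refine (toH_coeff ((of D' *ᵥ liftP T (η' - η)) q) i).symm.trans ?_
      rw [e4]
      refine (ge_single (J : ℚ) 1).mul (h q) _ ?_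
      have : ((i : ℕ) : ℚ) < T := by exact_mod_cast i.2
      linarith
  have ha : (0 : ℚ) ≤ a := Nat.cast_nonneg a
  have hn : (0 : ℚ) ≤ n := Nat.cast_nonneg n
  rw [e5]
  constructor
  · intro h
    obtain ⟨h2, h3⟩ := hv.cv hg h
    refine ⟨fun q => (h2 q).mono hs2, fun p => ?_⟩
    have := taylor hv.1 (by linarith) h2 (p : B)
    rw [add_sub_cancel] at this
    simpa using (this.mono (by linarith)).add (h3 p)
  · rintro ⟨h2, h3⟩ q
    have := taylor (δ := tw r (lf η') - v) hv.1 (by linarith) h2 (g q : B)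
    rw [add_sub_cancel] at this
    have h4 := (h3 (g q)).sub (this.mono hs1)
    rw [sub_sub_cancel] at h4
    exact h4

/-- Extension by zero. -/
def ez (r : Fin 3 → Fin J → K) (b : ℕ) (l : Fin 3) : K := if h : b < J then r l ⟨b, h⟩ else 0

/-- The constraints coming from half-integral exponents. -/
def tri (r : Fin 3 → Fin J → K) (η : N × Fin T → K) (c : ℕ) (p : I5) : K :=
  ∑ i : Fin T, (phM (ez r (c + i)) *ᵥ fun b => η (Sum.inl (p.1, b), i)) p.2

lemma coeff_tri (r : Fin 3 → Fin J → K) (η : N × Fin T → K) (c : ℕ) (p : I5) :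
    (∑ l, al (r l) * mxv l (lf η) p).coeff (-(2 * c + 1 : ℚ) / 2) = tri r η c p := by
  have e : ∀ l, mxv l (lf η) p =
      ∑ i : Fin T, HahnSeries.single ((i : ℕ) : ℚ) (mxv l (fun q => η (q, i)) p) := fun l => by
    simp only [mxv, lf_eq, Finset.mul_sum, algebraMap_H, HahnSeries.single_mul_single, zero_add]
    rw [Finset.sum_comm]
    refine Finset.sum_congr rfl fun i _ => ?_
    ext γ
    by_cases h : γ = (i : ℕ) <;> simp [HahnSeries.coeff_sum, h]
  simp only [e, Finset.mul_sum, HahnSeries.coeff_sum, tri]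
  rw [Finset.sum_comm]
  refine Finset.sum_congr rfl fun i _ => ?_
  rw [← sum_mxv_K (ez r (c + i)) (fun q => η (q, i)) p]
  refine Finset.sum_congr rfl fun l _ => ?_
  rw [show (-(2 * c + 1 : ℚ) / 2) = -(2 * (c + i : ℕ) + 1 : ℚ) / 2 + (i : ℕ) by push_cast; ring,
    HahnSeries.coeff_mul_single_add, al_coeff_half, ez]

lemma tri_eq_zero {r : Fin 3 → Fin J → K} {η : N × Fin T → K} (h : ∀ q, Ge 0 (tw r (lf η) q))
    (c : ℕ) (p : I5) : tri r η c p = 0 := by
  rw [← coeff_tri]
  exact (tw_split (lf_mem η) h).2 p _ (by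
    have : (0 : ℚ) ≤ c := Nat.cast_nonneg c
    linarith)

lemma phM_zero : phM 0 = 0 := by simp [phM]

lemma tri_inj {r : Fin 3 → Fin J → K} {η : N × Fin T → K} {j : ℕ} (hr : ∀ b, j < b → ez r b = 0)
    {κ : Fin 3} (hκ : ∀ w, phM (ez r j) *ᵥ w = 0 → w κ = 0 → w = 0)
    (h : ∀ c ≤ j, ∀ p, tri r η c p = 0) (h0 : ∀ c, ∀ i : Fin T, i ≤ j → η (Sum.inl (c, κ), i) = 0)
    (i : Fin T) (hi : i ≤ j) (p : I5) : η (Sum.inl p, i) = 0 := by
  induction i using WellFoundedLT.induction generalizing p with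
  | ind i ih =>
    refine congrFun (hκ (fun b => η (Sum.inl (p.1, b), i)) (funext fun a => ?_) (h0 _ i hi)) p.2
    have := h (j - i) (by omega) (p.1, a)
    rw [tri, Finset.sum_eq_single i, show j - i + i = j by omega] at this
    · exact this
    · intro i' _ hi'
      rcases lt_or_gt_of_ne hi' with h1 | h1
      · rw [show (fun b => η (Sum.inl (p.1, b), i')) = 0 from
          funext fun b => ih i' h1 (by omega) _]
        simp
      · rw [hr _ (by omega), phM_zero]; simp
    · simp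

lemma exists_level {r : Fin 3 → Fin J → K} {o : ℕ} (h : ∃ b, o ≤ b ∧ ez r b ≠ 0) :
    ∃ j < J, o ≤ j ∧ ez r j ≠ 0 ∧ ∀ b, j < b → ez r b = 0 := by
  classical
  have key : ∀ b, ez r b ≠ 0 → b < J := fun b hb => by_contra fun h =>
    hb (funext fun l => dif_neg h)
  obtain ⟨b, h1, h2⟩ := h
  have h3 := Nat.findGreatest_spec (P := fun b => ez r b ≠ 0) (key b h2).le h2
  refine ⟨_, key _ h3, h1.trans (Nat.le_findGreatest (key b h2).le h2), h3, fun c hc => ?_⟩
  by_contra h4
  exact Nat.findGreatest_is_greatest hc (key c h4).le h4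

end Pool.Agent.MP_536a45_ag_b
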