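import Pool.Agent.MP_536a45_ag_b.Defs1

/-!
Top differential forms, abstractly.
-/

noncomputable section

namespace Pool.Agent.MP_536a45_ag_b

open MvPolynomial Matrix

/-- Top differential forms. -/
abbrev TopForm (k R : Type) [Field k] [CommRing R] [Algebra k R] (d : ℕ) : Type :=
  ⋀[R]^d (KaehlerDifferential k R)

namespace OmGen

variable {k R B n : Type} [Field k] [CommRing R] [Algebra k R] [CommRing B] [Algebra k B]
  [Algebra R B] [IsScalarTower k R B] [Fintype n] [DecidableEq n] {d : ℕ}

abbrev dd (k R : Type) [Field k] [CommRing R] [Algebra k R] :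
    Derivation k R (KaehlerDifferential k R) := KaehlerDifferential.D k R

def wedge (k : Type) [Field k] [Algebra k R] (e : Fin d ≃ n) (h : n → R) : TopForm k R d :=
  exteriorPower.ιMulti R _ fun i => dd k R (h (e i))

def jacB (e : Fin d ≃ n) (δ : n → Derivation k R B) : TopForm k R d →ₗ[R] B :=
  exteriorPower.alternatingMapLinearEquiv
    ((AlternatingMap.mk ((detRowAlternating (n := n) (R := B)).toMultilinearMap.restrictScalars R)
    (fun v _ _ h hij => (detRowAlternating (n := n) (R := B)).map_eq_zero_of_eq v h hij)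
    |>.compLinearMap (LinearMap.pi fun j => (δ j).liftKaehlerDifferential)).domDomCongr e.symm)

lemma jacB_wedge (e : Fin d ≃ n) (δ : n → Derivation k R B) (h : n → R) :
    jacB e δ (wedge k e h) = (of fun i j => δ j (h i)).det := by
  rw [jacB, wedge, exteriorPower.alternatingMapLinearEquiv_apply_ιMulti]
  change Matrix.det _ = Matrix.det _
  congr 1
  ext i j : 2
  simp

omit [Fintype n] [DecidableEq n] in
lemma span_wedge (e : Fin d ≃ n) {α : Type} (f : α → R)
    (hf : Submodule.span R (Set.range fun a => dd k R (f a)) = ⊤) :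
    Submodule.span R (Set.range fun S : n → α => wedge k e (f ∘ S)) = ⊤ := by
  rw [eq_top_iff, ← exteriorPower.ιMulti_span_of_span R _ _ hf]
  refine Submodule.span_mono ?_
  rintro _ ⟨v, hv, rfl⟩
  choose S hS using fun i => hv (Set.mem_range_self i)
  refine ⟨S ∘ e.symm, ?_⟩
  simp only [wedge, Function.comp_apply, Equiv.symm_apply_apply]
  congr 1
  exact funext hS

omit [Fintype n] [DecidableEq n] in
lemma span_wedge' (e : Fin d ≃ n) : Submodule.span R (Set.range (wedge (R := R) k e)) = ⊤ :=
  span_wedge e id (KaehlerDifferential.span_range_derivation k R)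

lemma dd_mem_span {α : Type} (f : α → R) {h : R} (hh : h ∈ Algebra.adjoin k (Set.range f)) :
    dd k R h ∈ Submodule.span R (Set.range fun a => dd k R (f a)) := by
  induction hh using Algebra.adjoin_induction with
  | mem x hx => obtain ⟨a, rfl⟩ := hx; exact Submodule.subset_span ⟨a, rfl⟩
  | algebraMap c => simp
  | add x y _ _ hx hy => rw [map_add]; exact add_mem hx hy
  | mul x y _ _ hx hy =>
    rw [Derivation.leibniz]
    exact add_mem (Submodule.smul_mem _ _ hy) (Submodule.smul_mem _ _ hx)

lemma span_dd {α : Type} (f : α → R) (hf : Algebra.adjoin k (Set.range f) = ⊤) :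
    Submodule.span R (Set.range fun a => dd k R (f a)) = ⊤ := by
  rw [eq_top_iff, ← KaehlerDifferential.span_range_derivation, Submodule.span_le]
  rintro _ ⟨h, rfl⟩
  exact dd_mem_span f (by rw [hf]; trivial)

lemma torsion_dd {α : Type} {f0 : α → R} {μ : R} (hμ : μ ∈ Algebra.adjoin k (Set.range f0))
    (ht : ∀ h, ∃ M : ℕ, μ ^ M * h ∈ Algebra.adjoin k (Set.range f0))
    (w : KaehlerDifferential k R) :
    ∃ M : ℕ, μ ^ M • w ∈ Submodule.span R (Set.range fun i => dd k R (f0 i)) := by
  have : w ∈ Submodule.span R (Set.range (dd k R)) := by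
    rw [KaehlerDifferential.span_range_derivation]; trivial
  induction this using Submodule.span_induction with
  | zero => exact ⟨0, by simp⟩
  | add x y _ _ hx hy =>
    obtain ⟨M, h⟩ := hx
    obtain ⟨M', h'⟩ := hy
    refine ⟨M + M', ?_⟩
    rw [smul_add]
    refine add_mem ?_ ?_
    · rw [pow_add, mul_comm, mul_smul]; exact Submodule.smul_mem _ _ h
    · rw [pow_add, mul_smul]; exact Submodule.smul_mem _ _ h'
  | smul a x _ hx =>
    obtain ⟨M, h⟩ := hx
    exact ⟨M, by rw [smul_comm]; exact Submodule.smul_mem _ _ h⟩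
  | mem x hx =>
    obtain ⟨h, rfl⟩ := hx
    obtain ⟨M, h1⟩ := ht h
    have h2 := dd_mem_span _ h1
    rw [Derivation.leibniz] at h2
    exact ⟨M, (Submodule.add_mem_iff_left _ (Submodule.smul_mem _ _
      (dd_mem_span _ (pow_mem hμ M)))).1 h2⟩

lemma dual_rel [IsDomain R] (e : Fin d ≃ n) {f0 : n → R} {μ : R} (hμ0 : μ ≠ 0)
    (hμ : μ ∈ Algebra.adjoin k (Set.range f0))
    (ht : ∀ h, ∃ M : ℕ, μ ^ M * h ∈ Algebra.adjoin k (Set.range f0))
    (χ ψ : Module.Dual R (TopForm k R d)) (w : TopForm k R d) :
    χ (wedge k e f0) * ψ w = ψ (wedge k e f0) * χ w := by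
  have : w ∈ Submodule.span R (Set.range (wedge (R := R) k e)) := by rw [span_wedge']; trivial
  induction this using Submodule.span_induction with
  | zero => simp
  | add x y _ _ hx hy => simp only [map_add, mul_add, hx, hy]
  | smul a x _ hx => simp only [map_smul, smul_eq_mul]; linear_combination a * hx
  | mem x hx =>
    obtain ⟨h, rfl⟩ := hx
    let L := Fintype.linearCombination R fun i => dd k R (f0 (e i))
    have key : ∀ (χ : Module.Dual R (TopForm k R d)) (a : Fin d → Fin d → R),
        χ (exteriorPower.ιMulti R _ fun i => L (a i)) = χ (wedge k e f0) * (of a).det := by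
      intro χ a
      have := congrArg (· a) (AlternatingMap.eq_smul_basis_det (Pi.basisFun R _)
        ((χ.compAlternatingMap (exteriorPower.ιMulti R _)).compLinearMap L))
      simp only [L] at this
      simp [Pi.basisFun_det_apply] at this
      exact this
    choose M hM using fun i => torsion_dd hμ ht (dd k R (h (e i)))
    have hM' : ∀ i, ∃ a, L a = μ ^ M i • dd k R (h (e i)) := fun i => by
      have := hM i
      rw [← e.surjective.range_comp] at this
      exact (Submodule.mem_span_range_iff_exists_fun R).1 this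
    choose a ha using hM'
    have h1 := key ψ a
    have h2 := key χ a
    simp only [ha, AlternatingMap.map_smul_univ, map_smul, smul_eq_mul] at h1 h2
    refine mul_left_cancel₀ (Finset.prod_ne_zero_iff.2 fun i (_ : i ∈ Finset.univ) =>
      pow_ne_zero (M i) hμ0) ?_
    change _ * ψ (wedge k e h) = _ at h1
    change _ * χ (wedge k e h) = _ at h2
    linear_combination χ (wedge k e f0) * h1 - ψ (wedge k e f0) * h2

theorem omega [IsDomain R] (e : Fin d ≃ n) (δ : n → Derivation k R B)
    (hinj : Function.Injective (algebraMap R B)) (J : (n → R) → R)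
    (hJ : ∀ h, algebraMap R B (J h) = (of fun i j => δ j (h i)).det)
    {f0 f1 : n → R} {μ : R} (hμ0 : μ ≠ 0) (hμ : μ ∈ Algebra.adjoin k (Set.range f0))
    (ht : ∀ h, ∃ M : ℕ, μ ^ M * h ∈ Algebra.adjoin k (Set.range f0)) (h0 : J f0 ≠ 0)
    (hc : ∀ r s, J f0 * r = s * J f1 → J f0 ∣ s) :
    Nonempty (Module.Dual R (Module.Dual R (TopForm k R d)) ≃ₗ[R] R) ∧
    Ideal.span (Set.range J) • (⊤ : Submodule R (Module.Dual R (Module.Dual R (TopForm k R d)))) =
      LinearMap.range (Module.Dual.eval R (TopForm k R d)) ∧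
    ∀ (α : Type) (f : α → R), Algebra.adjoin k (Set.range f) = ⊤ →
      Ideal.span (Set.range J) = Ideal.span (Set.range fun S : n → α => J (f ∘ S)) := by
  have hle : LinearMap.range (jacB e δ) ≤ LinearMap.range (Algebra.linearMap R B) := by
    rw [LinearMap.range_eq_map, ← span_wedge' e, Submodule.map_span, Submodule.span_le]
    rintro _ ⟨_, ⟨h, rfl⟩, rfl⟩
    exact ⟨J h, by rw [jacB_wedge, ← hJ]; rfl⟩
  let jac : TopForm k R d →ₗ[R] R :=
    (LinearEquiv.ofInjective (Algebra.linearMap R B) hinj).symm.toLinearMap ∘ₗ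
      (jacB e δ).codRestrict _ fun w => hle ⟨w, rfl⟩
  have hj : ∀ h, jac (wedge k e h) = J h := fun h => by
    simp only [jac, LinearMap.comp_apply, LinearEquiv.coe_coe, LinearEquiv.symm_apply_eq]
    apply Subtype.ext
    simp [jacB_wedge, hJ]
  have hs : ∀ ψ : Module.Dual R (TopForm k R d), ∃ r : R, r • jac = ψ := fun ψ => by
    have h1 := dual_rel e hμ0 hμ ht jac ψ
    obtain ⟨r, hr⟩ := hc _ _ (by simpa only [hj] using h1 (wedge k e f1))
    refine ⟨r, LinearMap.ext fun w => mul_left_cancel₀ h0 ?_⟩
    rw [← hj, h1, hr, hj, LinearMap.smul_apply, smul_eq_mul, mul_assoc]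
  let E : R ≃ₗ[R] Module.Dual R (TopForm k R d) :=
    LinearEquiv.ofBijective (LinearMap.toSpanSingleton R _ jac) ⟨(injective_iff_map_eq_zero _).2
      fun r hr => by
        have := LinearMap.congr_fun hr (wedge k e f0)
        simpa [hj, h0] using this, hs⟩
  let E' := E.dualMap.trans (LinearMap.ringLmapEquivSelf R R R)
  have hI : ∀ (α : Type) (f : α → R), Algebra.adjoin k (Set.range f) = ⊤ →
      LinearMap.range jac = Ideal.span (Set.range fun S : n → α => J (f ∘ S)) := by
    intro α f hf
    rw [LinearMap.range_eq_map, ← span_wedge e f (span_dd f hf), Submodule.map_span,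
      ← Set.range_comp]
    simp [Function.comp_def, ← hj]
  have hI' : LinearMap.range jac = Ideal.span (Set.range J) := hI R id (by simp)
  refine ⟨⟨E'⟩, ?_, fun α f hf => hI'.symm.trans (hI α f hf)⟩
  apply Submodule.map_injective_of_injective (f := E'.toLinearMap) E'.injective
  rw [Submodule.map_smul'', Submodule.map_top, LinearEquiv.range, ← LinearMap.range_comp]
  have : E'.toLinearMap ∘ₗ Module.Dual.eval R _ = jac := LinearMap.ext fun w => by simp [E', E]
  rw [this, smul_eq_mul, Ideal.mul_top, hI']

theorem relation [IsDomain B] (δ : n → Derivation k R B)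
    (hinj : Function.Injective (algebraMap R B))
    {f0 : n → R} {μ : R} (hμ : μ ∈ Algebra.adjoin k (Set.range f0))
    (ht : ∀ h, ∃ M : ℕ, μ ^ M * h ∈ Algebra.adjoin k (Set.range f0))
    (h0 : (of fun i j => δ j (f0 i)).det ≠ 0) {m : ℕ} (f : Fin m → R)
    (hf : Algebra.adjoin k (Set.range f) = ⊤) (c : Fin m → R)
    (hc : ∀ q, ∑ i, algebraMap R B (c i) * δ q (f i) = 0) :
    ∃ (M : ℕ) (G : MvPolynomial (Fin m) k), aeval f G = 0 ∧
      ∀ i, aeval f (pderiv i G) = μ ^ M * c i := by
  let w : KaehlerDifferential k R := ∑ i, c i • dd k R (f i)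
  obtain ⟨M, hM⟩ := torsion_dd hμ ht w
  obtain ⟨a, ha⟩ := (Submodule.mem_span_range_iff_exists_fun R).1 hM
  have ha0 : (fun i => algebraMap R B (a i)) = 0 := by
    refine Matrix.eq_zero_of_vecMul_eq_zero h0 (funext fun q => ?_)
    have := congrArg (δ q).liftKaehlerDifferential ha
    simp only [w, map_sum, map_smul, Derivation.liftKaehlerDifferential_comp_D,
      Algebra.smul_def, hc, mul_zero] at this
    simpa [vecMul, dotProduct] using this
  have hw0 : μ ^ M • w = 0 := by
    rw [← ha]
    exact Finset.sum_eq_zero fun i _ => by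
      rw [show a i = 0 from hinj (by simpa using congrFun ha0 i), zero_smul]
  let P := Algebra.Generators.ofSurjective (R := k) f (by
    rw [← AlgHom.range_eq_top, ← Algebra.adjoin_range_eq_range_aeval, hf])
  let u : P.toExtension.CotangentSpace := μ ^ M • ∑ i, c i • P.cotangentSpaceBasis i
  have hu : P.toExtension.toKaehler u = 0 := by
    simp only [u, map_smul, map_sum, Algebra.Generators.toKaehler_cotangentSpaceBasis]
    exact hw0
  obtain ⟨x, hx⟩ := (P.toExtension.exact_cotangentComplex_toKaehler u).1 hu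
  obtain ⟨G, rfl⟩ := Algebra.Extension.Cotangent.mk_surjective x
  refine ⟨M, G.1, G.2, fun i => ?_⟩
  have := congrArg (fun y => P.cotangentSpaceBasis.repr y i) hx
  simp only [Algebra.Extension.cotangentComplex_mk] at this
  refine (P.cotangentSpaceBasis_repr_one_tmul G.1 i).symm.trans (this.trans ?_)
  simp [u, Finsupp.single_apply]

end OmGen

end Pool.Agent.MP_536a45_ag_b
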