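import Pool.Agent.MP_536a45_ag_b.Jac
import Pool.Agent.MP_536a45_ag_b.OmGen

/-!
Differential forms on the quotient.
-/

noncomputable section

namespace Pool.Agent.MP_536a45_ag_b

open MvPolynomial Matrix

attribute [-simp] MvPolynomial.aeval_eq_bind₁

lemma mu_cc_K (c : Fin 5) (s : K) (w : N → K) : mu (cc (lam c s) w) =
    ∏ g ∈ Finset.univ.erase (0 : G0), ∑ a : Fin 3, s ^ (a : ℕ) *
      (phM (emb K g) *ᵥ fun b => w (Sum.inl (c, b))) a := by
  rw [mu_eq]
  refine Finset.prod_congr rfl fun g _ => ?_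
  simp only [cc, sum_lam, Finset.mul_sum]
  rw [Finset.sum_comm]
  refine Finset.sum_congr rfl fun a _ => ?_
  rw [← sum_mxv_K _ w (c, a), Finset.mul_sum]
  exact Finset.sum_congr rfl fun i _ => by simp; ring

lemma exists_s0 : ∃ s, ∀ c, muR (lam c s) ≠ 0 := by
  obtain ⟨s, -, hs⟩ := exists_good (w := fun _ => 1) (fun h => one_ne_zero (congrFun h 0))
  refine ⟨s, fun c h => ?_⟩
  have := congrArg (fun p : R => aeval (fun _ => (1 : K)) (p : B)) h
  simp only [coe_muR, map_mu, map_cc, aeval_X, mu_cc_K, ZeroMemClass.coe_zero, map_zero] at this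
  exact Finset.prod_ne_zero_iff.2 (fun g hg => hs g (Finset.ne_of_mem_erase hg)) this

def s0 : K := exists_s0.choose

lemma mu_s0 (c : Fin 5) : muR (lam c s0) ≠ 0 := exists_s0.choose_spec c

lemma muR_supported (c : Fin 5) (s : K) :
    (muR (lam c s) : B) ∈ supported K (Set.range fun b => (Sum.inl (c, b) : N)) := by
  have : ∀ i, cc (lam c s) (X : N → B) i ∈
      supported K (Set.range fun b => (Sum.inl (c, b) : N)) := by
    intro i
    rw [cc, sum_lam]
    exact sum_mem fun a _ => mul_mem (algebraMap_mem _ _) (sum_mem fun b _ =>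
      mul_mem (algebraMap_mem _ _) (X_mem_supported.2 ⟨b, rfl⟩))
  rw [coe_muR, mu]
  refine mul_mem (mul_mem (mul_mem (mul_mem (mul_mem (mul_mem ?_ ?_) ?_) ?_) ?_) ?_) ?_ <;>
    simp [add_mem, this]

lemma relPrime_mu : IsRelPrime ((muR (lam 0 s0) : B) ^ 15) ((muR (lam 1 s0) : B) ^ 15) := by
  classical
  have key : ∀ c, ∀ t : B, t ∣ (muR (lam c s0) : B) ^ 15 → t ≠ 0 ∧
      ∀ i ∈ t.vars, ∃ b, i = Sum.inl (c, b) := by
    rintro c t ⟨u, hu⟩
    have h0 : (muR (lam c s0) : B) ^ 15 ≠ 0 := pow_ne_zero _ fun h => mu_s0 c (Subtype.ext h)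
    have hs := mem_supported.1 (pow_mem (muR_supported c s0) 15)
    rw [hu] at h0 hs
    refine ⟨left_ne_zero_of_mul h0, fun i hi => ?_⟩
    have : i ∈ (t * u).vars := by
      rw [vars_def, degrees_mul_eq (left_ne_zero_of_mul h0) (right_ne_zero_of_mul h0)]
      rw [vars_def] at hi
      simp only [Multiset.mem_toFinset, Multiset.mem_add] at hi ⊢
      exact Or.inl hi
    obtain ⟨b, hb⟩ := hs this
    exact ⟨b, hb.symm⟩
  intro t h0 h1
  have : t.vars = ∅ := Finset.eq_empty_of_forall_notMem fun i hi => by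
    obtain ⟨b, hb⟩ := (key 0 t h0).2 i hi
    obtain ⟨b', hb'⟩ := (key 1 t h1).2 i hi
    simp [hb] at hb'
  have ht := vars_eq_empty_iff_eq_C.1 this
  rw [ht]
  refine (isUnit_iff_ne_zero.2 fun h => (key 0 t h0).1 ?_).map C
  rw [ht, h, map_zero]

lemma cR_eq (l : I5 → K) (i : Fin 3) : cR l i = ∑ p, algebraMap K R (l p) *
    ∑ b, algebraMap K R (Mx i p.2 b) * xR (p.1, b) := by
  apply Subtype.ext; simp [cR, cc, mxv, xR]

lemma adjoin_f0 {c : Fin 5} {s : K} (hl : muR (lam c s) ≠ 0) :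
    muR (lam c s) ∈ Algebra.adjoin K (Set.range (f0 c s)) ∧
    ∀ h, ∃ M : ℕ, muR (lam c s) ^ M * h ∈ Algebra.adjoin K (Set.range (f0 c s)) := by
  have hx : ∀ p, xR p ∈ Algebra.adjoin K (Set.range (f0 c s)) := fun p =>
    Algebra.subset_adjoin ⟨Sum.inl p, rfl⟩
  have hY : ∀ p, p ≠ (c, 0) → YR (lam c s) p ∈ Algebra.adjoin K (Set.range (f0 c s)) :=
    fun p hp => Algebra.subset_adjoin ⟨Sum.inr p, by simp [f0, hp]⟩
  have hc : ∀ i, cR (lam c s) i ∈ Algebra.adjoin K (Set.range (f0 c s)) := fun i => by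
    rw [cR_eq]
    exact sum_mem fun p _ => mul_mem (algebraMap_mem _ _) (sum_mem fun b _ =>
      mul_mem (algebraMap_mem _ _) (hx _))
  refine ⟨?_, fun h => ?_⟩
  · rw [muR, mu]
    refine mul_mem (mul_mem (mul_mem (mul_mem (mul_mem (mul_mem ?_ ?_) ?_) ?_) ?_) ?_) ?_ <;>
      simp [add_mem, hc]
  obtain ⟨M, G, hG, -⟩ := clearing_R hl h
  refine ⟨M, ?_⟩
  rw [hG]
  refine Algebra.adjoin_le (s := Set.range (fp (lam c s))) ?_ (by
    rw [Algebra.adjoin_range_eq_range_aeval]; exact ⟨G, rfl⟩)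
  rintro _ ⟨(p | p) | p, rfl⟩
  · exact hx p
  · by_cases hp : p = (c, 0)
    · subst hp
      have e : ∑ p, algebraMap K R (lam c s p) * YR (lam c s) p = 0 :=
        Subtype.ext (by simpa [YR] using sum_Yq (lam c s) (X : N → B))
      rw [← Finset.add_sum_erase _ _ (Finset.mem_univ (c, (0 : Fin 3)))] at e
      have e2 : YR (lam c s) (c, 0) = -∑ p ∈ Finset.univ.erase (c, (0 : Fin 3)),
          algebraMap K R (lam c s p) * YR (lam c s) p := by
        rw [← eq_neg_of_add_eq_zero_left e]; simp [lam]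
      change YR (lam c s) (c, 0) ∈ _
      rw [e2]
      exact neg_mem (sum_mem fun p hp =>
        mul_mem (algebraMap_mem _ _) (hY p (Finset.ne_of_mem_erase hp)))
    · exact hY p hp
  · exact Algebra.subset_adjoin ⟨Sum.inr (c, 0), by simp [f0, fp]⟩

def del (j : N) : Derivation K R B := (pderiv j).compAlgebraMap R

lemma del_apply (j : N) (h : R) : del j h = pderiv j (h : B) := rfl

lemma Jac_eq (h : N → R) : algebraMap R B (Jac h) = (of fun i j => del j (h i)).det := by
  change (DM (X : N → B) h).det = _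
  congr 1
  ext i j : 2
  rw [DM_X]; rfl

lemma Jac_f0_ne : Jac (f0 0 s0) ≠ 0 := by rw [Jac_f0]; exact pow_ne_zero _ (mu_s0 0)

lemma Jac_dvd (r s : R) (h : Jac (f0 0 s0) * r = s * Jac (f0 1 s0)) : Jac (f0 0 s0) ∣ s := by
  rw [Jac_f0, Jac_f0] at h
  have h2 : (muR (lam 0 s0) : B) ^ 15 ∣ (s : B) :=
    relPrime_mu.dvd_of_dvd_mul_right ⟨r, by simpa using congrArg Subtype.val h.symm⟩
  obtain ⟨r, hr⟩ := h2
  have h0 : (muR (lam 0 s0) : B) ^ 15 ≠ 0 := pow_ne_zero _ fun h => mu_s0 0 (Subtype.ext h)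
  have hr' : r ∈ InvRing GG := mem_Inv.2 fun g => mul_left_cancel₀ h0 (by
    have := congrArg (aeval (act (emb B g) X)) hr
    rw [map_mul, map_pow, mem_Inv.1 (muR _).2, mem_Inv.1 s.2] at this
    rw [← this, hr])
  exact ⟨⟨r, hr'⟩, by rw [Jac_f0]; exact Subtype.ext hr⟩

/-- The ideal `I`. -/
def II : Ideal R := Ideal.span (Set.range Jac)

set_option maxRecDepth 4000 in
theorem omega_spec :
    Nonempty (Module.Dual R (Module.Dual R (TopForm K R (Fintype.card N))) ≃ₗ[R] R) ∧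
    II • (⊤ : Submodule R (Module.Dual R (Module.Dual R (TopForm K R (Fintype.card N))))) =
      LinearMap.range (Module.Dual.eval R (TopForm K R (Fintype.card N))) ∧
    ∀ (α : Type) (f : α → R), Algebra.adjoin K (Set.range f) = ⊤ →
      II = Ideal.span (Set.range fun S : N → α => Jac (f ∘ S)) :=
  OmGen.omega (Fintype.equivFin N).symm del Subtype.val_injective Jac Jac_eq (mu_s0 0)
    (adjoin_f0 (mu_s0 0)).1 (adjoin_f0 (mu_s0 0)).2 Jac_f0_ne Jac_dvd

lemma Jac_mem_II (h : N → R) : Jac h ∈ II := Ideal.subset_span ⟨h, rfl⟩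

lemma cramer_DM {A : Type} [CommRing A] [Algebra K A] (v : N → A) (h : N → R) (g : R) (q : N) :
    aeval v (Jac h : B) * aeval v (pderiv q (g : B)) =
      ∑ s, aeval v (Jac (Function.update h s g) : B) * aeval v (pderiv q (h s : B)) := by
  have := congrFun (mulVec_cramer (DM v h)ᵀ fun q => aeval v (pderiv q (g : B))) q
  rw [det_transpose] at this
  rw [aeval_Jac]
  refine Eq.trans this.symm ?_
  simp only [mulVec, dotProduct]
  refine Finset.sum_congr rfl fun s _ => ?_
  rw [cramer_transpose_apply, aeval_Jac, mul_comm]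
  congr 2
  ext i j
  by_cases hi : i = s
  · subst hi; simp [DM]
  · simp [DM, hi]

lemma exists_relation {m : ℕ} (f : Fin m → R) (hf : Algebra.adjoin K (Set.range f) = ⊤)
    {c : Fin 5} {s : K} (hl : muR (lam c s) ≠ 0) (S : N → Fin m) (j : Fin m) :
    ∃ (M : ℕ) (G : MvPolynomial (Fin m) K), aeval f G = 0 ∧ ∀ i, aeval f (pderiv i G) =
      muR (lam c s) ^ M * ((if j = i then Jac (f ∘ S) else 0) -
        ∑ q, if S q = i then Jac (Function.update (f ∘ S) q (f j)) else 0) := by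
  refine OmGen.relation del Subtype.val_injective (adjoin_f0 hl).1 (adjoin_f0 hl).2 ?_ f hf _ ?_
  · rw [← Jac_eq, Jac_f0]
    exact fun h => pow_ne_zero 15 hl (Subtype.ext h)
  · intro q
    have := cramer_DM (X : N → B) (f ∘ S) (f j) q
    simp only [aeval_X_left_apply] at this
    simp only [map_sub, map_sum, sub_mul, Finset.sum_mul, Finset.sum_sub_distrib,
      apply_ite (algebraMap R B), map_zero, ite_mul, zero_mul, Finset.sum_ite_eq, Finset.mem_univ,
      if_true]
    rw [Finset.sum_comm]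
    simp only [Finset.sum_ite_eq, Finset.mem_univ, if_true]
    exact sub_eq_zero.2 this

end Pool.Agent.MP_536a45_ag_b
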