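import Pool.Agent.MP_536a45_ag_b.Fib
import Pool.Agent.MP_536a45_ag_b.Idx

/-!
Parametrisation of the jets of arcs.
-/

noncomputable section

namespace Pool.Agent.MP_536a45_ag_b

open MvPolynomial Matrix

attribute [-simp] MvPolynomial.aeval_eq_bind₁

section
variable {ι : Type}

/-- Series whose coefficients are polynomial in the parameters. -/
def PolyF (Φ : (ι → K) → H) : Prop :=
  ∃ U : HahnSeries ℚ (MvPolynomial ι K), ∀ z, mapH (aeval z : _ →ₐ[K] K).toRingHom U = Φ z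

lemma PolyF.coeff {Φ : (ι → K) → H} (h : PolyF Φ) (γ : ℚ) :
    ∃ p : MvPolynomial ι K, ∀ z, (Φ z).coeff γ = aeval z p :=
  let ⟨U, hU⟩ := h; ⟨U.coeff γ, fun z => by rw [← hU]; rfl⟩

lemma polyF_single (γ : ℚ) (p : MvPolynomial ι K) :
    PolyF fun z => HahnSeries.single γ (aeval z p) :=
  ⟨HahnSeries.single γ p, fun _ => mapH_single _ _ _⟩

lemma PolyF.add {Φ Ψ : (ι → K) → H} (h : PolyF Φ) (h' : PolyF Ψ) : PolyF fun z => Φ z + Ψ z :=
  let ⟨U, hU⟩ := h; let ⟨V, hV⟩ := h'; ⟨U + V, fun z => by rw [map_add, hU, hV]⟩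

lemma PolyF.mul {Φ Ψ : (ι → K) → H} (h : PolyF Φ) (h' : PolyF Ψ) : PolyF fun z => Φ z * Ψ z :=
  let ⟨U, hU⟩ := h; let ⟨V, hV⟩ := h'; ⟨U * V, fun z => by rw [map_mul, hU, hV]⟩

lemma PolyF.sum {α : Type} [Fintype α] {Φ : α → (ι → K) → H} (h : ∀ a, PolyF (Φ a)) :
    PolyF fun z => ∑ a, Φ a z := by
  choose U hU using h
  exact ⟨∑ a, U a, fun z => by simp only [map_sum, hU]⟩

lemma PolyF.aeval {σ : Type} {Φ : (ι → K) → σ → H} (h : ∀ s, PolyF fun z => Φ z s)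
    (p : MvPolynomial σ K) : PolyF fun z => aeval (Φ z) p := by
  induction p using MvPolynomial.induction_on with
  | C c => simpa [algebraMap_H] using polyF_single (ι := ι) 0 (C c)
  | add p q hp hq => simpa only [map_add] using hp.add hq
  | mul_X p i hp => simpa only [map_mul, aeval_X] using hp.mul (h i)

/-- The truncated series with the given coefficients. -/
def lf {T : ℕ} (η : ι × Fin T → K) (q : ι) : H := toH (liftP T η q)

lemma toH_monomial (n : ℕ) (c : K) : toH (PowerSeries.monomial n c) = HahnSeries.single (n : ℚ) c := by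
  have : PowerSeries.monomial n c = PowerSeries.C c * PowerSeries.X ^ n := by
    ext; simp [PowerSeries.coeff_monomial, PowerSeries.coeff_X_pow]
  rw [this, map_mul, map_pow]
  change HahnSeries.ofPowerSeries ℚ K _ * HahnSeries.ofPowerSeries ℚ K _ ^ n = _
  simp [HahnSeries.C_apply, HahnSeries.single_mul_single]

lemma lf_eq {T : ℕ} (η : ι × Fin T → K) (q : ι) :
    lf η q = ∑ i : Fin T, HahnSeries.single ((i : ℕ) : ℚ) (η (q, i)) := by
  simp [lf, liftP, toH_monomial]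

lemma lf_coeff {T : ℕ} (η : ι × Fin T → K) (q : ι) (i : ℕ) :
    (lf η q).coeff i = if h : i < T then η (q, ⟨i, h⟩) else 0 := by
  rw [lf, toH_coeff, coeff_liftP]

lemma lf_mem {T : ℕ} (η : ι × Fin T → K) (q : ι) : lf η q ∈ ZS := toH_mem_ZS _

lemma lf_ge {T : ℕ} (η : ι × Fin T → K) (q : ι) : Ge 0 (lf η q) := ge_toH _

lemma lf_sub {T : ℕ} (η η' : ι × Fin T → K) : lf (η - η') = lf η - lf η' := by
  ext1 q; simp [lf]

lemma polyF_lf {T : ℕ} {κ : Type} (e : ι × Fin T → κ) (q : ι) :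
    PolyF fun z : κ → K => lf (z ∘ e) q := by
  simp only [lf_eq]
  exact PolyF.sum fun i => by simpa using polyF_single ((i : ℕ) : ℚ) (X (e (q, i)))

lemma ge_of_coeff {z : H} (hz : z ∈ ZS) (h0 : Ge 0 z) {n : ℕ} (h : ∀ i < n, z.coeff (i : ℕ) = 0) :
    Ge n z := by
  obtain ⟨p, rfl⟩ := exists_toH hz h0
  exact ge_toH_iff.2 (PowerSeries.nat_le_order _ _ fun i hi => by rw [← toH_coeff]; exact h i hi)

lemma exists_lf (T : ℕ) {ξ : ι → H} (hξ : ∀ q, ξ q ∈ ZS) (h0 : ∀ q, Ge 0 (ξ q)) :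
    ∃ η : ι × Fin T → K, ∀ q, Ge T (lf η q - ξ q) :=
  ⟨fun p => (ξ p.1).coeff (p.2 : ℕ), fun q => ge_of_coeff (sub_mem (lf_mem _ _) (hξ q))
    ((lf_ge _ _).sub (h0 q)) fun i hi => by simp [lf_coeff, hi]⟩

end

/-- Parameters. -/
abbrev Pm (J T : ℕ) : Type := (Fin 3 × Fin J) ⊕ (N × Fin T)

variable {J T : ℕ}

def rz (z : Pm J T → K) (i : Fin 3) (b : Fin J) : K := z (Sum.inl (i, b))

def par (z : Pm J T → K) : N → H := tw (rz z) (lf (z ∘ Sum.inr))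

def mkz (r : Fin 3 → Fin J → K) (η : N × Fin T → K) : Pm J T → K :=
  Sum.elim (fun p => r p.1 p.2) η

lemma par_mkz (r : Fin 3 → Fin J → K) (η : N × Fin T → K) : par (mkz r η) = tw r (lf η) := rfl

lemma mkz_eta (z : Pm J T → K) : mkz (rz z) (z ∘ Sum.inr) = z := by ext (p | p) <;> rfl

lemma polyF_par (h : R) : PolyF fun z : Pm J T → K => aeval (par z) (h : B) := by
  obtain ⟨F, hF⟩ := exists_F h
  simp only [par, tw, fun ξ α => (hF H ξ α).1, al_sq]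
  refine PolyF.aeval ?_ F
  rintro (q | i)
  · exact polyF_lf _ q
  · simp only [Sum.elim_inr, fS]
    exact PolyF.sum fun b => by
      convert polyF_single (ι := Pm J T) (-(2 * (b : ℕ) + 1)) (X (Sum.inl (i, b)) ^ 2) using 3
      rw [map_pow, aeval_X, rz]

/-- Parameters of order `a`. -/
def Zs (J T a : ℕ) : Set (Pm J T → K) := {z | OrdV a (par z)}

variable {m : ℕ} {f : Fin m → R}

lemma OrdV.exists_S (hf : Algebra.adjoin K (Set.range f) = ⊤) {r : Fin 3 → Fin J → K} {ξ : N → H}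
    (hξ : ∀ q, ξ q ∈ ZS) {a : ℕ} (h : OrdV a (tw r ξ)) :
    ∃ S : N → Fin m, Le a (aeval (tw r ξ) (Jac (f ∘ S) : B)) := by
  obtain ⟨γ, hγ⟩ := exists_arc r hξ fun _ => ge_aeval h.1 _
  simpa only [hγ] using ((mem_ord (omega_spec.2.2 _ f hf)).1 ((ordV_iff hγ).2 h)).2

lemma Ge.le_iff {s : ℚ} {z : H} (h : Ge s z) : Le s z ↔ z.coeff s ≠ 0 :=
  ⟨fun ⟨γ, h1, h2⟩ => by rwa [← h1.antisymm (not_lt.1 fun h3 => h2 (h γ h3))],
    fun h => ⟨s, le_rfl, h⟩⟩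

lemma isCons_Zs (a : ℕ) : IsCons (Zs J T a) := by
  choose p hp using fun (h : R) (γ : ℚ) => (polyF_par (J := J) (T := T) h).coeff γ
  have := isLC_of_family (Sum.elim (fun x : R × {γ : ℚ // γ < 0} => p x.1 x.2)
    fun x : (N → R) × {γ : ℚ // γ < a} => p (Jac x.1) x.2) fun h : N → R => p (Jac h) a
  convert this.isCons using 1
  ext z
  simp only [Zs, Set.mem_ofPred_eq, Sum.forall, Sum.elim_inl, Sum.elim_inr, ← hp, Prod.forall,
    Subtype.forall]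
  exact ⟨fun h => ⟨⟨fun g hg => ge_aeval h.1 g, h.2.1⟩, h.2.2.imp fun g => (h.2.1 g).le_iff.1⟩,
    fun h => ⟨int_of_inv fun g => h.1.1 g g.2, h.1.2, h.2.imp fun g hg => ⟨a, le_rfl, hg⟩⟩⟩

lemma exists_Psi (f : Fin m → R) (n : ℕ) :
    ∃ Ψ : Fin m × Fin (n + 1) → MvPolynomial (Pm J T) K, ∀ z, pmap Ψ z = jetV f n (par z) := by
  choose p hp using fun (h : R) (γ : ℚ) => (polyF_par (J := J) (T := T) h).coeff γ
  exact ⟨fun x => p (f x.1) (x.2 : ℕ), fun z => funext fun x => (hp _ _ z).symm⟩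

lemma tw_sub (r : Fin 3 → Fin J → K) (ξ ξ' : N → H) : tw r (ξ - ξ') = tw r ξ - tw r ξ' :=
  act_sub _ _ _

lemma ge_tw {r : Fin 3 → Fin J → K} {ξ : N → H} {s : ℚ} (h : ∀ q, Ge s (ξ q)) (q : N) :
    Ge (-J + s) (tw r ξ q) := ge_act (by simp) h (fun _ => al_ge _) q

lemma exists_trunc {r : Fin 3 → Fin J → K} {ξ : N → H} (hξ : ∀ q, ξ q ∈ ZS)
    (h0 : ∀ q, Ge 0 (tw r ξ q)) {n : ℕ} (hT : n + 1 + J ≤ T) :
    ∃ η : N × Fin T → K, (∀ q, Ge (n + 1) (tw r (lf η) q - tw r ξ q)) ∧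
      ∀ h : R, Ge (n + 1) (aeval (tw r (lf η)) (h : B) - aeval (tw r ξ) (h : B)) := by
  obtain ⟨η, hη⟩ := exists_lf T hξ (tw_split hξ h0).1
  have h1 : ∀ q, Ge (n + 1) (tw r (lf η) q - tw r ξ q) := fun q => by
    have := ge_tw (r := r) (ξ := lf η - ξ) hη q
    rw [tw_sub] at this
    refine this.mono ?_
    have : ((n + 1 + J : ℕ) : ℚ) ≤ T := by exact_mod_cast hT
    push_cast at this; linarith
  refine ⟨η, h1, fun h => ge_aeval_sub h0 (fun q => ?_) h1 _⟩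
  simpa using ((h1 q).mono (by positivity)).add (h0 q)

theorem jets_eq {a n : ℕ} (hJ : 7 * a ≤ J) (hT : n + 1 + J ≤ T) (hn : a ≤ n) :
    jet f n '' ordSet II a = (fun z => jetV f n (par z)) '' Zs J T a := by
  ext y
  constructor
  · rintro ⟨γ, hγ, rfl⟩
    obtain ⟨r, ξ, hξ, h⟩ := rep hγ hJ
    have h1 := (ordV_iff h).1 hγ
    obtain ⟨η, -, hη⟩ := exists_trunc hξ h1.1 hT
    exact ⟨mkz r η, h1.congr (by exact_mod_cast Nat.lt_succ_of_le hn) hη,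
      (jetV_eq hη).trans (jet_eq_jetV h n).symm⟩
  · rintro ⟨z, hz, rfl⟩
    obtain ⟨γ, hγ⟩ := exists_arc (rz z) (lf_mem (z ∘ Sum.inr)) fun _ => ge_aeval hz.1 _
    exact ⟨γ, (ordV_iff hγ).2 hz, jet_eq_jetV hγ n⟩

theorem isCons_jets {a n : ℕ} (hn : a ≤ n) : IsCons (jet (k := K) f n '' ordSet II a) := by
  obtain ⟨Ψ, hΨ⟩ := exists_Psi (J := 7 * a) (T := n + 1 + 7 * a) f n
  rw [jets_eq le_rfl le_rfl hn, ← funext hΨ]
  exact (isCons_Zs a).image Ψ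

end Pool.Agent.MP_536a45_ag_b
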