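import Pool.Agent.MP_536a45_ag_b.Frob
import Pool.Agent.MP_536a45_ag_b.Defs1

/-!
The point counting realisation.
-/

noncomputable section

namespace Pool.Agent.MP_536a45_ag_b

open MvPolynomial Filter Asymptotics

variable {ι κ : Type} [Finite ι] [Finite κ]

abbrev Gm : Type := Germ (atTop : Filter ℕ) ℂ

def realF : MvPolynomial (Gen K) ℤ →+* Gm :=
  eval₂Hom (Int.castRingHom Gm) fun g => ((fun j => (cnt j g.C : ℂ) : ℕ → ℂ) : Gm)

lemma realF_gen {C : Set (ι → K)} (hC : IsCons C) :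
    realF (gen C) = ((fun j => (cnt j C : ℂ) : ℕ → ℂ) : Gm) := by
  simp [realF, gen, hC]

lemma cnt_union (j : ℕ) {C D : Set (ι → K)} (h : Disjoint C D) :
    cnt j (C ∪ D) = cnt j C + cnt j D := by
  rw [cnt, Set.union_inter_distrib_right, Set.ncard_union_eq
    (h.mono Set.inter_subset_left Set.inter_subset_left) ((finite_fixs j).inter_of_right _)
    ((finite_fixs j).inter_of_right _)]
  rfl

omit [Finite ι] [Finite κ] in
lemma cnt_prod (j : ℕ) (C : Set (ι → K)) (D : Set (κ → K)) :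
    cnt j (prodSet C D) = cnt j C * cnt j D := by
  rw [cnt, cnt, cnt, ← Set.ncard_prod]
  refine Set.ncard_congr (fun z _ => (z ∘ Sum.inl, z ∘ Sum.inr)) (fun z hz => ?_)
    (fun z z' _ _ h => ?_) (fun ⟨x, y⟩ ⟨hx, hy⟩ => ?_)
  · exact ⟨⟨hz.1.1, funext fun i => congrFun hz.2 _⟩, hz.1.2, funext fun i => congrFun hz.2 _⟩
  · ext (i | i)
    · exact congrFun (congrArg Prod.fst h) i
    · exact congrFun (congrArg Prod.snd h) i
  · refine ⟨Sum.elim x y, ⟨⟨hx.1, hy.1⟩, ?_⟩, rfl⟩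
    ext (i | i)
    · exact congrFun hx.2 i
    · exact congrFun hy.2 i

lemma cnt_univ (j : ℕ) : cnt j (Set.univ : Set (ι → K)) = qq j ^ Nat.card ι := by
  rw [cnt, Set.univ_inter, ncard_fixs]

lemma cnt_iso {b : Bool} {C : Set (ι → K)} {D : Set (κ → K)} {φ : (ι → K) → κ → K}
    (h : IsIsoB b C D φ) : ∀ᶠ j in atTop, cnt j C = cnt j D := by
  obtain ⟨hC, -, hreg, hbij, -⟩ := h
  filter_upwards [hreg.ev_comm hC.isCons, hC.isCons.ev_stable] with j hj hst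
  refine Set.ncard_congr (fun z _ => φ z) (fun z hz => ⟨hbij.mapsTo hz.1, ?_⟩)
    (fun z z' hz hz' h => hbij.injOn hz.1 hz'.1 h) (fun w hw => ?_)
  · change fr j ∘ φ z = φ z
    rw [← hj z hz.1, hz.2]
  · obtain ⟨z, hz, rfl⟩ := hbij.surjOn hw.1
    exact ⟨z, ⟨hz, hbij.injOn (hst z hz) hz ((hj z hz).trans hw.2)⟩, rfl⟩

lemma realF_rel {b : Bool} {x : MvPolynomial (Gen K) ℤ} (h : Rel b x) : realF x = 0 := by
  induction h with
  | add C D hC hD hd =>
    rw [map_sub, map_sub, realF_gen hC, realF_gen hD, realF_gen (hC.union hD), ← Germ.coe_sub,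
      ← Germ.coe_sub, ← Germ.coe_zero, Germ.coe_eq]
    exact Eventually.of_forall fun j => by simp [cnt_union j hd]
  | iso C D φ h =>
    rw [map_sub, realF_gen h.1.isCons, realF_gen h.2.1.isCons, sub_eq_zero, Germ.coe_eq]
    filter_upwards [cnt_iso h] with j hj
    rw [hj]
  | mul C D hC hD =>
    rw [map_sub, map_mul, realF_gen hC, realF_gen hD, realF_gen (hC.prod hD), ← Germ.coe_mul,
      sub_eq_zero, Germ.coe_eq]
    exact Eventually.of_forall fun j => by simp [cnt_prod]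
  | one =>
    rw [map_sub, map_one, realF_gen isCons_univ, sub_eq_zero, ← Germ.coe_one, Germ.coe_eq]
    exact Eventually.of_forall fun j => by simp [cnt_univ]

def real0 (b : Bool) : K0 K b →+* Gm :=
  Ideal.Quotient.lift (Ideal.span {x | Rel (k := K) b x}) realF fun _ hx =>
    (Ideal.span_le (I := RingHom.ker realF)).2 (fun _ h => realF_rel h) hx

lemma real0_cls {b : Bool} {C : Set (ι → K)} (hC : IsCons C) :
    real0 b (cls b C) = ((fun j => (cnt j C : ℂ) : ℕ → ℂ) : Gm) := realF_gen hC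

/-- The positive real `ρ`-th root of `q`. -/
def th (ρ j : ℕ) : ℝ := (qq j : ℝ) ^ (ρ : ℝ)⁻¹

lemma one_le_th (ρ j : ℕ) : 1 ≤ th ρ j :=
  Real.one_le_rpow (by have := two_le_qq j; exact_mod_cast (by omega : 1 ≤ qq j)) (by positivity)

lemma th_pos (ρ j : ℕ) : 0 < th ρ j := one_pos.trans_le (one_le_th ρ j)

lemma th_pow {ρ : ℕ} (hρ : ρ ≠ 0) (j : ℕ) : th ρ j ^ ρ = qq j :=
  Real.rpow_inv_natCast_pow (by positivity) hρ

def tauU (ρ : ℕ) (ζ : ℂˣ) : (ℕ → ℂ)ˣ where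
  val j := ζ * th ρ j
  inv j := (ζ * th ρ j)⁻¹
  val_inv := funext fun j => mul_inv_cancel₀ (mul_ne_zero ζ.ne_zero
    (by exact_mod_cast (th_pos ρ j).ne'))
  inv_val := funext fun j => inv_mul_cancel₀ (mul_ne_zero ζ.ne_zero
    (by exact_mod_cast (th_pos ρ j).ne'))

lemma tauU_zpow (ρ : ℕ) (ζ : ℂˣ) (i : ℤ) (j : ℕ) :
    (tauU ρ ζ ^ i).val j = ((ζ : ℂ) * th ρ j) ^ i := by
  have := congrArg Units.val (map_zpow (Units.map (Pi.evalMonoidHom (fun _ : ℕ => ℂ) j))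
    (tauU ρ ζ) i)
  rw [Units.val_zpow_eq_zpow_val] at this
  exact this

def realL (b : Bool) (ρ : ℕ) (ζ : ℂˣ) : LaurentPolynomial (K0 K b) →+* Gm :=
  LaurentPolynomial.eval₂ (real0 b)
    (Units.map (Germ.coeRingHom (atTop : Filter ℕ)).toMonoidHom (tauU ρ ζ))

lemma realL_T (b : Bool) (ρ : ℕ) (ζ : ℂˣ) (i : ℤ) : realL b ρ ζ (LaurentPolynomial.T i) =
    ((fun j => ((ζ : ℂ) * th ρ j) ^ i : ℕ → ℂ) : Gm) := by
  rw [realL, LaurentPolynomial.eval₂_T, ← map_zpow, ← funext (tauU_zpow ρ ζ i)]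
  rfl

def real (b : Bool) {ρ : ℕ} (hρ : ρ ≠ 0) {ζ : ℂˣ} (hζ : ζ ^ ρ = 1) : Mot K b ρ →+* Gm :=
  Ideal.Quotient.lift (Ideal.span {LaurentPolynomial.T (ρ : ℤ) -
    LaurentPolynomial.C (cls b (Set.univ : Set (Unit → K)))}) (realL b ρ ζ) fun _ hx =>
    (Ideal.span_le (I := RingHom.ker (realL b ρ ζ))).2 (by
      rintro _ rfl
      rw [SetLike.mem_coe, RingHom.mem_ker, map_sub, realL_T, realL, LaurentPolynomial.eval₂_C,
        real0_cls isCons_univ, sub_eq_zero, Germ.coe_eq]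
      refine Eventually.of_forall fun j => ?_
      have h1 : (ζ : ℂ) ^ ρ = 1 := by simpa using congrArg Units.val hζ
      have h2 : (th ρ j : ℂ) ^ ρ = qq j := by exact_mod_cast th_pow hρ j
      simp [cnt_univ, mul_pow, h1, h2]) hx

variable {b : Bool} {ρ : ℕ} (hρ : ρ ≠ 0) {ζ : ℂˣ} (hζ : ζ ^ ρ = 1)

lemma real_cl {C : Set (ι → K)} (hC : IsCons C) (i : ℤ) : real b hρ hζ (cl b ρ C i) =
    ((fun j => (cnt j C : ℂ) * ((ζ : ℂ) * th ρ j) ^ i : ℕ → ℂ) : Gm) := by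
  change realL b ρ ζ _ = _
  rw [map_mul, realL_T, realL, LaurentPolynomial.eval₂_C, real0_cls hC]
  rfl

lemma real_Fil {s : ℤ} {x : Mot K b ρ} (hx : x ∈ Fil K b ρ s) :
    ∃ u : ℕ → ℂ, real b hρ hζ x = u ∧ u =O[atTop] fun j => th ρ j ^ (-s) := by
  induction hx using AddSubgroup.closure_induction with
  | mem x hx =>
    obtain ⟨ι, hι, C, i, D, hC, hD, hi, rfl⟩ := hx
    refine ⟨_, real_cl hρ hζ hC i, ?_⟩
    obtain ⟨c, hc⟩ := cnt_le_of_dimLE hD
    refine IsBigO.of_bound c ?_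
    filter_upwards [hc] with j hj
    have hn : ‖(ζ : ℂ)‖ = 1 := by
      have h1 : (ζ : ℂ) ^ ρ = 1 := by simpa using congrArg Units.val hζ
      exact Complex.norm_eq_one_of_pow_eq_one h1 hρ
    have h0 := th_pos ρ j
    rw [norm_mul, norm_zpow, norm_mul, hn, one_mul, Complex.norm_real, Complex.norm_natCast,
      Real.norm_of_nonneg h0.le, Real.norm_of_nonneg (by positivity)]
    have h1 : (cnt j C : ℝ) ≤ c * th ρ j ^ ((ρ : ℤ) * D) := by
      rw [zpow_mul, zpow_natCast, zpow_natCast, th_pow hρ]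
      exact_mod_cast hj
    calc (cnt j C : ℝ) * th ρ j ^ i ≤ c * th ρ j ^ ((ρ : ℤ) * D) * th ρ j ^ i := by gcongr
      _ = c * th ρ j ^ ((ρ : ℤ) * D + i) := by rw [zpow_add₀ h0.ne', mul_assoc]
      _ ≤ c * th ρ j ^ (-s) := by gcongr; exact one_le_th ρ j
  | zero => exact ⟨0, map_zero _, isBigO_zero _ _⟩
  | add x y _ _ hx hy =>
    obtain ⟨u, hu, hu'⟩ := hx
    obtain ⟨v, hv, hv'⟩ := hy
    exact ⟨u + v, by rw [map_add, hu, hv]; rfl, hu'.add hv'⟩
  | neg x _ hx =>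
    obtain ⟨u, hu, hu'⟩ := hx
    exact ⟨-u, by rw [map_neg, hu]; rfl, hu'.neg_left⟩

end Pool.Agent.MP_536a45_ag_b
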