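import Pool.Agent.MP_536a45_ag_b.Tay

/-!
Arcs of the quotient as twisted points.
-/

noncomputable section

namespace Pool.Agent.MP_536a45_ag_b

open MvPolynomial Matrix

attribute [-simp] MvPolynomial.aeval_eq_bind₁

variable {J : ℕ}

/-- The twisted point. -/
def tw (r : Fin 3 → Fin J → K) (ξ : N → H) : N → H := act (fun i => al (r i)) ξ

lemma int_of_inv {v : N → H} (h : ∀ h : R, Ge 0 (aeval v (h : B))) (q : N) : Ge 0 (v q) := by
  have hx : ∀ p, Ge 0 (v (Sum.inl p)) := fun p => by simpa [xR] using h (xR p)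
  rcases q with p | p
  · exact hx p
  intro γ hγ
  by_contra h'
  have h1 := h (NR (Pi.single p 1))
  simp only [NR, map_Nq, map_cc, map_TT, aeval_X] at h1
  rw [Nq_eq, TT_single] at h1
  have h2 := Le.prod (t := (Finset.univ : Finset G0)) fun g _ =>
    Le.add_ge (⟨γ, le_rfl, h'⟩ : Le γ (v (Sum.inr p))) (Ge.sum (t := Finset.univ) fun i _ =>
      (ge_emb g i).mul_left (cc_mem OS hx (Pi.single p 1) i)) hγ
  refine h1.not_le ?_ h2
  have : (Finset.univ : Finset G0).card = 8 := by simp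
  rw [this]; push_cast; linarith

lemma nz_sum {r : Fin 3 → Fin J → K} {ξ : N → H} (hξ : ∀ q, ξ q ∈ ZS) (p : I5) :
    NZ (∑ i, al (r i) * mxv i ξ p) :=
  NZ.sum fun _ _ => (al_nz _).mul (mxv_mem ZS (fun _ => hξ _) _ _)

lemma tw_split {r : Fin 3 → Fin J → K} {ξ : N → H} (hξ : ∀ q, ξ q ∈ ZS)
    (hv : ∀ q, Ge 0 (tw r ξ q)) :
    (∀ q, Ge 0 (ξ q)) ∧ ∀ p, Ge 0 (∑ i, al (r i) * mxv i ξ p) := by
  have := fun p => ge_of_add (hξ (Sum.inr p)) (nz_sum (r := r) hξ p) (hv (Sum.inr p))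
  refine ⟨?_, fun p => (this p).2⟩
  rintro (p | p)
  · exact hv (Sum.inl p)
  · exact (this p).1

lemma tw_mem_ZS (r : Fin 3 → Fin J → K) {ξ : N → H} (hξ : ∀ q, ξ q ∈ ZS) (h : R) :
    aeval (tw r ξ) (h : B) ∈ ZS ∧
      ∀ i, ∑ j, aeval (tw r ξ) (pderiv j (h : B)) * Bm (fun i => al (r i)) j i ∈ ZS := by
  obtain ⟨F, hF⟩ := exists_F h
  have : ∀ q, Sum.elim ξ (fun l => al (r l) ^ 2 + al (r l)) q ∈ ZS := by
    rintro (q | l)
    · exact hξ q
    · simp only [Sum.elim_inr, al_sq]; exact fS_mem_ZS _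
  refine ⟨?_, fun i => ?_⟩
  · rw [tw, (hF H ξ _).1]; exact aeval_mem ZS this _
  · rw [tw, (hF H ξ _).2]; exact aeval_mem ZS this _

lemma exists_arc (r : Fin 3 → Fin J → K) {ξ : N → H} (hξ : ∀ q, ξ q ∈ ZS)
    (h0 : ∀ h : R, Ge 0 (aeval (tw r ξ) (h : B))) :
    ∃ γ : R →ₐ[K] PowerSeries K, ∀ h, toH (γ h) = aeval (tw r ξ) (h : B) := by
  let E := AlgEquiv.ofInjective toH toH_injective
  refine ⟨E.symm.toAlgHom.comp (((aeval (tw r ξ)).comp (InvRing GG).val).codRestrict _ fun h =>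
    exists_toH (tw_mem_ZS r hξ h).1 (h0 h)), fun h => ?_⟩
  exact congrArg Subtype.val (E.apply_symm_apply _)

/-- The `x`-part of an arc. -/
def xa (γ : R →ₐ[K] PowerSeries K) : N → H := Sum.elim (fun p => toH (γ (xR p))) 0

lemma exists_rep (γ : R →ₐ[K] PowerSeries K) {l : I5 → K} {o : ℕ} (hl : Good l o (xa γ))
    (hJ : 7 * o ≤ J) : ∃ (r : Fin 3 → Fin J → K) (ξ : N → H), (∀ q, ξ q ∈ ZS) ∧
      ∀ h, toH (γ h) = aeval (tw r ξ) (h : B) := by
  have hμ := hl.mu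
  have hc := cc_mem ZS (w := xa γ) (fun p => toH_mem_ZS _) l
  have hc0 := cc_mem OS (w := xa γ) (fun p => ge_toH _) l
  set c := cc l (xa γ)
  have := fun i => exists_normal (J := J) (14 * o) (by omega)
    (z := Bq c i ^ 2 * toH (γ (NR l)) / mu c ^ 2)
    (div_mem_ZS (mul_mem (pow_mem (Bq_mem ZS hc i) 2) (toH_mem_ZS _)) (pow_mem (mu_mem ZS hc) 2))
    (by
      have := Ge.of_mul (s := 0) (z := Bq c i ^ 2 * toH (γ (NR l)) / mu c ^ 2) (by
        rw [mul_div_cancel₀ _ (pow_ne_zero 2 hμ.ne_zero)]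
        exact mul_mem (S := Subalgebra K H) (s := OS) (pow_mem (Bq_mem OS hc0 i) 2) (ge_toH _))
        (hμ.pow 2)
      convert this using 1
      push_cast; ring)
  choose r β hβ e using this
  let ξ : N → H := Sum.elim (fun p => toH (γ (xR p))) fun p => toH (γ (YR l p)) / mu c
  have hξ : ∀ q, ξ q ∈ ZS := by
    rintro (p | p)
    · exact toH_mem_ZS _
    · exact div_mem_ZS (toH_mem_ZS _) (mu_mem ZS hc)
  refine ⟨r, act β ξ, act_mem ZS hξ hβ, fun h => ?_⟩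
  rw [tw, act_act]
  have ec : cc l ξ = c := rfl
  refine (eval_eq_of_rep (toH.comp γ) (l := l) ξ _ (ec ▸ hμ.ne_zero) (fun p => rfl)
    (fun p => ec ▸ mul_div_cancel₀ _ hμ.ne_zero) (fun i => ?_) h).symm
  rw [ec, AlgHom.comp_apply]
  rw [← mul_div_cancel₀ (Bq c i ^ 2 * toH (γ (NR l))) (pow_ne_zero 2 hμ.ne_zero), ← e i, ← al_sq,
    Pi.add_apply, CharTwo.add_sq]
  ring

lemma le_toH_iff {p : PowerSeries K} {n : ℕ} : Le n (toH p) ↔ p.order ≤ n := by
  rw [← not_iff_not, not_le]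
  constructor
  · intro h
    have := ge_succ_of_not_le (a := n) (toH_mem_ZS p) (by exact_mod_cast h)
    have := (ge_toH_iff (n := n + 1)).1 (by exact_mod_cast this)
    exact lt_of_lt_of_le (by exact_mod_cast Nat.lt_succ_self n) this
  · intro h
    refine ((ge_toH_iff (n := n + 1)).2 (Order.add_one_le_of_lt h)).not_le ?_
    push_cast; linarith

lemma mem_ord {ι : Type} {g : ι → R} (hg : II = Ideal.span (Set.range g))
    {γ : R →ₐ[K] PowerSeries K} {a : ℕ} : γ ∈ ordSet II a ↔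
      (∀ i, Ge a (toH (γ (g i)))) ∧ ∃ i, Le a (toH (γ (g i))) := by
  have e : ⨅ h ∈ II, (γ h).order = ⨅ i, (γ (g i)).order := by
    refine le_antisymm (le_iInf fun i => iInf₂_le (g i) (hg ▸ Ideal.subset_span ⟨i, rfl⟩))
      (le_iInf₂ fun h hh => ?_)
    rw [hg] at hh
    induction hh using Submodule.span_induction with
    | mem x hx => obtain ⟨i, rfl⟩ := hx; exact iInf_le _ i
    | zero => simp
    | add x y _ _ hx hy =>
      rw [map_add]; exact (le_min hx hy).trans (PowerSeries.min_order_le_order_add _ _)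
    | smul a x _ hx =>
      rw [smul_eq_mul, map_mul, PowerSeries.order_mul]; exact hx.trans le_add_self
  simp only [ordSet, Set.mem_ofPred_eq, e, ge_toH_iff, le_toH_iff]
  constructor
  · intro h
    refine ⟨fun i => h ▸ iInf_le _ i, by_contra fun h' => ?_⟩
    push Not at h'
    have : ((a + 1 : ℕ) : ℕ∞) ≤ a := h ▸ le_iInf fun i => Order.add_one_le_of_lt (h' i)
    exact absurd (by exact_mod_cast this) (Nat.not_succ_le_self a)
  · rintro ⟨h1, i, h2⟩
    exact le_antisymm ((iInf_le _ i).trans h2) (le_iInf h1)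

lemma ge_Jac {v : N → H} (hv : ∀ q, Ge 0 (v q)) {o : ℚ} (hx : ∀ p, Ge o (v (Sum.inl p)))
    (h : N → R) : Ge o (aeval v (Jac h : B)) := by
  obtain ⟨b, hb⟩ := Ideal.mem_span_range_iff_exists_fun.1 (Jac_mem_span h)
  rw [← hb, map_sum]
  exact Ge.sum fun p _ => by rw [map_mul, aeval_X]; exact (ge_aeval hv _).mul_left (hx p)

lemma Good.le_Jac {c : Fin 5} {s : K} {o : ℚ} {v : N → H} (h : Good (lam c s) o v) :
    Le (105 * o) (aeval v (Jac (f0 c s) : B)) := by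
  have := h.mu.pow 15
  rw [Jac_f0, SubmonoidClass.coe_pow, coe_muR, map_pow, map_mu]
  simp only [map_cc, aeval_X]
  convert this using 1
  push_cast; ring

/-- Points of order `a`. -/
def OrdV (a : ℕ) (v : N → H) : Prop :=
  (∀ q, Ge 0 (v q)) ∧ (∀ h : N → R, Ge a (aeval v (Jac h : B))) ∧
    ∃ h : N → R, Le a (aeval v (Jac h : B))

lemma OrdV.exists_good {a : ℕ} {v : N → H} (h : OrdV a v) (hx : ∀ p, v (Sum.inl p) ∈ ZS) :
    ∃ o : ℕ, o ≤ a ∧ a ≤ 105 * o ∧ (∀ p, Ge o (v (Sum.inl p))) ∧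
      ∃ c, ∃ s ∈ S15, Good (lam c s) o v := by
  obtain ⟨h0, h1, g, h2⟩ := h
  obtain ⟨o, ho, p, hp⟩ := exists_min hx (fun p => h0 _) fun hx0 =>
    (ge_Jac h0 (o := a + 1) (fun p => by rw [congrFun hx0 p]; exact ge_zero _) g).not_le
      (by linarith) h2
  obtain ⟨c, s, hs, hg⟩ := exists_lam hp
  exact ⟨o, by exact_mod_cast (ge_Jac h0 ho g).le_of_le h2,
    by exact_mod_cast (h1 _).le_of_le hg.le_Jac, ho, c, s, hs, hg⟩

lemma ordV_iff {γ : R →ₐ[K] PowerSeries K} {v : N → H} (h : ∀ h, toH (γ h) = aeval v (h : B))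
    {a : ℕ} : γ ∈ ordSet II a ↔ OrdV a v := by
  rw [mem_ord (g := Jac) rfl]
  simp only [h]
  exact ⟨fun h' => ⟨int_of_inv fun g => h g ▸ ge_toH _, h'⟩, fun h' => h'.2⟩

theorem rep {γ : R →ₐ[K] PowerSeries K} {a : ℕ} (hγ : γ ∈ ordSet II a) (hJ : 7 * a ≤ J) :
    ∃ (r : Fin 3 → Fin J → K) (ξ : N → H), (∀ q, ξ q ∈ ZS) ∧
      ∀ h, toH (γ h) = aeval (tw r ξ) (h : B) := by
  obtain ⟨o, ho, p, hp⟩ := exists_min (x := fun p => toH (γ (xR p))) (fun p => toH_mem_ZS _)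
    (fun p => ge_toH _) fun h0 => by
      obtain ⟨-, g, hg⟩ := (mem_ord (g := Jac) rfl).1 hγ
      rw [Jac_eq_zero γ fun p => toH_injective (by rw [map_zero]; exact congrFun h0 p),
        map_zero] at hg
      exact hg.ne_zero rfl
  obtain ⟨c, s, -, hg⟩ := exists_lam (v := xa γ) hp
  obtain ⟨r, ξ, h1, h2⟩ := exists_rep γ hg le_rfl
  obtain ⟨h0, -, g, h3⟩ := (ordV_iff h2).1 hγ
  have : o ≤ a := by
    exact_mod_cast (ge_Jac h0 (o := o) (fun p => by simpa [h2, xR] using ho p) g).le_of_le h3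
  exact exists_rep γ hg (by omega)

end Pool.Agent.MP_536a45_ag_b
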