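import Pool.Agent.MP_536a45_ag_b.Dim

/-!
Basic identities in the Grothendieck ring and the ring filtration.
-/

noncomputable section

namespace Pool.Agent.MP_536a45_ag_b

open MvPolynomial

variable {k : Type} [Field k] {ι κ : Type} [Finite ι] [Finite κ] {b : Bool} {ρ : ℕ}

/-- The quotient map onto `K0`. -/
def mk0 (k : Type) [Field k] (b : Bool) : MvPolynomial (Gen k) ℤ →+* K0 k b :=
  Ideal.Quotient.mk (Ideal.span {x | Rel (k := k) b x})

lemma mk0_rel {x : MvPolynomial (Gen k) ℤ} (h : Rel b x) : mk0 k b x = 0 :=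
  Ideal.Quotient.eq_zero_iff_mem.2 (Ideal.subset_span h)

lemma cls_eq (C : Set (ι → k)) : cls b C = mk0 k b (gen C) := rfl

lemma cls_union {C D : Set (ι → k)} (hC : IsCons C) (hD : IsCons D) (h : Disjoint C D) :
    cls b (C ∪ D) = cls b C + cls b D := by
  have := mk0_rel (Rel.add (b := b) C D hC hD h)
  simp only [map_sub, ← cls_eq] at this
  linear_combination this

lemma cls_empty : cls b (∅ : Set (ι → k)) = 0 := by
  have := cls_union (b := b) (isCons_empty (ι := ι) (k := k)) isCons_empty (by simp)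
  simpa using this

lemma cls_iso {C : Set (ι → k)} {D : Set (κ → k)} {φ : (ι → k) → κ → k}
    (h : IsIsoB false C D φ) : cls b C = cls b D := by
  have := mk0_rel (Rel.iso (b := b) C D φ ⟨h.1, h.2.1, h.2.2.1, h.2.2.2.1, fun _ => h.2.2.2.2 rfl⟩)
  simp only [map_sub, ← cls_eq] at this
  linear_combination this

lemma cls_prod {C : Set (ι → k)} {D : Set (κ → k)} (hC : IsCons C) (hD : IsCons D) :
    cls b (prodSet C D) = cls b C * cls b D := by
  have := mk0_rel (Rel.mul (b := b) C D hC hD)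
  simp only [map_sub, map_mul, ← cls_eq] at this
  linear_combination this

lemma cls_pt : cls b (Set.univ : Set (Empty → k)) = 1 := by
  have := mk0_rel (Rel.one (k := k) (b := b))
  simp only [map_sub, map_one, ← cls_eq] at this
  linear_combination this

lemma cls_biUnion {α : Type*} (s : Finset α) (C : α → Set (ι → k)) (hC : ∀ a ∈ s, IsCons (C a))
    (hd : (s : Set α).PairwiseDisjoint C) : cls b (⋃ a ∈ s, C a) = ∑ a ∈ s, cls b (C a) := by
  classical
  induction s using Finset.induction_on with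
  | empty => simpa using cls_empty
  | insert a s ha ih =>
    have h1 : IsCons (⋃ x ∈ s, C x) :=
      IsCons.biUnion s.finite_toSet fun x hx => hC x (by simp [show x ∈ s from hx])
    rw [Finset.set_biUnion_insert, Finset.sum_insert ha, cls_union (hC a (by simp)) h1,
      ih (fun x hx => hC x (by simp [hx])) (hd.subset (by simp))]
    simp only [Set.disjoint_iUnion_right]
    intro x hx
    exact hd (by simp) (by simp [hx]) (by rintro rfl; exact ha hx)

omit [Finite ι] [Finite κ] in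
lemma isReg_pmap (C : Set (ι → k)) (Ψ : κ → MvPolynomial ι k) : IsReg C (pmap Ψ) :=
  fun _ _ => ⟨Ψ, 1, by simp, fun y _ _ j => by simp [pmap]⟩

omit [Finite ι] [Finite κ] in
lemma IsReg.congr {C : Set (ι → k)} {φ ψ : (ι → k) → κ → k} (h : IsReg C φ)
    (he : Set.EqOn φ ψ C) : IsReg C ψ := fun x hx => by
  obtain ⟨p, q, h1, h2⟩ := h x hx
  exact ⟨p, q, h1, fun y hy hq j => by rw [← he hy]; exact h2 y hy hq j⟩

lemma cls_univ_congr (e : ι ≃ κ) :
    cls b (Set.univ : Set (ι → k)) = cls b (Set.univ : Set (κ → k)) := by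
  have h1 : ∀ z : ι → k, pmap (fun j => X (e.symm j)) z = z ∘ e.symm := fun z => by
    ext; simp [pmap]
  have h2 : ∀ z : κ → k, pmap (fun j => X (e j)) z = z ∘ e := fun z => by
    ext; simp [pmap]
  refine cls_iso (φ := pmap fun j => X (e.symm j)) ⟨isLC_univ, isLC_univ, isReg_pmap _ _,
    ⟨fun _ _ => trivial, fun x _ y _ h => ?_, fun y _ => ⟨y ∘ e, trivial, ?_⟩⟩,
    fun _ => ⟨pmap fun j => X (e j), isReg_pmap _ _, fun x _ => ?_⟩⟩
  · rw [h1, h1] at h
    ext i; simpa using congrFun h (e i)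
  · rw [h1]; ext; simp
  · rw [h1, h2]; ext; simp

lemma cls_univ_fin (n : ℕ) :
    cls b (Set.univ : Set (Fin n → k)) = cls b (Set.univ : Set (Unit → k)) ^ n := by
  induction n with
  | zero => rw [cls_univ_congr (Equiv.equivOfIsEmpty (Fin 0) Empty), cls_pt]; simp
  | succ n H =>
    rw [cls_univ_congr ((finSuccEquiv n).trans (Equiv.optionEquivSumPUnit.{0} (Fin n)))]
    have : (Set.univ : Set (Fin n ⊕ Unit → k)) = prodSet Set.univ Set.univ := by
      ext; simp [prodSet]
    rw [this, cls_prod isCons_univ isCons_univ, H, pow_succ]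

lemma cls_univ :
    cls b (Set.univ : Set (ι → k)) = cls b (Set.univ : Set (Unit → k)) ^ Nat.card ι := by
  rw [cls_univ_congr (Finite.equivFin ι), cls_univ_fin]

/-- The quotient map onto `Mot`. -/
def mkM (k : Type) [Field k] (b : Bool) (ρ : ℕ) : LaurentPolynomial (K0 k b) →+* Mot k b ρ :=
  Ideal.Quotient.mk (Ideal.span {LaurentPolynomial.T (ρ : ℤ) -
    LaurentPolynomial.C (cls b (Set.univ : Set (Unit → k)))})

lemma cl_eq (C : Set (ι → k)) (i : ℤ) :
    cl b ρ C i = mkM k b ρ (LaurentPolynomial.C (cls b C) * LaurentPolynomial.T i) := rfl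

lemma mkM_lef : mkM k b ρ (LaurentPolynomial.C (cls b (Set.univ : Set (Unit → k)))) =
    mkM k b ρ (LaurentPolynomial.T ρ) := by
  have : mkM k b ρ (LaurentPolynomial.T (ρ : ℤ) -
      LaurentPolynomial.C (cls b (Set.univ : Set (Unit → k)))) = 0 :=
    Ideal.Quotient.eq_zero_iff_mem.2 (Ideal.subset_span (Set.mem_singleton _))
  rw [map_sub] at this
  linear_combination -this

lemma cl_mul {C : Set (ι → k)} {D : Set (κ → k)} (hC : IsCons C) (hD : IsCons D) (i j : ℤ) :
    cl b ρ C i * cl b ρ D j = cl b ρ (prodSet C D) (i + j) := by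
  rw [cl_eq, cl_eq, cl_eq, cls_prod hC hD, ← map_mul, map_mul LaurentPolynomial.C,
    LaurentPolynomial.T_add]
  congr 1; ring

lemma cl_pt (i : ℤ) :
    cl b ρ (Set.univ : Set (Empty → k)) i = mkM k b ρ (LaurentPolynomial.T i) := by
  rw [cl_eq, cls_pt]; simp

lemma Fil_anti {s t : ℤ} (h : s ≤ t) : Fil k b ρ t ≤ Fil k b ρ s := by
  refine AddSubgroup.closure_mono ?_
  rintro x ⟨ι, hι, C, i, D, h1, h2, h3, h4⟩
  exact ⟨ι, hι, C, i, D, h1, h2, by omega, h4⟩

lemma cl_mem_Fil {C : Set (ι → k)} (hC : IsCons C) {D : ℕ} (hD : DimLE C D) {i s : ℤ}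
    (h : (ρ : ℤ) * D + i ≤ -s) : cl b ρ C i ∈ Fil k b ρ s :=
  AddSubgroup.subset_closure ⟨ι, inferInstance, C, i, D, hC, hD, h, rfl⟩

lemma Fil_mul {s t : ℤ} {x y : Mot k b ρ} (hx : x ∈ Fil k b ρ s) (hy : y ∈ Fil k b ρ t) :
    x * y ∈ Fil k b ρ (s + t) := by
  induction hx using AddSubgroup.closure_induction with
  | mem x hx =>
    induction hy using AddSubgroup.closure_induction with
    | mem y hy =>
      obtain ⟨ι, hι, C, i, D, h1, h2, h3, rfl⟩ := hx
      obtain ⟨κ, hκ, C', i', D', h1', h2', h3', rfl⟩ := hy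
      rw [cl_mul h1 h1']
      refine cl_mem_Fil (h1.prod h1') (DimLE.prod h2 h2') ?_
      push_cast; linarith
    | zero => simp
    | add _ _ _ _ h1 h2 => rw [mul_add]; exact add_mem h1 h2
    | neg _ _ h => rw [mul_neg]; exact neg_mem h
  | zero => simp
  | add _ _ _ _ h1 h2 => rw [add_mul]; exact add_mem h1 h2
  | neg _ _ h => rw [neg_mul]; exact neg_mem h

lemma exists_mem_Fil (x : Mot k b ρ) : ∃ s, x ∈ Fil k b ρ s := by
  let S : Subring (Mot k b ρ) :=
    { carrier := {x | ∃ s, x ∈ Fil k b ρ s}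
      mul_mem' := fun ⟨s, hs⟩ ⟨t, ht⟩ => ⟨s + t, Fil_mul hs ht⟩
      one_mem' := ⟨0, by
        have := cl_mem_Fil (b := b) (ρ := ρ) (isCons_univ (k := k) (ι := Empty))
          (dimLE_card _) (i := 0) (s := 0) (by simp)
        rw [cl_pt] at this
        simpa using this⟩
      add_mem' := fun ⟨s, hs⟩ ⟨t, ht⟩ =>
        ⟨min s t, add_mem (Fil_anti (min_le_left _ _) hs) (Fil_anti (min_le_right _ _) ht)⟩
      zero_mem' := ⟨0, zero_mem _⟩
      neg_mem' := fun ⟨s, hs⟩ => ⟨s, neg_mem hs⟩ }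
  change x ∈ S
  obtain ⟨x, rfl⟩ : ∃ y, mkM k b ρ y = x := Ideal.Quotient.mk_surjective x
  induction x using LaurentPolynomial.induction_on' with
  | add p q hp hq => rw [map_add]; exact add_mem hp hq
  | C_mul_T n a =>
    rw [map_mul]
    refine mul_mem ?_ ⟨-n, ?_⟩
    · obtain ⟨a, rfl⟩ : ∃ y, mk0 k b y = a := Ideal.Quotient.mk_surjective a
      induction a using MvPolynomial.induction_on with
      | C c => simp
      | add p q hp hq => rw [map_add, map_add, map_add]; exact add_mem hp hq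
      | mul_X p g hp =>
        rw [map_mul, map_mul, map_mul]
        refine mul_mem hp ?_
        obtain ⟨ι, hι, C, hC⟩ := g
        have h1 : (X ⟨ι, hι, C, hC⟩ : MvPolynomial (Gen k) ℤ) = gen C := by simp [gen, hC]
        have := cl_mem_Fil (b := b) (ρ := ρ) hC (dimLE_card _) (i := 0)
          (s := -(ρ * Nat.card ι)) (by simp)
        rw [cl_eq] at this
        exact ⟨_, by simpa [h1, ← cls_eq] using this⟩
    · rw [← cl_pt]
      exact cl_mem_Fil isCons_univ (dimLE_card _) (by simp)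

theorem fil_basis (k : Type) [Field k] (b : Bool) (ρ : ℕ) : RingSubgroupsBasis (Fil k b ρ) := by
  refine RingSubgroupsBasis.of_comm _ (fun i j => ⟨max i j, le_inf (Fil_anti (le_max_left _ _))
    (Fil_anti (le_max_right _ _))⟩) (fun i => ⟨max i 0, ?_⟩) (fun x i => ?_)
  · rintro _ ⟨x, hx, y, hy, rfl⟩
    exact Fil_anti (by omega) (Fil_mul hx hy)
  · obtain ⟨s, hs⟩ := exists_mem_Fil x
    exact ⟨i - s, fun y hy => Fil_anti (by omega) (Fil_mul hs hy)⟩

end Pool.Agent.MP_536a45_ag_b
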