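import Pool.Agent.MP_536a45_ag_b.Defs1

/-!
Stable cylinders have a well defined measure; convergence in the completion.
-/

noncomputable section

namespace Pool.Agent.MP_536a45_ag_b

open MvPolynomial Filter Topology

variable {k : Type} [Field k] {b : Bool} {ρ : ℕ}

section
variable {R : Type} [CommRing R] [Algebra k R] {m : ℕ}

lemma cut_jet (f : Fin m → R) (n : ℕ) (γ : R →ₐ[k] PowerSeries k) :
    cut (jet f (n + 1) γ) = jet f n γ := by
  ext p; simp [cut, jet]

lemma IsStable.cls_succ {δ : Type} [Finite δ] {f : Fin m → R} {A : Set (R →ₐ[k] PowerSeries k)}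
    {n₀ n : ℕ} (h : IsStable δ f A n₀) (hn : n₀ ≤ n) :
    cls b (jet f (n + 1) '' A) =
      cls b (jet f n '' A) * cls b (Set.univ : Set (Unit → k)) ^ Nat.card δ := by
  obtain ⟨-, -, s, hs, hd, hU, hS⟩ := h n hn
  lift s to Finset (Set (Fin m × Fin (n + 1) → k)) using hs
  have h1 : jet f (n + 1) '' A = ⋃ S ∈ s, (jet f (n + 1) '' A ∩ cut ⁻¹' S) := by
    ext z
    simp only [Set.mem_iUnion, Set.mem_inter_iff, Set.mem_preimage, exists_prop]
    refine ⟨fun hz => ?_, fun ⟨S, _, h, _⟩ => h⟩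
    obtain ⟨γ, hγ, rfl⟩ := hz
    have : cut (jet f (n + 1) γ) ∈ ⋃₀ (s : Set (Set _)) := by
      rw [hU, cut_jet]; exact ⟨γ, hγ, rfl⟩
    obtain ⟨S, hS, h⟩ := this
    exact ⟨S, hS, ⟨γ, hγ, rfl⟩, h⟩
  have h2 : jet f n '' A = ⋃ S ∈ s, S := by rw [← hU, Set.sUnion_eq_biUnion]; rfl
  rw [h1, cls_biUnion, h2, cls_biUnion _ _ (fun S hS' => (hS S hS').1.isCons) hd]
  · refine (Finset.sum_congr rfl fun S hS' => ?_).trans (Finset.sum_mul _ _ _).symm
    obtain ⟨hLC, φ, hφ, -⟩ := hS S hS'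
    rw [cls_iso hφ, cls_prod hLC.isCons isCons_univ, cls_univ]
  · intro S hS'
    obtain ⟨-, φ, hφ, -⟩ := hS S hS'
    exact hφ.1.isCons
  · intro S hS S' hS' hne
    exact ((hd hS hS' hne).preimage cut).mono Set.inter_subset_right Set.inter_subset_right

lemma IsStable.cl_eq {δ : Type} [Finite δ] {f : Fin m → R} {A : Set (R →ₐ[k] PowerSeries k)}
    {n₀ n : ℕ} (h : IsStable δ f A n₀) (hn : n₀ ≤ n) (a : ℤ) :
    cl b ρ (jet f n '' A) (ρ * (a - n * Nat.card δ)) =
      cl b ρ (jet f n₀ '' A) (ρ * (a - n₀ * Nat.card δ)) := by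
  induction n, hn using Nat.le_induction with
  | base => rfl
  | succ n hn ih =>
    rw [← ih, Pool.Agent.MP_536a45_ag_b.cl_eq, Pool.Agent.MP_536a45_ag_b.cl_eq, h.cls_succ hn]
    simp only [map_mul, map_pow, mkM_lef]
    rw [mul_assoc, ← map_pow, ← map_mul, LaurentPolynomial.T_pow, ← LaurentPolynomial.T_add]
    congr 3
    push_cast; ring

end

lemma nhds_basis : (𝓝 (0 : Mot k b ρ)).HasBasis (fun _ => True) fun s : ℤ => Fil k b ρ s :=
  RingSubgroupsBasis.hasBasis_nhds_zero (B := Fil k b ρ) (fil_basis k b ρ)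

lemma summable_of_Fil (t : ℕ → Mot k b ρ) (h : ∀ s, ∀ᶠ a in atTop, t a ∈ Fil k b ρ s) :
    Summable fun a => (t a : MotHat k b ρ) := by
  refine NonarchimedeanAddGroup.summable_of_tendsto_cofinite_zero ?_
  rw [Nat.cofinite_eq_atTop]
  have : Tendsto t atTop (𝓝 0) := nhds_basis.tendsto_right_iff.2 fun s _ => h s
  have h2 := ((UniformSpace.Completion.continuous_coe (Mot k b ρ)).tendsto 0).comp this
  rwa [UniformSpace.Completion.coe_zero] at h2

lemma tendsto_zero_of_coe {x : ℕ → Mot k b ρ}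
    (h : Tendsto (fun a => (x a : MotHat k b ρ)) atTop (𝓝 0)) (s : ℤ) :
    ∀ᶠ a in atTop, x a ∈ Fil k b ρ s := by
  have : Tendsto x atTop (𝓝 0) := by
    rw [(UniformSpace.Completion.isUniformInducing_coe (Mot k b ρ)).isInducing.tendsto_nhds_iff,
      UniformSpace.Completion.coe_zero]
    exact h
  exact nhds_basis.tendsto_right_iff.1 this s trivial

lemma coe_aeval (x : Mot k b ρ) (P : Polynomial ℤ) :
    P.eval₂ (Int.castRingHom _) (x : MotHat k b ρ) =
      ((P.eval₂ (Int.castRingHom _) x : Mot k b ρ) : MotHat k b ρ) := by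
  have := Polynomial.hom_eval₂ P (Int.castRingHom _)
    (UniformSpace.Completion.coeRingHom (α := Mot k b ρ)) x
  rw [Subsingleton.elim (RingHom.comp _ _) (Int.castRingHom _)] at this
  exact this.symm

lemma of_isRatFun {t : ℕ → Mot k b ρ} {M : MotHat k b ρ} {j : ℤ}
    (h : HasSum (fun a => (t a : MotHat k b ρ)) M) (hM : IsRatFun b ρ j M) :
    (∀ s, (1 : Mot k b ρ) ∈ Fil k b ρ s) ∨ ∃ P Q : Polynomial ℤ, Q ≠ 0 ∧ ∀ s, ∀ᶠ A in atTop,
      Q.eval₂ (Int.castRingHom _) (cl b ρ (Set.univ : Set (Empty → k)) j) *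
        ∑ a ∈ Finset.range A, t a -
        P.eval₂ (Int.castRingHom _) (cl b ρ (Set.univ : Set (Empty → k)) j) ∈ Fil k b ρ s := by
  obtain ⟨P, Q, hu, hM⟩ := hM
  by_cases hQ : Q = 0
  · left
    intro s
    have : (1 : MotHat k b ρ) = 0 := by
      have hu := hu.resolve_right (not_not.2 hQ)
      rw [hQ, Polynomial.eval₂_zero, isUnit_zero_iff] at hu
      exact hu.symm
    refine (tendsto_zero_of_coe (x := fun _ => 1) ?_ s).exists.choose_spec
    rw [UniformSpace.Completion.coe_one, this]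
    exact tendsto_const_nhds
  right
  refine ⟨P, Q, hQ, fun s => tendsto_zero_of_coe ?_ s⟩
  have h1 := (h.tendsto_sum_nat.const_mul (Q.eval₂ (Int.castRingHom _)
    ((cl b ρ (Set.univ : Set (Empty → k)) j : Mot k b ρ) : MotHat k b ρ))).sub_const
    (P.eval₂ (Int.castRingHom _)
    ((cl b ρ (Set.univ : Set (Empty → k)) j : Mot k b ρ) : MotHat k b ρ))
  rw [hM, sub_self] at h1
  refine h1.congr fun A => ?_
  rw [UniformSpace.Completion.coe_sub, UniformSpace.Completion.coe_mul, ← coe_aeval, ← coe_aeval]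
  congr 2
  exact (map_sum (UniformSpace.Completion.coeRingHom (α := Mot k b ρ)) _ _).symm

end Pool.Agent.MP_536a45_ag_b
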