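import Pool.Agent.MP_536a45_ag_b.Par
import Pool.Agent.MP_536a45_ag_b.Top

/-!
The level sets of the order function are stable cylinders.
-/

noncomputable section

namespace Pool.Agent.MP_536a45_ag_b

open MvPolynomial Matrix

attribute [-simp] MvPolynomial.aeval_eq_bind₁

lemma isReg_of_div {k ι κ : Type} [Field k] [Fintype κ] {C : Set (ι → k)} {φ : (ι → k) → κ → k}
    (h : ∀ j, ∃ p q : MvPolynomial ι k, ∀ y ∈ C, aeval y q ≠ 0 ∧ φ y j = aeval y p / aeval y q) :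
    IsReg C φ := by
  classical
  choose p q h using h
  refine fun x hx => ⟨fun j => p j * ∏ i ∈ Finset.univ.erase j, q i, ∏ i, q i, ?_,
    fun y hy hq j => ?_⟩
  · rw [map_prod]; exact Finset.prod_ne_zero_iff.2 fun i _ => (h i x hx).1
  · rw [(h j y hy).2, div_eq_div_iff (h j y hy).1 hq,
      ← Finset.mul_prod_erase _ _ (Finset.mem_univ j)]
    simp only [map_mul]; ring

lemma iso_of_rel {k δ : Type} [Field k] [Fintype δ] {m n : ℕ} (S : δ → Fin m)
    {P : Set (Fin m × Fin (n + 1) → k)} (hP : IsLC P)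
    (w g : Fin m → MvPolynomial (Fin m × Fin (n + 1)) k)
    (u : Fin m → δ → MvPolynomial (Fin m × Fin (n + 1)) k) (hw : ∀ z ∈ P, ∀ j, aeval z (w j) ≠ 0)
    {C : Set (Fin m × Fin (n + 2) → k)}
    (h1 : ∀ z ∈ C, cut z ∈ P → ∀ j, aeval (cut z) (w j) * z (j, Fin.last _) =
      ∑ q, aeval (cut z) (u j q) * z (S q, Fin.last _) - aeval (cut z) (g j))
    (h2 : ∀ y ∈ P, ∀ b : δ → k, ∃ z ∈ C, cut z = y ∧ ∀ q, z (S q, Fin.last _) = b q) :
    ∃ φ, IsIsoB false (C ∩ cut ⁻¹' P) (prodSet P (Set.univ : Set (δ → k))) φ ∧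
      ∀ z ∈ C ∩ cut ⁻¹' P, φ z ∘ Sum.inl = cut z := by
  let φ : (Fin m × Fin (n + 2) → k) → (Fin m × Fin (n + 1)) ⊕ δ → k :=
    fun z => Sum.elim (cut z) fun q => z (S q, Fin.last _)
  let ψ : ((Fin m × Fin (n + 1)) ⊕ δ → k) → Fin m × Fin (n + 2) → k := fun y p =>
    Fin.lastCases (motive := fun _ => k) ((∑ q, aeval (y ∘ Sum.inl) (u p.1 q) * y (Sum.inr q) -
      aeval (y ∘ Sum.inl) (g p.1)) / aeval (y ∘ Sum.inl) (w p.1)) (fun i => y (Sum.inl (p.1, i))) p.2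
  have key : ∀ z, cut z ∈ P → (∀ j, aeval (cut z) (w j) * z (j, Fin.last _) =
      ∑ q, aeval (cut z) (u j q) * z (S q, Fin.last _) - aeval (cut z) (g j)) → ψ (φ z) = z := by
    intro z hz h
    ext ⟨j, i⟩
    induction i using Fin.lastCases with
    | last =>
      simp only [ψ, Fin.lastCases_last]
      exact (div_eq_iff (hw _ hz j)).2 ((h j).symm.trans (mul_comm _ _))
    | cast i => simp only [ψ, Fin.lastCases_castSucc]; rfl
  let Ψ : Fin m × Fin (n + 1) → MvPolynomial (Fin m × Fin (n + 2)) k :=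
    fun p => X (p.1, p.2.castSucc)
  have hΨ : ∀ z, pmap Ψ z = cut z := fun z => by ext; simp [pmap, Ψ, cut]
  have hinv : Set.LeftInvOn ψ φ (C ∩ cut ⁻¹' P) := fun z hz => key z hz.2 (h1 z hz.1 hz.2)
  refine ⟨φ, ⟨?_, hP.prod isLC_univ, ?_, ⟨fun z hz => ⟨hz.2, trivial⟩, hinv.injOn, ?_⟩,
    fun _ => ⟨ψ, isReg_of_div ?_, hinv⟩⟩, fun _ _ => rfl⟩
  · have := (isLC_of_family (fun j => aeval Ψ (w j) * X (j, Fin.last _) -
      (∑ q, aeval Ψ (u j q) * X (S q, Fin.last _) - aeval Ψ (g j))) fun _ : Unit => 1).inter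
      (hP.preimage Ψ)
    convert this using 1
    ext z
    simp only [Set.mem_inter_iff, Set.mem_preimage, Set.mem_ofPred_eq, map_sub, map_mul, map_sum,
      aeval_X, ← aeval_pmap, hΨ, sub_eq_zero, map_one, ne_eq, one_ne_zero, not_false_eq_true,
      exists_const, and_true]
    refine ⟨fun h => ⟨h1 z h.1 h.2, h.2⟩, fun h => ⟨?_, h.2⟩⟩
    obtain ⟨z', hz', e1, e2⟩ := h2 _ h.2 fun q => z (S q, Fin.last _)
    have : φ z' = φ z := by simp only [φ, e1, e2]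
    rwa [← key z h.2 h.1, ← this, hinv ⟨hz', by rw [Set.mem_preimage, e1]; exact h.2⟩]
  · refine (isReg_pmap _ (Sum.elim Ψ fun q => X (S q, Fin.last _))).congr fun z _ => ?_
    ext (p | q)
    · exact congrFun (hΨ z) p
    · simp [pmap, φ]
  · intro y hy
    obtain ⟨z, hz, e1, e2⟩ := h2 _ hy.1 (y ∘ Sum.inr)
    refine ⟨z, ⟨hz, by rw [Set.mem_preimage, e1]; exact hy.1⟩, ?_⟩
    ext (p | q)
    · exact congrFun e1 p
    · exact e2 q
  · rintro ⟨j, i⟩
    induction i using Fin.lastCases with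
    | last =>
      refine ⟨∑ q, rename Sum.inl (u j q) * X (Sum.inr q) - rename Sum.inl (g j),
        rename Sum.inl (w j), fun y hy => ?_⟩
      simp only [ψ, Fin.lastCases_last, aeval_rename, map_sub, map_sum, map_mul, aeval_X]
      exact ⟨hw _ hy.1 j, trivial⟩
    | cast i => exact ⟨X (Sum.inl (j, i)), 1, fun y _ => by simp [ψ]⟩

variable {m : ℕ} {f : Fin m → R}

lemma ge_lf_jet (f : Fin m → R) (n : ℕ) (γ : R →ₐ[K] PowerSeries K) (i : Fin m) :
    Ge (n + 1) (lf (jet f n γ) i - toH (γ (f i))) := by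
  have := ge_of_coeff (n := n + 1) (sub_mem (lf_mem (jet f n γ) i) (toH_mem_ZS (γ (f i))))
    ((lf_ge _ _).sub (ge_toH _)) fun e he => by simp [lf_coeff, he, toH_coeff, jet]
  exact_mod_cast this

lemma polyF_jet (n : ℕ) (G : MvPolynomial (Fin m) K) :
    PolyF fun z : Fin m × Fin (n + 1) → K => aeval (lf z) G :=
  PolyF.aeval (fun i => polyF_lf id i) G

lemma jetpoly (hf : Algebra.adjoin K (Set.range f) = ⊤) (n : ℕ) (h : R) (e : ℕ) :
    ∃ p : MvPolynomial (Fin m × Fin (n + 1)) K, e ≤ n → ∀ γ : R →ₐ[K] PowerSeries K,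
      (toH (γ h)).coeff e = aeval (jet f n γ) p := by
  obtain ⟨G, rfl⟩ := exists_lift hf h
  obtain ⟨p, hp⟩ := (polyF_jet n G).coeff e
  refine ⟨p, fun he γ => ?_⟩
  have := ge_aeval_sub (fun _ => ge_toH _) (lf_ge _) (ge_lf_jet f n γ) G e
    (by exact_mod_cast Nat.lt_succ_of_le he)
  rw [HahnSeries.coeff_sub, sub_eq_zero, hp] at this
  rw [this, algHom_aeval, algHom_aeval]

lemma Ge.pow {s : ℚ} {z : H} (h : Ge s z) (n : ℕ) : Ge (n * s) (z ^ n) := by
  induction n with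
  | zero => simpa using mem_OS.1 (one_mem _)
  | succ n ih => rw [pow_succ]; convert ih.mul h using 1; push_cast; ring

lemma key_rel {γ : R →ₐ[K] PowerSeries K} {a n e M : ℕ} (hγ : γ ∈ ordSet II a) {μ : R}
    (hμ : Ge e (toH (γ μ))) (hn : M * e + a ≤ n) {S : N → Fin m} {j : Fin m}
    {G : MvPolynomial (Fin m) K} (hG : aeval f G = 0) (hG' : ∀ i, aeval f (pderiv i G) =
      μ ^ M * ((if j = i then Jac (f ∘ S) else 0) -
        ∑ q, if S q = i then Jac (Function.update (f ∘ S) q (f j)) else 0)) :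
    (toH (γ (μ ^ M * Jac (f ∘ S)))).coeff (M * e + a : ℕ) * jet f (n + 1) γ (j, Fin.last _) =
      ∑ q, (toH (γ (μ ^ M * Jac (Function.update (f ∘ S) q (f j))))).coeff (M * e + a : ℕ) *
        jet f (n + 1) γ (S q, Fin.last _) -
      (aeval (lf (jet f n γ)) G).coeff (M * e + a + (n + 1)) := by
  have h1 := taylor (fun i => ge_toH (γ (f i))) (by positivity) (ge_lf_jet f n γ) G
    (M * e + a + (n + 1)) (by
      have : ((M * e + a : ℕ) : ℚ) ≤ n := by exact_mod_cast hn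
      push_cast at this; linarith)
  have e1 : ∀ p, aeval (fun i => toH (γ (f i))) p = toH (γ (aeval f p)) := fun p => by
    rw [algHom_aeval, algHom_aeval]
  have e2 : ((fun i => toH (γ (f i))) + fun i => lf (jet f n γ) i - toH (γ (f i))) =
      lf (jet f n γ) := by ext1; simp
  have e3 : ∑ i, toH (γ (aeval f (pderiv i G))) * (lf (jet f n γ) i - toH (γ (f i))) =
      toH (γ (μ ^ M * Jac (f ∘ S))) * (lf (jet f n γ) j - toH (γ (f j))) -
      ∑ q, toH (γ (μ ^ M * Jac (Function.update (f ∘ S) q (f j)))) *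
        (lf (jet f n γ) (S q) - toH (γ (f (S q)))) := by
    simp only [hG', mul_sub (μ ^ M), Finset.mul_sum, mul_ite, mul_zero, map_sub, map_sum,
      apply_ite γ, apply_ite toH, map_zero, sub_mul, Finset.sum_mul, ite_mul, zero_mul,
      Finset.sum_sub_distrib, Finset.sum_ite_eq, Finset.mem_univ, if_true]
    rw [Finset.sum_comm]
    simp only [Finset.sum_ite_eq, Finset.mem_univ, if_true]
  have e4 : ∀ (h : N → R) i, (toH (γ (μ ^ M * Jac h)) * (lf (jet f n γ) i - toH (γ (f i)))).coeff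
      (M * e + a + (n + 1)) = -((toH (γ (μ ^ M * Jac h))).coeff (M * e + a : ℕ) *
        jet f (n + 1) γ (i, Fin.last _)) := by
    intro h i
    rw [coeff_mul_of_ge (by
      rw [map_mul, map_mul, map_pow, map_pow]
      exact (hμ.pow M).mul (((mem_ord (g := Jac) rfl).1 hγ).1 h)) (ge_lf_jet f n γ i)]
    have := lf_coeff (jet f n γ) i (n + 1)
    have h2 := toH_coeff (γ (f i)) (n + 1)
    push_cast at this h2 ⊢
    simp [this, h2, jet]
  simp only [e1, e2, hG, map_zero, sub_zero, e3, HahnSeries.coeff_sub, HahnSeries.coeff_sum, e4,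
    Finset.sum_neg_distrib] at h1
  linear_combination h1

lemma exists_next {γ : R →ₐ[K] PowerSeries K} {a n : ℕ} (hγ : γ ∈ ordSet II a) (hn : 2 * a ≤ n)
    {g : N → R} (hg : Le a (toH (γ (Jac g)))) (b : N → K) :
    ∃ γ' ∈ ordSet II a, jet f n γ' = jet f n γ ∧
      ∀ q, PowerSeries.coeff (n + 1) (γ' (g q)) = b q := by
  obtain ⟨r, ξ, hξ, h⟩ := rep hγ le_rfl
  have hv := (ordV_iff h).1 hγ
  rw [h] at hg
  have hn' : (2 * a : ℚ) ≤ n := by exact_mod_cast hn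
  set D := DM (tw r ξ) g * Bm fun i => al (r i) with hD
  have hD1 : ∀ i j, D i j ∈ ZS := fun i j => (tw_mem_ZS r hξ (g i)).2 j
  have hD2 : D.det = aeval (tw r ξ) (Jac g : B) := by rw [hD, det_mul, det_Bm, mul_one, aeval_Jac]
  let c : N → H := fun q => HahnSeries.single ((n + 1 : ℤ) : ℚ)
    (b q - PowerSeries.coeff (n + 1) (γ (g q)))
  let η : N → H := D.det⁻¹ • D.adjugate *ᵥ c
  have hη : ∀ q, η q ∈ ZS := fun q => by
    change D.det⁻¹ * _ ∈ _
    rw [inv_mul_eq_div]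
    refine div_mem_ZS ?_ (det_mem ZS hD1)
    simp only [mulVec, dotProduct]
    exact sum_mem fun i _ => mul_mem (adjugate_mem ZS hD1 _ _) (single_mem_ZS _ _)
  have h1 : DM (tw r ξ) g *ᵥ tw r η = c := by
    rw [tw, tw, ← Bm_mulVec _ η, mulVec_mulVec, ← tw, ← hD, mulVec_smul, mulVec_mulVec,
      mul_adjugate, smul_mulVec, one_mulVec, smul_smul, inv_mul_cancel₀ (hD2 ▸ hg.ne_zero),
      one_smul]
  obtain ⟨h2, h3⟩ := hv.cv hg (δ := tw r η) (s := n + 1) fun q => by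
    rw [h1]; exact (ge_single _ _).mono (by simp)
  have h4 : tw r (ξ + η) = tw r ξ + tw r η := by
    rw [← sub_eq_iff_eq_add, ← tw_sub, add_sub_cancel_right]
  have h5 := fun p : R => taylor hv.1 (by linarith) h2 (p : B)
  rw [← h4] at h5
  have h6 : ∀ p : R, Ge (n + 1) (aeval (tw r (ξ + η)) (p : B) - aeval (tw r ξ) (p : B)) :=
    fun p => by simpa using ((h5 p).mono (by linarith)).add (h3 p)
  have h7 := hv.congr (by linarith [(Nat.cast_nonneg a : (0 : ℚ) ≤ a)]) h6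
  obtain ⟨γ', hγ'⟩ := exists_arc r (ξ := ξ + η) (fun q => add_mem (hξ q) (hη q))
    fun _ => ge_aeval h7.1 _
  refine ⟨γ', (ordV_iff hγ').2 h7, ?_, fun q => ?_⟩
  · rw [jet_eq_jetV hγ', jet_eq_jetV h, jetV_eq h6]
  · have h8 := h5 (g q) (n + 1 : ℕ) (by push_cast; linarith)
    have h9 : ∑ i, aeval (tw r ξ) (pderiv i (g q : B)) * tw r η i = c q := congrFun h1 q
    rw [h9, ← hγ', ← h, HahnSeries.coeff_sub, HahnSeries.coeff_sub, toH_coeff, toH_coeff] at h8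
    simp only [c, Int.cast_add, Int.cast_natCast, Int.cast_one, Nat.cast_add, Nat.cast_one,
      HahnSeries.coeff_single_same] at h8
    linear_combination h8

theorem exists_stable (hf : Algebra.adjoin K (Set.range f) = ⊤) (a : ℕ) :
    ∃ n₀, a ≤ n₀ ∧ IsStable (k := K) N f (ordSet II a) n₀ := by
  choose! M G hG hG' using fun (c : Fin 5) (s : K) (hl : muR (lam c s) ≠ 0) (S : N → Fin m)
    (j : Fin m) => exists_relation f hf hl S j
  obtain ⟨M₀, hM₀⟩ := Finite.exists_le fun x : Fin 5 × S15 × (N → Fin m) × Fin m =>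
    M x.1 x.2.1 x.2.2.1 x.2.2.2
  refine ⟨(M₀ + 1) * (7 * a) + a, by omega, fun n hn => ⟨isCons_jets (by omega),
    cylinder hf (by omega), ?_⟩⟩
  choose p hp using jetpoly hf n
  choose p' hp' using fun (G : MvPolynomial (Fin m) K) γ => (polyF_jet n G).coeff γ
  have hn' : 8 * a ≤ n := by nlinarith [Nat.zero_le (M₀ * (7 * a))]
  let C : Fin 5 × S15 × (N → Fin m) × Fin (7 * a + 1) → Set (Fin m × Fin (n + 1) → K) := fun x =>
    jet f n '' ordSet II a ∩
      {z | (∀ e : Fin x.2.2.2, aeval z (p (muR (lam x.1 x.2.1)) e) = 0) ∧ ∃ _ : Unit,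
        aeval z (p (muR (lam x.1 x.2.1)) x.2.2.2 * p (Jac (f ∘ x.2.2.1)) a) ≠ 0}
  have hC : ∀ x γ, jet f n γ ∈ C x ↔ γ ∈ ordSet II a ∧ Ge x.2.2.2 (toH (γ (muR (lam x.1 x.2.1)))) ∧
      Le x.2.2.2 (toH (γ (muR (lam x.1 x.2.1)))) ∧ Le a (toH (γ (Jac (f ∘ x.2.2.1)))) := by
    rintro ⟨c, s, S, e⟩ γ
    have h0 : jet f n γ ∈ jet f n '' ordSet II a ↔ γ ∈ ordSet II a :=
      Set.ext_iff.1 (cylinder hf (by omega)) γ
    have he : (e : ℕ) ≤ n := by omega
    simp only [C, Set.mem_inter_iff, h0, Set.mem_ofPred_eq, map_mul, exists_const, mul_ne_zero_iff,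
      ← hp _ _ he, ← hp _ a (by omega)]
    refine and_congr_right fun h1 => ⟨fun h => ⟨ge_of_coeff (toH_mem_ZS _) (ge_toH _)
      fun i hi => (hp _ _ (by omega) γ).trans (h.1 ⟨i, hi⟩), ⟨_, le_rfl, h.2.1⟩, _, le_rfl, h.2.2⟩,
      fun h => ⟨fun i => (hp _ _ (by omega) γ).symm.trans (h.1 _ (by exact_mod_cast i.2)),
        h.1.le_iff.1 h.2.1, (((mem_ord (g := Jac) rfl).1 h1).1 _).le_iff.1 h.2.2⟩⟩
  obtain ⟨s, hs1, hs2, hs3, hs4⟩ := exists_partition C fun x =>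
    (isCons_jets (by omega)).inter (isLC_of_family _ _).isCons
  refine ⟨s, hs1, hs2, hs3.trans ((Set.iUnion_subset fun x => Set.inter_subset_left).antisymm ?_),
    fun P hP => ⟨(hs4 P hP).1, ?_⟩⟩
  · rintro _ ⟨γ, hγ, rfl⟩
    obtain ⟨r, ξ, hξ, h⟩ := rep hγ le_rfl
    obtain ⟨o, ho, -, -, c, s, hs, hg⟩ := ((ordV_iff h).1 hγ).exists_good fun p => hξ _
    have hμ := hg.mu
    rw [← aeval_muR, ← h] at hμ
    obtain ⟨e, he, -, he'⟩ := exists_min (x := fun _ : Unit => toH (γ (muR (lam c s))))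
      (fun _ => toH_mem_ZS _) (fun _ => ge_toH _) fun h0 => hμ.ne_zero (congrFun h0 ())
    obtain ⟨S, hS⟩ := ((mem_ord (omega_spec.2.2 _ f hf)).1 hγ).2
    have : e ≤ 7 * o := by exact_mod_cast (he ()).le_of_le hμ
    exact Set.mem_iUnion.2 ⟨(c, ⟨s, hs⟩, S, ⟨e, by omega⟩), (hC _ _).2
      ⟨hγ, he (), ⟨_, le_rfl, he'⟩, hS⟩⟩
  obtain ⟨hP1, ⟨c, s, S, e⟩, hP2⟩ := hs4 P hP
  have hle : ∀ j, M c s S j * e + a ≤ n := fun j => by
    have := Nat.mul_le_mul (hM₀ (c, s, S, j)) (Nat.lt_succ_iff.1 e.2)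
    nlinarith
  refine iso_of_rel S hP1 (fun j => p (muR (lam c s) ^ M c s S j * Jac (f ∘ S)) (M c s S j * e + a))
    (fun j => p' (G c s S j) (M c s S j * e + a + (n + 1)))
    (fun j q => p (muR (lam c s) ^ M c s S j * Jac (Function.update (f ∘ S) q (f j)))
      (M c s S j * e + a)) (fun z hz j => ?_) ?_ fun y hy b => ?_
  · obtain ⟨γ, -, rfl⟩ := (hP2 hz).1
    obtain ⟨h1, h2, h3, h4⟩ := (hC _ _).1 (hP2 hz)
    rw [← hp _ _ (hle j), map_mul, map_mul, map_pow, map_pow]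
    push_cast
    exact ((h2.pow _).mul (((mem_ord (g := Jac) rfl).1 h1).1 _)).le_iff.1 ((h3.pow _).mul h4)
  · rintro _ ⟨γ, -, rfl⟩ hz j
    rw [cut_jet] at hz ⊢
    obtain ⟨h1, h2, h3, h4⟩ := (hC _ _).1 (hP2 hz)
    have hl : muR (lam c s) ≠ 0 := fun h => h3.ne_zero (by rw [h, map_zero, map_zero])
    simp only [← hp _ _ (hle j), ← hp']
    exact key_rel h1 h2 (hle j) (hG c s hl S j) (hG' c s hl S j)
  · obtain ⟨γ, -, rfl⟩ := (hP2 hy).1
    obtain ⟨h1, -, -, h4⟩ := (hC _ _).1 (hP2 hy)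
    obtain ⟨γ', h5, h6, h7⟩ := exists_next (f := f) (n := n) h1 (by omega) h4 b
    exact ⟨_, ⟨γ', h5, rfl⟩, (cut_jet f n γ').trans h6, h7⟩

end Pool.Agent.MP_536a45_ag_b
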