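import Pool.Agent.MP_536a45_ag_b.Grp

/-!
Taylor expansion and Cramer's rule over Hahn series.
-/

noncomputable section

namespace Pool.Agent.MP_536a45_ag_b

open MvPolynomial Matrix

attribute [-simp] MvPolynomial.aeval_eq_bind₁

lemma aeval_mem (S : Subalgebra K H) {σ : Type} {v : σ → H} (hv : ∀ i, v i ∈ S)
    (p : MvPolynomial σ K) : aeval v p ∈ S := by
  induction p using MvPolynomial.induction_on with
  | C c => simp
  | add p q hp hq => rw [map_add]; exact add_mem hp hq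
  | mul_X p i hp => rw [map_mul, aeval_X]; exact mul_mem hp (hv i)

lemma ge_aeval {σ : Type} {v : σ → H} (hv : ∀ i, Ge 0 (v i)) (p : MvPolynomial σ K) :
    Ge 0 (aeval v p) := aeval_mem OS hv p

lemma ge_alg (c : K) : Ge 0 (algebraMap K H c) := algebraMap_mem OS c

lemma ge_aeval_sub {σ : Type} {v w : σ → H} (hv : ∀ i, Ge 0 (v i)) (hw : ∀ i, Ge 0 (w i)) {s : ℚ}
    (h : ∀ i, Ge s (w i - v i)) (p : MvPolynomial σ K) : Ge s (aeval w p - aeval v p) := by
  induction p using MvPolynomial.induction_on with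
  | C c => simpa using ge_zero s
  | add p q hp hq => convert hp.add hq using 1; simp only [map_add]; ring
  | mul_X p i hp =>
    convert (hp.mul_right (hw i)).add ((ge_aeval hv p).mul_left (h i)) using 1
    simp only [map_mul, aeval_X]; ring

lemma taylor {σ : Type} [Fintype σ] {v δ : σ → H} (hv : ∀ i, Ge 0 (v i)) {s : ℚ} (hs : 0 ≤ s)
    (h : ∀ i, Ge s (δ i)) (p : MvPolynomial σ K) :
    Ge (2 * s) (aeval (v + δ) p - aeval v p - ∑ i, aeval v (pderiv i p) * δ i) := by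
  classical
  induction p using MvPolynomial.induction_on with
  | C c => simpa using ge_zero _
  | add p q hp hq =>
    convert hp.add hq using 1
    simp only [map_add, add_mul, Finset.sum_add_distrib]; ring
  | mul_X p j hp =>
    have h1 : Ge s (∑ i, aeval v (pderiv i p) * δ i) :=
      Ge.sum fun i _ => (ge_aeval hv _).mul_left (h i)
    have h2 := (hp.mul_right ((hv j).add ((h j).mono hs))).add (two_mul s ▸ h1.mul (h j))
    convert h2 using 1
    have : ∑ i, aeval v (pderiv i (p * X j)) * δ i =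
        aeval v p * δ j + (∑ i, aeval v (pderiv i p) * δ i) * v j := by
      simp only [Derivation.leibniz, smul_eq_mul, map_add, map_mul, aeval_X, add_mul,
        Finset.sum_add_distrib, pderiv_X, Finset.sum_mul]
      congr 1
      · rw [Finset.sum_eq_single j]
        · simp
        · intro b _ hb; simp [Pi.single_eq_of_ne hb.symm]
        · simp
      · exact Finset.sum_congr rfl fun _ _ => by ring
    rw [this]
    simp only [map_mul, aeval_X, Pi.add_apply]
    ring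

section
variable {n : Type} [Fintype n] [DecidableEq n]

lemma det_mem (S : Subalgebra K H) {D : Matrix n n H} (h : ∀ i j, D i j ∈ S) : D.det ∈ S := by
  rw [det_apply']
  exact sum_mem fun σ _ => mul_mem (intCast_mem _ _) (prod_mem fun i _ => h _ _)

lemma adjugate_mem (S : Subalgebra K H) {D : Matrix n n H} (h : ∀ i j, D i j ∈ S) (i j : n) :
    D.adjugate i j ∈ S := by
  rw [adjugate_apply]
  refine det_mem S fun a b => ?_
  rw [updateRow_apply]
  split_ifs
  · rw [Pi.single_apply]; split_ifs; exacts [one_mem _, zero_mem _]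
  · exact h _ _

omit [DecidableEq n] in
lemma ge_mulVec {m : Type} {D : Matrix m n H} {s t : ℚ} (h : ∀ i j, Ge t (D i j)) {δ : n → H}
    (hδ : ∀ i, Ge s (δ i)) (i : m) : Ge (t + s) ((D *ᵥ δ) i) :=
  Ge.sum fun j _ => (h i j).mul (hδ j)

lemma ge_of_mulVec {D : Matrix n n H} (h : ∀ i j, Ge 0 (D i j)) {e s : ℚ} (he : Le e D.det)
    {δ : n → H} (hδ : ∀ i, Ge s ((D *ᵥ δ) i)) (i : n) : Ge (s - e) (δ i) := by
  have := ge_mulVec (adjugate_mem OS h) hδ i
  rw [mulVec_mulVec, adjugate_mul, smul_mulVec, one_mulVec, zero_add] at this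
  exact this.of_mul he

end

lemma mxv_mem (S : Subalgebra K H) {w : N → H} (hw : ∀ p, w (Sum.inl p) ∈ S) (i : Fin 3) (p : I5) :
    mxv i w p ∈ S := sum_mem fun _ _ => mul_mem (algebraMap_mem _ _) (hw _)

lemma cc_mem (S : Subalgebra K H) {w : N → H} (hw : ∀ p, w (Sum.inl p) ∈ S) (l : I5 → K)
    (i : Fin 3) : cc l w i ∈ S := sum_mem fun _ _ => mul_mem (algebraMap_mem _ _) (mxv_mem S hw _ _)

lemma act_mem (S : Subalgebra K H) {w : N → H} (hw : ∀ p, w p ∈ S) {u : Fin 3 → H}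
    (hu : ∀ i, u i ∈ S) (q : N) : act u w q ∈ S := by
  rcases q with p | p
  · exact hw _
  · exact add_mem (hw _) (sum_mem fun i _ => mul_mem (hu i) (mxv_mem S (fun _ => hw _) _ _))

lemma ge_mxv {s : ℚ} {w : N → H} (hw : ∀ p, Ge s (w (Sum.inl p))) (i : Fin 3) (p : I5) :
    Ge s (mxv i w p) := Ge.sum fun _ _ => (ge_alg _).mul_left (hw _)

lemma ge_act {s t : ℚ} (ht : t ≤ 0) {w : N → H} (hw : ∀ p, Ge s (w p)) {u : Fin 3 → H}
    (hu : ∀ i, Ge t (u i)) (q : N) : Ge (t + s) (act u w q) := by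
  rcases q with p | p
  · exact (hw _).mono (by linarith)
  · exact ((hw _).mono (by linarith)).add
      (Ge.sum fun i _ => (hu i).mul (ge_mxv (fun _ => hw _) _ _))

lemma ge_emb (g : G0) (i : Fin 3) : Ge 0 (emb H g i) := ge_alg _

lemma Bq_mem (S : Subalgebra K H) {c : Fin 3 → H} (hc : ∀ i, c i ∈ S) (i : Fin 3) : Bq c i ∈ S :=
  mul_mem (mul_mem (hc _) (hc _)) (add_mem (hc _) (hc _))

lemma Aq_mem (S : Subalgebra K H) {c : Fin 3 → H} (hc : ∀ i, c i ∈ S) (i : Fin 3) : Aq c i ∈ S :=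
  add_mem (add_mem (pow_mem (hc _) _) (mul_mem (hc _) (hc _))) (pow_mem (hc _) _)

lemma mu_mem (S : Subalgebra K H) {c : Fin 3 → H} (hc : ∀ i, c i ∈ S) : mu c ∈ S := by
  rw [mu]
  refine mul_mem (mul_mem (mul_mem (mul_mem (mul_mem (mul_mem ?_ ?_) ?_) ?_) ?_) ?_) ?_ <;>
    simp [add_mem, hc]

lemma ge_Pq {c : Fin 3 → H} (hc : ∀ i, Ge 0 (c i)) {s : ℚ} (hs : 0 ≤ s) {T : H} (hT : Ge s T)
    (i : Fin 3) : Ge s (Pq c i T) := by
  have h0 := hT.mono hs
  exact ((hT.mul_right (h0.add (hc _))).mul_right (h0.add (hc _))).mul_right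
    ((h0.add (hc _)).add (hc _))

/-- Small combinations have small Artin-Schreier coefficients. -/
lemma ge_of_sum {c u : Fin 3 → H} (hc : ∀ i, Ge 0 (c i)) (hc' : ∀ i, c i ∈ ZS) {e s : ℚ}
    (hμ : Le e (mu c)) (hu : ∀ i, NZ (u i)) (hu' : ∀ i, u i ^ 2 + u i ∈ ZS) (hs : 0 ≤ s)
    (h : Ge s (∑ i, u i * c i)) (i : Fin 3) : Ge (s - e) (u i) := by
  have h1 := Ge.mul_left (Bq_mem OS hc i) (ge_Pq hc hs h i)
  rw [Pq_sum, add_comm, mul_comm (mu c)] at h1
  have h2 := (ge_of_add (mul_mem (Bq_mem ZS hc' i) (sum_mem fun l _ => add_mem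
    (mul_mem (pow_mem (hc' l) _) (add_mem (hu' l) (pow_mem (hu' l) _)))
    (mul_mem (mul_mem (Aq_mem ZS hc' i) (pow_mem (hc' l) _)) (hu' l))))
    ((hu i).mul (mu_mem ZS hc')) h1).2
  rw [mul_comm] at h2
  exact h2.of_mul hμ

/-- All nonzero combinations are large. -/
def Good (l : I5 → K) (o : ℚ) (v : N → H) : Prop :=
  ∀ g : G0, g ≠ 0 → Le o (∑ i, emb H g i * cc l v i)

lemma Good.mu {l : I5 → K} {o : ℚ} {v : N → H} (h : Good l o v) : Le (7 * o) (mu (cc l v)) := by
  rw [mu_eq]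
  have := Le.prod (t := Finset.univ.erase (0 : G0)) fun g hg => h g (Finset.ne_of_mem_erase hg)
  rw [Finset.card_erase_of_mem (Finset.mem_univ _),
    show (Finset.univ : Finset G0).card = 8 by simp] at this
  exact_mod_cast this

lemma Good.mono {l : I5 → K} {o o' : ℚ} {v : N → H} (h : Good l o v) (ho : o ≤ o') :
    Good l o' v := fun g hg => (h g hg).mono ho

lemma coeff_alg_mul (c : K) (z : H) (γ : ℚ) : (algebraMap K H c * z).coeff γ = c * z.coeff γ := by
  rw [algebraMap_H, HahnSeries.coeff_single_zero_mul]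

lemma exists_lam {v : N → H} {o : ℚ} {p : I5} (h : (v (Sum.inl p)).coeff o ≠ 0) :
    ∃ c, ∃ s ∈ S15, Good (lam c s) o v := by
  obtain ⟨s, hs, hg⟩ := exists_good (w := fun b => (v (Sum.inl (p.1, b))).coeff o)
    fun h0 => h (congrFun h0 p.2)
  refine ⟨p.1, s, hs, fun g hg0 => ⟨o, le_rfl, ?_⟩⟩
  convert hg g hg0 using 1
  simp only [cc, sum_lam]
  simp only [HahnSeries.coeff_sum, emb, coeff_alg_mul, mxv, Finset.mul_sum, phM,
    mulVec, dotProduct, Matrix.sum_apply, Finset.sum_mul, Matrix.smul_apply, smul_eq_mul]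
  rw [Finset.sum_comm]
  refine Finset.sum_congr rfl fun a _ => ?_
  rw [Finset.sum_comm]
  refine Finset.sum_congr rfl fun b _ => Finset.sum_congr rfl fun i _ => ?_
  simp; ring

lemma exists_min {α : Type} {x : α → H} (hx : ∀ p, x p ∈ ZS) (h0 : ∀ p, Ge 0 (x p)) (h : x ≠ 0) :
    ∃ o : ℕ, (∀ p, Ge o (x p)) ∧ ∃ p, (x p).coeff o ≠ 0 := by
  classical
  have key : ∀ p γ, (x p).coeff γ ≠ 0 → ∃ n : ℕ, γ = n := fun p γ hγ => by
    obtain ⟨P, hP⟩ := exists_toH (hx p) (h0 p)
    exact toH_coeff_ne (hP ▸ hγ)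
  have : ∃ n : ℕ, ∃ p, (x p).coeff n ≠ 0 := by
    by_contra! h'
    refine h (funext fun p => HahnSeries.ext (funext fun γ => by_contra fun hγ => ?_))
    obtain ⟨n, rfl⟩ := key p γ hγ
    exact hγ (h' n p)
  refine ⟨Nat.find this, fun p γ hγ => by_contra fun h' => ?_, Nat.find_spec this⟩
  obtain ⟨n, rfl⟩ := key p γ h'
  exact Nat.find_min this (by exact_mod_cast hγ) ⟨p, h'⟩

end Pool.Agent.MP_536a45_ag_b
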